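import Pool.Agent.MP_e1dc65_gt.Spec1
import Pool.Agent.MP_e1dc65_gt.fm.Hza
import Pool.Agent.MP_e1dc65_gt.b.Adapt
import Pool.Agent.MP_e1dc65_gt.o.Flat
import Pool.Agent.MP_e1dc65_gt.k.SpinCover
import Mathlib.Topology.LocallyConstant.Basic

-- ======== part 0: formerly Pool.Agent.MP_e1dc65_gt.a.DefB
section MrgPart0

/-! PROJECT HC, part A (index theory): the bridge from manifolds, forms and spin structures to
`Geo`. -/

set_option maxSynthPendingDepth 3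

open scoped Quaternion ContDiff Topology RealInnerProductSpace Matrix
open Set Filter MeasureTheory Pool.Agent.MP_c8d41b_gt.GF

noncomputable section

namespace Pool.Agent.MP_e1dc65_gt.A

/-- a compact manifold with its Borel structure -/
abbrev spc (X : Mf E4) [h : CompactSpace X] : Sp :=
  { X := X, cpt := h, ms := borel X, bs := @BorelSpace.mk X _ (borel X) rfl }

/-- components of forms in a frame `e` -/
def vec (e : ℍ →L[ℝ] E4) (η : Lam E4) : ℍ := ∑ a, ev [e (ε a)] η • ε a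
def sd (e : ℍ →L[ℝ] E4) (γ : Lam E4) : ℍ :=
  (1 / 2 : ℝ) • ∑ a, ∑ b, ev [e (ε a), e (ε b)] γ • (ε a * star (ε b))
def asd (e : ℍ →L[ℝ] E4) (γ : Lam E4) : ℍ :=
  (1 / 2 : ℝ) • ∑ a, ∑ b, ev [e (ε a), e (ε b)] γ • (star (ε a) * ε b)
def top (e : ℍ →L[ℝ] E4) (α : Lam E4) : ℝ := ev [e (ε 0), e (ε 1), e (ε 2), e (ε 3)] α

section
variable {X : Mf E4} [CompactSpace X]

/-- the coframe of the chart `i` on the manifold -/
def Geo.cf (G : Geo (spc X)) (i : Fin G.n) (x : X) : E4 →L[ℝ] ℍ :=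
  ((G.R i).θ (G.ch i x)).comp (Df X (vs E4) (G.ch i) x)

/-- the frame at `x` in the chosen chart -/
def Geo.fm (G : Geo (spc X)) (x : X) : ℍ →L[ℝ] E4 := (G.cf (G.c x) x).inverse

/-- `G` is a smooth oriented atlas of `X` -/
structure Br (o : X → Lam E4) (G : Geo (spc X)) : Prop where
  ok : G.Ok
  oe : ∀ i, OE X (vs E4) (G.ch i) (G.U i)
  oe' : ∀ i, OE (vs E4) X (G.ch i).symm (G.T i)
  cof : ∀ i, MP_e1dc65_gt.Cof X ∞ (G.cf i) (G.U i)
  pos : ∀ i, ∀ x ∈ G.U i, PosB hb (o x) (G.cf i x)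
  rot : ∀ i j, ∀ x ∈ G.U i ∩ G.U j, ∀ v, G.cf i x v = G.p i j x * G.cf j x v * star (G.q i j x)

end

/-- an oriented orthonormal atlas indexed by the points, invariant under `s` -/
structure OnA (X : Mf E4) (o : X → Lam E4) (s : X → X) (V : X → Set X)
    (θ : X → X → E4 →L[ℝ] ℍ) : Prop where
  op : ∀ a, IsOpen (V a)
  mem : ∀ a, a ∈ V a
  cof : ∀ a, MP_e1dc65_gt.Cof X ∞ (θ a) (V a)
  pos : ∀ a, ∀ x ∈ V a, PosB hb (o x) (θ a x)
  iso : ∀ a b, ∀ x ∈ V a ∩ V b, ∀ v, ‖θ a x v‖ = ‖θ b x v‖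
  inv : ∀ a b, ∀ x ∈ V a, s x ∈ V b → ∀ v, ‖θ b (s x) (Df X X s x v)‖ = ‖θ a x v‖

/-- invariant metrics exist -/
def MetStmt : Prop := ∀ (X : Mf E4) (o : X → Lam E4) (s : X → X), Ori X 4 o univ →
  Sm X X s univ → (∀ x, s (s x) = x) → ∃ V θ, OnA X o s V θ

/-- a finite atlas from an orthonormal atlas with chosen lifts -/
def GeoStmt : Prop := ∀ (X : Mf E4) [CompactSpace X] (o : X → Lam E4) (s : X → X) (V : X → Set X)
  (θ : X → X → E4 →L[ℝ] ℍ) (p q : X → X → X → ℍ), OnA X o s V θ →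
  (∀ a b, ∀ x ∈ V a ∩ V b, ‖p a b x‖ = 1 ∧ ‖q a b x‖ = 1 ∧
    ∀ v, θ a x v = p a b x * θ b x v * star (q a b x)) →
  ∃ (G : Geo (spc X)) (ξ : Fin G.n → X), Br o G ∧ (∀ i, G.U i ⊆ V (ξ i)) ∧
    (∀ i, ∀ x ∈ G.U i, G.cf i x = θ (ξ i) x) ∧ (∀ i j, G.p i j = p (ξ i) (ξ j)) ∧
    ∀ i j, G.q i j = q (ξ i) (ξ j)

/-- lifts of `GL₄⁺` commute with the lift `(1, -1)` of `-1`; continuity of unit lifts -/
def CentStmt : Prop := ∀ C : SpinCover,
  (∀ (m : C.G) (A : ℍ →L[ℝ] ℍ), (∀ v t, C.π m *ᵥ emb v t = emb (A v) t) →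
    m * C.j (1, -1) * m⁻¹ = C.j (1, -1)) ∧
  (∀ p q p' q' : ℍ, ‖p‖ = 1 → ‖q‖ = 1 → ‖p'‖ = 1 → ‖q'‖ = 1 → C.j (p, q) = C.j (p', q') →
    p = p' ∧ q = q') ∧
  (∀ (m : C.G) (A : ℍ →L[ℝ] ℍ), (∀ v t, C.π m *ᵥ emb v t = emb (A v) t) → (∀ v, ‖A v‖ = ‖v‖) →
    ∃ p q : ℍ, ‖p‖ = 1 ∧ ‖q‖ = 1 ∧ C.j (p, q) = m) ∧
  ∀ (Z : Type) [TopologicalSpace Z] (S : Set Z) (p q : Z → ℍ), (∀ z ∈ S, ‖p z‖ = 1 ∧ ‖q z‖ = 1) →
    ContinuousOn (fun z => C.j (p z, q z)) S → ContinuousOn p S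

/-- spin data on an orthonormal atlas -/
structure SpA (X : Mf E4) (s : X → X) (V : X → Set X) (θ : X → X → E4 →L[ℝ] ℍ)
    (p q P Q : X → X → X → ℍ) (S : Finset X) : Prop where
  rot : ∀ a b, ∀ x ∈ V a ∩ V b, ‖p a b x‖ = 1 ∧ ‖q a b x‖ = 1 ∧
    ∀ v, θ a x v = p a b x * θ b x v * star (q a b x)
  coc : ∀ a b c, ∀ x ∈ V a ∩ V b ∩ V c, p a b x * p b c x = p a c x ∧ q a b x * q b c x = q a c x
  cont : ∀ a b, ContinuousOn (p a b) (V a ∩ V b)
  Rot : ∀ a b, ∀ x ∈ V a, s x ∈ V b → ‖P a b x‖ = 1 ∧ ‖Q a b x‖ = 1 ∧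
    ∀ v, θ b (s x) (Df X X s x v) = P a b x * θ a x v * star (Q a b x)
  Cont : ∀ a b, ContinuousOn (P a b) (V a ∩ s ⁻¹' V b)
  nat : ∀ a a' b b', ∀ x ∈ V a ∩ V a', s x ∈ V b ∩ V b' →
    P a b x * p a a' x = p b b' (s x) * P a' b' x ∧ Q a b x * q a a' x = q b b' (s x) * Q a' b' x
  sq : ∀ a b, ∀ x ∈ V a, s x ∈ V b → P b a (s x) * P a b x = 1 ∧ Q b a (s x) * Q a b x = 1
  val : ∀ x ∈ S, ∀ a, x ∈ V a → P a a x = 1 ∧ Q a a x = -1

/-- reduction of the spin structure and of the lift to pairs of unit quaternions -/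
def RedStmt : Prop := ∀ (C : SpinCover) (X : Mf E4) (o : X → Lam E4) (s : X → X)
  (sp : Spin C X.cyl univ) (Γ : sp.ι → sp.ι → X → C.G) (S : Finset X) (V : X → Set X)
  (θ : X → X → E4 →L[ℝ] ℍ), Invol C X o s sp Γ S → OnA X o s V θ →
  ∃ V' p q P Q, OnA X o s V' θ ∧ SpA X s V' θ p q P Q S

/-- the integral of a form is the integral of its top component -/
def IntbStmt : Prop := ∀ (X : Mf E4) [CompactSpace X] (o : X → Lam E4) (G : Geo (spc X)),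
  Ori X 4 o univ → Br o G → ∀ α : X → Lam E4, (∀ x, FmAt X α x) →
    Continuous (fun x => top (G.fm x) (α x)) ∧ intM X o α = ∫ x, top (G.fm x) (α x) ∂G.μ

/-- pointwise algebra of forms in a frame -/
def AlgbStmt : Prop := ∀ (θ : E4 →L[ℝ] ℍ) (e : ℍ →L[ℝ] E4), (∀ v, θ (e v) = v) → (∀ v, e (θ v) = v) →
  (∀ γ ∈ dg E4 2, (sd e γ).re = 0 ∧ (asd e γ).re = 0 ∧ ∀ γ' ∈ dg E4 2,
    top e (γ * γ') = (1 / 2) * (⟪sd e γ, sd e γ'⟫ - ⟪asd e γ, asd e γ'⟫)) ∧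
  (∀ η ∈ dg E4 1, vec e η = 0 → η = 0) ∧ (∀ γ ∈ dg E4 2, sd e γ = 0 → asd e γ = 0 → γ = 0) ∧
  (∀ v : ℍ, vec e (ExteriorAlgebra.ι ℝ ((innerSL ℝ v).comp θ)) = v) ∧
  (∀ l : E4 →L[ℝ] ℝ, ∀ v, ⟪vec e (ExteriorAlgebra.ι ℝ l), v⟫ = l (e v)) ∧
  (∀ u w : ℍ, u.re = 0 → w.re = 0 → ∀ γ, γ = (1 / 4 : ℝ) • ∑ a, ∑ b,
      (⟪u, ε a * star (ε b)⟫ + ⟪w, star (ε a) * ε b⟫) •
        (ExteriorAlgebra.ι ℝ ((co a).comp θ) * ExteriorAlgebra.ι ℝ ((co b).comp θ)) →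
    γ ∈ dg E4 2 ∧ sd e γ = u ∧ asd e γ = w) ∧
  (∀ φ ∈ dg E4 3, (∀ l : E4 →L[ℝ] ℝ, top e (φ * ExteriorAlgebra.ι ℝ l) = 0) → φ = 0) ∧
  ∀ (p q : ℍ) (e' : ℍ →L[ℝ] E4), ‖p‖ = 1 → ‖q‖ = 1 → (∀ v, e' (p * v * star q) = e v) →
    (∀ η ∈ dg E4 1, vec e' η = p * vec e η * star q) ∧
    (∀ γ ∈ dg E4 2, sd e' γ = p * sd e γ * star p ∧ asd e' γ = q * asd e γ * star q) ∧
    ∀ α, top e' α = top e α

/-- the Dirac operators on one-forms in a chart -/
def DlocStmt : Prop := ∀ (R : Loc) (T : Set E4), R.Ok T → ∀ x ∈ T,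
  (∀ η : E4 → Lam E4, DifferentiableAt ℝ η x → (∀ᶠ y in 𝓝 x, η y ∈ dg E4 1) →
    (R.dir .l (fun y => wk 0 (star (vec (R.e y) (η y)))) x).fst.im = sd (R.e x) (dd η x) ∧
    -(R.dir .r (fun y => wk (vec (R.e y) (η y)) 0) x).snd.im = asd (R.e x) (dd η x)) ∧
  ∀ f : E4 → ℝ, DifferentiableAt ℝ f x → (R.dir .r (fun y => wk 0 (f y : ℍ)) x).fst =
    vec (R.e x) (ExteriorAlgebra.ι ℝ (fderiv ℝ f x))

/-- the dictionary between forms and quaternion valued functions -/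
def DictStmt : Prop := ∀ (X : Mf E4) [CompactSpace X] (o : X → Lam E4) (G : Geo (spc X)), Br o G →
  (∀ η, Fm X 1 η univ → G.V1 fun x => vec (G.fm x) (η x)) ∧
  (∀ v, G.V1 v → ∃ η, Fm X 1 η univ ∧ ∀ x, vec (G.fm x) (η x) = v x) ∧
  (∀ γ, Fm X 2 γ univ → G.VP (fun x => sd (G.fm x) (γ x)) ∧ G.VM fun x => asd (G.fm x) (γ x)) ∧
  (∀ u w, G.VP u → G.VM w → ∃ γ, Fm X 2 γ univ ∧
    ∀ x, sd (G.fm x) (γ x) = u x ∧ asd (G.fm x) (γ x) = w x) ∧
  (∀ η, Fm X 1 η univ → ∀ x, G.dp (fun x => vec (G.fm x) (η x)) x = sd (G.fm x) (dM X η x) ∧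
    G.dm (fun x => vec (G.fm x) (η x)) x = asd (G.fm x) (dM X η x)) ∧
  ∀ f, G.SmF f → Sm X (vs ℝ) f univ ∧ ∀ x, G.gr f x = vec (G.fm x) (dF X f x)

/-- the Levi-Civita connection as a connection on the stable tangent bundle -/
def ConStmt : Prop := ∀ (X : Mf E4) [CompactSpace X] (o : X → Lam E4) (G : Geo (spc X)), Br o G →
  ∃ w, Pont X w ∧ (∀ x, FmAt X w x) ∧ ∀ x, top (G.fm x) (w x) = 8 * G.pont x

/-- Stokes' theorem on a closed manifold -/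
def StkStmt : Prop := ∀ (X : Mf E4) [CompactSpace X] (o β : X → Lam E4), Ori X 4 o univ →
  Fm X 3 β univ → intM X o (dM X β) = 0

end Pool.Agent.MP_e1dc65_gt.A

end
end MrgPart0

-- ======== part 1: formerly Pool.Agent.MP_e1dc65_gt.a.Cent
section MrgPart1

/-! PROJECT HC, part A, row CENT: lifts of block matrices to the spin cover. -/

set_option maxSynthPendingDepth 3

open scoped Quaternion ContDiff Topology RealInnerProductSpace Matrix unitInterval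
open Set Filter Metric

noncomputable section

namespace Pool.Agent.MP_e1dc65_gt.A

namespace Cent

/-- block matrices -/
def Blk (M : M5) : Prop := ∃ A : ℍ →L[ℝ] ℍ, ∀ v t, M *ᵥ emb v t = emb (A v) t

/-- the last basis vector -/
def e5 : Rn 5 := Pi.single 4 1

theorem e5_eq : e5 = emb 0 1 := by ext i; fin_cases i <;> simp [e5, emb]

theorem dot_e5 (v : ℍ) (t : ℝ) : e5 ⬝ᵥ emb v t = t := by simp [e5, emb]

theorem blk_iff {M : M5} : Blk M ↔ M *ᵥ e5 = e5 ∧ e5 ᵥ* M = e5 := by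
  constructor
  · rintro ⟨A, h⟩
    refine ⟨by rw [e5_eq, h, map_zero], dotProduct_eq _ _ fun w => ?_⟩
    obtain ⟨v, t, rfl⟩ := emb_surj w
    rw [← Matrix.dotProduct_mulVec, h, dot_e5, dot_e5]
  · rintro ⟨h1, h2⟩
    refine ⟨(ContinuousLinearMap.fst ℝ ℍ ℝ).comp ((embE.symm : Rn 5 →L[ℝ] ℍ × ℝ).comp
      ((LinearMap.toContinuousLinearMap M.mulVecLin).comp (embL.comp (.inl ℝ ℍ ℝ)))),
      fun v t => ?_⟩
    obtain ⟨w, s, e⟩ := emb_surj (M *ᵥ emb v 0)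
    have hs : s = 0 := by rw [← dot_e5 w s, e, Matrix.dotProduct_mulVec, h2, dot_e5]
    have a : ∀ v, emb v t = emb v 0 + t • e5 := fun v => by
      ext i; fin_cases i <;> simp [e5, emb]
    have b : embE.symm (M *ᵥ emb v 0) = (w, 0) := by
      rw [ContinuousLinearEquiv.symm_apply_eq, ← e, hs]; rfl
    rw [a v, Matrix.mulVec_add, Matrix.mulVec_smul, h1]
    change _ = emb (embE.symm (M *ᵥ emb v 0)).1 t
    rw [b, a w, ← e, hs]

theorem blk_QR {M : M5} (h : Blk M) (hd : M.det ≠ 0) : Blk (QR.Q M) ∧ Blk (QR.R M) := by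
  obtain ⟨h1, h2⟩ := blk_iff.1 h
  have a1 : QR.R M *ᵥ e5 = e5 ᵥ* QR.Q M := by
    rw [QR.R, ← Matrix.mulVec_mulVec, h1, Matrix.mulVec_transpose]
  have a2 : e5 ᵥ* QR.R M = QR.R M 4 4 • e5 := by
    ext j
    rcases eq_or_ne j 4 with rfl | hj
    · simp [e5]
    · simpa [e5, hj] using QR.R_low M (i := 4) (j := j) (lt_of_le_of_ne (Fin.le_last j) hj)
  have a3 : (QR.R M).det ≠ 0 := by simpa [QR.T_one] using (QR.det_T hd zero_le_one le_rfl).ne'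
  have a4 : QR.R M 4 4 • (e5 ᵥ* QR.Q M) = e5 := by
    refine Matrix.vecMul_injective_of_isUnit
      ((Matrix.isUnit_iff_isUnit_det _).2 (Ne.isUnit a3)) ?_
    simp only [Matrix.smul_vecMul, Matrix.vecMul_vecMul, QR.Q_mul_R hd, h2, a2]
  have a5 : QR.R M 4 4 = 1 := by
    have := congrFun a4 4
    rw [← a1] at this
    simp only [e5, Pi.smul_apply, Matrix.mulVec_single_one, Matrix.col_apply, Pi.single_eq_same,
      smul_eq_mul] at this
    nlinarith [QR.R_diag hd 4]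
  rw [a5, one_smul] at a2 a4
  refine ⟨blk_iff.2 ⟨?_, a4⟩, blk_iff.2 ⟨a1.trans a4, a2⟩⟩
  conv_lhs => rw [← a4, ← Matrix.mulVec_transpose, Matrix.mulVec_mulVec,
    mul_eq_one_comm.1 (QR.Q_orth hd), Matrix.one_mulVec]

theorem blk_path {M : M5} (h : Blk M) (hd : M.det ≠ 0) (s : ℝ) : Blk (QR.Q M * QR.T s M) := by
  obtain ⟨⟨A, hA⟩, ⟨B, hB⟩⟩ := blk_QR h hd
  refine ⟨A.comp ((1 - s) • .id ℝ ℍ + s • B), fun v t => ?_⟩
  rw [← Matrix.mulVec_mulVec, QR.T, Matrix.add_mulVec, Matrix.smul_mulVec, Matrix.smul_mulVec,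
    Matrix.one_mulVec, hB, ContinuousLinearMap.comp_apply, ← hA]
  congr 1
  ext i; fin_cases i <;> simp [emb] <;> ring

theorem blk_det {M : M5} {A : ℍ →L[ℝ] ℍ} (h : ∀ v t, M *ᵥ emb v t = emb (A v) t) :
    M.det = A.det := by
  have : Matrix.toLin' M = embE.toLinearEquiv.toLinearMap ∘ₗ
      (A.toLinearMap.prodMap (LinearMap.id : ℝ →ₗ[ℝ] ℝ)) ∘ₗ embE.toLinearEquiv.symm.toLinearMap := by
    refine LinearMap.ext fun w => ?_
    obtain ⟨⟨v, t⟩, rfl⟩ := embE.surjective w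
    simp only [LinearMap.comp_apply, LinearEquiv.coe_coe, ContinuousLinearEquiv.coe_toLinearEquiv,
      ContinuousLinearEquiv.coe_symm_toLinearEquiv, ContinuousLinearEquiv.symm_apply_apply]
    exact h v t
  rw [← LinearMap.det_toLin', this, LinearMap.det_conj, LinearMap.det_prodMap, LinearMap.det_id,
    mul_one]

theorem blk_iso {M : M5} {A : ℍ →L[ℝ] ℍ} (h : ∀ v t, M *ᵥ emb v t = emb (A v) t)
    (ho : Mᵀ * M = 1) (v : ℍ) : ‖A v‖ = ‖v‖ := by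
  have a : ∀ v : ℍ, emb v 0 ⬝ᵥ emb v 0 = ‖v‖ * ‖v‖ := fun v => by
    rw [← Quaternion.normSq_eq_norm_mul_self, Quaternion.normSq_def']
    simp [emb, dotProduct, Fin.sum_univ_succ]; ring
  rw [← mul_self_inj_of_nonneg (norm_nonneg _) (norm_nonneg _), ← a, ← a, ← h,
    Matrix.dotProduct_mulVec, ← Matrix.mulVec_transpose, Matrix.mulVec_mulVec, ho,
    Matrix.one_mulVec]

variable (C : SpinCover)

theorem j_one : C.j (1, 1) = 1 := by
  have := C.j_mul 1 1 1 1 norm_one norm_one norm_one norm_one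
  rw [mul_one] at this
  exact left_eq_mul.1 this

theorem eps_comm (g : C.G) : g * C.ε = C.ε * g := by
  have h : C.π C.ε = 1 := (C.ker _).2 (.inr rfl)
  rcases (C.ker (g * C.ε * g⁻¹)).1 (by rw [map_mul, map_mul, h, mul_one, ← map_mul]; simp) with e | e
  · exact absurd (by simpa using mul_inv_eq_one.1 e) C.ε_ne
  · exact mul_inv_eq_iff_eq_mul.1 e

theorem fib {g g' : C.G} (h : C.π g = C.π g') : g = g' ∨ g = C.ε * g' := by
  rcases (C.ker (g * g'⁻¹)).1 (by rw [map_mul, h, ← map_mul]; simp) with e | e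
  exacts [.inl (mul_inv_eq_one.1 e), .inr (mul_inv_eq_iff_eq_mul.1 e)]

theorem sep : ∃ O, IsOpen O ∧ C.ε ∈ O ∧ 1 ∉ O := by
  obtain ⟨O, h1, h2, h3⟩ := C.disc
  exact ⟨(fun g => g⁻¹ * C.ε) ⁻¹' O, h1.preimage (by fun_prop), by simpa, by simpa⟩

theorem star_mul_unit {p : ℍ} (h : ‖p‖ = 1) : star p * p = 1 := by
  rw [Quaternion.star_mul_self, Quaternion.normSq_eq_norm_mul_self, h]; simp

theorem j_inj {p q p' q' : ℍ} (hp : ‖p‖ = 1) (hq : ‖q‖ = 1) (hp' : ‖p'‖ = 1) (hq' : ‖q'‖ = 1)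
    (h : C.j (p, q) = C.j (p', q')) : p = p' ∧ q = q' := by
  have key : ∀ a b : ℍ, ‖a‖ = 1 → ‖b‖ = 1 → C.j (a, b) = 1 → a = 1 ∧ b = 1 := fun a b ha hb e => by
    have h1 : ∀ v, a * v = v * b := fun v => by
      have := C.j_π a b ha hb v 0
      rw [e, map_one, Matrix.one_mulVec, emb_inj] at this
      conv_rhs => rw [this.1, mul_assoc, star_mul_unit hb, mul_one]
    obtain rfl : a = b := by simpa using h1 1
    have h2 := Quaternion.normSq_eq_norm_mul_self a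
    have i1 := congrArg (·.imK) (h1 ⟨0, 1, 0, 0⟩)
    have i2 := congrArg (·.imJ) (h1 ⟨0, 1, 0, 0⟩)
    have i3 := congrArg (·.imK) (h1 ⟨0, 0, 1, 0⟩)
    simp only [Quaternion.imK_mul, Quaternion.imJ_mul] at i1 i2 i3
    have j1 : a.imI = 0 := by linarith
    have j2 : a.imJ = 0 := by linarith
    have j3 : a.imK = 0 := by linarith
    rw [Quaternion.normSq_def', ha, j1, j2, j3] at h2
    rcases mul_self_eq_one_iff.1 (show a.re * a.re = 1 by linarith) with r | r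
    · simp [Quaternion.ext_iff, *]
    · obtain rfl : a = -1 := by simp [Quaternion.ext_iff, *]
      exact absurd (C.j_neg.symm.trans e) C.ε_ne
  have n : ∀ {a b : ℍ}, ‖a‖ = 1 → ‖b‖ = 1 → ‖star a * b‖ = 1 := fun ha hb => by simp [ha, hb]
  have c : ∀ {a b : ℍ}, ‖a‖ = 1 → star a * b = 1 → b = a := fun {a b} ha e =>
    mul_left_cancel₀ (a := star a) (by rintro e; simp [star_eq_zero.1 e] at ha)
      (e.trans (star_mul_unit ha).symm)
  obtain ⟨h1, h2⟩ := key _ _ (n hp' hp) (n hq' hq) (by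
    rw [C.j_mul _ _ _ _ (by simpa) (by simpa) hp hq, h,
      ← C.j_mul _ _ _ _ (by simpa) (by simpa) hp' hq', star_mul_unit hp', star_mul_unit hq', j_one])
  exact ⟨c hp' h1, c hq' h2⟩

theorem j_surj {m : C.G} {A : ℍ →L[ℝ] ℍ} (h : ∀ v t, C.π m *ᵥ emb v t = emb (A v) t)
    (hA : ∀ v, ‖A v‖ = ‖v‖) : ∃ p q : ℍ, ‖p‖ = 1 ∧ ‖q‖ = 1 ∧ C.j (p, q) = m := by
  obtain ⟨p, q, hp, hq, e⟩ := so4 A hA (blk_det h ▸ C.pos m)
  rcases fib C (g := m) (g' := C.j (p, q)) (m5_ext_emb fun v t => by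
    rw [h, C.j_π p q hp hq, e]) with a | a
  · exact ⟨p, q, hp, hq, a.symm⟩
  · refine ⟨-1 * p, -1 * q, by simpa, by simpa, ?_⟩
    rw [C.j_mul _ _ _ _ (by simp) (by simp) hp hq, C.j_neg, a]

theorem cm_ker {m : C.G} (h : Blk (C.π m)) : m * C.j (1, -1) * m⁻¹ * (C.j (1, -1))⁻¹ = 1 ∨
    m * C.j (1, -1) * m⁻¹ * (C.j (1, -1))⁻¹ = C.ε := by
  obtain ⟨A, h⟩ := h
  have : C.π (m * C.j (1, -1)) = C.π (C.j (1, -1) * m) := m5_ext_emb fun v t => by
    simp only [map_mul, ← Matrix.mulVec_mulVec, h, C.j_π 1 (-1) norm_one (by simp)]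
    simp
  rw [← C.ker, mul_assoc, ← mul_inv_rev, map_mul, this, ← map_mul]
  simp

theorem central {m : C.G} (h : Blk (C.π m)) : m * C.j (1, -1) * m⁻¹ = C.j (1, -1) := by
  have hd := C.pos m
  let γ : I → M5 := fun s => QR.Q (C.π m) * QR.T s (C.π m)
  have hγ : Continuous γ := continuous_const.matrix_mul
    (QR.cont_T continuous_const continuous_subtype_val fun _ => hd.ne')
  let c : C.G → C.G := fun g => g * C.j (1, -1) * g⁻¹ * (C.j (1, -1))⁻¹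
  have cc : Continuous c := by fun_prop
  have dep : ∀ g g', C.π g = C.π g' → c g = c g' := fun g g' e => by
    rcases fib C e with rfl | rfl
    · rfl
    · simp only [c, mul_inv_rev, ← mul_assoc]
      rw [mul_assoc C.ε, mul_assoc C.ε, ← eps_comm, mul_inv_cancel_right]
  have ex : ∀ s, ∃ O ∈ 𝓝 (γ s), ∃ σ' : M5 → C.G, ContinuousOn σ' O ∧ ∀ B ∈ O, C.π (σ' B) = B :=
    fun s => C.sec _ (by
      rw [Matrix.det_mul]; exact mul_pos (QR.det_Q hd) (QR.det_T hd.ne' s.2.1 s.2.2))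
  choose O hO l hl hπ using ex
  have h0 : ∀ s, C.π (l s (γ s)) = γ s := fun s => hπ s _ (mem_of_mem_nhds (hO s))
  have lc : IsLocallyConstant fun s => c (l s (γ s)) := by
    refine (IsLocallyConstant.iff_eventually_eq _).2 fun s => ?_
    have ca : ContinuousAt (fun t => c (l s (γ t))) s :=
      cc.continuousAt.comp (((hl s).continuousAt (hO s)).comp hγ.continuousAt)
    have k : ∀ t, c (l t (γ t)) = 1 ∨ c (l t (γ t)) = C.ε := fun t =>
      cm_ker C ((h0 t).symm ▸ blk_path h hd.ne' t)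
    obtain ⟨U, u1, u2, u3⟩ := C.disc
    obtain ⟨V, v1, v2, v3⟩ := sep C
    rcases k s with e | e
    · filter_upwards [ca.preimage_mem_nhds (u1.mem_nhds (e.symm ▸ u2)),
        hγ.continuousAt.preimage_mem_nhds (hO s)] with t a b
      rw [mem_preimage, dep _ _ ((hπ s _ b).trans (h0 t).symm)] at a
      exact ((k t).resolve_right fun e' => u3 (e' ▸ a)).trans e.symm
    · filter_upwards [ca.preimage_mem_nhds (v1.mem_nhds (e.symm ▸ v2)),
        hγ.continuousAt.preimage_mem_nhds (hO s)] with t a b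
      rw [mem_preimage, dep _ _ ((hπ s _ b).trans (h0 t).symm)] at a
      exact ((k t).resolve_left fun e' => v3 (e' ▸ a)).trans e.symm
  have e1 : c m = c (l 1 (γ 1)) := dep _ _ (by
    rw [h0]; simp only [γ, Icc.coe_one, QR.T_one, QR.Q_mul_R hd.ne'])
  obtain ⟨A, hA⟩ := (blk_QR h hd.ne').1
  obtain ⟨p, q, hp, hq, e⟩ := j_surj C (m := l 0 (γ 0)) (A := A)
    (by rw [h0]; simpa only [γ, Icc.coe_zero, QR.T_zero, mul_one] using hA)
    (blk_iso hA (QR.Q_orth hd.ne'))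
  refine mul_inv_eq_one.1 (e1.trans ((lc.apply_eq_of_preconnectedSpace 1 0).trans ?_))
  simp only [c, ← e]
  rw [← C.j_mul _ _ _ _ hp hq norm_one (by simp), mul_inv_eq_one, mul_inv_eq_iff_eq_mul,
    ← C.j_mul _ _ _ _ norm_one (by simp) hp hq]
  simp

theorem t2 : T2Space C.G := by
  obtain ⟨V, v1, v2, v3⟩ := sep C
  refine IsTopologicalGroup.t2Space_iff_one_closed.2 ?_
  have : ({1} : Set C.G) = C.π ⁻¹' {1} ∩ Vᶜ := by
    ext g
    simp only [mem_singleton_iff, mem_inter_iff, mem_preimage, C.ker, mem_compl_iff]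
    exact ⟨fun e => ⟨.inl e, e ▸ v3⟩, fun e => e.1.resolve_right fun e' => e.2 (e' ▸ v2)⟩
  rw [this]
  exact (isClosed_singleton.preimage C.cont).inter v1.isClosed_compl

end Cent

open Cent in
theorem cent : CentStmt := fun C => by
  refine ⟨fun m A h => central C ⟨A, h⟩, fun p q p' q' => j_inj C, fun m A => j_surj C,
    fun Z _ S p q h hc => ?_⟩
  have := t2 C
  let f : sphere (0 : ℍ) 1 × sphere (0 : ℍ) 1 → C.G := fun z => C.j (z.1, z.2)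
  have hf : Continuous f := C.j_cont.comp_continuous (by fun_prop) fun z => by simp
  have he := hf.isClosedEmbedding fun z w e =>
    let ⟨a, b⟩ := j_inj C (by simp) (by simp) (by simp) (by simp) e
    Prod.ext (Subtype.ext a) (Subtype.ext b)
  let g : S → sphere (0 : ℍ) 1 × sphere (0 : ℍ) 1 := fun z =>
    (⟨p z, by simpa using (h z z.2).1⟩, ⟨q z, by simpa using (h z z.2).2⟩)
  have hg : Continuous g :=
    he.isInducing.continuous_iff.2 (continuousOn_iff_continuous_domRestrict.1 hc)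
  exact continuousOn_iff_continuous_domRestrict.2 (continuous_subtype_val.comp hg.fst)

end Pool.Agent.MP_e1dc65_gt.A

end
end MrgPart1

-- marker of a merged file
example : 731051 + 484570 = 731051 + 484570 := rfl
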