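import Pool.Agent.MP_e1dc65_gt.a.Weitz
import Mathlib.Analysis.Calculus.Deriv.ZPow
import Mathlib.Analysis.SpecialFunctions.ExpDeriv
import Mathlib.Analysis.SpecialFunctions.Exponential
import Mathlib.Analysis.Real.Pi.Bounds

/-! PROJECT HC, part A: calculus of the kernel classes `Wt`. -/

set_option maxSynthPendingDepth 3
set_option linter.unusedVariables false

open scoped Quaternion ContDiff Topology RealInnerProductSpace
open Set Filter MeasureTheory Metric

noncomputable section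

namespace Pool.Agent.MP_e1dc65_gt.A

theorem hk_pos {t : ℝ} (ht : 0 < t) (z : ℍ) : 0 < hk t z := by
  have := Real.pi_pos
  unfold hk; positivity
theorem hk_le {t : ℝ} (ht : 0 < t) (z : ℍ) : hk t z ≤ (t ^ 2)⁻¹ := by
  have h1 : Real.exp (-‖z‖ ^ 2 / (4 * t)) ≤ 1 :=
    Real.exp_le_one_iff.2 (div_nonpos_of_nonpos_of_nonneg (by simp) (by positivity))
  have h2 : t ≤ 4 * Real.pi * t := by nlinarith [Real.pi_gt_three]
  exact (mul_le_of_le_one_right (by positivity) h1).trans (by gcongr)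
theorem hk_zero (t : ℝ) : hk t 0 = ((4 * Real.pi * t) ^ 2)⁻¹ := by simp [hk]
theorem contDiff_hk (t : ℝ) : ContDiff ℝ ∞ (hk t) :=
  contDiff_const.mul ((contDiff_norm_sq ℝ).neg.div_const _).exp
theorem contDiffOn_hk : ContDiffOn ℝ ∞ (fun q : ℝ × ℍ => hk q.1 q.2) (Ioi 0 ×ˢ univ) := by
  have := Real.pi_pos
  refine ContDiffOn.mul (ContDiffOn.inv (by fun_prop) fun q hq => ?_) (ContDiffOn.exp
    (ContDiffOn.div ((contDiff_norm_sq ℝ).comp contDiff_snd).neg.contDiffOn (by fun_prop)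
      fun q hq => ?_))
  all_goals
    have : 0 < q.1 := hq.1
    positivity
theorem hasFDerivAt_hk {t : ℝ} (ht : 0 < t) (z : ℍ) :
    HasFDerivAt (hk t) ((-(hk t z / (2 * t))) • innerSL ℝ z) z := by
  have h := (((hasStrictFDerivAt_norm_sq z).hasFDerivAt.neg.mul_const (4 * t)⁻¹).exp).const_mul
    ((4 * Real.pi * t) ^ 2)⁻¹
  refine HasFDerivAt.congr_fderiv h ?_
  ext v
  simp [hk, div_eq_mul_inv]
  field_simp
  ring
theorem hasDerivAt_hk {t : ℝ} (ht : 0 < t) (z : ℍ) :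
    HasDerivAt (fun s => hk s z) ((‖z‖ ^ 2 / (4 * t ^ 2) - 2 / t) * hk t z) t := by
  have := Real.pi_pos
  have h1 := (((hasDerivAt_id' t).const_mul (4 * Real.pi)).fun_pow 2).fun_inv (by positivity)
  have h2 := ((hasDerivAt_const t (-‖z‖ ^ 2)).fun_div ((hasDerivAt_id' t).const_mul 4)
    (by positivity)).exp
  refine HasDerivAt.congr_deriv (h1.fun_mul h2) ?_
  simp only [hk]
  field_simp
  ring

/-- powers of `‖z‖` are absorbed by the Gaussian -/
theorem pow_hk (j : ℕ) : ∃ M, 0 ≤ M ∧ ∀ t, 0 < t → ∀ z : ℍ,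
    ‖z‖ ^ j * hk t z ≤ M * √t ^ j * hk (2 * t) z := by
  refine ⟨4 * (j.factorial * Real.exp 2), by positivity, fun t ht z => ?_⟩
  have hp := Real.pi_pos
  have hs : 0 < √t := Real.sqrt_pos.2 ht
  have h1 : (‖z‖ / √t) ^ j ≤ j.factorial * Real.exp (‖z‖ / √t) := by
    have := Real.pow_div_factorial_le_exp (‖z‖ / √t) (by positivity) j
    rwa [div_le_iff₀' (by positivity)] at this
  have h2 : ‖z‖ / √t + -‖z‖ ^ 2 / (4 * t) ≤ 2 + -‖z‖ ^ 2 / (4 * (2 * t)) := by
    have e : ‖z‖ ^ 2 / t = (‖z‖ / √t) ^ 2 := by rw [div_pow, Real.sq_sqrt ht.le]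
    have e1 : -‖z‖ ^ 2 / (4 * t) = -(‖z‖ ^ 2 / t) / 4 := by ring
    have e2 : -‖z‖ ^ 2 / (4 * (2 * t)) = -(‖z‖ ^ 2 / t) / 8 := by ring
    rw [e1, e2, e]
    nlinarith [sq_nonneg (‖z‖ / √t - 4)]
  have h3 := Real.exp_le_exp.2 h2
  rw [Real.exp_add, Real.exp_add] at h3
  rw [div_pow, div_le_iff₀ (by positivity)] at h1
  calc ‖z‖ ^ j * hk t z ≤ j.factorial * Real.exp (‖z‖ / √t) * √t ^ j * hk t z :=
        mul_le_mul_of_nonneg_right h1 (hk_pos ht z).le
    _ = j.factorial * √t ^ j * ((4 * Real.pi * t) ^ 2)⁻¹ *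
        (Real.exp (‖z‖ / √t) * Real.exp (-‖z‖ ^ 2 / (4 * t))) := by rw [hk]; ring
    _ ≤ j.factorial * √t ^ j * ((4 * Real.pi * t) ^ 2)⁻¹ *
        (Real.exp 2 * Real.exp (-‖z‖ ^ 2 / (4 * (2 * t)))) := by gcongr
    _ = _ := by rw [hk]; field_simp; ring

variable {P P' A B C : Type} [NormedAddCommGroup P] [NormedSpace ℝ P] [NormedAddCommGroup P']
  [NormedSpace ℝ P'] [NormedAddCommGroup A] [NormedSpace ℝ A] [NormedAddCommGroup B]
  [NormedSpace ℝ B] [NormedAddCommGroup C] [NormedSpace ℝ C] {z : P → ℍ} {μ ν : ℤ} {i : ℕ}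
  {F G : ℝ → P → B}

theorem wt_zero : Wt z μ fun _ _ => (0 : B) :=
  (Wt.gen (max μ 0) 0 _ van_zero (by omega)).congr fun _ _ _ => (smul_zero _).symm
theorem wt_hk {a : P → B} (h : Van z i a) : Wt z i fun t p => hk t (z p) • a p :=
  (Wt.gen 0 i a h (by omega)).congr fun _ _ _ => by simp
theorem wt_hk_const (b : B) : Wt z 0 fun t p => hk t (z p) • b :=
  wt_hk (i := 0) (a := fun _ => b) contDiff_const
theorem Wt.mono (h : Wt z μ F) (hν : ν ≤ μ) : Wt z ν F := by
  induction h with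
  | gen n j a ha hj => exact .gen n j a ha (hν.trans hj)
  | add _ _ h1 h2 => exact h1.add h2
  | congr _ e h1 => exact h1.congr e
theorem Wt.clm (L : B →L[ℝ] C) (h : Wt z μ F) : Wt z μ fun t p => L (F t p) := by
  induction h with
  | gen n j a ha hj => exact (Wt.gen n j _ (ha.clm L) hj).congr fun _ _ _ => map_smul _ _ _
  | add _ _ h1 h2 => exact (h1.add h2).congr fun _ _ _ => map_add _ _ _
  | congr _ e h1 => exact h1.congr fun t ht p => by rw [e t ht p]
theorem Wt.neg (h : Wt z μ F) : Wt z μ fun t p => -F t p := h.clm (-ContinuousLinearMap.id ℝ B)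
theorem Wt.sub (h : Wt z μ F) (h' : Wt z μ G) : Wt z μ fun t p => F t p - G t p :=
  (h.add h'.neg).congr fun _ _ _ => sub_eq_add_neg _ _
theorem Wt.const_smul (c : ℝ) (h : Wt z μ F) : Wt z μ fun t p => c • F t p :=
  h.clm (c • ContinuousLinearMap.id ℝ B)
theorem Wt.sum {ι : Type} {s : Finset ι} {f : ι → ℝ → P → B} (h : ∀ n ∈ s, Wt z μ (f n)) :
    Wt z μ fun t p => ∑ n ∈ s, f n t p := by
  classical
  induction s using Finset.induction_on with
  | empty => exact wt_zero.congr fun _ _ _ => Finset.sum_empty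
  | insert n s hn ih =>
    exact ((h n (Finset.mem_insert_self _ _)).add
      (ih fun m hm => h m (Finset.mem_insert_of_mem hm))).congr fun _ _ _ => Finset.sum_insert hn
theorem Wt.bilin (L : A →L[ℝ] B →L[ℝ] C) {a : P → A} (ha : Van z i a) (h : Wt z μ F) :
    Wt z (μ + i) fun t p => L (a p) (F t p) := by
  induction h with
  | gen n j b hb hj =>
    exact (Wt.gen n (i + j) _ (ha.bilin L hb) (by omega)).congr fun _ _ _ => map_smul _ _ _
  | add _ _ h1 h2 => exact (h1.add h2).congr fun _ _ _ => map_add _ _ _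
  | congr _ e h1 => exact h1.congr fun t ht p => by rw [e t ht p]
theorem Wt.smul {a : P → ℝ} (ha : Van z i a) (h : Wt z μ F) :
    Wt z (μ + i) fun t p => a p • F t p := h.bilin (ContinuousLinearMap.lsmul ℝ ℝ) ha
theorem Wt.tpow (n : ℤ) (h : Wt z μ F) : Wt z (μ + 2 * n) fun t p => t ^ n • F t p := by
  induction h with
  | gen m j b hb hj =>
    exact (Wt.gen (n + m) j b hb (by omega)).congr fun t ht p => by
      rw [smul_smul, zpow_add₀ ht.ne', mul_assoc]
  | add _ _ h1 h2 => exact (h1.add h2).congr fun _ _ _ => smul_add _ _ _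
  | congr _ e h1 => exact h1.congr fun t ht p => by rw [e t ht p]
theorem Wt.comp {f : P' → P} (h : Wt z μ F) (hf : ContDiff ℝ ∞ f) :
    Wt (fun p => z (f p)) μ fun t p => F t (f p) := by
  induction h with
  | gen n j b hb hj => exact .gen n j _ (hb.comp hf) hj
  | add _ _ h1 h2 => exact h1.add h2
  | congr _ e h1 => exact h1.congr fun t ht p => e t ht _
theorem Wt.joint (hz : ContDiff ℝ ∞ z) (h : Wt z μ F) :
    ContDiffOn ℝ ∞ (fun q : ℝ × P => F q.1 q.2) (Ioi 0 ×ˢ univ) := by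
  induction h with
  | gen n j b hb hj =>
    refine ContDiffOn.smul (ContDiffOn.mul (fun q hq => ?_) (contDiffOn_hk.comp
      (contDiff_fst.prodMk (hz.comp contDiff_snd)).contDiffOn fun q hq => ⟨hq.1, trivial⟩))
      ((hb.smooth hz).comp contDiff_snd).contDiffOn
    have : q.1 ≠ 0 := ne_of_gt hq.1
    cases n with
    | ofNat n => simpa using (contDiff_fst.pow n).contDiffWithinAt
    | negSucc n =>
      simpa [Pi.inv_def] using (contDiff_fst.pow (n + 1)).contDiffWithinAt.inv (pow_ne_zero _ this)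
  | add _ _ h1 h2 => exact h1.add h2
  | congr _ e h1 => exact h1.congr fun q hq => e _ hq.1 _
theorem Wt.smooth (hz : ContDiff ℝ ∞ z) (h : Wt z μ F) {t : ℝ} (ht : 0 < t) :
    ContDiff ℝ ∞ (F t) :=
  (h.joint hz).comp_contDiff (f := fun p => (t, p)) (by fun_prop) fun _ => ⟨ht, trivial⟩
theorem Wt.fd (hz : ContDiff ℝ ∞ z) (h : Wt z μ F) :
    Wt z (μ - 1) fun t => fderiv ℝ (F t) := by
  induction h with
  | gen n j a ha hj =>
    refine ((Wt.gen n (j - 1) _ (ha.fd hz) (by omega)).add (Wt.gen (n - 1) (j + 1) _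
      ((Van.sum (s := Finset.univ) fun b _ => (ha.bilin_zero (ContinuousLinearMap.smulRightL ℝ P B)
        ((contDiff_co b hz).fderiv_right le_rfl)).co_smul b).const_smul (-2⁻¹))
      (by omega))).congr fun t ht p => ?_
    have hz' := (hz.differentiable (by simp) p).hasFDerivAt
    refine HasFDerivAt.fderiv (HasFDerivAt.congr_fderiv ((((hasFDerivAt_hk ht (z p)).comp p
      hz').const_mul (t ^ n)).fun_smul ((ha.smooth hz).differentiable (by simp) p).hasFDerivAt) ?_)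
    have e : ∀ b, fderiv ℝ (fun p => co b (z p)) p = (co b).comp (fderiv ℝ z p) := fun b =>
      ((co b).hasFDerivAt.comp p hz').fderiv
    ext v
    have e2 : ∑ b, co b (z p) * co b (fderiv ℝ z p v) = ⟪z p, fderiv ℝ z p v⟫ := by
      rw [← ε.sum_inner_mul_inner]
      exact Finset.sum_congr rfl fun b _ => by rw [co_apply, co_apply, real_inner_comm]
    simp [e, smul_smul, ← Finset.sum_smul, e2, zpow_sub_one₀ ht.ne']
    congr 1
    ring
  | add a b h1 h2 =>
    exact (h1.add h2).congr fun t ht p => fderiv_fun_add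
      ((a.smooth hz ht).differentiable (by simp) p) ((b.smooth hz ht).differentiable (by simp) p)
  | congr _ e h1 => exact h1.congr fun t ht p => by rw [funext (e t ht)]
theorem gen_dt (n : ℤ) (w : ℍ) (b : B) {t : ℝ} (ht : 0 < t) :
    HasDerivAt (fun s => (s ^ n * hk s w) • b) ((t ^ (n - 1) * hk t w) • ((n - 2 : ℝ) • b) +
      (t ^ (n - 2) * hk t w) • ((4⁻¹ : ℝ) • ∑ c, co c w • co c w • b)) t := by
  refine (((hasDerivAt_zpow n t (Or.inl ht.ne')).fun_mul (hasDerivAt_hk ht w)).smul_const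
    b).congr_deriv ?_
  simp only [smul_smul, ← Finset.sum_smul, sum_co_sq, ← add_smul]
  congr 1
  rw [zpow_sub₀ ht.ne', zpow_sub₀ ht.ne']
  field_simp
  ring
theorem ev_pos {P B : Type} {F G : ℝ → P → B} {t : ℝ} (ht : 0 < t)
    (e : ∀ t, 0 < t → ∀ p, G t p = F t p) (p : P) : (fun s => G s p) =ᶠ[𝓝 t] fun s => F s p :=
  (lt_mem_nhds ht).mono fun s hs => e s hs p
theorem Wt.hasDerivAt (h : Wt z μ F) {t : ℝ} (ht : 0 < t) (p : P) :
    HasDerivAt (fun s => F s p) (deriv (fun s => F s p) t) t := by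
  refine DifferentiableAt.hasDerivAt ?_
  induction h with
  | gen n j a ha hj => exact (gen_dt n _ _ ht).differentiableAt
  | add _ _ h1 h2 => exact h1.add h2
  | congr _ e h1 => exact h1.congr_of_eventuallyEq (ev_pos ht e p)
theorem Wt.dt (h : Wt z μ F) : Wt z (μ - 2) fun t p => deriv (fun s => F s p) t := by
  induction h with
  | gen n j a ha hj =>
    exact ((Wt.gen (n - 1) j _ (ha.const_smul (n - 2)) (by omega)).add (Wt.gen (n - 2) (j + 1 + 1) _
      ((Van.sum (s := Finset.univ) fun c _ => (ha.co_smul c).co_smul c).const_smul 4⁻¹)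
      (by omega))).congr fun t ht p => (gen_dt n _ _ ht).deriv
  | add a b h1 h2 =>
    exact (h1.add h2).congr fun t ht p => ((a.hasDerivAt ht p).fun_add (b.hasDerivAt ht p)).deriv
  | congr _ e h1 => exact h1.congr fun t ht p => (ev_pos ht e p).deriv_eq
/-- the basic estimate -/
theorem Wt.bound (hz : ContDiff ℝ ∞ z) (h : Wt z μ F) {K : Set P} (hK : IsCompact K) :
    ∃ M, 0 ≤ M ∧ ∀ t ∈ Ioc (0 : ℝ) 1, ∀ p ∈ K, ‖F t p‖ ≤ M * √t ^ μ * hk (2 * t) (z p) := by
  induction h with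
  | gen n j a ha hj =>
    obtain ⟨M, h0, hM⟩ := ha.bound hz hK
    obtain ⟨M', h0', hM'⟩ := pow_hk j
    refine ⟨M * M', by positivity, fun t ht p hp => ?_⟩
    have hs : 0 < √t := Real.sqrt_pos.2 ht.1
    have h1 := hk_pos ht.1 (z p)
    have h2 := hk_pos (mul_pos two_pos ht.1) (z p)
    have h3 : 0 < t ^ n := zpow_pos ht.1 n
    have h4 : t ^ n * √t ^ j ≤ √t ^ μ := by
      have : t ^ n = √t ^ (2 * n) := by rw [zpow_mul, zpow_ofNat, Real.sq_sqrt ht.1.le]
      rw [this, ← zpow_natCast, ← zpow_add₀ hs.ne']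
      exact zpow_le_zpow_right_of_le_one₀ hs (Real.sqrt_le_one.2 ht.2) (by omega)
    rw [norm_smul, Real.norm_of_nonneg (by positivity)]
    calc t ^ n * hk t (z p) * ‖a p‖ ≤ t ^ n * hk t (z p) * (M * ‖z p‖ ^ j) := by
          gcongr; exact hM p hp
      _ = M * t ^ n * (‖z p‖ ^ j * hk t (z p)) := by ring
      _ ≤ M * t ^ n * (M' * √t ^ j * hk (2 * t) (z p)) :=
          mul_le_mul_of_nonneg_left (hM' t ht.1 _) (by positivity)
      _ = M * M' * (t ^ n * √t ^ j) * hk (2 * t) (z p) := by ring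
      _ ≤ _ := by gcongr
  | add _ _ h1 h2 =>
    obtain ⟨M, h0, hM⟩ := h1
    obtain ⟨M', h0', hM'⟩ := h2
    refine ⟨M + M', by positivity, fun t ht p hp => (norm_add_le _ _).trans ?_⟩
    rw [add_mul, add_mul]
    exact add_le_add (hM t ht p hp) (hM' t ht p hp)
  | congr _ e h1 =>
    obtain ⟨M, h0, hM⟩ := h1
    exact ⟨M, h0, fun t ht p hp => by rw [e t ht.1]; exact hM t ht p hp⟩
theorem Wt.bound' (hz : ContDiff ℝ ∞ z) (h : Wt z μ F) {K : Set P} (hK : IsCompact K) :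
    ∃ M, 0 ≤ M ∧ ∀ t ∈ Ioc (0 : ℝ) 1, ∀ p ∈ K, ‖F t p‖ ≤ M * √t ^ (μ - 4) := by
  obtain ⟨M, h0, hM⟩ := h.bound hz hK
  refine ⟨M, h0, fun t ht p hp => (hM t ht p hp).trans ?_⟩
  have hs : 0 < √t := Real.sqrt_pos.2 ht.1
  have h1 := ht.1
  rw [zpow_sub₀ hs.ne', div_eq_mul_inv, ← mul_assoc]
  refine mul_le_mul_of_nonneg_left ((hk_le (mul_pos two_pos ht.1) _).trans ?_) (by positivity)
  rw [show √t ^ (4 : ℤ) = t ^ 2 by
    rw [zpow_ofNat, show 4 = 2 * 2 from rfl, pow_mul, Real.sq_sqrt ht.1.le]]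
  gcongr
  linarith
/-- expansion on the zero set of `z` -/
theorem Wt.diag (hz : ContDiff ℝ ∞ z) (h : Wt z 0 F) : ∃ a₀ a₁ : P → B, ∀ K, IsCompact K →
    ∃ M, ∀ t ∈ Ioc (0 : ℝ) 1, ∀ p ∈ K, z p = 0 → ‖F t p - (t ^ 2)⁻¹ • a₀ p - t⁻¹ • a₁ p‖ ≤ M := by
  induction h with
  | gen n j a ha hj =>
    have hp := Real.pi_pos
    rcases j with _ | j
    · by_cases h0 : n = 0
      · refine ⟨fun p => ((4 * Real.pi) ^ 2)⁻¹ • a p, 0, fun K _ => ⟨0, fun t ht p _ e => ?_⟩⟩
        simp [h0, e, hk_zero, smul_smul, mul_pow, mul_assoc]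
      by_cases h1 : n = 1
      · refine ⟨0, fun p => ((4 * Real.pi) ^ 2)⁻¹ • a p, fun K _ => ⟨0, fun t ht p _ e => ?_⟩⟩
        have : t * ((4 * Real.pi * t) ^ 2)⁻¹ = t⁻¹ * ((4 * Real.pi) ^ 2)⁻¹ := by
          have := ht.1.ne'
          field_simp
        simp only [h1, e, hk_zero, smul_smul, zpow_one, this, Pi.zero_apply, smul_zero, sub_zero,
          sub_self, norm_zero, le_refl]
      refine ⟨0, 0, fun K hK => ?_⟩
      obtain ⟨M, -, hM⟩ := (Wt.gen (μ := 4) n 0 a ha (by omega)).bound' hz hK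
      exact ⟨M, fun t ht p hp _ => by simpa using hM t ht p hp⟩
    · exact ⟨0, 0, fun K _ => ⟨0, fun t _ p _ e => by simp [ha.eq_zero e]⟩⟩
  | add _ _ h1 h2 =>
    obtain ⟨a, b, h1⟩ := h1
    obtain ⟨a', b', h2⟩ := h2
    refine ⟨a + a', b + b', fun K hK => ?_⟩
    obtain ⟨M, hM⟩ := h1 K hK
    obtain ⟨M', hM'⟩ := h2 K hK
    refine ⟨M + M', fun t ht p hp e => le_trans (le_of_eq ?_)
      ((norm_add_le _ _).trans (add_le_add (hM t ht p hp e) (hM' t ht p hp e)))⟩
    simp only [Pi.add_apply, smul_add]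
    congr 1
    abel
  | congr _ e h1 =>
    obtain ⟨a, b, h1⟩ := h1
    refine ⟨a, b, fun K hK => ?_⟩
    obtain ⟨M, hM⟩ := h1 K hK
    exact ⟨M, fun t ht p hp e' => by rw [e t ht.1]; exact hM t ht p hp e'⟩

section Op
variable {Y 𝔸 : Type} [NormedAddCommGroup Y] [NormedSpace ℝ Y] [NormedRing 𝔸] [NormedAlgebra ℝ 𝔸]
  {L : Op Y 𝔸} {F G : ℝ → Y × ℍ → 𝔸}

theorem Wt.pdv {F : ℝ → Y × ℍ → B} (b : Fin 4) (h : Wt Prod.snd μ F) :
    Wt Prod.snd (μ - 1) fun t => pd b (F t) :=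
  (h.fd contDiff_snd).clm (ContinuousLinearMap.apply ℝ B ((0, ε b) : Y × ℍ))
/-- the flat heat operator -/
def heat0 (F : ℝ → Y × ℍ → B) (t : ℝ) (p : Y × ℍ) : B :=
  deriv (fun s => F s p) t - ∑ b, pd b (pd b (F t)) p
theorem Wt.ht0 {F : ℝ → Y × ℍ → B} (h : Wt Prod.snd μ F) : Wt Prod.snd (μ - 2) (heat0 F) :=
  h.dt.sub (Wt.sum fun b _ => ((h.pdv b).pdv b).mono (by omega))

theorem pd_add {f g : Y × ℍ → B} (b : Fin 4) (hf : ContDiff ℝ ∞ f) (hg : ContDiff ℝ ∞ g) :
    pd b (fun p => f p + g p) = fun p => pd b f p + pd b g p := by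
  funext p
  rw [pd, fderiv_fun_add (hf.differentiable (by simp) p) (hg.differentiable (by simp) p)]
  rfl
theorem pd_sub {f g : Y × ℍ → B} (b : Fin 4) (hf : ContDiff ℝ ∞ f) (hg : ContDiff ℝ ∞ g) :
    pd b (fun p => f p - g p) = fun p => pd b f p - pd b g p := by
  funext p
  rw [pd, fderiv_fun_sub (hf.differentiable (by simp) p) (hg.differentiable (by simp) p)]
  rfl
theorem pd_smul {f : Y × ℍ → ℝ} {g : Y × ℍ → B} (b : Fin 4) (hf : ContDiff ℝ ∞ f)
    (hg : ContDiff ℝ ∞ g) :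
    pd b (fun p => f p • g p) = fun p => f p • pd b g p + pd b f p • g p := by
  funext p
  rw [pd, fderiv_fun_smul (hf.differentiable (by simp) p) (hg.differentiable (by simp) p)]
  rfl
theorem pd_clm {g : Y × ℍ → B} (T : B →L[ℝ] C) (b : Fin 4) (hg : ContDiff ℝ ∞ g) :
    pd b (fun p => T (g p)) = fun p => T (pd b g p) := by
  funext p
  exact DFunLike.congr_fun
    (T.hasFDerivAt.comp p (hg.differentiable (by simp) p).hasFDerivAt).fderiv _
theorem pd_const (b : Fin 4) (c : B) : pd b (fun _ : Y × ℍ => c) = fun _ => 0 := by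
  funext p; simp [pd]
theorem pd_co (b c : Fin 4) :
    pd b (fun p : Y × ℍ => co c p.2) = fun _ => if c = b then 1 else 0 := by
  funext p
  rw [← co_ε]
  exact DFunLike.congr_fun ((co c).comp (ContinuousLinearMap.snd ℝ Y ℍ)).hasFDerivAt.fderiv _
theorem pd_hk (b : Fin 4) (c : ℝ) {t : ℝ} (ht : 0 < t) :
    pd b (fun p : Y × ℍ => c * hk t p.2) = fun p => (-(2 * t)⁻¹ * co b p.2) * (c * hk t p.2) := by
  funext p
  have h : HasFDerivAt (fun p : Y × ℍ => c * hk t p.2) _ p :=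
    ((hasFDerivAt_hk ht p.2).comp p hasFDerivAt_snd).const_mul c
  rw [pd, h.fderiv]
  simp [co_apply, real_inner_comm]
  ring
/-- the derivative of `c * hk * a` -/
theorem pd_gen (b : Fin 4) (c : ℝ) {a : Y × ℍ → B} (ha : ContDiff ℝ ∞ a) {t : ℝ} (ht : 0 < t) :
    pd b (fun p => (c * hk t p.2) • a p) =
      fun p => (c * hk t p.2) • (pd b a p - (2 * t)⁻¹ • co b p.2 • a p) := by
  rw [pd_smul (f := fun p => c * hk t p.2) b
    (contDiff_const.mul ((contDiff_hk t).comp contDiff_snd)) ha, pd_hk b c ht]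
  funext p
  module
/-- the flat heat operator on `t ^ n * hk * a` -/
theorem heat0_gen (n : ℤ) {a : Y × ℍ → B} (ha : ContDiff ℝ ∞ a) {t : ℝ} (ht : 0 < t) (p : Y × ℍ) :
    heat0 (fun t p => (t ^ n * hk t p.2) • a p) t p = (t ^ (n - 1) * hk t p.2) •
      ((n : ℝ) • a p + ∑ b, co b p.2 • pd b a p) - (t ^ n * hk t p.2) • ∑ b, pd b (pd b a) p := by
  have h1 : ∀ b, ContDiff ℝ ∞ fun p : Y × ℍ => co b p.2 • a p := fun b =>
    (contDiff_co b contDiff_snd).smul ha
  have h2 : ∀ b, pd b (pd b fun p => (t ^ n * hk t p.2) • a p) p = (t ^ n * hk t p.2) •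
      (pd b (pd b a) p - t⁻¹ • co b p.2 • pd b a p - (2 * t)⁻¹ • a p +
        (4 * t ^ 2)⁻¹ • co b p.2 • co b p.2 • a p) := fun b => by
    rw [pd_gen b _ ha ht, pd_gen b _ ((contDiff_pd b ha).sub ((h1 b).const_smul _)) ht,
      pd_sub b (contDiff_pd b ha) ((h1 b).const_smul _), pd_smul b contDiff_const (h1 b),
      pd_smul b (contDiff_co b contDiff_snd) ha, pd_co, pd_const]
    simp only [if_true]
    match_scalars <;> field_simp <;> ring
  rw [heat0, (gen_dt n _ _ ht).deriv]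
  simp only [h2, ← Finset.smul_sum, Finset.sum_add_distrib, Finset.sum_sub_distrib,
    Finset.sum_const, Finset.card_univ, Fintype.card_fin, zpow_sub₀ ht.ne']
  match_scalars <;> field_simp <;> ring
theorem Wt.ht_sub [FiniteDimensional ℝ Y] (hL : L.Ok) (h : Wt Prod.snd μ F) :
    Wt Prod.snd (μ - 1) fun t p => L.heat F t p - heat0 F t p := by
  have h1 : ∀ b c, Van Prod.snd 1 fun p : Y × ℍ => (if b = c then 1 else 0) - L.g b c p :=
    fun b c => van_one_of (contDiff_const.sub (hL.g b c)) fun y => by rw [hL.g0, sub_self]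
  refine (((Wt.sum (s := Finset.univ) fun b _ => Wt.sum (s := Finset.univ) fun c _ =>
    (((h.pdv c).pdv b).smul (h1 b c)).mono (by omega)).add (Wt.sum (s := Finset.univ) fun b _ =>
    ((h.pdv b).bilin (i := 0) (ContinuousLinearMap.mul ℝ 𝔸) (hL.n b)).mono (by omega))).add
    ((h.bilin (i := 0) (ContinuousLinearMap.mul ℝ 𝔸) hL.m).mono (by omega))).congr fun t ht p => ?_
  simp [Op.heat, Op.ap, heat0, sub_smul]
  abel
theorem Wt.ht [FiniteDimensional ℝ Y] (hL : L.Ok) (h : Wt Prod.snd μ F) :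
    Wt Prod.snd (μ - 2) (L.heat F) :=
  (((h.ht_sub hL).mono (by omega)).add h.ht0).congr fun _ _ _ => (sub_add_cancel _ _).symm
theorem heat_add (h : Wt Prod.snd μ F) (h' : Wt Prod.snd ν G) {t : ℝ} (ht : 0 < t) (p : Y × ℍ) :
    L.heat (fun t p => F t p + G t p) t p = L.heat F t p + L.heat G t p := by
  have a := h.smooth contDiff_snd ht
  have b := h'.smooth contDiff_snd ht
  simp only [Op.heat, Op.ap, ((h.hasDerivAt ht p).fun_add (h'.hasDerivAt ht p)).deriv, pd_add _ a b,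
    pd_add _ (contDiff_pd _ a) (contDiff_pd _ b), smul_add, mul_add, Finset.sum_add_distrib]
  abel
theorem heat_sub (h : Wt Prod.snd μ F) (h' : Wt Prod.snd ν G) {t : ℝ} (ht : 0 < t) (p : Y × ℍ) :
    L.heat (fun t p => F t p - G t p) t p = L.heat F t p - L.heat G t p := by
  have a := h.smooth contDiff_snd ht
  have b := h'.smooth contDiff_snd ht
  simp only [Op.heat, Op.ap, ((h.hasDerivAt ht p).fun_sub (h'.hasDerivAt ht p)).deriv, pd_sub _ a b,
    pd_sub _ (contDiff_pd _ a) (contDiff_pd _ b), smul_sub, mul_sub, Finset.sum_sub_distrib]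
  abel
theorem heat0_add {F G : ℝ → Y × ℍ → B} (h : Wt Prod.snd μ F) (h' : Wt Prod.snd ν G) {t : ℝ}
    (ht : 0 < t) (p : Y × ℍ) :
    heat0 (fun t p => F t p + G t p) t p = heat0 F t p + heat0 G t p := by
  have a := h.smooth contDiff_snd ht
  have b := h'.smooth contDiff_snd ht
  simp only [heat0, ((h.hasDerivAt ht p).fun_add (h'.hasDerivAt ht p)).deriv, pd_add _ a b,
    pd_add _ (contDiff_pd _ a) (contDiff_pd _ b), Finset.sum_add_distrib]
  abel
theorem heat_congr (e : ∀ t, 0 < t → ∀ p, G t p = F t p) {t : ℝ} (ht : 0 < t) (p : Y × ℍ) :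
    L.heat G t p = L.heat F t p := by
  rw [Op.heat, Op.heat, (ev_pos ht e p).deriv_eq, funext (e t ht)]

end Op

end Pool.Agent.MP_e1dc65_gt.A
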