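import Pool.Agent.MP_e1dc65_gt.k.Cov

/-! PROJECT HC, part A: the index densities. -/

set_option maxSynthPendingDepth 3

open scoped Quaternion ContDiff Topology RealInnerProductSpace
open Set Filter MeasureTheory Metric

noncomputable section

namespace Pool.Agent.MP_e1dc65_gt.A

namespace Dens

theorem ec : ((ε 0).re = 1 ∧ (ε 0).imI = 0 ∧ (ε 0).imJ = 0 ∧ (ε 0).imK = 0) ∧
    ((ε 1).re = 0 ∧ (ε 1).imI = 1 ∧ (ε 1).imJ = 0 ∧ (ε 1).imK = 0) ∧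
    ((ε 2).re = 0 ∧ (ε 2).imI = 0 ∧ (ε 2).imJ = 1 ∧ (ε 2).imK = 0) ∧
    ((ε 3).re = 0 ∧ (ε 3).imI = 0 ∧ (ε 3).imJ = 0 ∧ (ε 3).imK = 1) := by
  rw [ε_0, ε_1, ε_2, ε_3]
  exact ⟨⟨rfl, rfl, rfl, rfl⟩, ⟨rfl, rfl, rfl, rfl⟩, ⟨rfl, rfl, rfl, rfl⟩, rfl, rfl, rfl, rfl⟩

/-- the normal form of a block of the potential -/
def nf (A h₁ h₂ h₃ x : ℍ) : ℍ := A * x + (ε 1 * x * h₁ + ε 2 * x * h₂ + ε 3 * x * h₃)

theorem tr_nf (A h₁ h₂ h₃ : ℍ) : ∑ b, co b (nf A h₁ h₂ h₃ (ε b)) = 4 * A.re := by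
  simp only [nf, Fin.sum_univ_four, co_0, co_1, co_2, co_3, ec,
    Quaternion.re_mul, Quaternion.imI_mul, Quaternion.imJ_mul, Quaternion.imK_mul,
    Quaternion.re_add, Quaternion.imI_add, Quaternion.imJ_add, Quaternion.imK_add]
  ring

theorem tr_nf2 (A : ℍ) {h₁ h₂ h₃ : ℍ} (e₁ : h₁.re = 0) (e₂ : h₂.re = 0) (e₃ : h₃.re = 0) :
    ∑ b, co b (nf A h₁ h₂ h₃ (nf A h₁ h₂ h₃ (ε b))) =
      4 * (A * A).re - 4 * ((h₁ * h₁).re + (h₂ * h₂).re + (h₃ * h₃).re) := by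
  simp only [nf, Fin.sum_univ_four, co_0, co_1, co_2, co_3, ec, e₁, e₂, e₃,
    Quaternion.re_mul, Quaternion.imI_mul, Quaternion.imJ_mul, Quaternion.imK_mul,
    Quaternion.re_add, Quaternion.imI_add, Quaternion.imJ_add, Quaternion.imK_add]
  ring

theorem tr_sq {f : ℍ} (e : f.re = 0) (h : ℍ) :
    ∑ b, co b (f * (f * ε b - ε b * h) - (f * ε b - ε b * h) * h) =
      4 * (f * f).re + 4 * (h * h).re := by
  simp only [Fin.sum_univ_four, co_0, co_1, co_2, co_3, ec, e,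
    Quaternion.re_mul, Quaternion.imI_mul, Quaternion.imJ_mul, Quaternion.imK_mul,
    Quaternion.re_sub, Quaternion.imI_sub, Quaternion.imJ_sub, Quaternion.imK_sub]
  ring

theorem str_sq {f g : ℍ} (ef : f.re = 0) (eg : g.re = 0) (h : ℍ) :
    str (lie f g h * lie f g h) = 4 * (f * f).re - 4 * (g * g).re := by
  rw [str_eq]
  simp only [mul_apply_eq_comp, lie_apply, wk_fst, wk_snd, tr_sq ef, tr_sq eg]
  ring

theorem ccl (u v f g h : ℍ) (s : W) : (cl u * cl v * lie f g h) s =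
    wk (-(u * star v) * (f * s.fst - s.fst * h)) (-(star u * v) * (g * s.snd - s.snd * h)) := by
  simp only [mul_apply_eq_comp, lie_apply, cl_apply, wk_fst, wk_snd, mul_neg, neg_mul,
    mul_assoc]

theorem tab1 : (ε 0 * star (ε 1) = -ε 1 ∧ ε 0 * star (ε 2) = -ε 2 ∧ ε 0 * star (ε 3) = -ε 3) ∧
    (ε 1 * star (ε 0) = ε 1 ∧ ε 1 * star (ε 2) = -ε 3 ∧ ε 1 * star (ε 3) = ε 2) ∧
    (ε 2 * star (ε 0) = ε 2 ∧ ε 2 * star (ε 1) = ε 3 ∧ ε 2 * star (ε 3) = -ε 1) ∧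
    (ε 3 * star (ε 0) = ε 3 ∧ ε 3 * star (ε 1) = -ε 2 ∧ ε 3 * star (ε 2) = ε 1) := by
  refine ⟨⟨?_, ?_, ?_⟩, ⟨?_, ?_, ?_⟩, ⟨?_, ?_, ?_⟩, ⟨?_, ?_, ?_⟩⟩ <;> ext <;>
    simp [ec]

theorem tab2 : (star (ε 0) * ε 1 = ε 1 ∧ star (ε 0) * ε 2 = ε 2 ∧ star (ε 0) * ε 3 = ε 3) ∧
    (star (ε 1) * ε 0 = -ε 1 ∧ star (ε 1) * ε 2 = -ε 3 ∧ star (ε 1) * ε 3 = ε 2) ∧
    (star (ε 2) * ε 0 = -ε 2 ∧ star (ε 2) * ε 1 = ε 3 ∧ star (ε 2) * ε 3 = -ε 1) ∧
    (star (ε 3) * ε 0 = -ε 3 ∧ star (ε 3) * ε 1 = -ε 2 ∧ star (ε 3) * ε 2 = ε 1) := by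
  refine ⟨⟨?_, ?_, ?_⟩, ⟨?_, ?_, ?_⟩, ⟨?_, ?_, ?_⟩, ⟨?_, ?_, ?_⟩⟩ <;> ext <;>
    simp [ec]

theorem diag0 {F : Fin 4 → Fin 4 → ℍ} (h : ∀ a b, F a b = -F b a) (a : Fin 4) : F a a = 0 := by
  have := h a a
  rw [eq_neg_iff_add_eq_zero, ← two_smul ℝ, smul_eq_zero] at this
  exact this.resolve_left two_ne_zero

variable {F G H : Fin 4 → Fin 4 → ℍ}

/-- the scalar part on the positive spinors -/
def pA (F : Fin 4 → Fin 4 → ℍ) : ℍ :=
  ε 1 * (F 0 1 + F 2 3) + ε 2 * (F 0 2 - F 1 3) + ε 3 * (F 0 3 + F 1 2)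

/-- the scalar part on the negative spinors -/
def pB (G : Fin 4 → Fin 4 → ℍ) : ℍ :=
  -(ε 1 * (G 0 1 - G 2 3) + ε 2 * (G 0 2 + G 1 3) + ε 3 * (G 0 3 - G 1 2))

theorem pot_apply (hF : ∀ a b, F a b = -F b a) (hG : ∀ a b, G a b = -G b a)
    (hH : ∀ a b, H a b = -H b a) (s : W) :
    pot (fun a b => lie (F a b) (G a b) (H a b)) s =
      wk (nf (pA F) (-(H 0 1 + H 2 3)) (-(H 0 2 - H 1 3)) (-(H 0 3 + H 1 2)) s.fst)
        (nf (pB G) (H 0 1 - H 2 3) (H 0 2 + H 1 3) (H 0 3 - H 1 2) s.snd) := by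
  obtain ⟨⟨a1, a2, a3⟩, ⟨a4, a5, a6⟩, ⟨a7, a8, a9⟩, a10, a11, a12⟩ := tab1
  obtain ⟨⟨b1, b2, b3⟩, ⟨b4, b5, b6⟩, ⟨b7, b8, b9⟩, b10, b11, b12⟩ := tab2
  simp only [pot, Fin.sum_univ_four, smul_apply, add_apply,
    ccl, a1, a2, a3, a4, a5, a6, a7, a8, a9, a10, a11, a12, b1, b2, b3, b4, b5, b6, b7, b8, b9, b10,
    b11, b12, diag0 hF, diag0 hG, diag0 hH, hF 1 0, hF 2 0, hF 3 0, hF 2 1, hF 3 1, hF 3 2, hG 1 0,
    hG 2 0, hG 3 0, hG 2 1, hG 3 1, hG 3 2, hH 1 0, hH 2 0, hH 3 0, hH 2 1, hH 3 1, hH 3 2]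
  refine W_ext ?_ ?_ <;>
  · simp only [WithLp.smul_fst, WithLp.add_fst, WithLp.smul_snd, WithLp.add_snd, wk_fst, wk_snd, nf,
      pA, pB, zero_mul, mul_zero, sub_zero, mul_add, add_mul, mul_sub, sub_mul, neg_mul, mul_neg,
      neg_neg, mul_assoc]
    module

theorem str_pot (hF : ∀ a b, F a b = -F b a) (hG : ∀ a b, G a b = -G b a)
    (hH : ∀ a b, H a b = -H b a) :
    str (pot fun a b => lie (F a b) (G a b) (H a b)) = 4 * (pA F).re - 4 * (pB G).re := by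
  rw [str_eq]
  simp only [pot_apply hF hG hH, wk_fst, wk_snd, tr_nf]

theorem den_eq (hF : ∀ a b, F a b = -F b a) (hG : ∀ a b, G a b = -G b a)
    (hH : ∀ a b, H a b = -H b a) (iF : ∀ a b, (F a b).re = 0) (iG : ∀ a b, (G a b).re = 0)
    (iH : ∀ a b, (H a b).re = 0) :
    den (pot fun a b => lie (F a b) (G a b) (H a b)) (fun a b => lie (F a b) (G a b) (H a b)) =
      2 * (pA F * pA F).re - 2 * (pB G * pB G).re - 8 * pf H +
        (∑ a, ∑ b, ((F a b * F a b).re - (G a b * G a b).re)) / 3 := by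
  have e : ∑ a, ∑ b, str (lie (F a b) (G a b) (H a b) * lie (F a b) (G a b) (H a b)) =
      4 * ∑ a, ∑ b, ((F a b * F a b).re - (G a b * G a b).re) := by
    simp only [str_sq (iF _ _) (iG _ _), Finset.mul_sum, mul_sub]
  rw [den, e, str_eq]
  simp only [mul_apply_eq_comp, pot_apply hF hG hH, wk_fst, wk_snd]
  rw [tr_nf2 _ (by simp [iH]) (by simp [iH]) (by simp [iH]),
    tr_nf2 _ (by simp [iH]) (by simp [iH]) (by simp [iH])]
  have : ((-(H 0 1 + H 2 3) * -(H 0 1 + H 2 3)).re + (-(H 0 2 - H 1 3) * -(H 0 2 - H 1 3)).re +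
      (-(H 0 3 + H 1 2) * -(H 0 3 + H 1 2)).re) - (((H 0 1 - H 2 3) * (H 0 1 - H 2 3)).re +
      ((H 0 2 + H 1 3) * (H 0 2 + H 1 3)).re + ((H 0 3 - H 1 2) * (H 0 3 - H 1 2)).re) =
      4 * pf H := by
    simp [pf]
    ring
  linarith

theorem core (h : Bia F G) : (pA F).re = (pB G).re ∧
    2 * (pA F * pA F).re - 2 * (pB G * pB G).re +
      (∑ a, ∑ b, ((F a b * F a b).re - (G a b * G a b).re)) / 3 = 4 / 3 * (pf F + pf G) := by
  have c1 := h.cyc 0 1 2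
  have c2 := h.cyc 0 1 3
  have c3 := h.cyc 0 2 3
  have c4 := h.cyc 1 2 3
  have hF := h.asF
  have hG := h.asG
  rw [hF 2 0, hG 2 0] at c1
  rw [hF 3 0, hG 3 0] at c2 c3
  rw [hF 3 1, hG 3 1] at c4
  simp only [pA, pB, pf, Fin.sum_univ_four, diag0 hF, diag0 hG, hF 1 0, hF 2 0, hF 3 0, hF 2 1,
    hF 3 1, hF 3 2, hG 1 0, hG 2 0, hG 3 0, hG 2 1, hG 3 1, hG 3 2]
  simp only [Quaternion.ext_iff, Quaternion.re_zero, Quaternion.imI_zero, Quaternion.imJ_zero,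
    Quaternion.imK_zero, h.imF, h.imG, ec,
    Quaternion.re_mul, Quaternion.imI_mul, Quaternion.imJ_mul, Quaternion.imK_mul,
    Quaternion.re_add, Quaternion.imI_add, Quaternion.imJ_add, Quaternion.imK_add,
    Quaternion.re_sub, Quaternion.imI_sub, Quaternion.imJ_sub, Quaternion.imK_sub,
    Quaternion.re_neg, Quaternion.imI_neg, Quaternion.imJ_neg, Quaternion.imK_neg] at c1 c2 c3 c4 ⊢
  generalize (F 0 1).imI = f01i, (F 0 1).imJ = f01j, (F 0 1).imK = f01k,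
    (F 0 2).imI = f02i, (F 0 2).imJ = f02j, (F 0 2).imK = f02k,
    (F 0 3).imI = f03i, (F 0 3).imJ = f03j, (F 0 3).imK = f03k,
    (F 1 2).imI = f12i, (F 1 2).imJ = f12j, (F 1 2).imK = f12k,
    (F 1 3).imI = f13i, (F 1 3).imJ = f13j, (F 1 3).imK = f13k,
    (F 2 3).imI = f23i, (F 2 3).imJ = f23j, (F 2 3).imK = f23k,
    (G 0 1).imI = g01i, (G 0 1).imJ = g01j, (G 0 1).imK = g01k,
    (G 0 2).imI = g02i, (G 0 2).imJ = g02j, (G 0 2).imK = g02k,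
    (G 0 3).imI = g03i, (G 0 3).imJ = g03j, (G 0 3).imK = g03k,
    (G 1 2).imI = g12i, (G 1 2).imJ = g12j, (G 1 2).imK = g12k,
    (G 1 3).imI = g13i, (G 1 3).imJ = g13j, (G 1 3).imK = g13k,
    (G 2 3).imI = g23i, (G 2 3).imJ = g23j, (G 2 3).imK = g23k at *
  clear hF hG h
  obtain ⟨c11, c12, c13, c14⟩ := c1
  obtain ⟨c21, c22, c23, c24⟩ := c2
  obtain ⟨c31, c32, c33, c34⟩ := c3
  obtain ⟨c41, c42, c43, c44⟩ := c4
  obtain rfl : g23k = -f03i + f12i - g01k := by linarith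
  obtain rfl : g23j = -f02i - f13i - g01j := by linarith
  obtain rfl : g23i = -f01i + f23i - g01i := by linarith
  obtain rfl : g13k = f03j - f12j + g02k := by linarith
  obtain rfl : g13j = f02j + f13j + g02j := by linarith
  obtain rfl : g13i = f01j + f13i + g01j := by linarith
  obtain rfl : g12k = f01i + f02j + f12k + g01i + g02j := by linarith
  obtain rfl : g12j = -f02k + f12j - g02k := by linarith
  obtain rfl : g12i = -f01k + f12i - g01k := by linarith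
  obtain rfl : g03k = -f01i - f02j - f03k - g01i - g02j := by linarith
  obtain rfl : g03j = -f02k + f03j + g02k := by linarith
  obtain rfl : g03i = -f01k + f03i + g01k := by linarith
  obtain rfl : g02i = -f01j + f02i + g01j := by linarith
  obtain rfl : f23k = -f01k + f03i + f12i := by linarith
  obtain rfl : f23j = -f01j + f02i - f13i := by linarith
  obtain rfl : f13k = f02k - f03j - f12j := by linarith
  constructor <;> ring

end Dens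

open Dens in
theorem dens : DensStmt := by
  intro F G Ω h hΩ
  obtain ⟨c1, c2⟩ := core h
  have eo : Ω .o = fun a b => lie (F a b) (G a b) ((fun _ _ => 0 : Fin 4 → Fin 4 → ℍ) a b) :=
    funext fun a => funext fun b => hΩ .o a b
  have el : Ω .l = fun a b => lie (F a b) (G a b) (F a b) :=
    funext fun a => funext fun b => hΩ .l a b
  have er : Ω .r = fun a b => lie (F a b) (G a b) (G a b) :=
    funext fun a => funext fun b => hΩ .r a b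
  have z : ∀ a b : Fin 4, (fun _ _ => 0 : Fin 4 → Fin 4 → ℍ) a b = -(fun _ _ => 0) b a :=
    fun _ _ => neg_zero.symm
  refine ⟨fun κ => ?_, ?_, ?_⟩
  · cases κ
    · rw [eo, str_pot h.asF h.asG z, c1, sub_self]
    · rw [el, str_pot h.asF h.asG h.asF, c1, sub_self]
    · rw [er, str_pot h.asF h.asG h.asG, c1, sub_self]
  · rw [eo, den_eq h.asF h.asG z h.imF h.imG fun _ _ => rfl]
    have : pf (fun _ _ => 0) = 0 := by simp [pf]
    linarith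
  · rw [el, er, den_eq h.asF h.asG h.asF h.imF h.imG h.imF,
      den_eq h.asF h.asG h.asG h.imF h.imG h.imG]
    linarith

end Pool.Agent.MP_e1dc65_gt.A
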