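import Pool.Agent.MP_e1dc65_gt.a.ClsW
import Mathlib.Analysis.Calculus.FDeriv.Mul

/-! PROJECT HC, part A: the supertrace of the parametrix on the diagonal. -/

set_option maxSynthPendingDepth 3

open scoped Quaternion ContDiff Topology RealInnerProductSpace
open Set Filter MeasureTheory Metric

noncomputable section

namespace Pool.Agent.MP_e1dc65_gt.A

namespace DiagP

section Pd
variable {P B C : Type} [NormedAddCommGroup P] [NormedSpace ℝ P] [NormedAddCommGroup B]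
  [NormedSpace ℝ B] [NormedAddCommGroup C] [NormedSpace ℝ C]

theorem pd_const (b : Fin 4) (a : B) : pd b (fun _ : P × ℍ => a) = fun _ => 0 := by
  funext p
  simp [pd]

theorem pd_clm (π : B →L[ℝ] C) (b : Fin 4) {F : P × ℍ → B} (hF : ContDiff ℝ ∞ F) :
    pd b (fun p => π (F p)) = fun p => π (pd b F p) := by
  funext p
  have h := π.hasFDerivAt.comp p (hF.differentiable (by simp) p).hasFDerivAt
  simp only [pd]
  rw [show (fun p => π (F p)) = π ∘ F from rfl, h.fderiv]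
  rfl

theorem hasF_co (c : Fin 4) (p : P × ℍ) : HasFDerivAt (fun p : P × ℍ => co c p.2)
    ((co c).comp (ContinuousLinearMap.snd ℝ P ℍ)) p :=
  ((co c).comp (ContinuousLinearMap.snd ℝ P ℍ)).hasFDerivAt

theorem pd_lin (b : Fin 4) (v : Fin 4 → B) :
    pd b (fun p : P × ℍ => ∑ c, co c p.2 • v c) = fun _ => v b := by
  funext p
  have h := HasFDerivAt.fun_sum (u := Finset.univ) fun c _ => (hasF_co c p).smul_const (v c)
  simp only [pd]
  rw [h.fderiv]
  simp [co_ε]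

/-- the quadratic form with coefficients `κ` -/
def qd (κ : Fin 4 → Fin 4 → B) (p : P × ℍ) : B := ∑ b, ∑ c, (co b p.2 * co c p.2) • κ b c

theorem van_qd (κ : Fin 4 → Fin 4 → B) : Van Prod.snd 2 (qd (P := P) κ) := by
  refine Van.congr (Van.sum (s := Finset.univ) fun b _ => Van.sum (s := Finset.univ) fun c _ =>
    Van.co_smul b (Van.co_smul c (j := 0) (contDiff_const (c := κ b c)))) fun p => ?_
  simp only [qd, mul_smul]

theorem pd_qd (κ : Fin 4 → Fin 4 → B) (a : Fin 4) :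
    pd a (qd (P := P) κ) = fun p => ∑ c, co c p.2 • (κ a c + κ c a) := by
  funext p
  have h := HasFDerivAt.fun_sum (u := Finset.univ) fun b _ =>
    HasFDerivAt.fun_sum (u := Finset.univ) fun c _ =>
      ((hasF_co b p).fun_mul (hasF_co c p)).smul_const (κ b c)
  simp only [pd]
  rw [show qd κ = fun p : P × ℍ => ∑ b, ∑ c, (co b p.2 * co c p.2) • κ b c from rfl, h.fderiv]
  simp only [sum_apply, ContinuousLinearMap.smulRight_apply,
    add_apply, smul_apply, ContinuousLinearMap.comp_apply,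
    ContinuousLinearMap.coe_snd', co_ε, smul_eq_mul, mul_ite, mul_one, mul_zero, add_smul,
    ite_smul, zero_smul, Finset.sum_add_distrib, smul_add, Finset.sum_ite_eq', Finset.mem_univ,
    if_true]
  rw [add_comm]
  congr 1
  rw [Finset.sum_comm]
  simp

theorem pd_hk (b : Fin 4) (r : ℝ) (a : B) {t : ℝ} (ht : 0 < t) (p : P × ℍ) :
    pd b (fun p : P × ℍ => (r * hk t p.2) • a) p =
      (-(r * hk t p.2 / (2 * t)) * co b p.2) • a := by
  have h := ((((hasFDerivAt_hk ht p.2).comp p hasFDerivAt_snd).const_mul r).smul_const a)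
  simp only [pd]
  rw [show (fun p : P × ℍ => (r * hk t p.2) • a) = fun p => (r * (hk t ∘ Prod.snd) p) • a from rfl,
    h.fderiv]
  simp only [ContinuousLinearMap.smulRight_apply, smul_apply,
    ContinuousLinearMap.comp_apply, ContinuousLinearMap.coe_snd', innerSL_apply_apply, smul_eq_mul,
    co_apply, real_inner_comm]
  congr 1
  ring

theorem wt_gen (n : ℤ) (a : B) :
    Wt (Prod.snd : P × ℍ → ℍ) (2 * n) fun t p => (t ^ n * hk t p.2) • a :=
  Wt.gen n 0 (fun _ => a) contDiff_const (by simp)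

theorem heat0_const (n : ℤ) (a : B) {t : ℝ} (ht : 0 < t) (p : P × ℍ) :
    heat0 (fun t p => (t ^ n * hk t p.2) • a) t p = (n * t ^ (n - 1) * hk t p.2) • a := by
  rw [heat0_gen n (a := fun _ => a) contDiff_const ht p]
  simp only [pd_const, smul_zero, Finset.sum_const_zero, add_zero, sub_zero, smul_smul]
  congr 1
  ring

theorem heat0_qd (κ : Fin 4 → Fin 4 → B) {t : ℝ} (ht : 0 < t) (p : P × ℍ) :
    heat0 (fun t p => (t ^ (1 : ℤ) * hk t p.2) • qd κ p) t p =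
      (3 * hk t p.2) • qd κ p - (2 * t * hk t p.2) • ∑ b, κ b b := by
  rw [heat0_gen 1 ((van_qd κ).smooth contDiff_snd) ht p]
  have e1 : ∑ b, co b p.2 • ∑ c, co c p.2 • (κ b c + κ c b) = qd κ p + qd κ p := by
    simp only [qd, Finset.smul_sum, smul_add, Finset.sum_add_distrib, smul_smul]
    congr 1
    rw [Finset.sum_comm]
    simp only [mul_comm]
  simp only [pd_qd, pd_lin, e1, Finset.sum_add_distrib, sub_self, zpow_zero, zpow_one, Int.cast_one]
  module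

end Pd

section Sc
variable {Y 𝔸 𝔹 : Type} [NormedAddCommGroup Y] [NormedSpace ℝ Y] [NormedRing 𝔸]
  [NormedAlgebra ℝ 𝔸] [NormedRing 𝔹] [NormedAlgebra ℝ 𝔹] {g : Fin 4 → Fin 4 → Y × ℍ → ℝ}
  {s : Fin 4 → Y × ℍ → ℝ} {μ : ℤ}

/-- the scalar part of an operator -/
def sc (g : Fin 4 → Fin 4 → Y × ℍ → ℝ) (s : Fin 4 → Y × ℍ → ℝ) (𝔸 : Type) [NormedRing 𝔸]
    [NormedAlgebra ℝ 𝔸] : Op Y 𝔸 := ⟨g, fun b p => s b p • 1, fun _ => 0⟩

theorem sc_ok {L : Op Y 𝔸} (hL : L.Ok) (hs : ∀ b, ContDiff ℝ ∞ (s b)) : (sc L.g s 𝔹).Ok :=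
  ⟨hL.g, fun b => (hs b).smul contDiff_const, contDiff_const, hL.g0⟩

theorem heat_clm (π : 𝔸 →L[ℝ] 𝔹) {F : ℝ → Y × ℍ → 𝔸} (h : Wt Prod.snd μ F) {t : ℝ} (ht : 0 < t)
    (p : Y × ℍ) : (sc g s 𝔹).heat (fun t p => π (F t p)) t p = π ((sc g s 𝔸).heat F t p) := by
  have hs := h.smooth contDiff_snd ht
  have hd : deriv (fun u => π (F u p)) t = π (deriv (fun u => F u p) t) :=
    (π.hasFDerivAt.comp_hasDerivAt t (h.hasDerivAt ht p)).deriv
  simp only [Op.heat, Op.ap, sc, hd, pd_clm π _ hs, pd_clm π _ (contDiff_pd _ hs), smul_mul_assoc,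
    one_mul, zero_mul, add_zero, map_add, map_neg, map_sum, map_smul]

/-- the first order part that is not scalar -/
def N1 (n' : Fin 4 → Y × ℍ → 𝔸) (m' : Y × ℍ → 𝔸) (F : ℝ → Y × ℍ → 𝔸) (t : ℝ) (p : Y × ℍ) : 𝔸 :=
  ∑ b, n' b p * pd b (F t) p + m' p * F t p

variable {n' : Fin 4 → Y × ℍ → 𝔸} {m' q : Y × ℍ → 𝔸} {ν : Fin 4 → Fin 4 → 𝔸} {m₀ : 𝔸}
  {F G : ℝ → Y × ℍ → 𝔸}

theorem heat_eq {L : Op Y 𝔸} (hn : ∀ b p, L.n b p = s b p • (1 : 𝔸) + n' b p)
    (hm : ∀ p, L.m p = m' p + q p) (F : ℝ → Y × ℍ → 𝔸) (t : ℝ) (p : Y × ℍ) :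
    L.heat F t p = (sc L.g s 𝔸).heat F t p + N1 n' m' F t p + q p * F t p := by
  simp only [Op.heat, Op.ap, sc, N1, hn, hm, add_mul, Finset.sum_add_distrib, zero_mul]
  abel

theorem wt_mul {i : ℕ} {a : Y × ℍ → 𝔸} (ha : Van Prod.snd i a) (h : Wt Prod.snd μ F) :
    Wt Prod.snd (μ + i) fun t p => a p * F t p := h.bilin (ContinuousLinearMap.mul ℝ 𝔸) ha

theorem N1_wt (hn : ∀ b, Van Prod.snd 1 (n' b)) (hm : Van Prod.snd 0 m') (h : Wt Prod.snd μ F) :
    Wt Prod.snd μ (N1 n' m' F) :=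
  (Wt.sum fun b _ => (wt_mul (hn b) (h.pdv b)).mono (by simp)).add ((wt_mul hm h).mono (by simp))

theorem N1_sub {μ' : ℤ} (h : Wt Prod.snd μ F) (h' : Wt Prod.snd μ' G) {t : ℝ} (ht : 0 < t)
    (p : Y × ℍ) : N1 n' m' (fun t p => F t p - G t p) t p = N1 n' m' F t p - N1 n' m' G t p := by
  have h1 := (h.smooth contDiff_snd ht).differentiable (by simp) p
  have h2 := (h'.smooth contDiff_snd ht).differentiable (by simp) p
  simp only [N1, pd, fderiv_fun_sub h1 h2, sub_apply, mul_sub,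
    Finset.sum_sub_distrib]
  abel

theorem N1_gen (hν : ∀ b c, ν b c = -ν c b)
    (hn : ∀ b, Van Prod.snd 2 fun p => n' b p - ∑ c, co c p.2 • ν b c)
    (hm : Van Prod.snd 1 fun p => m' p - m₀) (n : ℤ) (a : 𝔸) :
    Wt Prod.snd (2 * n + 1) fun t p => N1 n' m' (fun t p => (t ^ n * hk t p.2) • a) t p -
      (t ^ n * hk t p.2) • (m₀ * a) := by
  have h := wt_gen (P := Y) n a
  refine Wt.congr ((Wt.sum (s := Finset.univ) fun b _ =>
    (wt_mul (hn b) (h.pdv b)).mono (ν := 2 * n + 1) (by push_cast; omega)).add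
    ((wt_mul hm h).mono (by simp))) fun t ht p => ?_
  have e : ∑ b, co b p.2 • ∑ c, co c p.2 • ν b c = 0 := by
    have e1 : ∑ b, co b p.2 • ∑ c, co c p.2 • ν b c =
        -∑ b, co b p.2 • ∑ c, co c p.2 • ν b c := by
      simp only [Finset.smul_sum, smul_smul]
      conv_lhs => rw [Finset.sum_comm]
      simp only [← Finset.sum_neg_distrib, ← smul_neg, ← hν, mul_comm]
    have e2 : (2 : ℝ) • ∑ b, co b p.2 • ∑ c, co c p.2 • ν b c = 0 := by
      rw [two_smul]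
      exact add_eq_zero_iff_eq_neg.2 e1
    exact (smul_eq_zero.1 e2).resolve_left two_ne_zero
  have e' : ∑ b, (∑ c, co c p.2 • ν b c) * ((-(t ^ n * hk t p.2 / (2 * t)) * co b p.2) • a) = 0 := by
    simp only [mul_smul_comm, mul_smul, ← Finset.smul_sum]
    simp only [← smul_mul_assoc, ← Finset.sum_mul, e, zero_mul, smul_zero]
  simp only [N1, pd_hk _ _ _ ht, sub_mul, Finset.sum_sub_distrib, e']
  rw [mul_smul_comm _ m₀]
  abel

end Sc

/-- several steps of the recursion -/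
theorem iter (h : ImpStmt) {Y 𝔸 : Type} [NormedAddCommGroup Y] [NormedSpace ℝ Y]
    [FiniteDimensional ℝ Y] [NormedRing 𝔸] [NormedAlgebra ℝ 𝔸] [CompleteSpace 𝔸] {L : Op Y 𝔸}
    (hL : L.Ok) {μ : ℤ} (hμ : -1 ≤ μ) {r : ℝ → Y × ℍ → 𝔸} (hr : Wt Prod.snd μ r) (N : ℕ) :
    ∃ c, Wt Prod.snd (μ + 2) c ∧ Wt Prod.snd (μ + 1 + N) fun t p => L.heat c t p - r t p := by
  induction N with
  | zero => simpa using h Y 𝔸 L hL μ hμ r hr
  | succ N ih =>
    obtain ⟨c, h1, h2⟩ := ih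
    obtain ⟨c', h3, h4⟩ := h Y 𝔸 L hL _ (by omega) _ h2
    refine ⟨_, h1.sub (h3.mono (by omega)),
      Wt.congr (h4.neg.mono (by push_cast; omega)) fun t ht p => ?_⟩
    rw [heat_sub h1 h3 ht]
    abel

end DiagP

open DiagP

theorem diag (h : ImpStmt) : DiagStmt := by
  intro Y 𝔸 _ _ _ _ _ _ L σ γ s n' m' q ν κ m₀ hL σ1 σγ hs hn hm σn σm hν vn vm vq
  have vn1 : ∀ b, Van Prod.snd 1 (n' b) := fun b =>
    (((vn b).mono contDiff_snd one_le_two).add (Van.sum (s := Finset.univ) fun c _ =>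
      Van.co_smul c (j := 0) (contDiff_const (c := ν b c)))).congr fun p => by simp
  have vm0 : Van Prod.snd 0 m' :=
    ((vm.mono contDiff_snd zero_le_one).add (contDiff_const (c := m₀))).congr fun p => by simp
  have vq2 : Van Prod.snd 2 q :=
    ((vq.mono contDiff_snd (by norm_num)).add (van_qd κ)).congr fun p => by simp [qd]
  have σ0 : σ m₀ = 0 := by
    have := vm.eq_zero (p := ((0 : Y), (0 : ℍ))) rfl
    rw [← sub_eq_zero.1 this, σm]
  have oR : (sc L.g s ℝ).Ok := sc_ok hL hs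
  have oA : (sc L.g s 𝔸).Ok := sc_ok hL hs
  -- the scalar part
  have wH := wt_gen (P := Y) 0 (1 : ℝ)
  have hH : Wt Prod.snd (-1) ((sc L.g s ℝ).heat fun t p => (t ^ (0 : ℤ) * hk t p.2) • (1 : ℝ)) :=
    Wt.congr ((wH.ht_sub oR).mono (by simp)) fun t ht p => by
      rw [heat0_const 0 (1 : ℝ) ht p]
      simp
  obtain ⟨c₀, c01, c02⟩ := iter h oR le_rfl hH 3
  let ι : ℝ →L[ℝ] 𝔸 := ContinuousLinearMap.toSpanSingleton ℝ 1
  have hι : ∀ x, ι x = x • (1 : 𝔸) := fun _ => rfl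
  have wκ := wH.sub (c01.mono (by norm_num))
  set κ₀ : ℝ → Y × ℍ → ℝ := fun t p => (t ^ (0 : ℤ) * hk t p.2) • (1 : ℝ) - c₀ t p with hκ₀
  have w0 : Wt Prod.snd (2 * 0) fun t p => ι (κ₀ t p) := wκ.clm ι
  have wc : Wt Prod.snd 1 fun t p => ι (c₀ t p) := (c01.clm ι).mono (by norm_num)
  have wH' := wt_gen (P := Y) 0 (1 : 𝔸)
  have e0 : (fun t p => ι (κ₀ t p)) =
      fun t p => (t ^ (0 : ℤ) * hk t p.2) • (1 : 𝔸) - ι (c₀ t p) := by
    funext t p
    simp [hκ₀, hι, sub_smul]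
  have s0 : Wt Prod.snd 3 ((sc L.g s 𝔸).heat fun t p => ι (κ₀ t p)) :=
    Wt.congr ((c02.neg.clm ι).mono (by norm_num)) fun t ht p => by
      rw [heat_clm ι wκ ht, hκ₀, heat_sub wH c01 ht, neg_sub]
  -- the part in the kernel of the supertrace
  let π : 𝔸 →L[ℝ] 𝔸 := ContinuousLinearMap.id ℝ 𝔸 - σ.smulRight γ
  have hπ : ∀ a, π a = a - σ a • γ := fun _ => rfl
  have wA := wt_gen (P := Y) 1 (-m₀)
  set A : ℝ → Y × ℍ → 𝔸 := fun t p => (t ^ (1 : ℤ) * hk t p.2) • (-m₀) with hA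
  have n0 : Wt Prod.snd 1 fun t p => N1 n' m' (fun t p => ι (κ₀ t p)) t p - hk t p.2 • m₀ :=
    Wt.congr (((N1_gen hν vn vm 0 1).mono (by norm_num)).sub (N1_wt vn1 vm0 wc)) fun t ht p => by
      rw [e0, N1_sub wH' wc ht]
      simp only [zpow_zero, one_mul, mul_one]
      abel
  have r1 : Wt Prod.snd 1 fun t p =>
      (sc L.g s 𝔸).heat A t p + N1 n' m' (fun t p => ι (κ₀ t p)) t p :=
    Wt.congr (((wA.ht_sub oA).mono (by norm_num)).add n0) fun t ht p => by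
      rw [hA, heat0_const 1 (-m₀) ht p]
      simp
  have r2 : ∀ t, 0 < t → ∀ p,
      π ((sc L.g s 𝔸).heat A t p + N1 n' m' (fun t p => ι (κ₀ t p)) t p) =
        (sc L.g s 𝔸).heat A t p + N1 n' m' (fun t p => ι (κ₀ t p)) t p := by
    intro t ht p
    rw [map_add, ← heat_clm π wA ht]
    congr 1
    · congr 1
      funext t p
      simp [hA, hπ, σ0]
    · simp only [N1, pd_clm ι _ (wκ.smooth contDiff_snd ht)]
      simp [hπ, hι, σn, σm]
  obtain ⟨c₁, c11, c12⟩ := iter h oA (by norm_num) r1 1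
  have wπ : Wt Prod.snd 3 fun t p => π (c₁ t p) := (c11.clm π).mono (by norm_num)
  have w1 : Wt Prod.snd 2 fun t p => A t p - π (c₁ t p) :=
    (wA.mono (by norm_num)).sub (wπ.mono (by norm_num))
  have s1 : Wt Prod.snd 3 fun t p => (sc L.g s 𝔸).heat (fun t p => A t p - π (c₁ t p)) t p +
      N1 n' m' (fun t p => ι (κ₀ t p)) t p :=
    Wt.congr ((c12.neg.clm π).mono (by norm_num)) fun t ht p => by
      rw [heat_sub wA wπ ht, heat_clm π c11 ht, neg_sub, map_sub, r2 t ht]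
      abel
  have n1 : Wt Prod.snd 3 fun t p => N1 n' m' (fun t p => A t p - π (c₁ t p)) t p +
      (t * hk t p.2) • (m₀ * m₀) :=
    Wt.congr (((N1_gen hν vn vm 1 (-m₀)).mono (by norm_num)).sub (N1_wt vn1 vm0 wπ))
      fun t ht p => by
        rw [N1_sub wA wπ ht, hA]
        simp only [zpow_one, mul_neg, smul_neg]
        abel
  have q0 : Wt Prod.snd 3 fun t p => q p * ι (κ₀ t p) - hk t p.2 • qd κ p :=
    Wt.congr (((wt_mul vq wH').mono (by norm_num)).sub ((wt_mul vq2 wc).mono (by norm_num)))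
      fun t ht p => by
        rw [congrFun (congrFun e0 t) p]
        simp only [zpow_zero, one_mul, mul_sub, mul_smul_comm, mul_one, qd, smul_sub]
        abel
  have q1 : Wt Prod.snd 3 fun t p => q p * (A t p - π (c₁ t p)) :=
    (wt_mul vq2 w1).mono (by norm_num)
  -- the last term
  let a₂ : 𝔸 := (1 / 2 : ℝ) • (m₀ * m₀) - (1 / 3 : ℝ) • ∑ b, κ b b
  let κ' : Fin 4 → Fin 4 → 𝔸 := fun b c => (-1 / 3 : ℝ) • κ b c
  have eκ : ∀ p : Y × ℍ, qd κ' p = (-1 / 3 : ℝ) • qd κ p := fun p => by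
    simp only [qd, κ', Finset.smul_sum, smul_comm (-1 / 3 : ℝ)]
  have wa := (wt_gen (P := Y) 2 a₂).mono (ν := 4) (by norm_num)
  have wb : Wt Prod.snd 4 fun t (p : Y × ℍ) => (t ^ (1 : ℤ) * hk t p.2) • qd κ' p :=
    Wt.gen 1 2 _ (van_qd κ') (by norm_num)
  have w2 := wa.add wb
  set k₂ : ℝ → Y × ℍ → 𝔸 := fun t p => (t ^ (2 : ℤ) * hk t p.2) • a₂ +
    (t ^ (1 : ℤ) * hk t p.2) • qd κ' p with hk₂
  have s2 : Wt Prod.snd 3 fun t p => L.heat k₂ t p -
      ((t * hk t p.2) • (m₀ * m₀) - hk t p.2 • qd κ p) :=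
    Wt.congr ((w2.ht_sub hL).mono (by norm_num)) fun t ht p => by
      rw [hk₂, heat0_add wa wb ht, heat0_const 2 a₂ ht, heat0_qd κ' ht, eκ]
      congr 1
      simp only [a₂, κ', ← Finset.smul_sum, show (2 : ℤ) - 1 = 1 from rfl, zpow_one, Int.cast_ofNat]
      module
  have w01 := w0.add (w1.mono (by norm_num))
  refine ⟨fun t p => ι (κ₀ t p) + (A t p - π (c₁ t p)) + k₂ t p, ?_, ?_, fun t ht y => ?_⟩
  · refine Wt.congr ((wc.neg.add (w1.mono (by norm_num))).add (w2.mono (by norm_num)))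
      fun t ht p => ?_
    simp only [congrFun (congrFun e0 t) p, zpow_zero, one_mul]
    abel
  · refine Wt.congr (((((s0.add s1).add n1).add q0).add q1).add s2) fun t ht p => ?_
    rw [heat_add w01 w2 ht, heat_add w0 w1 ht, heat_eq hn hm (fun t p => ι (κ₀ t p)),
      heat_eq hn hm fun t p => A t p - π (c₁ t p)]
    abel
  · have := Real.pi_pos
    simp only [hι, hπ, hA, hk₂, a₂, qd, map_add, map_sub, map_smul, map_neg, map_sum, σ1, σ0, σγ,
      map_zero, zero_mul, zero_smul, Finset.sum_const_zero, smul_eq_mul, hk_zero, zpow_ofNat]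
    field_simp
    ring

end Pool.Agent.MP_e1dc65_gt.A
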