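import Mathlib.Analysis.Calculus.FDeriv.Symmetric
import Pool.Agent.MP_e1dc65_gt.k.Cov
import Mathlib.Analysis.InnerProductSpace.Calculus
import Pool.Agent.MP_e1dc65_gt.a.Cent

-- ======== part 0: formerly Pool.Agent.MP_e1dc65_gt.a.Dloc
section MrgPart0

-- ======== part 0: formerly Pool.Agent.MP_e1dc65_gt.a.Bia
section MrgPart0

/-! PROJECT HC, part A, row BIA: the first Bianchi identity and the curvature of the spinor
connection. -/

set_option maxSynthPendingDepth 3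

open scoped Quaternion ContDiff Topology RealInnerProductSpace
open Set Filter MeasureTheory Metric

noncomputable section

namespace Pool.Agent.MP_e1dc65_gt.A

namespace Bia'

theorem hf_ap {P Q B : Type} [NormedAddCommGroup P] [NormedSpace ℝ P] [NormedAddCommGroup Q]
    [NormedSpace ℝ Q] [NormedAddCommGroup B] [NormedSpace ℝ B] {a : P → Q →L[ℝ] B} {x : P}
    (h : DifferentiableAt ℝ a x) (v : Q) :
    HasFDerivAt (fun y => a y v) ((fderiv ℝ a x).flip v) x :=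
  (ContinuousLinearMap.apply ℝ B v).hasFDerivAt.comp x h.hasFDerivAt

/-- derivative along a line -/
theorem hd_line {B : Type} [NormedAddCommGroup B] [NormedSpace ℝ B] {f : E4 → B} {f' : E4 →L[ℝ] B}
    {x : E4} (h : HasFDerivAt f f' x) (w : E4) :
    HasDerivAt (fun t : ℝ => f (x + t • w)) (f' w) 0 := by
  have h1 : HasDerivAt (fun t : ℝ => x + t • w) w 0 := by
    simpa using ((hasDerivAt_id (0 : ℝ)).smul_const w).const_add x
  have h2 : HasFDerivAt f f' (x + (0 : ℝ) • w) := by simpa using h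
  exact h2.comp_hasDerivAt 0 h1

theorem ev_line {p : E4 → Prop} {x : E4} (h : ∀ᶠ y in 𝓝 x, p y) (w : E4) :
    ∀ᶠ t : ℝ in 𝓝 0, p (x + t • w) := by
  have h1 : ContinuousAt (fun t : ℝ => x + t • w) 0 := by fun_prop
  have h2 : Tendsto (fun t : ℝ => x + t • w) (𝓝 0) (𝓝 x) := by simpa using h1.tendsto
  exact h2.eventually h

theorem re_cur {a : E4 → E4 →L[ℝ] ℍ} {x : E4} (h : DifferentiableAt ℝ a x)
    (h0 : ∀ᶠ y in 𝓝 x, ∀ v, (a y v).re = 0) (u v : E4) : (cur a x u v).re = 0 := by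
  have h1 : ∀ u v, (fderiv ℝ a x u v).re = 0 := fun u v => by
    have h2 : HasFDerivAt (fun y => co 0 (a y v)) ((co 0).comp ((fderiv ℝ a x).flip v)) x :=
      (co 0).hasFDerivAt.comp x (hf_ap h v)
    have h3 : HasFDerivAt (fun y => co 0 (a y v)) (0 : E4 →L[ℝ] ℝ) x :=
      (hasFDerivAt_const (0 : ℝ) x).congr_of_eventuallyEq (h0.mono fun y hy => by
        simp only [co_0, hy v])
    have h4 := DFunLike.congr_fun (h2.unique h3) u
    simpa [co_0] using h4
  simp [cur, h1]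
  ring

theorem cur_anti {𝔸 : Type} [NormedRing 𝔸] [NormedAlgebra ℝ 𝔸] (a : E4 → E4 →L[ℝ] 𝔸)
    (x u v : E4) : cur a x u v = -cur a x v u := by
  simp only [cur]; abel

/-- the derivative of the structure equation -/
theorem dtf {θ α β : E4 → E4 →L[ℝ] ℍ} {x : E4} (hθ : ContDiffAt ℝ ∞ θ x)
    (hα : DifferentiableAt ℝ α x) (hβ : DifferentiableAt ℝ β x)
    (h : ∀ᶠ y in 𝓝 x, IsLC θ (α y) (β y) y) (w u v : E4) :
    fderiv ℝ (fderiv ℝ θ) x w u v - fderiv ℝ (fderiv ℝ θ) x w v u +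
      ((fderiv ℝ α x w u * θ x v + α x u * fderiv ℝ θ x w v) -
        (fderiv ℝ θ x w v * β x u + θ x v * fderiv ℝ β x w u)) -
      ((fderiv ℝ α x w v * θ x u + α x v * fderiv ℝ θ x w u) -
        (fderiv ℝ θ x w u * β x v + θ x u * fderiv ℝ β x w v)) = 0 := by
  have d1 : DifferentiableAt ℝ θ x := hθ.differentiableAt (by simp)
  have d2 : DifferentiableAt ℝ (fderiv ℝ θ) x :=
    (hθ.fderiv_right (m := ∞) (by simp)).differentiableAt (by simp)
  have s2 : ∀ u v, HasDerivAt (fun t : ℝ => fderiv ℝ θ (x + t • w) u v)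
      (fderiv ℝ (fderiv ℝ θ) x w u v) 0 := fun u v =>
    hd_line ((ContinuousLinearMap.apply ℝ ℍ v).hasFDerivAt.comp x (hf_ap d2 u)) w
  have s1 : ∀ {a : E4 → E4 →L[ℝ] ℍ}, DifferentiableAt ℝ a x → ∀ u,
      HasDerivAt (fun t : ℝ => a (x + t • w) u) (fderiv ℝ a x w u) 0 := fun ha u =>
    hd_line (hf_ap ha u) w
  have h1 := (((s2 u v).fun_sub (s2 v u)).fun_add (((s1 hα u).fun_mul (s1 d1 v)).fun_sub
    ((s1 d1 v).fun_mul (s1 hβ u)))).fun_sub
    (((s1 hα v).fun_mul (s1 d1 u)).fun_sub ((s1 d1 u).fun_mul (s1 hβ v)))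
  have h2 := (hasDerivAt_const (0 : ℝ) (0 : ℍ)).congr_of_eventuallyEq
    ((ev_line h w).mono fun t ht => ht.tf u v)
  simpa only [zero_smul, add_zero] using h1.unique h2

theorem cyc {θ α β : E4 → E4 →L[ℝ] ℍ} {x : E4} (hθ : ContDiffAt ℝ ∞ θ x)
    (hα : DifferentiableAt ℝ α x) (hβ : DifferentiableAt ℝ β x)
    (h : ∀ᶠ y in 𝓝 x, IsLC θ (α y) (β y) y) (u v w : E4) :
    (cur α x u v * θ x w - θ x w * cur β x u v) + (cur α x v w * θ x u - θ x u * cur β x v w) +
      (cur α x w u * θ x v - θ x v * cur β x w u) = 0 := by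
  have sy : ∀ a b c, fderiv ℝ (fderiv ℝ θ) x a b c = fderiv ℝ (fderiv ℝ θ) x b a c := fun a b c => by
    rw [(hθ.isSymmSndFDerivAt
      (by simpa using WithTop.coe_le_coe.2 (le_top (a := (2 : ℕ∞))))).eq a b]
  have e1 := dtf hθ hα hβ h u v w
  have e2 := dtf hθ hα hβ h v w u
  have e3 := dtf hθ hα hβ h w u v
  have t := h.self_of_nhds.tf
  rw [sy v u w] at e2
  rw [sy w u v, sy w v u] at e3
  simp only [cur]
  linear_combination (norm := noncomm_ring) e1 + e2 + e3 +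
    (α x u * t v w - t v w * β x u) + (α x v * t w u - t w u * β x v) +
    (α x w * t u v - t u v * β x w)

/-- `con` as a linear map of the three forms -/
def conL : (E4 →L[ℝ] ℍ) × (E4 →L[ℝ] ℍ) × (E4 →L[ℝ] ℍ) →L[ℝ] E4 →L[ℝ] W →L[ℝ] W :=
  LinearMap.toContinuousLinearMap
    { toFun := fun a => lieL.comp (a.1.prod (a.2.1.prod a.2.2))
      map_add' := fun a b => ContinuousLinearMap.ext fun v =>
        map_add lieL (a.1 v, a.2.1 v, a.2.2 v) (b.1 v, b.2.1 v, b.2.2 v)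
      map_smul' := fun c a => ContinuousLinearMap.ext fun v =>
        map_smul lieL c (a.1 v, a.2.1 v, a.2.2 v) }

theorem fderiv_con {α β γ : E4 → E4 →L[ℝ] ℍ} {x : E4} (hα : DifferentiableAt ℝ α x)
    (hβ : DifferentiableAt ℝ β x) (hγ : DifferentiableAt ℝ γ x) (u v : E4) :
    fderiv ℝ (con α β γ) x u v =
      lieL (fderiv ℝ α x u v, fderiv ℝ β x u v, fderiv ℝ γ x u v) := by
  have h1 : HasFDerivAt (fun y => conL (α y, β y, γ y))
      (conL.comp ((fderiv ℝ α x).prod ((fderiv ℝ β x).prod (fderiv ℝ γ x)))) x :=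
    conL.hasFDerivAt.comp x (hα.hasFDerivAt.prodMk (hβ.hasFDerivAt.prodMk hγ.hasFDerivAt))
  have h2 : con α β γ = fun y => conL (α y, β y, γ y) := rfl
  rw [h2, h1.fderiv]
  rfl

theorem cur_con {α β γ : E4 → E4 →L[ℝ] ℍ} {x : E4} (hα : DifferentiableAt ℝ α x)
    (hβ : DifferentiableAt ℝ β x) (hγ : DifferentiableAt ℝ γ x) (u v : E4) :
    cur (con α β γ) x u v = lie (cur α x u v) (cur β x u v) (cur γ x u v) := by
  rw [cur, fderiv_con hα hβ hγ, fderiv_con hα hβ hγ, con_apply, con_apply, lie_comm, ← lieL_apply,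
    ← map_sub, ← map_add, ← lieL_apply]
  rfl

end Bia'

open Bia' in
theorem bia : BiaStmt := by
  intro R T hR x hx
  have hn : T ∈ 𝓝 x := hR.frm.op.mem_nhds hx
  have hθ : ContDiffAt ℝ ∞ R.θ x := hR.frm.θs.contDiffAt hn
  have hα : DifferentiableAt ℝ R.α x := (hR.αs.contDiffAt hn).differentiableAt (by simp)
  have hβ : DifferentiableAt ℝ R.β x := (hR.βs.contDiffAt hn).differentiableAt (by simp)
  have h : ∀ᶠ y in 𝓝 x, IsLC R.θ (R.α y) (R.β y) y := Filter.mem_of_superset hn hR.lc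
  refine ⟨⟨fun a b => re_cur hα (h.mono fun y hy => hy.ima) _ _,
    fun a b => re_cur hβ (h.mono fun y hy => hy.imb) _ _, fun a b => cur_anti _ _ _ _,
    fun a b => cur_anti _ _ _ _, fun a b c => ?_⟩, fun κ a b => ?_⟩
  · have h1 := cyc hθ hα hβ h (fr R.e a x) (fr R.e b x) (fr R.e c x)
    have h2 : ∀ a, R.θ x (fr R.e a x) = ε a := fun a => hR.frm.θe x hx _
    rw [h2, h2, h2] at h1
    exact h1
  · cases κ
    · have h0 : ∀ u v, cur (0 : E4 → E4 →L[ℝ] ℍ) x u v = 0 := fun u v => by simp [cur]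
      exact (cur_con hα hβ (differentiableAt_const 0) _ _).trans (congrArg _ (h0 _ _))
    · exact cur_con hα hβ hα _ _
    · exact cur_con hα hβ hβ _ _

end Pool.Agent.MP_e1dc65_gt.A

end
end MrgPart0

-- ======== part 1: formerly Pool.Agent.MP_e1dc65_gt.a.Dloc
section MrgPart1

/-! PROJECT HC, part A, row DLOC: the Dirac operators on one-forms in a chart. -/

set_option maxSynthPendingDepth 3

open scoped Quaternion ContDiff Topology RealInnerProductSpace
open Set Filter MeasureTheory Pool.Agent.MP_c8d41b_gt.GF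

noncomputable section

namespace Pool.Agent.MP_e1dc65_gt.A

namespace Dloc
open Bia'

/-- the value of a form on one vector as a bilinear map -/
def ev1 : E4 →L[ℝ] Lam E4 →L[ℝ] ℝ := bil (ctrL.compr₂ ExteriorAlgebra.algebraMapInv.toLinearMap)

theorem ev1_apply (u : E4) (a : Lam E4) : ev1 u a = ev [u] a := rfl

theorem ev_ι (u : E4) (l : E4 →L[ℝ] ℝ) : ev [u] (ExteriorAlgebra.ι ℝ l) = l u := by
  simp [ev, ctr_ι]

theorem ev2_ι_mul (u w : E4) (l : E4 →L[ℝ] ℝ) (a : Lam E4) :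
    ev [u, w] (ExteriorAlgebra.ι ℝ l * a) = l u * ev [w] a - l w * ev [u] a := by
  simp [ev, ctr_ι_mul, ExteriorAlgebra.algebraMapInv]

theorem ev2_dL (u w : E4) (T : E4 →L[ℝ] Lam E4) :
    ev [u, w] (dL T) = ev [w] (T u) - ev [u] (T w) := by
  have h : ∀ u w, ∑ i, (LinearMap.toContinuousLinearMap ((Module.finBasis ℝ E4).coord i)) u *
      ev [w] (T (Module.finBasis ℝ E4 i)) = ev [w] (T u) := fun u w => by
    conv_rhs => rw [← (Module.finBasis ℝ E4).sum_repr u]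
    simp only [map_sum, map_smul, ev_eq, smul_eq_mul]
    rfl
  rw [dL_apply, ev_eq, map_sum]
  simp only [← ev_eq, ev2_ι_mul, Finset.sum_sub_distrib, h]

theorem inner_vec (e : ℍ →L[ℝ] E4) (a : Lam E4) (z : ℍ) : ⟪vec e a, z⟫ = ev [e z] a := by
  conv_rhs => rw [← sum_co' z]
  simp only [vec, sum_inner, real_inner_smul_left, ← ev1_apply, map_sum, map_smul,
    sum_apply, smul_apply, smul_eq_mul, co, innerSL_apply_apply]
  exact Finset.sum_congr rfl fun a _ => mul_comm _ _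

theorem diff_vec {e : E4 → ℍ →L[ℝ] E4} {η : E4 → Lam E4} {x : E4} (he : DifferentiableAt ℝ e x)
    (hη : DifferentiableAt ℝ η x) : DifferentiableAt ℝ (fun y => vec (e y) (η y)) x := by
  refine DifferentiableAt.fun_sum fun a _ => DifferentiableAt.smul_const ?_ _
  exact (ev1.differentiableAt.comp x (hf_ap he (ε a)).differentiableAt).clm_apply hη

/-- the exterior derivative through the covariant derivative -/
theorem ev2_dd {R : Loc} {T : Set E4} (hR : R.Ok T) {x : E4} (hx : x ∈ T) {η : E4 → Lam E4}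
    (hη : DifferentiableAt ℝ η x) {v : E4 → ℍ} (hv : v = fun y => vec (R.e y) (η y)) (u w : E4) :
    ev [u, w] (dd η x) = ⟪fderiv ℝ v x u + (R.α x u * v x - v x * R.β x u), R.θ x w⟫ -
      ⟪fderiv ℝ v x w + (R.α x w * v x - v x * R.β x w), R.θ x u⟫ := by
  have hn : T ∈ 𝓝 x := hR.frm.op.mem_nhds hx
  have dθ : DifferentiableAt ℝ R.θ x := (hR.frm.θs.contDiffAt hn).differentiableAt (by simp)
  have dv : DifferentiableAt ℝ v x :=
    hv ▸ diff_vec ((hR.frm.es.contDiffAt hn).differentiableAt (by simp)) hη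
  have h1 : ∀ u w, ev [w] (fderiv ℝ η x u) =
      ⟪v x, fderiv ℝ R.θ x u w⟫ + ⟪fderiv ℝ v x u, R.θ x w⟫ := fun u w => by
    have a1 : HasDerivAt (fun t : ℝ => ev1 w (η (x + t • u))) (ev1 w (fderiv ℝ η x u)) 0 :=
      hd_line ((ev1 w).hasFDerivAt.comp x hη.hasFDerivAt) u
    have a2 := (hd_line dv.hasFDerivAt u).inner ℝ (hd_line (hf_ap dθ w) u)
    have a3 : ∀ᶠ y in 𝓝 x, ev1 w (η y) = ⟪v y, R.θ y w⟫ := Filter.mem_of_superset hn fun y hy => by
      show ev1 w (η y) = ⟪v y, R.θ y w⟫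
      rw [hv, inner_vec, hR.frm.eθ y hy, ev1_apply]
    simpa only [zero_smul, add_zero, ev1_apply, ContinuousLinearMap.flip_apply] using
      a1.unique (a2.congr_of_eventuallyEq (ev_line a3 u))
  have h2 : ∀ u z, ⟪R.α x u * v x - v x * R.β x u, z⟫ = -⟪v x, R.α x u * z - z * R.β x u⟫ :=
    fun u z => by
      rw [inner_sub_left, inner_mul_left, inner_mul_right, star_im ((hR.lc x hx).ima u),
        star_im ((hR.lc x hx).imb u), neg_mul, mul_neg, inner_neg_right, inner_neg_right,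
        inner_sub_right]
      ring
  have h3 := congrArg (fun z => ⟪v x, z⟫) ((hR.lc x hx).tf u w)
  simp only [inner_zero_right] at h3
  rw [inner_sub_right, inner_add_right, inner_sub_right (v x) (fderiv ℝ R.θ x u w)] at h3
  rw [dd_eq, ev2_dL, h1, h1, inner_add_left, inner_add_left, h2, h2]
  linarith

theorem sd_eq (n : Fin 4 → ℍ) : (∑ a, ε a * star (n a)).im =
    (1 / 2 : ℝ) • ∑ a, ∑ b, (⟪n a, ε b⟫ - ⟪n b, ε a⟫) • (ε a * star (ε b)) := by
  ext <;> simp [Fin.sum_univ_four, ε_0, ε_1, ε_2, ε_3, inner_H] <;> ring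

theorem asd_eq (n : Fin 4 → ℍ) : (∑ a, star (ε a) * n a).im =
    (1 / 2 : ℝ) • ∑ a, ∑ b, (⟪n a, ε b⟫ - ⟪n b, ε a⟫) • (star (ε a) * ε b) := by
  ext <;> simp [Fin.sum_univ_four, ε_0, ε_1, ε_2, ε_3, inner_H] <;> ring

theorem fderiv_wk {p q : E4 → ℍ} {p' q' : E4 →L[ℝ] ℍ} {x : E4} (hp : HasFDerivAt p p' x)
    (hq : HasFDerivAt q q' x) (u : E4) :
    fderiv ℝ (fun y => wk (p y) (q y)) x u = wk (p' u) (q' u) := by
  have h : HasFDerivAt (fun y => wk (p y) (q y))
      (((WithLp.prodContinuousLinearEquiv 2 ℝ ℍ ℍ).symm : ℍ × ℍ →L[ℝ] W).comp (p'.prod q')) x :=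
    ((WithLp.prodContinuousLinearEquiv 2 ℝ ℍ ℍ).symm : ℍ × ℍ →L[ℝ] W).hasFDerivAt.comp x
      (hp.prodMk hq)
  rw [h.fderiv]
  rfl

theorem dir_fst (R : Loc) (κ : Tw) (s : E4 → W) (x : E4) :
    (R.dir κ s x).fst = ∑ a, ε a * (cov (R.om κ) (fr R.e a) s x).snd := by
  simp [Loc.dir, Fin.sum_univ_four, cl_apply]

theorem dir_snd (R : Loc) (κ : Tw) (s : E4 → W) (x : E4) :
    (R.dir κ s x).snd = -∑ a, star (ε a) * (cov (R.om κ) (fr R.e a) s x).fst := by
  simp [Loc.dir, Fin.sum_univ_four, cl_apply]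
  abel

end Dloc

open Dloc in
theorem dloc : DlocStmt := by
  intro R T hR x hx
  have hθ : ∀ a, R.θ x (R.e x (ε a)) = ε a := fun a => hR.frm.θe x hx _
  refine ⟨fun η hη _ => ?_, fun f hf => ?_⟩
  · obtain ⟨v, hv⟩ : ∃ v : E4 → ℍ, v = fun y => vec (R.e y) (η y) := ⟨_, rfl⟩
    have dv : DifferentiableAt ℝ v x := hv ▸ diff_vec
      ((hR.frm.es.contDiffAt (hR.frm.op.mem_nhds hx)).differentiableAt (by simp)) hη
    have h0 : HasFDerivAt (fun _ : E4 => (0 : ℍ)) (0 : E4 →L[ℝ] ℍ) x := hasFDerivAt_const _ _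
    have hs : HasFDerivAt (fun y => star (v y)) (starL'.comp (fderiv ℝ v x)) x :=
      starL'.hasFDerivAt.comp x dv.hasFDerivAt
    have e1 : (fun y => wk 0 (star (vec (R.e y) (η y)))) = fun y => wk 0 (star (v y)) := by rw [hv]
    have e2 : (fun y => wk (vec (R.e y) (η y)) 0) = fun y => wk (v y) 0 := by rw [hv]
    simp only [sd, asd, ev2_dd hR hx hη hv, hθ]
    rw [e1, e2, ← sd_eq fun a => fderiv ℝ v x (R.e x (ε a)) + _,
      ← asd_eq fun a => fderiv ℝ v x (R.e x (ε a)) + _, dir_fst, dir_snd, Quaternion.im_neg, neg_neg]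
    refine ⟨congrArg _ (Finset.sum_congr rfl fun a _ => congrArg _ ?_),
      congrArg _ (Finset.sum_congr rfl fun a _ => congrArg _ ?_)⟩
    · rw [cov, fderiv_wk h0 hs, Loc.om, con_apply, lie_apply]
      simp [fr, Loc.γ, Tw.sel, starL'_apply, star_im ((hR.lc x hx).ima _),
        star_im ((hR.lc x hx).imb _)]
      abel
    · rw [cov, fderiv_wk dv.hasFDerivAt h0, Loc.om, con_apply, lie_apply]
      rfl
  · have h0 : HasFDerivAt (fun _ : E4 => (0 : ℍ)) (0 : E4 →L[ℝ] ℍ) x := hasFDerivAt_const _ _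
    have h1 : HasFDerivAt (fun y => (f y : ℍ)) ((fderiv ℝ f x).smulRight 1) x := by
      simpa only [Quaternion.smul_coe, ← Quaternion.coe_one, mul_one] using
        hf.hasFDerivAt.smul_const (1 : ℍ)
    rw [dir_fst, vec]
    refine Finset.sum_congr rfl fun a _ => ?_
    rw [cov, fderiv_wk h0 h1, Loc.om, con_apply, lie_apply, ev_ι]
    simp [fr, Loc.γ, Tw.sel, Quaternion.coe_commutes]

end Pool.Agent.MP_e1dc65_gt.A

end
end MrgPart1

-- marker of a merged file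
example : 731051 + 898471 = 731051 + 898471 := rfl

end MrgPart0

-- ======== part 1: formerly Pool.Agent.MP_e1dc65_gt.a.Dict
section MrgPart1

/-! PROJECT HC, part A: the dictionary between forms and quaternion valued functions. -/

set_option maxSynthPendingDepth 3

open scoped Quaternion ContDiff Topology RealInnerProductSpace
open Set Filter MeasureTheory Metric Pool.Agent.MP_c8d41b_gt.GF

noncomputable section

namespace Pool.Agent.MP_e1dc65_gt.A

namespace Dict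

theorem vec_mp (e : ℍ →L[ℝ] E4) (L : E4 →L[ℝ] E4) (a : Lam E4) :
    vec e (mp L a) = vec (L.comp e) a := by simp [vec, ev_mp]
theorem sd_mp (e : ℍ →L[ℝ] E4) (L : E4 →L[ℝ] E4) (a : Lam E4) :
    sd e (mp L a) = sd (L.comp e) a := by simp [sd, ev_mp]
theorem asd_mp (e : ℍ →L[ℝ] E4) (L : E4 →L[ℝ] E4) (a : Lam E4) :
    asd e (mp L a) = asd (L.comp e) a := by simp [asd, ev_mp]

theorem vec_sub (e : ℍ →L[ℝ] E4) (a b : Lam E4) : vec e (a - b) = vec e a - vec e b := by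
  simp only [vec, ev_sub, sub_smul, Finset.sum_sub_distrib]
theorem sd_sub (e : ℍ →L[ℝ] E4) (a b : Lam E4) : sd e (a - b) = sd e a - sd e b := by
  simp only [sd, ev_sub, sub_smul, Finset.sum_sub_distrib, smul_sub]
theorem asd_sub (e : ℍ →L[ℝ] E4) (a b : Lam E4) : asd e (a - b) = asd e a - asd e b := by
  simp only [asd, ev_sub, sub_smul, Finset.sum_sub_distrib, smul_sub]

section
variable {e : E4 → ℍ →L[ℝ] E4} {α : E4 → Lam E4} {y : E4}

theorem cda_ev1 (he : ContDiffAt ℝ ∞ e y) (h : ContDiffAt ℝ ∞ α y) (a : ℍ) :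
    ContDiffAt ℝ ∞ (fun z => ev [e z a] (α z)) y :=
  cda_lin ExteriorAlgebra.algebraMapInv.toLinearMap (cda_ctr (he.clm_apply contDiffAt_const) h)

theorem cda_ev2 (he : ContDiffAt ℝ ∞ e y) (h : ContDiffAt ℝ ∞ α y) (a b : ℍ) :
    ContDiffAt ℝ ∞ (fun z => ev [e z a, e z b] (α z)) y :=
  cda_ev1 he (cda_ctr (he.clm_apply contDiffAt_const) h) b

theorem cda_vec (he : ContDiffAt ℝ ∞ e y) (h : ContDiffAt ℝ ∞ α y) :
    ContDiffAt ℝ ∞ (fun z => vec (e z) (α z)) y :=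
  ContDiffAt.sum fun _ _ => (cda_ev1 he h _).smul contDiffAt_const

theorem cda_sd (he : ContDiffAt ℝ ∞ e y) (h : ContDiffAt ℝ ∞ α y) :
    ContDiffAt ℝ ∞ (fun z => sd (e z) (α z)) y :=
  (ContDiffAt.sum fun _ _ => ContDiffAt.sum fun _ _ =>
    (cda_ev2 he h _ _).smul contDiffAt_const).const_smul _

theorem cda_asd (he : ContDiffAt ℝ ∞ e y) (h : ContDiffAt ℝ ∞ α y) :
    ContDiffAt ℝ ∞ (fun z => asd (e z) (α z)) y :=
  (ContDiffAt.sum fun _ _ => ContDiffAt.sum fun _ _ =>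
    (cda_ev2 he h _ _).smul contDiffAt_const).const_smul _

end

theorem dir_congr (R : Loc) (κ : Tw) {s s' : E4 → W} {y : E4} (h : s =ᶠ[𝓝 y] s') :
    R.dir κ s y = R.dir κ s' y := by
  simp only [Loc.dir, cov, h.fderiv_eq, h.eq_of_nhds]

theorem re_conj {p u : ℍ} (h : u.re = 0) : (p * u * star p).re = 0 := by
  simp [h]; ring

theorem conj_coe {q : ℍ} (h : ‖q‖ = 1) (r : ℝ) : q * (r : ℍ) * star q = r := by
  rw [← Quaternion.coe_commutes, mul_assoc, mul_star_unit h, mul_one]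

/-- the two-form with given self-dual and anti-self-dual parts -/
def two (θ : E4 →L[ℝ] ℍ) (u w : ℍ) : Lam E4 := (1 / 4 : ℝ) • ∑ a, ∑ b,
  (⟪u, ε a * star (ε b)⟫ + ⟪w, star (ε a) * ε b⟫) •
    (ExteriorAlgebra.ι ℝ ((co a).comp θ) * ExteriorAlgebra.ι ℝ ((co b).comp θ))

theorem cda_two {θ : E4 → E4 →L[ℝ] ℍ} {u w : E4 → ℍ} {y : E4} (hθ : ContDiffAt ℝ ∞ θ y)
    (hu : ContDiffAt ℝ ∞ u y) (hw : ContDiffAt ℝ ∞ w y) :
    ContDiffAt ℝ ∞ (fun z => two (θ z) (u z) (w z)) y :=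
  (ContDiffAt.sum fun _ _ => ContDiffAt.sum fun _ _ =>
    ((hu.inner ℝ contDiffAt_const).add (hw.inner ℝ contDiffAt_const)).smul
      (cda_mul (cda_ι (contDiffAt_const.clm_comp hθ))
        (cda_ι (contDiffAt_const.clm_comp hθ)))).const_smul _

variable {X : Mf E4} [CompactSpace X] {o : X → Lam E4} {G : Geo (spc X)}

/-- a form read in the chart `i` -/
abbrev lo (G : Geo (spc X)) (i : Fin G.n) (α : X → Lam E4) : E4 → Lam E4 :=
  pbM (vs E4) X (G.ch i).symm α

/-- a form on the chart `i` pulled back to the manifold -/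
abbrev up (G : Geo (spc X)) (i : Fin G.n) (α : E4 → Lam E4) : X → Lam E4 :=
  pbM X (vs E4) (G.ch i) α

/-- the frame of the chart `i` on the manifold -/
def fi (G : Geo (spc X)) (i : Fin G.n) (y : E4) : ℍ →L[ℝ] E4 :=
  (Df (vs E4) X (G.ch i).symm y).comp ((G.R i).e y)

variable (B : Br o G) {i : Fin G.n}
include B

theorem D1 {y : E4} (hy : y ∈ G.T i) : (Df X (vs E4) (G.ch i) ((G.ch i).symm y)).comp
    (Df (vs E4) X (G.ch i).symm y) = ContinuousLinearMap.id ℝ E4 := by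
  rw [← Df_comp (X := vs E4) (Y := X) (Z := vs E4) ((B.oe' i).sm y hy)
    ((B.oe i).sm _ ((G.ch i).map_target hy)),
    Df_congr (X := vs E4) (Y := vs E4) (f' := fun y => y) ((G.ch i).eventually_right_inverse hy),
    Df_id]

theorem D2 {y : E4} (hy : y ∈ G.T i) : (Df (vs E4) X (G.ch i).symm y).comp
    (Df X (vs E4) (G.ch i) ((G.ch i).symm y)) = ContinuousLinearMap.id ℝ E4 := by
  have hx := (G.ch i).map_target hy
  have := Df_comp (X := X) (Y := vs E4) (Z := X) (f := G.ch i) (g := (G.ch i).symm)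
    ((B.oe i).sm _ hx) ((B.oe' i).sm _ ((G.ch i).map_source hx))
  rw [Df_congr (X := X) (Y := X) (f' := fun y => y) ((G.ch i).eventually_left_inverse hx), Df_id,
    (G.ch i).right_inv hy] at this
  exact this.symm

theorem cf_fi {y : E4} (hy : y ∈ G.T i) (v : ℍ) : G.cf i ((G.ch i).symm y) (fi G i y v) = v := by
  have := DFunLike.congr_fun (D1 B hy) ((G.R i).e y v)
  simp only [ContinuousLinearMap.comp_apply, ContinuousLinearMap.id_apply] at this
  simp only [Geo.cf, fi, ContinuousLinearMap.comp_apply, this, (G.ch i).right_inv hy]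
  exact (B.ok.loc i).frm.θe y hy v

theorem fi_cf {y : E4} (hy : y ∈ G.T i) (v : E4) : fi G i y (G.cf i ((G.ch i).symm y) v) = v := by
  simp only [Geo.cf, fi, ContinuousLinearMap.comp_apply, (G.ch i).right_inv hy,
    (B.ok.loc i).frm.eθ y hy]
  exact DFunLike.congr_fun (D2 B hy) v

theorem mem_T (x : X) : G.ch (G.c x) x ∈ G.T (G.c x) := (G.ch _).map_source (B.ok.mem x)
theorem left (x : X) : (G.ch (G.c x)).symm (G.ch (G.c x) x) = x := (G.ch _).left_inv (B.ok.mem x)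

theorem fm_eq (x : X) : G.fm x = fi G (G.c x) (G.ch (G.c x) x) := by
  have a := cf_fi B (mem_T B x)
  have b := fi_cf B (mem_T B x)
  rw [left B] at a b
  exact ContinuousLinearMap.inverse_eq (ContinuousLinearMap.ext a) (ContinuousLinearMap.ext b)

theorem cf_fm (x : X) (v : ℍ) : G.cf (G.c x) x (G.fm x v) = v := by
  have a := cf_fi B (mem_T B x) v
  rwa [left B, ← fm_eq B] at a

theorem fm_cf (x : X) (v : E4) : G.fm x (G.cf (G.c x) x v) = v := by
  have a := fi_cf B (mem_T B x) v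
  rwa [left B, ← fm_eq B] at a

omit B in
/-- the transition quaternions at the point with coordinate `y` -/
abbrev pp (G : Geo (spc X)) (i : Fin G.n) (y : E4) : ℍ :=
  G.p i (G.c ((G.ch i).symm y)) ((G.ch i).symm y)

omit B in
/-- the transition quaternions at the point with coordinate `y` -/
abbrev qq (G : Geo (spc X)) (i : Fin G.n) (y : E4) : ℍ :=
  G.q i (G.c ((G.ch i).symm y)) ((G.ch i).symm y)

theorem q1 {y : E4} (hy : y ∈ G.T i) : ‖qq G i y‖ = 1 :=
  B.ok.q1 _ _ _ ⟨(G.ch i).map_target hy, B.ok.mem _⟩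

theorem chg (h1 : AlgbStmt) {y : E4} (hy : y ∈ G.T i) :
    (∀ η ∈ dg E4 1, vec (fi G i y) η =
      pp G i y * vec (G.fm ((G.ch i).symm y)) η * star (qq G i y)) ∧
    ∀ γ ∈ dg E4 2, sd (fi G i y) γ = pp G i y * sd (G.fm ((G.ch i).symm y)) γ * star (pp G i y) ∧
      asd (fi G i y) γ = qq G i y * asd (G.fm ((G.ch i).symm y)) γ * star (qq G i y) := by
  have hx : (G.ch i).symm y ∈ G.U i ∩ G.U (G.c ((G.ch i).symm y)) :=
    ⟨(G.ch i).map_target hy, B.ok.mem _⟩
  have := (h1 _ _ (cf_fm B ((G.ch i).symm y)) (fm_cf B _)).2.2.2.2.2.2.2 _ _ (fi G i y)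
    (B.ok.p1 _ _ _ hx) (B.ok.q1 _ _ _ hx) fun v => by
      have := B.rot _ _ _ hx (G.fm ((G.ch i).symm y) v)
      rw [cf_fm B] at this
      rw [← this, fi_cf B hy]
  exact ⟨this.1, this.2.1⟩

theorem cda_lo {α : X → Lam E4} {y : E4} (hy : y ∈ G.T i) (h : FmAt X α ((G.ch i).symm y)) :
    ContDiffAt ℝ ∞ (lo G i α) y := fmAt_vs.1 (h.pb (X := vs E4) ((B.oe' i).sm y hy))

theorem cda_e {y : E4} (hy : y ∈ G.T i) : ContDiffAt ℝ ∞ (G.R i).e y :=
  (B.ok.loc i).frm.es.contDiffAt ((G.ch i).open_target.mem_nhds hy)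

theorem cda_θ {y : E4} (hy : y ∈ G.T i) : ContDiffAt ℝ ∞ (G.R i).θ y :=
  (B.ok.loc i).frm.θs.contDiffAt ((G.ch i).open_target.mem_nhds hy)

theorem lo_up (α : E4 → Lam E4) {y : E4} (hy : y ∈ G.T i) : lo G i (up G i α) y = α y :=
  pbM_inv (X := vs E4) (Y := X) ((B.oe' i).sm y hy) ((B.oe i).sm _ ((G.ch i).map_target hy))
    ((G.ch i).eventually_right_inverse hy) α

theorem glue {k : ℕ} {α : Fin G.n → E4 → Lam E4}
    (h : ∀ i, ∀ y ∈ G.T i, ContDiffAt ℝ ∞ (α i) y ∧ α i y ∈ dg E4 k)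
    (e : ∀ i, ∀ y ∈ G.T i, up G (G.c ((G.ch i).symm y)) (α (G.c ((G.ch i).symm y)))
      ((G.ch i).symm y) =
      up G i (α i) ((G.ch i).symm y)) : Fm X k (fun x => up G (G.c x) (α (G.c x)) x) univ := by
  refine fun x _ => ⟨?_, pbM_dg (h _ _ (mem_T B x)).2⟩
  refine (FmAt.pb (Y := vs E4) (fmAt_vs.2 (h _ _ (mem_T B x)).1)
    ((B.oe _).sm x (B.ok.mem x))).congr' ?_
  filter_upwards [(G.ch (G.c x)).open_source.mem_nhds (B.ok.mem x)] with z hz
  have := e _ _ ((G.ch _).map_source hz)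
  rwa [(G.ch _).left_inv hz] at this

omit B in
theorem lc1 (v : X → ℍ) (y : E4) : G.lc .r i (fun x => wk (v x) 0) y =
    wk (pp G i y * v ((G.ch i).symm y) * star (qq G i y)) 0 := by
  simp [Geo.lc, Geo.g, tact, Tw.sel, act_apply]

omit B in
theorem lc2 (v : X → ℍ) (y : E4) : G.lc .l i (fun x => wk (v x) 0) y =
    wk (pp G i y * v ((G.ch i).symm y) * star (pp G i y)) 0 := by
  simp [Geo.lc, Geo.g, tact, Tw.sel, act_apply]

omit B in
theorem lc3 (v : X → ℍ) (y : E4) : G.lc .r i (fun x => wk 0 (v x)) y =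
    wk 0 (qq G i y * v ((G.ch i).symm y) * star (qq G i y)) := by
  simp [Geo.lc, Geo.g, tact, Tw.sel, act_apply]

omit B in
theorem lc4 (v : X → ℍ) (y : E4) : G.lc .l i (fun x => wk 0 (star (v x))) y =
    wk 0 (star (pp G i y * v ((G.ch i).symm y) * star (qq G i y))) := by
  simp [Geo.lc, Geo.g, tact, Tw.sel, act_apply, mul_assoc]

theorem vec_lo (h1 : AlgbStmt) {η : X → Lam E4} (h : Fm X 1 η univ) {y : E4} (hy : y ∈ G.T i) :
    pp G i y * vec (G.fm ((G.ch i).symm y)) (η ((G.ch i).symm y)) * star (qq G i y) =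
      vec ((G.R i).e y) (lo G i η y) :=
  ((chg B h1 hy).1 _ (h _ trivial).2).symm.trans (vec_mp _ _ _).symm

end Dict

open Dict

theorem dict (h1 : AlgbStmt) (h2 : DlocStmt) (_h3 : CocStmt) (h4 : SecStmt) (_h5 : SplStmt) :
    DictStmt := by
  intro X _ o G B
  have sl := (h4 _ G .l ⟨B.ok, fun h => nomatch h⟩).1
  have sr := (h4 _ G .r ⟨B.ok, fun h => nomatch h⟩).1
  have nh : ∀ {i y}, y ∈ G.T i → G.T i ∈ 𝓝 y := fun h => (G.ch _).open_target.mem_nhds h
  have al : ∀ {i y} (h : y ∈ G.T i), _ := fun {i y} h =>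
    h1 _ _ ((B.ok.loc i).frm.θe y h) ((B.ok.loc i).frm.eθ y h)
  have am : ∀ {i y} (h : y ∈ G.T i), _ := fun {i y} h => h1 _ _ (cf_fi B h) (fi_cf B h)
  refine ⟨fun η h i => ?_, fun v hv => ?_, fun γ h => ?_, fun u w hu hw => ?_, fun η h x => ?_,
    fun f hf => ?_⟩
  · refine ContDiffOn.congr (fun y hy => (cda_wk (cda_vec (cda_e B hy)
      (cda_lo B hy (h _ trivial).1)) (contDiffAt_const (c := 0))).contDiffWithinAt) fun y hy => ?_
    rw [lc1, vec_lo B h1 h hy]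
  · let α : Fin G.n → E4 → Lam E4 := fun i y => ExteriorAlgebra.ι ℝ
      ((innerSL ℝ (G.lc .r i (fun x => wk (v x) 0) y).fst).comp ((G.R i).θ y))
    have a1 : ∀ i, ∀ y ∈ G.T i, vec (fi G i y) (up G i (α i) ((G.ch i).symm y)) =
        (G.lc .r i (fun x => wk (v x) 0) y).fst := fun i y hy =>
      (vec_mp _ _ _).symm.trans ((congrArg _ (lo_up B (α i) hy)).trans ((al hy).2.2.2.1 _))
    have a2 : ∀ x, vec (G.fm x) (up G (G.c x) (α (G.c x)) x) = v x := fun x => by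
      have := a1 _ _ (mem_T B x)
      rwa [left B, ← fm_eq B, sr] at this
    refine ⟨_, glue B (α := α) (fun i y hy => ⟨cda_ι (ContDiffAt.clm_comp (cda_clm (innerSL ℝ)
      (cda_fst ((hv i).contDiffAt (nh hy)))) (cda_θ B hy)), dg_ι _⟩) fun i y hy => ?_, a2⟩
    have d : ∀ j, up G j (α j) ((G.ch i).symm y) ∈ dg E4 1 := fun j => pbM_dg (dg_ι _)
    refine sub_eq_zero.1 ((am hy).2.1 _ (sub_mem (d _) (d _)) ?_)
    rw [vec_sub, a1 i y hy, (chg B h1 hy).1 _ (d _), a2, lc1, wk_fst, sub_self]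
  · have r := fun x => (h1 _ _ (cf_fm B x) (fm_cf B x)).1 _ (h x trivial).2
    refine ⟨⟨fun x => (r x).1, fun i => ?_⟩, fun x => (r x).2.1, fun i => ?_⟩
    · refine ContDiffOn.congr (fun y hy => (cda_wk (cda_sd (cda_e B hy)
        (cda_lo B hy (h _ trivial).1)) (contDiffAt_const (c := 0))).contDiffWithinAt) fun y hy => ?_
      rw [lc2, ← ((chg B h1 hy).2 _ (h _ trivial).2).1]
      exact congrArg (wk · 0) (sd_mp _ _ _).symm
    · refine ContDiffOn.congr (fun y hy => (cda_wk (contDiffAt_const (c := 0)) (cda_asd (cda_e B hy)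
        (cda_lo B hy (h _ trivial).1))).contDiffWithinAt) fun y hy => ?_
      rw [lc3, ← ((chg B h1 hy).2 _ (h _ trivial).2).2]
      exact congrArg (wk 0 ·) (asd_mp _ _ _).symm
  · let α : Fin G.n → E4 → Lam E4 := fun i y => two ((G.R i).θ y)
      (G.lc .l i (fun x => wk (u x) 0) y).fst (G.lc .r i (fun x => wk 0 (w x)) y).snd
    have a0 : ∀ i, ∀ y ∈ G.T i, _ := fun i y hy => (al hy).2.2.2.2.2.1
      (G.lc .l i (fun x => wk (u x) 0) y).fst (G.lc .r i (fun x => wk 0 (w x)) y).snd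
      (by rw [lc2]; exact re_conj (hu.1 _)) (by rw [lc3]; exact re_conj (hw.1 _)) (α i y) rfl
    have a1 : ∀ i, ∀ y ∈ G.T i, sd (fi G i y) (up G i (α i) ((G.ch i).symm y)) =
        (G.lc .l i (fun x => wk (u x) 0) y).fst ∧ asd (fi G i y) (up G i (α i) ((G.ch i).symm y)) =
        (G.lc .r i (fun x => wk 0 (w x)) y).snd := fun i y hy =>
      ⟨(sd_mp _ _ _).symm.trans ((congrArg _ (lo_up B (α i) hy)).trans (a0 i y hy).2.1),
        (asd_mp _ _ _).symm.trans ((congrArg _ (lo_up B (α i) hy)).trans (a0 i y hy).2.2)⟩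
    have a2 : ∀ x, sd (G.fm x) (up G (G.c x) (α (G.c x)) x) = u x ∧
        asd (G.fm x) (up G (G.c x) (α (G.c x)) x) = w x := fun x => by
      have := a1 _ _ (mem_T B x)
      rwa [left B, ← fm_eq B, sl, sr] at this
    refine ⟨_, glue B (α := α) (fun i y hy => ⟨cda_two (cda_θ B hy)
      (cda_fst ((hu.2 i).contDiffAt (nh hy))) (cda_snd ((hw.2 i).contDiffAt (nh hy))),
      (a0 i y hy).1⟩) fun i y hy => ?_, a2⟩
    have d1 : up G i (α i) ((G.ch i).symm y) ∈ dg E4 2 :=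
      pbM_dg (a0 _ _ ((G.ch i).map_source ((G.ch i).map_target hy))).1
    have d2 : up G (G.c ((G.ch i).symm y)) (α (G.c ((G.ch i).symm y)))
      ((G.ch i).symm y) ∈ dg E4 2 :=
      pbM_dg (a0 _ _ (mem_T B _)).1
    refine sub_eq_zero.1 ((am hy).2.2.1 _ (sub_mem d2 d1) ?_ ?_)
    · rw [sd_sub, (a1 i y hy).1, ((chg B h1 hy).2 _ d2).1, (a2 _).1, lc2, wk_fst, sub_self]
    · rw [asd_sub, (a1 i y hy).2, ((chg B h1 hy).2 _ d2).2, (a2 _).2, lc3, wk_snd, sub_self]
  · have hy := mem_T B x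
    have d := (h2 _ _ (B.ok.loc _) _ hy).1 (lo G (G.c x) η)
      ((cda_lo B hy (h _ trivial).1).differentiableAt (by simp))
      (Eventually.of_forall fun y => pbM_dg (h _ trivial).2)
    have e : dd (lo G (G.c x) η) (G.ch (G.c x) x) = lo G (G.c x) (dM X η) (G.ch (G.c x) x) := by
      rw [← dM_vs]
      exact dM_pb (X := vs E4) ((B.oe' _).sm _ hy) (h _ trivial).1
    rw [e] at d
    have d1 := d.1.trans (sd_mp _ _ _)
    have d2 := d.2.trans (asd_mp _ _ _)
    rw [left B] at d1 d2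
    rw [fm_eq B]
    refine ⟨Eq.trans ?_ d1, Eq.trans ?_ d2⟩
    · rw [Geo.dp, Geo.dir, dir_congr]
      filter_upwards [nh hy] with y hy
      rw [lc4, vec_lo B h1 h hy]
    · rw [Geo.dm, Geo.dir, dir_congr]
      filter_upwards [nh hy] with y hy
      rw [lc1, vec_lo B h1 h hy]
  · have s : Sm X (vs ℝ) f univ := fun x _ => by
      refine (((B.oe _).sm x (B.ok.mem x)).vcomp
        ((hf (G.c x)).contDiffAt (nh (mem_T B x)))).congr' ?_
      filter_upwards [(G.ch (G.c x)).eventually_left_inverse (B.ok.mem x)] with z hz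
      rw [hz]
    refine ⟨s, fun x => ?_⟩
    have hy := mem_T B x
    have d := (h2 _ _ (B.ok.loc _) _ hy).2 _
      (((hf (G.c x)).contDiffAt (nh hy)).differentiableAt (by simp))
    rw [← dF_vs, ← pbM_dF (X := vs E4) (Y := X) ((B.oe' _).sm _ hy) (s _ trivial), pbM, vec_mp,
      left B] at d
    rw [fm_eq B]
    refine Eq.trans ?_ d
    rw [Geo.gr, Geo.dir, dir_congr]
    filter_upwards [nh hy] with y hy
    rw [lc3, conj_coe (q1 B hy)]

end Pool.Agent.MP_e1dc65_gt.A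

end
end MrgPart1

-- marker of a merged file
example : 731051 + 732200 = 731051 + 732200 := rfl
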