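import Mathlib.Analysis.Calculus.BumpFunction.InnerProduct
import Pool.Agent.MP_e1dc65_gt.b.Adapt

/-! PROJECT HC, part A: expansion of a Laplace type operator in linear coordinates. -/

set_option maxSynthPendingDepth 3

open scoped Quaternion ContDiff Topology RealInnerProductSpace
open Set Filter MeasureTheory Metric

noncomputable section

namespace Pool.Agent.MP_e1dc65_gt.A

namespace Exp

theorem sum_co (z : ℍ) : ∑ b, co b z • ε b = z := ε.sum_repr' z

theorem co_eps (b c : Fin 4) : co b (ε c) = if b = c then 1 else 0 := by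
  have := orthonormal_iff_ite.1 ε.orthonormal b c
  simpa [co] using this

section gen
variable {Y B : Type} [NormedAddCommGroup Y] [NormedSpace ℝ Y] [NormedAddCommGroup B]
  [NormedSpace ℝ B]

theorem pd_smooth {F : Y × ℍ → B} (hF : ContDiff ℝ ∞ F) (b : Fin 4) : ContDiff ℝ ∞ (pd b F) :=
  (hF.fderiv_right (m := ∞) le_rfl).clm_apply contDiff_const

theorem fd_pd (F : Y × ℍ → B) (p : Y × ℍ) (z : ℍ) :
    fderiv ℝ F p (0, z) = ∑ b, co b z • pd b F p := by
  have h : ((0 : Y), z) = ∑ b, co b z • ((0 : Y), ε b) := by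
    ext1
    · simp [Prod.fst_sum]
    · simp [Prod.snd_sum, sum_co]
  rw [h, map_sum]
  simp only [map_smul, pd]

theorem pull_smooth {F : Y × ℍ → B} (hF : ContDiff ℝ ∞ F) (η : Y) (A : E4 →L[ℝ] ℍ) (y : E4) :
    ContDiff ℝ ∞ fun x => F (η, A (x - y)) :=
  hF.comp (contDiff_const.prodMk (A.contDiff.comp (contDiff_id.sub contDiff_const)))

theorem pull_fd {F : Y × ℍ → B} (hF : ContDiff ℝ ∞ F) (η : Y) (A : E4 →L[ℝ] ℍ) (y x v : E4) :
    fderiv ℝ (fun x => F (η, A (x - y))) x v = ∑ b, co b (A v) • pd b F (η, A (x - y)) := by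
  have h1 : HasFDerivAt (fun x : E4 => ((η, A (x - y)) : Y × ℍ))
      ((0 : E4 →L[ℝ] Y).prod (A.comp (ContinuousLinearMap.id ℝ E4))) x :=
    (hasFDerivAt_const η x).prodMk (A.hasFDerivAt.comp x ((hasFDerivAt_id x).sub_const y))
  have h2 := ((hF.differentiable (by simp)) (η, A (x - y))).hasFDerivAt.comp x h1
  have h3 : fderiv ℝ (fun x => F (η, A (x - y))) x = _ := h2.fderiv
  rw [h3, ← fd_pd]
  simp

end gen

section gen2
variable {V : Type} [NormedAddCommGroup V] [NormedSpace ℝ V]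

theorem fd_app {K : E4 → V →L[ℝ] V} {s : E4 → V} {x : E4} (hK : DifferentiableAt ℝ K x)
    (hs : DifferentiableAt ℝ s x) (v : E4) :
    fderiv ℝ (fun x => K x (s x)) x v = fderiv ℝ K x v (s x) + K x (fderiv ℝ s x v) := by
  rw [fderiv_clm_apply hK hs]
  simp [add_comm]

theorem fd_app_const {K : E4 → V →L[ℝ] V} {x : E4} (hK : DifferentiableAt ℝ K x) (w : V) (v : E4) :
    fderiv ℝ (fun x => K x w) x v = fderiv ℝ K x v w := by
  rw [fd_app hK (differentiableAt_const w)]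
  simp

variable {Y : Type} [NormedAddCommGroup Y] [NormedSpace ℝ Y]

theorem fd1 {k : Y × ℍ → V →L[ℝ] V} (hk : ContDiff ℝ ∞ k) (η : Y) (A : E4 →L[ℝ] ℍ) (y x v : E4)
    (w : V) : fderiv ℝ (fun x => k (η, A (x - y)) w) x v =
      ∑ b, co b (A v) • pd b k (η, A (x - y)) w := by
  rw [fd_app_const ((pull_smooth hk η A y).differentiable (by simp) x), pull_fd hk]
  simp

/-- the second covariant derivative along one vector field -/
theorem fd2 {k : Y × ℍ → V →L[ℝ] V} (hk : ContDiff ℝ ∞ k) (η : Y) (A : E4 →L[ℝ] ℍ) (y x : E4)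
    (w : V) {X : E4 → E4} (hX : DifferentiableAt ℝ X x) {N : E4 → V →L[ℝ] V}
    (hN : DifferentiableAt ℝ N x) (v : E4) :
    fderiv ℝ (fun x => fderiv ℝ (fun x => k (η, A (x - y)) w) x (X x) +
      N x (k (η, A (x - y)) w)) x v =
    (∑ c, (co c (A (fderiv ℝ X x v)) • pd c k (η, A (x - y)) w +
      co c (A (X x)) • ∑ b, co b (A v) • pd b (pd c k) (η, A (x - y)) w)) +
      (fderiv ℝ N x v (k (η, A (x - y)) w) + N x (∑ b, co b (A v) • pd b k (η, A (x - y)) w)) := by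
  have hd : ∀ {k : Y × ℍ → V →L[ℝ] V}, ContDiff ℝ ∞ k →
      DifferentiableAt ℝ (fun x => k (η, A (x - y)) w) x := fun hk =>
    ((pull_smooth hk η A y).differentiable (by simp) x).clm_apply (differentiableAt_const w)
  have hc : ∀ c, DifferentiableAt ℝ (fun x => co c (A (X x))) x := fun c =>
    ((co c).comp A).differentiableAt.comp x hX
  have hc' : ∀ c, fderiv ℝ (fun x => co c (A (X x))) x v = co c (A (fderiv ℝ X x v)) := fun c => by
    have h : fderiv ℝ (fun x => co c (A (X x))) x = _ :=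
      (((co c).comp A).hasFDerivAt.comp x hX.hasFDerivAt).fderiv
    rw [h]; rfl
  simp only [fd1 hk]
  rw [fderiv_fun_add (DifferentiableAt.fun_sum fun c _ => (hc c).fun_smul (hd (pd_smooth hk c)))
    (hN.clm_apply (hd hk)), add_apply, fd_app hN (hd hk), fd1 hk,
    fderiv_fun_sum fun c _ => (hc c).fun_smul (hd (pd_smooth hk c)), sum_apply]
  congr 1
  refine Finset.sum_congr rfl fun c _ => ?_
  rw [fderiv_fun_smul (hc c) (hd (pd_smooth hk c)), add_apply,
    smul_apply, ContinuousLinearMap.smulRight_apply, hc',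
    fd1 (pd_smooth hk c), add_comm]

/-- the algebra of the expansion -/
theorem alg (u d : Fin 4 → Fin 4 → ℝ) (h : Fin 4 → ℝ) (P : Fin 4 → V →L[ℝ] V)
    (PP : Fin 4 → Fin 4 → V →L[ℝ] V) (K Oh Vx : V →L[ℝ] V) (N DN : Fin 4 → V →L[ℝ] V) (w : V) :
    -∑ a, (((∑ c, (d a c • P c w + u a c • ∑ b, u a b • PP b c w)) +
        (DN a (K w) + N a (∑ b, u a b • P b w))) + N a ((∑ b, u a b • P b w) + N a (K w))) +
      ((∑ b, h b • P b w) + Oh (K w)) + Vx (K w) =
    (-∑ b, ∑ c, (∑ a, u a b * u a c) • PP b c +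
      ∑ b, ((h b - ∑ a, d a b) • (1 : V →L[ℝ] V) + (-2 : ℝ) • ∑ a, u a b • N a) * P b +
      ((Oh + Vx - ∑ a, DN a) + -∑ a, N a * N a) * K) w := by
  simp only [add_apply, neg_apply, smul_apply, mul_apply_eq_comp, sub_apply, one_apply_eq_self,
    map_add, map_smul, Fin.sum_univ_four]
  module

end gen2

theorem fr_smooth {e : E4 → ℍ →L[ℝ] E4} (he : ContDiff ℝ ∞ e) (a : Fin 4) :
    ContDiff ℝ ∞ (fr e a) := he.clm_apply contDiff_const

theorem part1 (Y : Type) [NormedAddCommGroup Y] [NormedSpace ℝ Y] (L : Lap) (y : Y → E4)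
    (A : Y → E4 →L[ℝ] ℍ) (A' : Y → ℍ →L[ℝ] E4) (k : Y × ℍ → W →L[ℝ] W) (η : Y) (x : E4) (w : W)
    (hL : L.Ok univ) (hk : ContDiff ℝ ∞ k) (hA : ∀ v, A' η (A η v) = v) :
    L.ap (fun x => k (η, A η (x - y η)) w) x = (L.op y A A').ap k (η, A η (x - y η)) w := by
  have he : ContDiff ℝ ∞ L.e := contDiffOn_univ.1 hL.frm.es
  have ho : ContDiff ℝ ∞ L.om := contDiffOn_univ.1 hL.om
  have hx : y η + A' η (A η (x - y η)) = x := by rw [hA]; abel
  have hX : ∀ a, DifferentiableAt ℝ (fr L.e a) x := fun a =>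
    (fr_smooth he a).differentiable (by simp) x
  have hN : ∀ a, DifferentiableAt ℝ (fun x => L.om x (fr L.e a x)) x := fun a =>
    (ho.differentiable (by simp) x).clm_apply (hX a)
  have h := alg (fun a b => co b (A η (fr L.e a x)))
    (fun a b => co b (A η (fderiv ℝ (fr L.e a) x (fr L.e a x)))) (fun b => co b (A η (L.h x)))
    (fun b => pd b k (η, A η (x - y η))) (fun b c => pd b (pd c k) (η, A η (x - y η)))
    (k (η, A η (x - y η))) (L.om x (L.h x)) (L.V x) (fun a => L.om x (fr L.e a x))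
    (fun a => fderiv ℝ (fun x => L.om x (fr L.e a x)) x (fr L.e a x)) w
  have h2 : ∀ a, cov L.om (fr L.e a) (cov L.om (fr L.e a) fun x => k (η, A η (x - y η)) w) x = _ :=
    fun a => by
      have h3 := fd2 hk η (A η) (y η) x w (hX a) (hN a) (fr L.e a x)
      have h4 := fd1 hk η (A η) (y η) x (fr L.e a x) w
      change fderiv ℝ (fun x => fderiv ℝ (fun x => k (η, A η (x - y η)) w) x (fr L.e a x) +
        L.om x (fr L.e a x) (k (η, A η (x - y η)) w)) x (fr L.e a x) +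
        L.om x (fr L.e a x) (fderiv ℝ (fun x => k (η, A η (x - y η)) w) x (fr L.e a x) +
        L.om x (fr L.e a x) (k (η, A η (x - y η)) w)) = _
      rw [h3, h4]
  have h5 : cov L.om L.h (fun x => k (η, A η (x - y η)) w) x =
      (∑ b, co b (A η (L.h x)) • pd b k (η, A η (x - y η)) w) +
        L.om x (L.h x) (k (η, A η (x - y η)) w) := by
    rw [cov, fd1 hk]
  rw [Lap.ap, Finset.sum_congr rfl fun a _ => h2 a, h5]
  refine h.trans ?_
  have h6 : ∀ b, co b (A η (L.h x - ∑ a, fderiv ℝ (fr L.e a) x (fr L.e a x))) =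
      co b (A η (L.h x)) - ∑ a, co b (A η (fderiv ℝ (fr L.e a) x (fr L.e a x))) := fun b => by
    rw [map_sub, map_sub, map_sum, map_sum]
  simp only [Op.ap, Lap.op, hx, h6]

theorem part2 (Y : Type) [NormedAddCommGroup Y] [NormedSpace ℝ Y] (L : Lap) (y : Y → E4)
    (hL : L.Ok univ) (hy : ContDiff ℝ ∞ y) :
    (L.op y (fun η => L.θ (y η)) fun η => L.e (y η)).Ok := by
  have hθ : ContDiff ℝ ∞ L.θ := contDiffOn_univ.1 hL.frm.θs
  have he : ContDiff ℝ ∞ L.e := contDiffOn_univ.1 hL.frm.es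
  have ho : ContDiff ℝ ∞ L.om := contDiffOn_univ.1 hL.om
  have hh : ContDiff ℝ ∞ L.h := contDiffOn_univ.1 hL.h
  have hV : ContDiff ℝ ∞ L.V := contDiffOn_univ.1 hL.V
  have hy1 : ContDiff ℝ ∞ fun p : Y × ℍ => y p.1 := hy.comp contDiff_fst
  have hx : ContDiff ℝ ∞ fun p : Y × ℍ => y p.1 + L.e (y p.1) p.2 :=
    hy1.add ((he.comp hy1).clm_apply contDiff_snd)
  have hA : ContDiff ℝ ∞ fun p : Y × ℍ => L.θ (y p.1) := hθ.comp hy1
  have hf : ∀ a, ContDiff ℝ ∞ fun p : Y × ℍ => fr L.e a (y p.1 + L.e (y p.1) p.2) := fun a =>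
    (fr_smooth he a).comp hx
  have hu : ∀ a b, ContDiff ℝ ∞ fun p : Y × ℍ =>
      co b (L.θ (y p.1) (fr L.e a (y p.1 + L.e (y p.1) p.2))) := fun a b =>
    (co b).contDiff.comp (hA.clm_apply (hf a))
  have hox : ContDiff ℝ ∞ fun p : Y × ℍ => L.om (y p.1 + L.e (y p.1) p.2) := ho.comp hx
  have hhx : ContDiff ℝ ∞ fun p : Y × ℍ => L.h (y p.1 + L.e (y p.1) p.2) := hh.comp hx
  have hVx : ContDiff ℝ ∞ fun p : Y × ℍ => L.V (y p.1 + L.e (y p.1) p.2) := hV.comp hx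
  have hN : ∀ a, ContDiff ℝ ∞ fun p : Y × ℍ =>
      L.om (y p.1 + L.e (y p.1) p.2) (fr L.e a (y p.1 + L.e (y p.1) p.2)) := fun a =>
    hox.clm_apply (hf a)
  have hDf : ∀ a, ContDiff ℝ ∞ fun p : Y × ℍ =>
      fderiv ℝ (fr L.e a) (y p.1 + L.e (y p.1) p.2) (fr L.e a (y p.1 + L.e (y p.1) p.2)) :=
    fun a => (((fr_smooth he a).fderiv_right (m := ∞) le_rfl).comp hx).clm_apply (hf a)
  have hDN : ∀ a, ContDiff ℝ ∞ fun p : Y × ℍ =>
      fderiv ℝ (fun x => L.om x (fr L.e a x)) (y p.1 + L.e (y p.1) p.2)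
        (fr L.e a (y p.1 + L.e (y p.1) p.2)) := fun a => by
    have h1 : ContDiff ℝ ∞ fun x => L.om x (fr L.e a x) := ho.clm_apply (fr_smooth he a)
    have h2 : ContDiff ℝ ∞ (fderiv ℝ fun x => L.om x (fr L.e a x)) :=
      h1.fderiv_right (m := ∞) le_rfl
    have h3 : ContDiff ℝ ∞ fun p : Y × ℍ =>
        fderiv ℝ (fun x => L.om x (fr L.e a x)) (y p.1 + L.e (y p.1) p.2) := h2.comp hx
    exact h3.clm_apply (hf a)
  refine ⟨fun b c => ?_, fun b => ?_, ?_, fun b c η => ?_⟩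
  · exact ContDiff.sum (s := Finset.univ) fun a _ => (hu a b).mul (hu a c)
  · have h1 : ContDiff ℝ ∞ fun p : Y × ℍ => co b (L.θ (y p.1) (L.h (y p.1 + L.e (y p.1) p.2) -
        ∑ a, fderiv ℝ (fr L.e a) (y p.1 + L.e (y p.1) p.2)
          (fr L.e a (y p.1 + L.e (y p.1) p.2)))) :=
      (co b).contDiff.comp (hA.clm_apply (hhx.sub (ContDiff.sum fun a _ => hDf a)))
    exact (h1.smul contDiff_const).add
      ((ContDiff.sum fun a _ => (hu a b).smul (hN a)).const_smul (-2 : ℝ))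
  · exact (((hox.clm_apply hhx).add hVx).sub (ContDiff.sum fun a _ => hDN a)).add
      (ContDiff.sum fun a _ => (hN a).mul (hN a)).neg
  · simp only [Lap.op, map_zero, add_zero, fr, hL.frm.θe _ (mem_univ _), co_eps]
    by_cases h : b = c
    · subst h; simp
    · rw [if_neg h]
      refine Finset.sum_eq_zero fun a _ => ?_
      by_cases h1 : b = a
      · subst h1; rw [if_neg (Ne.symm h), mul_zero]
      · rw [if_neg h1, zero_mul]

theorem part3 (T : Set E4) (y : E4) (hT : T ∈ 𝓝 y) : ∃ r > 0, closedBall y (2 * r) ⊆ T ∧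
    ∃ ψ : E4 → E4, ContDiff ℝ ∞ ψ ∧ (∀ x, ψ x ∈ T) ∧ ∀ x ∈ ball y (3 * r), ψ x = x := by
  obtain ⟨R, hR, hRT⟩ := Metric.mem_nhds_iff.1 hT
  let b : ContDiffBump y := ⟨3 * (R / 5), 4 * (R / 5), by positivity, by linarith⟩
  refine ⟨R / 5, by positivity, (closedBall_subset_ball (by linarith)).trans hRT,
    fun x => y + b x • (x - y), contDiff_const.add (b.contDiff.smul (contDiff_id.sub contDiff_const)),
    fun x => hRT ?_, fun x hx => ?_⟩
  · rw [mem_ball, dist_eq_norm, add_sub_cancel_left, norm_smul, Real.norm_of_nonneg b.nonneg]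
    by_cases hx : b.rOut ≤ dist x y
    · rw [b.zero_of_le_dist hx, zero_mul]; exact hR
    · have h1 : ‖x - y‖ < 4 * (R / 5) := by rw [← dist_eq_norm]; exact not_le.1 hx
      have h2 : b x * ‖x - y‖ ≤ 1 * ‖x - y‖ := mul_le_mul_of_nonneg_right b.le_one (norm_nonneg _)
      linarith
  · have h1 : b x = 1 := b.one_of_mem_closedBall (ball_subset_closedBall hx)
    simp only [h1, one_smul]; abel

theorem part4 (L : Lap) (T : Set E4) (ψ : E4 → E4) (hL : L.Ok T) (hψ : ContDiff ℝ ∞ ψ)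
    (hT : ∀ x, ψ x ∈ T) : (L.comp ψ).Ok univ :=
  ⟨⟨isOpen_univ, (hL.frm.θs.comp_contDiff hψ hT).contDiffOn,
    (hL.frm.es.comp_contDiff hψ hT).contDiffOn, fun x _ v => hL.frm.θe _ (hT x) v,
    fun x _ v => hL.frm.eθ _ (hT x) v⟩, (hL.om.comp_contDiff hψ hT).contDiffOn,
    (hL.h.comp_contDiff hψ hT).contDiffOn, (hL.V.comp_contDiff hψ hT).contDiffOn⟩

theorem cov_congr {om om' : E4 → E4 →L[ℝ] W →L[ℝ] W} {v v' : E4 → E4} {s s' : E4 → W} {x : E4}
    (h1 : om =ᶠ[𝓝 x] om') (h2 : v =ᶠ[𝓝 x] v') (h3 : s =ᶠ[𝓝 x] s') :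
    cov om v s =ᶠ[𝓝 x] cov om' v' s' := by
  filter_upwards [h1, h2, h3, h3.fderiv (𝕜 := ℝ)] with z a b c d
  rw [cov, cov, a, b, c, d]

theorem part5 (L L' : Lap) (s s' : E4 → W) (x : E4) (he : L.e =ᶠ[𝓝 x] L'.e)
    (ho : L.om =ᶠ[𝓝 x] L'.om) (hh : L.h x = L'.h x) (hV : L.V x = L'.V x) (hs : s =ᶠ[𝓝 x] s') :
    L.ap s x = L'.ap s' x := by
  have hf : ∀ a, fr L.e a =ᶠ[𝓝 x] fr L'.e a := fun a => he.mono fun z hz => by rw [fr, fr, hz]
  have h1 : ∀ a, cov L.om (fr L.e a) (cov L.om (fr L.e a) s) x =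
      cov L'.om (fr L'.e a) (cov L'.om (fr L'.e a) s') x := fun a =>
    (cov_congr ho (hf a) (cov_congr ho (hf a) hs)).eq_of_nhds
  have h2 : cov L.om L.h s x = cov L'.om L'.h s' x := by
    rw [cov, cov, hh, ho.eq_of_nhds, hs.eq_of_nhds, hs.fderiv_eq]
  rw [Lap.ap, Lap.ap, Finset.sum_congr rfl fun a _ => h1 a, h2, hV, hs.eq_of_nhds]

end Exp

theorem expS : ExpStmt := ⟨Exp.part1, Exp.part2, Exp.part3, Exp.part4, Exp.part5⟩

end Pool.Agent.MP_e1dc65_gt.A
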