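import Pool.Agent.MP_e1dc65_gt.b.Adapt
import Mathlib.LinearAlgebra.Trace
import Mathlib.LinearAlgebra.Eigenspace.Basic

/-! Row MS: the Hodge theorem and the McKean-Singer formula. -/

set_option maxSynthPendingDepth 3

open scoped Topology RealInnerProductSpace
open Set Filter

noncomputable section

namespace Pool.Agent.MP_e1dc65_gt.A

namespace MS

variable {S H : Type} [AddCommGroup S] [Module ℝ S] [NormedAddCommGroup H] [InnerProductSpace ℝ H]
  {j : S →ₗ[ℝ] H} {D : S →ₗ[ℝ] S} {J : Type} {φ : J → S} {lam : J → ℝ}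

theorem ext0 {L : S →ₗ[ℝ] S} (h : Eig j L φ lam) {v : H} (hv : ∀ n, ⟪j (φ n), v⟫ = 0) : v = 0 := by
  rw [← Submodule.mem_bot ℝ, ← h.tot]
  intro u hu
  induction hu using Submodule.span_induction with
  | mem x hx => obtain ⟨n, rfl⟩ := hx; exact hv n
  | zero => simp
  | add x y _ _ hx hy => rw [inner_add_left, hx, hy, add_zero]
  | smul a x _ hx => rw [inner_smul_left, hx, mul_zero]

theorem coef (he : Ell j D) (h : Eig j (D ∘ₗ D) φ lam) (n : J) (ψ : S) :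
    ⟪j (φ n), j (D (D ψ))⟫ = lam n * ⟪j (φ n), j ψ⟫ := by
  rw [← he.sym, ← he.sym]
  have := h.eig n
  rw [LinearMap.comp_apply] at this
  rw [this, map_smul, inner_smul_left]
  rfl

theorem fib (h : Eig j (D ∘ₗ D) φ lam) (ν : ℝ) : {n | lam n = ν}.Finite :=
  (h.fin ν).subset fun _ hn => le_of_eq hn

theorem expand (he : Ell j D) (h : Eig j (D ∘ₗ D) φ lam) {ν : ℝ} {ψ : S} (hψ : D (D ψ) = ν • ψ) :
    ψ = ∑ n ∈ (fib h ν).toFinset, ⟪j (φ n), j ψ⟫ • φ n := by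
  classical
  refine he.inj (sub_eq_zero.1 (ext0 h fun m => ?_))
  rw [map_sum, inner_sub_right]
  simp only [map_smul]
  by_cases hm : lam m = ν
  · rw [h.on.inner_right_sum _ ((fib h ν).mem_toFinset.2 hm), sub_self]
  · have h1 := coef he h m ψ
    rw [hψ, map_smul, inner_smul_right] at h1
    have h2 : ⟪j (φ m), j ψ⟫ = 0 := by
      by_contra h3
      exact hm (mul_right_cancel₀ h3 h1).symm
    rw [h2, inner_sum, Finset.sum_eq_zero, sub_self]
    intro n hn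
    have hn' : lam n = ν := (fib h ν).mem_toFinset.1 hn
    rw [inner_smul_right, h.on.2 (fun e => hm (by rw [e, hn'])), mul_zero]

theorem ker_iff (he : Ell j D) {ψ : S} (hψ : D (D ψ) = 0) : D ψ = 0 := by
  have := he.sym ψ (D ψ)
  rw [hψ, map_zero, inner_zero_right, inner_self_eq_zero] at this
  exact he.inj (this.trans (map_zero j).symm)

theorem fd (he : Ell j D) (h : Eig j (D ∘ₗ D) φ lam) {ν : ℝ} {E : Submodule ℝ S}
    (hE : ∀ ψ ∈ E, D (D ψ) = ν • ψ) : FiniteDimensional ℝ E := by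
  have := FiniteDimensional.span_of_finite ℝ ((fib h ν).image φ)
  refine Submodule.finiteDimensional_of_le (S₂ := Submodule.span ℝ (φ '' {n | lam n = ν}))
    fun ψ hψ => ?_
  rw [expand he h (hE ψ hψ)]
  exact Submodule.sum_mem _ fun n hn => Submodule.smul_mem _ _
    (Submodule.subset_span ⟨n, (fib h ν).mem_toFinset.1 hn, rfl⟩)

theorem trace_eq (he : Ell j D) (h : Eig j (D ∘ₗ D) φ lam) {ν : ℝ} {E : Submodule ℝ S}
    (hE : ∀ ψ, ψ ∈ E ↔ D (D ψ) = ν • ψ) {B : S →ₗ[ℝ] S} (hB : ∀ ψ ∈ E, B ψ ∈ E) :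
    ∑ n ∈ (fib h ν).toFinset, ⟪j (B (φ n)), j (φ n)⟫ = LinearMap.trace ℝ E (B.restrict hB) := by
  have := fd he h fun ψ hψ => (hE ψ).1 hψ
  have hm : ∀ n : (fib h ν).toFinset, φ n ∈ E := fun n => (hE _).2
    ((h.eig n).trans (congrArg (· • φ n) ((fib h ν).mem_toFinset.1 n.2)))
  have e : B.restrict hB = ∑ n : (fib h ν).toFinset,
      ((innerₛₗ ℝ (j (φ n))) ∘ₗ j ∘ₗ E.subtype).smulRight (⟨B (φ n), hB _ (hm n)⟩ : E) := by
    ext ψ
    rw [LinearMap.coe_restrict_apply, LinearMap.sum_apply, Submodule.coe_sum]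
    conv_lhs => rw [expand he h ((hE _).1 ψ.2), map_sum, ← Finset.sum_coe_sort]
    simp
  rw [e, map_sum, ← Finset.sum_coe_sort]
  refine Finset.sum_congr rfl fun n _ => ?_
  rw [LinearMap.trace_smulRight, real_inner_comm]
  simp

theorem trace_inv {A : S →ₗ[ℝ] S} (E : Submodule ℝ S) [FiniteDimensional ℝ E]
    (hA : ∀ ψ, A (A ψ) = ψ) (hB : ∀ ψ ∈ E, A ψ ∈ E) (s : ℝ) (hs : s * s = 1) :
    LinearMap.trace ℝ E ((1 / 2 : ℝ) • (1 + s • A.restrict hB)) =
      Module.finrank ℝ ↥(E ⊓ LinearMap.ker (A - s • 1)) := by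
  rw [← (Submodule.comapSubtypeEquivOfLe (inf_le_left : E ⊓ LinearMap.ker (A - s • 1) ≤ E)).finrank_eq]
  refine LinearMap.IsProj.trace ⟨fun x => ?_, fun x hx => ?_⟩
  · refine ⟨(((1 / 2 : ℝ) • (1 + s • A.restrict hB)) x).2, ?_⟩
    simp only [SetLike.mem_coe, LinearMap.mem_ker, LinearMap.sub_apply, LinearMap.smul_apply,
      LinearMap.add_apply, Module.End.one_apply, Submodule.subtype_apply,
      LinearMap.coe_restrict_apply, map_smul, map_add, hA]
    rw [smul_sub, smul_smul, hs]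
    module
  · have h1 : A x = s • (x : S) := by simpa [sub_eq_zero] using hx.2
    ext
    simp only [LinearMap.smul_apply, LinearMap.add_apply, Module.End.one_apply, Submodule.coe_smul,
      Submodule.coe_add, LinearMap.coe_restrict_apply, h1, smul_smul, hs]
    module

theorem hodge [CompleteSpace H] (he : Ell j D) (h : Eig j (D ∘ₗ D) φ lam) (f : S)
    (hf : ∀ g, D g = 0 → ⟪j f, j g⟫ = 0) : ∃ g, D g = f := by
  set b := HilbertBasis.mkOfOrthogonalEqBot h.on h.tot with hb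
  have eb : ∀ n, b n = j (φ n) := fun n =>
    congrFun (HilbertBasis.coe_mkOfOrthogonalEqBot h.on h.tot) n
  obtain ⟨K, hK⟩ : ∃ K : ℝ, ∀ n, (lam n)⁻¹ ≤ K := by
    obtain ⟨K, hK⟩ := ((h.fin 1).image fun n => (lam n)⁻¹).bddAbove
    refine ⟨max K 1, fun n => ?_⟩
    rcases le_total (lam n) 1 with h1 | h1
    · exact (hK ⟨n, h1, rfl⟩).trans (le_max_left _ _)
    · exact (inv_le_one_of_one_le₀ h1).trans (le_max_right _ _)
  have hm : Memℓp (fun n => (lam n)⁻¹ * b.repr (j f) n) 2 :=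
    ((lp.memℓp (b.repr (j f))).const_mul K).mono' fun n => by
      rw [norm_mul, norm_mul]
      refine mul_le_mul_of_nonneg_right ?_ (norm_nonneg _)
      rw [Real.norm_of_nonneg (inv_nonneg.2 (h.pos n))]
      exact (hK n).trans (le_abs_self K)
  set u := b.repr.symm ⟨_, hm⟩ with hu
  have h1 : ∀ n, ⟪u, b n⟫ = (lam n)⁻¹ * ⟪b n, j f⟫ := fun n => by
    rw [real_inner_comm, ← b.repr_apply_apply, ← b.repr_apply_apply, hu,
      LinearIsometryEquiv.apply_symm_apply]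
  have h2 : ∀ ψ, ⟪u, j (D (D ψ))⟫ = ⟪j f, j ψ⟫ := fun ψ => by
    refine (b.hasSum_inner_mul_inner u _).unique ?_
    convert b.hasSum_inner_mul_inner (j f) (j ψ) using 2 with n
    rw [h1, eb, coef he h, real_inner_comm]
    by_cases h0 : lam n = 0
    · rw [hf (φ n) (ker_iff he (by simpa [h0] using h.eig n))]
      simp
    · field_simp
  obtain ⟨g, hg⟩ := he.reg (fun n => Nat.casesOn n u fun m => j (((D ∘ₗ D) ^ m) f)) fun n ψ => by
    cases n with
    | zero => simpa using h2 ψ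
    | succ m =>
      show ⟪j (((D ∘ₗ D) ^ m) f), _⟫ = ⟪j (((D ∘ₗ D) ^ (m + 1)) f), _⟫
      rw [← he.sym, ← he.sym, pow_succ', Module.End.mul_apply, LinearMap.comp_apply]
  refine ⟨D g, he.inj (sub_eq_zero.1 (ext0 h fun n => ?_))⟩
  rw [inner_sub_right, ← he.sym, ← he.sym, real_inner_comm, real_inner_comm (j f), ← h2, hg]
  exact sub_self _

end MS

open MS in
theorem ms : MsStmt := by
  intro S H _ _ _ _ _ j D J φ lam he h
  have hk : ∀ ψ, ψ ∈ LinearMap.ker D ↔ D (D ψ) = (0 : ℝ) • ψ := fun ψ => by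
    rw [LinearMap.mem_ker, zero_smul]
    exact ⟨fun e => by rw [e, map_zero], ker_iff he⟩
  have hfd := fd he h fun ψ hψ => (hk ψ).1 hψ
  refine ⟨?_, hfd, hodge he h, fun A t a hA hD hs => ?_⟩
  · rw [← countable_univ_iff]
    refine (countable_iUnion fun R : ℕ => (h.fin R).countable).mono fun n _ => ?_
    obtain ⟨R, hR⟩ := exists_nat_ge (lam n)
    exact mem_iUnion.2 ⟨R, hR⟩
  have hc : ∀ (ν : ℝ) ψ, D (D ψ) = ν • ψ → D (D (A ψ)) = ν • A ψ := fun ν ψ e => by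
    rw [← map_smul, ← e, hD, hD, map_neg, neg_neg]
  have h1 : HasSum (fun ν : ℝ => ∑ n ∈ (fib h ν).toFinset,
      Real.exp (-(lam n * t)) * ⟪j (A (φ n)), j (φ n)⟫) a := by
    refine ((Equiv.sigmaFiberEquiv lam).hasSum_iff.2 hs).sigma fun ν => ?_
    have := (fib h ν).toFinset.hasSum fun n => Real.exp (-(lam n * t)) * ⟪j (A (φ n)), j (φ n)⟫
    rw [Finite.coe_toFinset] at this
    exact this
  have h2 : ∀ ν : ℝ, ν ≠ 0 → ∑ n ∈ (fib h ν).toFinset, ⟪j (A (φ n)), j (φ n)⟫ = 0 := fun ν hν => by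
    have hE : ∀ ψ, ψ ∈ Module.End.eigenspace (D ∘ₗ D) ν ↔ D (D ψ) = ν • ψ := fun ψ =>
      Module.End.mem_eigenspace_iff
    have a1 : ∀ ψ ∈ Module.End.eigenspace (D ∘ₗ D) ν, A ψ ∈ Module.End.eigenspace (D ∘ₗ D) ν :=
      fun ψ hψ => (hE _).2 (hc ν ψ ((hE _).1 hψ))
    have a2 : ∀ ψ ∈ Module.End.eigenspace (D ∘ₗ D) ν, D ψ ∈ Module.End.eigenspace (D ∘ₗ D) ν :=
      fun ψ hψ => (hE _).2 (by rw [(hE _).1 hψ, map_smul])
    rw [trace_eq he h hE a1]
    have e1 : A.restrict a1 * D.restrict a2 * D.restrict a2 = ν • A.restrict a1 := by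
      ext ψ
      simp [(hE _).1 ψ.2]
    have e2 : D.restrict a2 * (A.restrict a1 * D.restrict a2) = -(ν • A.restrict a1) := by
      ext ψ
      simp [hD, hc ν ψ ((hE _).1 ψ.2)]
    have e3 := LinearMap.trace_mul_comm ℝ (A.restrict a1 * D.restrict a2) (D.restrict a2)
    rw [e1, e2, map_neg, map_smul, smul_eq_mul] at e3
    exact (mul_eq_zero.1 (by linarith)).resolve_left hν
  have h3 : ∀ ν : ℝ, ∑ n ∈ (fib h ν).toFinset, Real.exp (-(lam n * t)) * ⟪j (A (φ n)), j (φ n)⟫ =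
      Real.exp (-(ν * t)) * ∑ n ∈ (fib h ν).toFinset, ⟪j (A (φ n)), j (φ n)⟫ := fun ν => by
    rw [Finset.mul_sum]
    exact Finset.sum_congr rfl fun n hn => by rw [(fib h ν).mem_toFinset.1 hn]
  have a0 : ∀ ψ ∈ LinearMap.ker D, A ψ ∈ LinearMap.ker D := fun ψ hψ =>
    (hk _).2 (hc 0 ψ ((hk _).1 hψ))
  rw [h1.unique (hasSum_single 0 fun ν hν => by rw [h3, h2 ν hν, mul_zero]), h3,
    trace_eq he h hk a0]
  have e1 := trace_inv _ hA a0 1 (by norm_num)
  have e2 := trace_inv _ hA a0 (-1) (by norm_num)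
  rw [one_smul, one_smul] at e1
  rw [neg_one_smul ℝ (1 : S →ₗ[ℝ] S), sub_neg_eq_add] at e2
  rw [ind, ← e1, ← e2]
  simp only [map_smul, map_add, smul_eq_mul, zero_mul, neg_zero, Real.exp_zero]
  ring

end Pool.Agent.MP_e1dc65_gt.A
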