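import Pool.Agent.MP_e1dc65_gt.a.Cent
import Pool.Agent.MP_e1dc65_gt.k.Cov
import Pool.Agent.MP_e1dc65_gt.o.Flat
import Mathlib.Analysis.InnerProductSpace.Calculus
import Mathlib.Analysis.Calculus.FDeriv.CompCLM
import Mathlib.Analysis.Calculus.FDeriv.Mul
import Mathlib.MeasureTheory.Integral.Bochner.ContinuousLinearMap
import Mathlib.MeasureTheory.Measure.OpenPos
import Pool.Agent.MP_e1dc65_gt.b.Adapt
import Mathlib.Analysis.Calculus.FDeriv.Symmetric

-- ======== part 0: formerly Pool.Agent.MP_e1dc65_gt.a.Algb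
section MrgPart0

/-! PROJECT HC, part A: pointwise algebra of forms in a quaternionic frame. -/

set_option maxSynthPendingDepth 3

open scoped Quaternion RealInnerProductSpace
open Set Pool.Agent.MP_c8d41b_gt.GF ExteriorAlgebra

noncomputable section

namespace Pool.Agent.MP_e1dc65_gt.A

namespace Algb

theorem aI_inv (a : Lam E4) : algebraMapInv (inv a) = algebraMapInv a := by
  induction a using lam_ind with
  | h0 r => simp
  | ha a b h1 h2 => simp only [map_add, h1, h2]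
  | hm l a _ => simp [algebraMapInv]

theorem ctr_inv (v : E4) (a : Lam E4) : ctr v (inv a) = -inv (ctr v a) := by
  rw [inv_ctr, neg_neg]

theorem ev_ι (u : E4) (l : E4 →L[ℝ] ℝ) : ev [u] (ι ℝ l) = l u := by
  simp [ev, ctr_ι]

theorem ev_swap (u v : E4) (l : List E4) (a : Lam E4) : ev (u :: v :: l) a = -ev (v :: u :: l) a := by
  simp only [ev]
  rw [ctr_comm, ev_neg]

theorem ev_same (u : E4) (l : List E4) (a : Lam E4) : ev (u :: u :: l) a = 0 := by
  simp only [ev]
  rw [ctr_ctr, ev_zero]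

theorem ev_11 {a b : Lam E4} (ha : a ∈ dg E4 1) (hb : b ∈ dg E4 1) (u v : E4) :
    ev [u, v] (a * b) = ev [u] a * ev [v] b - ev [v] a * ev [u] b := by
  have a0 : algebraMapInv a = 0 := ev_eq_zero (l := []) ha (by simp)
  have b0 : algebraMapInv b = 0 := ev_eq_zero (l := []) hb (by simp)
  simp only [ev, ctr_mul, ctr_inv, MP_c8d41b_gt.GF.inv_inv, map_add, map_mul, map_neg, aI_inv, neg_mul, a0, b0]
  ring

theorem ev_22 {a b : Lam E4} (ha : a ∈ dg E4 2) (hb : b ∈ dg E4 2) (u v w z : E4) :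
    ev [u, v, w, z] (a * b) = ev [u, v] a * ev [w, z] b - ev [u, w] a * ev [v, z] b +
      ev [u, z] a * ev [v, w] b + ev [v, w] a * ev [u, z] b - ev [v, z] a * ev [u, w] b +
      ev [w, z] a * ev [u, v] b := by
  have a0 : algebraMapInv a = 0 := ev_eq_zero (l := []) ha (by simp)
  have b0 : algebraMapInv b = 0 := ev_eq_zero (l := []) hb (by simp)
  have a1 : ∀ u, algebraMapInv (ctr u a) = 0 := fun u => ev_eq_zero (l := [u]) ha (by simp)
  have b1 : ∀ u, algebraMapInv (ctr u b) = 0 := fun u => ev_eq_zero (l := [u]) hb (by simp)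
  simp only [ev, ctr_mul, ctr_inv, MP_c8d41b_gt.GF.inv_inv, map_add, map_mul, map_neg, aI_inv, neg_mul,
    a0, b0, a1, b1]
  ring

theorem ev_31 {a b : Lam E4} (ha : a ∈ dg E4 3) (hb : b ∈ dg E4 1) (u v w z : E4) :
    ev [u, v, w, z] (a * b) = ev [u, v, w] a * ev [z] b - ev [u, v, z] a * ev [w] b +
      ev [u, w, z] a * ev [v] b - ev [v, w, z] a * ev [u] b := by
  have a0 : algebraMapInv a = 0 := ev_eq_zero (l := []) ha (by simp)
  have b0 : algebraMapInv b = 0 := ev_eq_zero (l := []) hb (by simp)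
  have a1 : ∀ u, algebraMapInv (ctr u a) = 0 := fun u => ev_eq_zero (l := [u]) ha (by simp)
  have a2 : ∀ u v, algebraMapInv (ctr v (ctr u a)) = 0 := fun u v =>
    ev_eq_zero (l := [u, v]) ha (by simp)
  simp only [ev, ctr_mul, ctr_inv, MP_c8d41b_gt.GF.inv_inv, map_add, map_mul, map_neg, aI_inv, neg_mul,
    a0, b0, a1, a2]
  ring

theorem zero0 {a : Lam E4} (ha : a ∈ dg E4 0) (h : ev [] a = 0) : a = 0 := by
  rw [eq_scalar (a := a) fun v => (dg_ctr v ha).2 rfl, show algebraMapInv a = 0 from h, map_zero]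

theorem all4 {P : Fin 4 → Prop} (h0 : P 0) (h1 : P 1) (h2 : P 2) (h3 : P 3) (a : Fin 4) : P a := by
  fin_cases a
  exacts [h0, h1, h2, h3]

section
variable {θ : E4 →L[ℝ] ℍ} {e : ℍ →L[ℝ] E4}

theorem step (h : ∀ v, e (θ v) = v) {n : ℕ} {a : Lam E4} (ha : a ∈ dg E4 (n + 1))
    (hc : ∀ i, ctr (e (ε i)) a = 0) : a = 0 := by
  rw [eq_scalar (a := a) fun v => ?_,
    show algebraMapInv a = 0 from ev_eq_zero (l := []) ha (by simp), map_zero]
  rw [← h v, ← sum_co' (θ v)]
  simp only [Fin.sum_univ_four, map_add, map_smul, ctr_add_left, ctr_smul_left, hc, smul_zero,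
    add_zero]

theorem zero1 (h : ∀ v, e (θ v) = v) {a : Lam E4} (ha : a ∈ dg E4 1)
    (hc : ∀ i, ev [e (ε i)] a = 0) : a = 0 :=
  step h ha fun i => zero0 (dg_ctr _ ha).1 (hc i)

theorem zero2 (h : ∀ v, e (θ v) = v) {a : Lam E4} (ha : a ∈ dg E4 2)
    (hc : ∀ i j, ev [e (ε i), e (ε j)] a = 0) : a = 0 :=
  step h ha fun i => zero1 h (dg_ctr _ ha).1 (hc i)

theorem zero3 (h : ∀ v, e (θ v) = v) {a : Lam E4} (ha : a ∈ dg E4 3)
    (hc : ∀ i j k, ev [e (ε i), e (ε j), e (ε k)] a = 0) : a = 0 :=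
  step h ha fun i => zero2 h (dg_ctr _ ha).1 (hc i)

theorem co_ε (a b : Fin 4) : co a (ε b) = if a = b then 1 else 0 :=
  orthonormal_iff_ite.1 ε.orthonormal a b

theorem inner_vec (e : ℍ →L[ℝ] E4) (η : Lam E4) (v : ℍ) : ⟪vec e η, v⟫ = ev [e v] η := by
  conv_rhs => rw [← sum_co' v]
  simp only [vec, Fin.sum_univ_four, inner_add_left, real_inner_smul_left, ev, map_add, map_smul,
    ctr_add_left, ctr_smul_left, co, innerSL_apply_apply, smul_eq_mul]
  ring

theorem sd_eq (e : ℍ →L[ℝ] E4) (γ : Lam E4) : sd e γ =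
    ⟨0, -(ev [e (ε 0), e (ε 1)] γ + ev [e (ε 2), e (ε 3)] γ),
      -(ev [e (ε 0), e (ε 2)] γ - ev [e (ε 1), e (ε 3)] γ),
      -(ev [e (ε 0), e (ε 3)] γ + ev [e (ε 1), e (ε 2)] γ)⟩ := by
  simp only [sd, Fin.sum_univ_four, ev_same, ev_swap (e (ε 1)) (e (ε 0)), ev_swap (e (ε 2)) (e (ε 0)),
    ev_swap (e (ε 3)) (e (ε 0)), ev_swap (e (ε 2)) (e (ε 1)), ev_swap (e (ε 3)) (e (ε 1)),
    ev_swap (e (ε 3)) (e (ε 2))]
  generalize ev [e (ε 0), e (ε 1)] γ = a, ev [e (ε 0), e (ε 2)] γ = b, ev [e (ε 0), e (ε 3)] γ = c,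
    ev [e (ε 1), e (ε 2)] γ = d, ev [e (ε 1), e (ε 3)] γ = f, ev [e (ε 2), e (ε 3)] γ = g
  ext <;> simp [ε_0, ε_1, ε_2, ε_3] <;> ring

theorem asd_eq (e : ℍ →L[ℝ] E4) (γ : Lam E4) : asd e γ =
    ⟨0, ev [e (ε 0), e (ε 1)] γ - ev [e (ε 2), e (ε 3)] γ,
      ev [e (ε 0), e (ε 2)] γ + ev [e (ε 1), e (ε 3)] γ,
      ev [e (ε 0), e (ε 3)] γ - ev [e (ε 1), e (ε 2)] γ⟩ := by
  simp only [asd, Fin.sum_univ_four, ev_same, ev_swap (e (ε 1)) (e (ε 0)),
    ev_swap (e (ε 2)) (e (ε 0)), ev_swap (e (ε 3)) (e (ε 0)), ev_swap (e (ε 2)) (e (ε 1)),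
    ev_swap (e (ε 3)) (e (ε 1)), ev_swap (e (ε 3)) (e (ε 2))]
  generalize ev [e (ε 0), e (ε 1)] γ = a, ev [e (ε 0), e (ε 2)] γ = b, ev [e (ε 0), e (ε 3)] γ = c,
    ev [e (ε 1), e (ε 2)] γ = d, ev [e (ε 1), e (ε 3)] γ = f, ev [e (ε 2), e (ε 3)] γ = g
  ext <;> simp [ε_0, ε_1, ε_2, ε_3] <;> ring

theorem part3 (h : ∀ v, e (θ v) = v) {γ : Lam E4} (hγ : γ ∈ dg E4 2) (h1 : sd e γ = 0)
    (h2 : asd e γ = 0) : γ = 0 := by
  rw [sd_eq, Quaternion.ext_iff] at h1
  rw [asd_eq, Quaternion.ext_iff] at h2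
  simp only [Quaternion.imI_zero, Quaternion.imJ_zero, Quaternion.imK_zero] at h1 h2
  obtain ⟨-, a1, a2, a3⟩ := h1
  obtain ⟨-, b1, b2, b3⟩ := h2
  have s := fun i j => ev_swap (e (ε i)) (e (ε j)) [] γ
  refine zero2 h hγ (all4 ?_ ?_ ?_ ?_) <;> refine all4 ?_ ?_ ?_ ?_ <;>
    linarith [s 0 0, s 1 1, s 2 2, s 3 3, s 0 1, s 0 2, s 0 3, s 1 2, s 1 3, s 2 3]

theorem part6 (h : ∀ v, θ (e v) = v) {u w : ℍ} (hu : u.re = 0) (hw : w.re = 0) {γ : Lam E4}
    (hγ : γ = (1 / 4 : ℝ) • ∑ a, ∑ b, (⟪u, ε a * star (ε b)⟫ + ⟪w, star (ε a) * ε b⟫) •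
      (ι ℝ ((co a).comp θ) * ι ℝ ((co b).comp θ))) :
    γ ∈ dg E4 2 ∧ sd e γ = u ∧ asd e γ = w := by
  have k : ∀ c d, ev [e (ε c), e (ε d)] γ = (1 / 4 : ℝ) *
      ((⟪u, ε c * star (ε d)⟫ + ⟪w, star (ε c) * ε d⟫) -
        (⟪u, ε d * star (ε c)⟫ + ⟪w, star (ε d) * ε c⟫)) := fun c d => by
    rw [hγ, ev_smul, ev_eq]
    simp only [map_sum, map_smul, ← ev_eq, ev_11 (dg_ι _) (dg_ι _), ev_ι,
      ContinuousLinearMap.comp_apply, h, co_ε, smul_eq_mul, mul_sub, Finset.sum_sub_distrib,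
      mul_ite, mul_one, mul_zero, Finset.sum_ite_eq',
      Finset.mem_univ, if_true]
  refine ⟨hγ ▸ Submodule.smul_mem _ _ (Submodule.sum_mem _ fun a _ => Submodule.sum_mem _
    fun b _ => Submodule.smul_mem _ _ (dg_mul (dg_ι _) (dg_ι _))), ?_, ?_⟩
  · rw [sd_eq]
    simp only [k]
    ext <;> simp [inner_H, ε_0, ε_1, ε_2, ε_3, hu] <;> ring
  · rw [asd_eq]
    simp only [k]
    ext <;> simp [inner_H, ε_0, ε_1, ε_2, ε_3, hw] <;> ring

theorem anti3 {T : Fin 4 → Fin 4 → Fin 4 → ℝ} (s1 : ∀ i j k, T i j k = -T j i k)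
    (s2 : ∀ i j k, T i j k = -T i k j) (h0 : T 1 2 3 = 0) (h1 : T 0 2 3 = 0) (h2 : T 0 1 3 = 0)
    (h3 : T 0 1 2 = 0) : ∀ i j k, T i j k = 0 := by
  have d1 : ∀ i k, T i i k = 0 := fun i k => by linarith [s1 i i k]
  have d2 : ∀ i k, T i k k = 0 := fun i k => by linarith [s2 i k k]
  have d3 : ∀ i k, T i k i = 0 := fun i k => by linarith [s2 i k i, d1 i k]
  have p : ∀ {i j k}, T i j k = 0 → T j i k = 0 ∧ T i k j = 0 ∧ T j k i = 0 ∧ T k i j = 0 ∧
      T k j i = 0 := fun {i j k} h => by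
    refine ⟨?_, ?_, ?_, ?_, ?_⟩ <;> linarith [s1 i j k, s2 i j k, s2 j i k, s1 i k j, s1 j k i]
  obtain ⟨_, _, _, _, _⟩ := p h0
  obtain ⟨_, _, _, _, _⟩ := p h1
  obtain ⟨_, _, _, _, _⟩ := p h2
  obtain ⟨_, _, _, _, _⟩ := p h3
  refine all4 ?_ ?_ ?_ ?_ <;> refine all4 ?_ ?_ ?_ ?_ <;> refine all4 ?_ ?_ ?_ ?_ <;>
    first | exact d1 _ _ | exact d2 _ _ | exact d3 _ _ | assumption

theorem part7 (h : ∀ v, θ (e v) = v) (h' : ∀ v, e (θ v) = v) {φ : Lam E4} (hφ : φ ∈ dg E4 3)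
    (hl : ∀ l : E4 →L[ℝ] ℝ, top e (φ * ι ℝ l) = 0) : φ = 0 := by
  have k := fun a => hl ((co a).comp θ)
  simp only [top, ev_31 hφ (dg_ι _), ev_ι, ContinuousLinearMap.comp_apply, h, co_ε] at k
  refine zero3 h' hφ (anti3 (fun i j k => ev_swap _ _ _ _)
    (fun i j k => ev_swap _ _ [] (ctr (e (ε i)) φ)) ?_ ?_ ?_ ?_)
  · simpa using k 0
  · simpa using k 1
  · simpa using k 2
  · simpa using k 3

end

theorem det_lr (p q : ℍ) : (lr p q).det = Quaternion.normSq p ^ 2 * Quaternion.normSq q ^ 2 := by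
  have e : lr p q = (lr p 1).comp (lr 1 q) := by ext1 v; simp [mul_assoc]
  have a : LinearMap.toMatrix ε.toBasis ε.toBasis (lr p 1).toLinearMap =
      !![p.re, -p.imI, -p.imJ, -p.imK; p.imI, p.re, -p.imK, p.imJ; p.imJ, p.imK, p.re, -p.imI;
        p.imK, -p.imJ, p.imI, p.re] := by
    ext i j
    rw [LinearMap.toMatrix_apply, OrthonormalBasis.coe_toBasis_repr_apply,
      OrthonormalBasis.repr_apply_apply, OrthonormalBasis.coe_toBasis]
    revert i j
    refine all4 ?_ ?_ ?_ ?_ <;> refine all4 ?_ ?_ ?_ ?_ <;> simp [inner_H, ε_0, ε_1, ε_2, ε_3]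
  have b : LinearMap.toMatrix ε.toBasis ε.toBasis (lr 1 q).toLinearMap =
      !![q.re, -q.imI, -q.imJ, -q.imK; q.imI, q.re, q.imK, -q.imJ; q.imJ, -q.imK, q.re, q.imI;
        q.imK, q.imJ, -q.imI, q.re] := by
    ext i j
    rw [LinearMap.toMatrix_apply, OrthonormalBasis.coe_toBasis_repr_apply,
      OrthonormalBasis.repr_apply_apply, OrthonormalBasis.coe_toBasis]
    revert i j
    refine all4 ?_ ?_ ?_ ?_ <;> refine all4 ?_ ?_ ?_ ?_ <;> simp [inner_H, ε_0, ε_1, ε_2, ε_3]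
  rw [e, ContinuousLinearMap.det, ContinuousLinearMap.toLinearMap_comp, LinearMap.det_comp,
    ← LinearMap.det_toMatrix ε.toBasis, ← LinearMap.det_toMatrix ε.toBasis, a, b,
    Quaternion.normSq_def', Quaternion.normSq_def']
  congr 1 <;> simp [Matrix.det_succ_row_zero, Fin.sum_univ_succ, Fin.succAbove] <;> ring

section
variable {e e' : ℍ →L[ℝ] E4} {p q : ℍ}

theorem vec_rot (hp : ‖p‖ = 1) (hq : ‖q‖ = 1) (h : ∀ v, e' (p * v * star q) = e v) (η : Lam E4) :
    vec e' η = p * vec e η * star q := by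
  refine ext_inner_right ℝ fun v => ?_
  rw [inner_mul_right, inner_mul_left, inner_vec, inner_vec, ← h, star_star]
  simp only [← mul_assoc, mul_star_unit hp, one_mul]
  rw [mul_assoc, mul_star_unit hq, mul_one]

/-- the tensor of a two-form in two frames, under a bilinear map -/
theorem two_rot (hp : ‖p‖ = 1) (hq : ‖q‖ = 1) (h : ∀ v, e' (p * v * star q) = e v) (γ : Lam E4)
    (m : ℍ →ₗ[ℝ] ℍ →ₗ[ℝ] ℍ) : ∑ a, ∑ b, ev [e' (ε a), e' (ε b)] γ • m (ε a) (ε b) =
      ∑ a, ∑ b, ev [e (ε a), e (ε b)] γ • m (p * ε a * star q) (p * ε b * star q) := by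
  have k : ∀ (η : Lam E4) (L : ℍ →ₗ[ℝ] ℍ), ∑ b, ev [e' (ε b)] η • L (ε b) =
      ∑ b, ev [e (ε b)] η • L (p * ε b * star q) := fun η L => by
    have := congrArg L (vec_rot hp hq h η)
    simpa only [vec, Finset.mul_sum, Finset.sum_mul, mul_smul_comm, smul_mul_assoc, map_sum,
      map_smul] using this
  calc _ = ∑ a, ∑ b, ev [e' (ε a), e (ε b)] γ • m (ε a) (p * ε b * star q) :=
        Finset.sum_congr rfl fun a _ => k (ctr (e' (ε a)) γ) (m (ε a))
    _ = _ := by
      rw [Finset.sum_comm, Finset.sum_comm (f := fun a b => ev [e (ε a), e (ε b)] γ • _)]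
      refine Finset.sum_congr rfl fun b _ => ?_
      have := k (ctr (e (ε b)) γ) (m.flip (p * ε b * star q))
      simp only [ev_swap _ (e (ε b)), neg_smul, Finset.sum_neg_distrib]
      exact congrArg Neg.neg this

theorem sd_rot (hp : ‖p‖ = 1) (hq : ‖q‖ = 1) (h : ∀ v, e' (p * v * star q) = e v) (γ : Lam E4) :
    sd e' γ = p * sd e γ * star p := by
  have := two_rot hp hq h γ ((LinearMap.mul ℝ ℍ).compl₂ starL'.toLinearMap)
  simp only [LinearMap.compl₂_apply, LinearMap.mul_apply', ContinuousLinearMap.coe_coe,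
    starL'_apply] at this
  simp only [sd, this, Finset.mul_sum, Finset.sum_mul, mul_smul_comm, smul_mul_assoc, star_mul,
    star_star, mul_assoc]
  simp only [← mul_assoc (star q) q, star_mul_unit hq, one_mul]

theorem asd_rot (hp : ‖p‖ = 1) (hq : ‖q‖ = 1) (h : ∀ v, e' (p * v * star q) = e v) (γ : Lam E4) :
    asd e' γ = q * asd e γ * star q := by
  have := two_rot hp hq h γ ((LinearMap.mul ℝ ℍ).comp starL'.toLinearMap)
  simp only [LinearMap.comp_apply, LinearMap.mul_apply', ContinuousLinearMap.coe_coe,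
    starL'_apply] at this
  simp only [asd, this, Finset.mul_sum, Finset.sum_mul, mul_smul_comm, smul_mul_assoc, star_mul,
    star_star, mul_assoc]
  simp only [← mul_assoc (star p) p, star_mul_unit hp, one_mul]

theorem top_eq (e : ℍ →L[ℝ] E4) (α : Lam E4) : top e α = ev (List.ofFn ε.toBasis) (mp e α) := by
  rw [ev_mp, List.map_ofFn]
  rfl

theorem top_rot (hp : ‖p‖ = 1) (hq : ‖q‖ = 1) (h : ∀ v, e' (p * v * star q) = e v) (α : Lam E4) :
    top e' α = top e α := by
  have : e = e'.comp (lr p (star q)) := ContinuousLinearMap.ext fun v => (h v).symm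
  rw [top_eq e, this, mp_comp, ev_mp_det, ← top_eq, det_lr, Quaternion.normSq_star,
    Quaternion.normSq_eq_norm_mul_self, Quaternion.normSq_eq_norm_mul_self, hp, hq]
  norm_num

end

end Algb

open Algb in
theorem algb : AlgbStmt := fun θ e h h' =>
  ⟨fun γ hγ => ⟨by rw [sd_eq], by rw [asd_eq], fun γ' hγ' => by
      rw [top, ev_22 hγ hγ', inner_H, inner_H]
      simp only [sd_eq, asd_eq]
      ring⟩,
    fun η hη h0 => zero1 h' hη fun i => by rw [← inner_vec, h0, inner_zero_left],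
    fun γ hγ => part3 h' hγ,
    fun v => ext_inner_right ℝ fun w => by rw [inner_vec, ev_ι]; simp [h],
    fun l v => by rw [inner_vec, ev_ι],
    fun u w hu hw γ hγ => part6 h hu hw hγ,
    fun φ hφ => part7 h h' hφ,
    fun p q e' hp hq hr => ⟨fun η _ => vec_rot hp hq hr η,
      fun γ _ => ⟨sd_rot hp hq hr γ, asd_rot hp hq hr γ⟩, top_rot hp hq hr⟩⟩

end Pool.Agent.MP_e1dc65_gt.A

end
end MrgPart0

-- ======== part 1: formerly Pool.Agent.MP_e1dc65_gt.a.ConS
section MrgPart1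

/-! PROJECT HC, part A, row CON: the Levi-Civita connection on the stable tangent bundle. -/

set_option maxSynthPendingDepth 3

open scoped Quaternion ContDiff Topology RealInnerProductSpace Matrix
open Set Filter MeasureTheory Pool.Agent.MP_c8d41b_gt.GF ExteriorAlgebra

noncomputable section

namespace Pool.Agent.MP_e1dc65_gt.A

namespace Con'

abbrev EH : Type := ℍ →L[ℝ] ℍ

def h5 : Fin 5 → ℍ := ![⟨1, 0, 0, 0⟩, ⟨0, 1, 0, 0⟩, ⟨0, 0, 1, 0⟩, ⟨0, 0, 0, 1⟩, 0]
def c5 : Fin 5 → ℍ →L[ℝ] ℝ := ![co 0, co 1, co 2, co 3, 0]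

theorem sum5 (z : ℍ) : ∑ c, c5 c z • h5 c = z := by
  ext <;> simp [Fin.sum_univ_five, c5, h5, co_0, co_1, co_2, co_3]

/-- matrix entries -/
def en (a b : Fin 5) : EH →L[ℝ] ℝ := (c5 a).comp (ContinuousLinearMap.apply ℝ ℍ (h5 b))

theorem en_apply (a b : Fin 5) (T : EH) : en a b T = c5 a (T (h5 b)) := rfl

theorem en_mul (a b : Fin 5) (S T : EH) : en a b (S * T) = ∑ c, en a c S * en c b T := by
  have : en a b (S * T) = c5 a (S (∑ c, c5 c (T (h5 b)) • h5 c)) := by rw [sum5]; rfl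
  rw [this]
  simp only [map_sum, map_smul, smul_eq_mul, en_apply, mul_comm]

/-- the matrix of `T` plus the identity of the last coordinate -/
def m1 (T : EH) : M5 := Matrix.of fun a b => en a b T + if a = 4 ∧ b = 4 then 1 else 0

theorem en_4l (b : Fin 5) (T : EH) : en 4 b T = 0 := by simp [en_apply, c5]
theorem en_4r (a : Fin 5) (T : EH) : en a 4 T = 0 := by simp [en_apply, h5]

theorem en_m1 (a b : Fin 5) (S T : EH) : ∑ c, en a c S * m1 T c b = en a b (S * T) := by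
  rw [en_mul]
  refine Finset.sum_congr rfl fun c _ => ?_
  by_cases h : c = 4
  · simp [h, en_4r]
  · simp [m1, h]

theorem m1_en (a b : Fin 5) (S T : EH) : ∑ c, m1 S a c * en c b T = en a b (S * T) := by
  rw [en_mul]
  refine Finset.sum_congr rfl fun c _ => ?_
  by_cases h : c = 4
  · simp [h, en_4l]
  · simp [m1, h]

theorem m1_mulVec (T : EH) (v : ℍ) (t : ℝ) : m1 T *ᵥ emb v t = emb (T v) t := by
  have h : T v = v.re • T (h5 0) + v.imI • T (h5 1) + v.imJ • T (h5 2) + v.imK • T (h5 3) := by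
    simp only [← map_smul, ← map_add]
    congr 1
    ext <;> simp [h5]
  have h4 : T (h5 4) = 0 := by simp [h5]
  ext a
  rw [h]
  fin_cases a <;>
    simp [m1, Matrix.mulVec, dotProduct, Fin.sum_univ_five, emb, en_apply, c5, co_0, co_1, co_2,
      co_3, h4, mul_comm]

theorem tm_eq_m1 {E : Type} [NormedAddCommGroup E] [NormedSpace ℝ E] {θ θ' : E →L[ℝ] ℍ}
    (h : θ'.IsInvertible) {T : EH} (hT : ∀ v, θ v = T (θ' v)) : tm (cf5 θ) (cf5 θ') = m1 T :=
  m5_ext_emb fun v t => by rw [tm_cf5 θ h, m1_mulVec, hT, h.self_apply_inverse]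

section
variable {E E' : Type} [NormedAddCommGroup E] [NormedSpace ℝ E] [NormedAddCommGroup E']
  [NormedSpace ℝ E']

/-- the matrix of one-forms of an endomorphism valued covector -/
def fo (L : E →L[ℝ] EH) : MF E := Matrix.of fun a b => ι ℝ ((en a b).comp L)

theorem fo_gauge {D L L' : E →L[ℝ] EH} {g : EH} (h : ∀ v, D v + L v * g = g * L' v) :
    fo D + fo L * mF (m1 g) = mF (m1 g) * fo L' := by
  ext a b
  simp only [Matrix.add_apply, Matrix.mul_apply, fo, mF, Matrix.of_apply, Matrix.map_apply,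
    ← Algebra.commutes, ← Algebra.smul_def, ← map_smul, ← map_sum, ← map_add]
  congr 1
  ext v
  simp only [add_apply, sum_apply,
    smul_apply, ContinuousLinearMap.comp_apply, smul_eq_mul]
  rw [m1_en, ← h, map_add, ← en_m1]
  simp only [mul_comm]

theorem ami_inv (a : Lam E) : algebraMapInv (inv a) = algebraMapInv a := by
  induction a using lam_ind with
  | h0 r => simp
  | ha a b h1 h2 => simp only [map_add, h1, h2]
  | hm m a _ => simp [algebraMapInv]

theorem ev2_ι (l m : E →L[ℝ] ℝ) (u v : E) :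
    ev [u, v] (ι ℝ l * ι ℝ m) = l u * m v - l v * m u := by
  simp [ev, ctr_mul, ctr_ι]
  ring

/-- the shuffle formula for two two-forms -/
theorem ev4 {γ δ : Lam E} (hγ : γ ∈ dg E 2) (hδ : δ ∈ dg E 2) (a b c d : E) :
    ev [a, b, c, d] (γ * δ) = ev [a, b] γ * ev [c, d] δ - ev [a, c] γ * ev [b, d] δ +
      ev [a, d] γ * ev [b, c] δ + ev [b, c] γ * ev [a, d] δ - ev [b, d] γ * ev [a, c] δ +
      ev [c, d] γ * ev [a, b] δ := by
  have i : inv γ = γ := by rw [inv_dg hγ]; simp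
  have z0 : algebraMapInv γ = 0 := ev_eq_zero (l := []) hγ (by simp)
  have z0' : algebraMapInv δ = 0 := ev_eq_zero (l := []) hδ (by simp)
  have z1 : ∀ u, algebraMapInv (ctr u γ) = 0 := fun u => ev_eq_zero (l := [u]) hγ (by simp)
  have z1' : ∀ u, algebraMapInv (ctr u δ) = 0 := fun u => ev_eq_zero (l := [u]) hδ (by simp)
  simp only [ev, ctr_mul, map_add, map_mul, inv_ctr, i, map_neg, neg_mul, neg_neg, z0, z0', z1, z1',
    zero_mul, mul_zero, add_zero, zero_add, neg_zero]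
  ring

variable [FiniteDimensional ℝ E]

theorem ev2_dd {l : E → E →L[ℝ] ℝ} {x : E} (h : DifferentiableAt ℝ l x) (u v : E) :
    ev [u, v] (dd (fun y => ι ℝ (l y)) x) = fderiv ℝ l x u v - fderiv ℝ l x v u := by
  have h1 : fderiv ℝ (fun y => ι ℝ (l y)) x = (ιL (E := E)).comp (fderiv ℝ l x) :=
    ((ιL (E := E)).hasFDerivAt.comp x h.hasFDerivAt).fderiv
  rw [dd_eq, dL_apply, h1, ev_eq, map_sum]
  simp only [← ev_eq, ContinuousLinearMap.comp_apply, ιL_apply, ev2_ι, Finset.sum_sub_distrib]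
  have e : ∀ u v, ∑ i, LinearMap.toContinuousLinearMap ((Module.finBasis ℝ E).coord i) u *
      fderiv ℝ l x (Module.finBasis ℝ E i) v = fderiv ℝ l x u v := fun u v => by
    conv_rhs => rw [← (Module.finBasis ℝ E).sum_repr u]
    simp only [map_sum, map_smul, sum_apply, smul_apply, smul_eq_mul]
    rfl
  rw [e, e]

end

/-- `z ↦ a z - z b` -/
def lrL : ℍ × ℍ →L[ℝ] EH :=
  (ContinuousLinearMap.mul ℝ ℍ).comp (ContinuousLinearMap.fst ℝ ℍ ℍ) -
    (ContinuousLinearMap.mul ℝ ℍ).flip.comp (ContinuousLinearMap.snd ℝ ℍ ℍ)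

theorem lrL_apply (a b z : ℍ) : lrL (a, b) z = a * z - z * b := rfl

theorem tr_lrL {a b c d : ℍ} (ha : a.re = 0) (hc : c.re = 0) :
    ∑ i, ∑ j, en i j (lrL (a, b)) * en j i (lrL (c, d)) = 4 * (a * c).re + 4 * (b * d).re := by
  simp only [← en_mul]
  simp [Fin.sum_univ_five, en_apply, c5, h5, lrL_apply, co_0, co_1, co_2, co_3, ha, hc]
  ring

/-- the connection as a linear map of the two forms -/
def omL : (E4 →L[ℝ] ℍ) × (E4 →L[ℝ] ℍ) →L[ℝ] E4 →L[ℝ] EH :=
  LinearMap.toContinuousLinearMap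
    { toFun := fun a => lrL.comp (a.1.prod a.2)
      map_add' := fun a b => ContinuousLinearMap.ext fun v =>
        map_add lrL (a.1 v, a.2 v) (b.1 v, b.2 v)
      map_smul' := fun c a => ContinuousLinearMap.ext fun v => map_smul lrL c (a.1 v, a.2 v) }

def om (R : Loc) (y : E4) : E4 →L[ℝ] EH := omL (R.α y, R.β y)

theorem om_apply (R : Loc) (y v : E4) : om R y v = lrL (R.α y v, R.β y v) := rfl

theorem om_cda {R : Loc} {T : Set E4} (h : R.Ok T) {x : E4} (hx : x ∈ T) :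
    ContDiffAt ℝ ∞ (om R) x :=
  omL.contDiff.contDiffAt.comp x ((h.αs.contDiffAt (h.frm.op.mem_nhds hx)).prodMk
    (h.βs.contDiffAt (h.frm.op.mem_nhds hx)))

theorem cur_om {R : Loc} {T : Set E4} (h : R.Ok T) {x : E4} (hx : x ∈ T) (u v : E4) :
    cur (om R) x u v = lrL (cur R.α x u v, cur R.β x u v) := by
  have hα : DifferentiableAt ℝ R.α x :=
    (h.αs.contDiffAt (h.frm.op.mem_nhds hx)).differentiableAt (by simp)
  have hβ : DifferentiableAt ℝ R.β x :=
    (h.βs.contDiffAt (h.frm.op.mem_nhds hx)).differentiableAt (by simp)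
  have h1 : HasFDerivAt (om R) (omL.comp ((fderiv ℝ R.α x).prod (fderiv ℝ R.β x))) x :=
    omL.hasFDerivAt.comp x (hα.hasFDerivAt.prodMk hβ.hasFDerivAt)
  have h2 : ∀ u v, fderiv ℝ (om R) x u v = lrL (fderiv ℝ R.α x u v, fderiv ℝ R.β x u v) :=
    fun u v => by rw [h1.fderiv]; rfl
  ext1 z
  simp only [cur, h2, om_apply, add_apply, sub_apply,
    mul_apply_eq_comp, lrL_apply]
  noncomm_ring

theorem cda_en {R : Loc} {T : Set E4} (h : R.Ok T) {x : E4} (hx : x ∈ T) (a b : Fin 5) :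
    ContDiffAt ℝ ∞ (fun y => (en a b).comp (om R y)) x :=
  contDiffAt_const.clm_comp (om_cda h hx)

theorem fm_fo {R : Loc} {T : Set E4} (h : R.Ok T) {x : E4} (hx : x ∈ T) (a b : Fin 5) :
    FmAt (vs E4) (fun y => fo (om R y) a b) x := fmAt_vs.2 (cda_ι (cda_en h hx a b))

/-- the curvature in a chart -/
def cv (R : Loc) (x : E4) : MF E4 := curv (vs E4) (fun y => fo (om R y)) x

theorem cv_eq (R : Loc) (x : E4) (a b : Fin 5) : cv R x a b =
    dM (vs E4) (fun y => fo (om R y) a b) x + ∑ c, fo (om R x) a c * fo (om R x) c b := rfl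

theorem cv_dg {R : Loc} {T : Set E4} (h : R.Ok T) {x : E4} (hx : x ∈ T) (a b : Fin 5) :
    cv R x a b ∈ dg E4 2 := by
  rw [cv_eq]
  exact add_mem (dg_dM (n := 1) (fm_fo h hx a b) (Eventually.of_forall fun _ => dg_ι _))
    (Submodule.sum_mem _ fun c _ => dg_mul (i := 1) (j := 1) (dg_ι _) (dg_ι _))

theorem ev_cv {R : Loc} {T : Set E4} (h : R.Ok T) {x : E4} (hx : x ∈ T) (a b : Fin 5) (u v : E4) :
    ev [u, v] (cv R x a b) = en a b (lrL (cur R.α x u v, cur R.β x u v)) := by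
  have hd : DifferentiableAt ℝ (om R) x := (om_cda h hx).differentiableAt (by simp)
  have h1 : ∀ u v, fderiv ℝ (fun y => (en a b).comp (om R y)) x u v =
      en a b (fderiv ℝ (om R) x u v) := fun u v => by
    have h2 : HasFDerivAt (fun y => (en a b).comp (om R y))
        ((ContinuousLinearMap.compL ℝ E4 EH ℝ (en a b)).comp (fderiv ℝ (om R) x)) x :=
      (ContinuousLinearMap.compL ℝ E4 EH ℝ (en a b)).hasFDerivAt.comp x hd.hasFDerivAt
    rw [h2.fderiv]; rfl
  rw [← cur_om h hx, cv_eq, dM_vs, ev_add, ev_eq _ (∑ _, _), map_sum]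
  simp only [← ev_eq, fo, Matrix.of_apply, ev2_ι, Finset.sum_sub_distrib,
    ContinuousLinearMap.comp_apply, ← en_mul]
  rw [ev2_dd ((cda_en h hx a b).differentiableAt (by simp)), h1, h1, cur]
  simp only [map_add, map_sub]

theorem top_tr (h3 : BiaStmt) {R : Loc} {T : Set E4} (h : R.Ok T) {x : E4} (hx : x ∈ T) :
    top (R.e x) (cv R x * cv R x).trace = 8 * R.pont x := by
  have hb := (h3 R T h x hx).1
  have e : ∀ a b i j, ev [R.e x (ε a), R.e x (ε b)] (cv R x i j) =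
      en i j (lrL (cf2 R.α R.e x a b, cf2 R.β R.e x a b)) := fun a b i j => ev_cv h hx i j _ _
  have c : ∀ a b : ℍ, (a * b).re = (b * a).re := fun a b => by simp; ring
  simp only [top, Matrix.trace, Matrix.diag, Matrix.mul_apply, ev_eq, map_sum]
  simp only [← ev_eq, ev4 (cv_dg h hx _ _) (cv_dg h hx _ _), e, Finset.sum_add_distrib,
    Finset.sum_sub_distrib, tr_lrL (hb.imF _ _) (hb.imF _ _), Loc.pont, pf]
  rw [c (cf2 R.α R.e x 1 2), c (cf2 R.β R.e x 1 2), c (cf2 R.α R.e x 1 3), c (cf2 R.β R.e x 1 3),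
    c (cf2 R.α R.e x 2 3), c (cf2 R.β R.e x 2 3)]
  simp only [Quaternion.re_add, Quaternion.re_sub]
  ring

/-- the gauge law in a chart -/
theorem gauge_loc (h1 : NatStmt) {R R' : Loc} {T T' : Set E4} {f : E4 → E4} {p q : E4 → ℍ} {x : E4}
    (h : R.Ok T) (h' : R'.Ok T') (hx : x ∈ T) (hx' : f x ∈ T') (m : Mor R.θ R'.θ f p q x) (v : E4) :
    fderiv ℝ (fun y => lr (p y) (star (q y))) x v +
      om R' (f x) (fderiv ℝ f x v) * lr (p x) (star (q x)) = lr (p x) (star (q x)) * om R x v := by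
  obtain ⟨ha, hb, -⟩ := h1 R R' T T' f p q x h h' hx hx' m
  have dp : HasFDerivAt p (fderiv ℝ p x) x := (m.ps.differentiableAt (by simp)).hasFDerivAt
  have dq : HasFDerivAt q (fderiv ℝ q x) x := (m.qs.differentiableAt (by simp)).hasFDerivAt
  have dq' : HasFDerivAt (fun y => star (q y)) (starL'.comp (fderiv ℝ q x)) x :=
    starL'.hasFDerivAt.comp x dq
  have dl : DifferentiableAt ℝ (fun y => lr (p y) (star (q y))) x :=
    (cda_lr m.ps (cda_star m.qs)).differentiableAt (by simp)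
  have p1 := mul_star_unit m.p1.self_of_nhds
  have q1 := mul_star_unit m.q1.self_of_nhds
  have i1 := star_im ((h.lc x hx).imb v)
  have i2 := star_im ((h'.lc _ hx').imb (fderiv ℝ f x v))
  ext1 z
  have d1 : HasFDerivAt (fun y => lr (p y) (star (q y)) z)
      ((fderiv ℝ (fun y => lr (p y) (star (q y))) x).flip z) x :=
    (ContinuousLinearMap.apply ℝ ℍ z).hasFDerivAt.comp x dl.hasFDerivAt
  have d2 := (dp.mul_const' z).fun_mul' dq'
  have d3 : fderiv ℝ (fun y => lr (p y) (star (q y))) x v z =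
      p x * z * star (fderiv ℝ q x v) + fderiv ℝ p x v * z * star (q x) :=
    DFunLike.congr_fun (d1.unique d2) v
  have e1 : p x * R.α x v = R'.α (f x) (fderiv ℝ f x v) * p x + fderiv ℝ p x v := by
    rw [ha v, mul_add, ← mul_assoc, ← mul_assoc, ← mul_assoc, p1, one_mul, one_mul]
  have e2 : R.β x v * star (q x) =
      star (q x) * R'.β (f x) (fderiv ℝ f x v) - star (fderiv ℝ q x v) := by
    have := congrArg star (hb v)
    rw [i1, star_add, star_mul, star_mul, star_mul, star_star, i2] at this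
    rw [neg_eq_iff_eq_neg.1 this, neg_mul, add_mul, mul_assoc, mul_assoc, mul_assoc, q1]
    noncomm_ring
  change fderiv ℝ (fun y => lr (p y) (star (q y))) x v z +
    (R'.α (f x) (fderiv ℝ f x v) * (p x * z * star (q x)) -
      p x * z * star (q x) * R'.β (f x) (fderiv ℝ f x v)) =
    p x * (R.α x v * z - z * R.β x v) * star (q x)
  rw [d3]
  linear_combination (norm := noncomm_ring) p x * z * e2 - e1 * z * star (q x)

theorem dMat_m1 {E : Type} [NormedAddCommGroup E] [NormedSpace ℝ E] [FiniteDimensional ℝ E]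
    {X : Mf E} {g : X → EH} {x : X} (hg : SmAt X (vs EH) g x) :
    dMat X (fun y => mF (m1 (g y))) x = fo (Df X (vs EH) g x) := by
  ext a b
  have hc : ContDiffAt ℝ ∞ (fun T => m1 T a b) (g x) :=
    (en a b).contDiff.contDiffAt.add contDiffAt_const
  have hd : fderiv ℝ (fun T => m1 T a b) (g x) = en a b :=
    ((en a b).hasFDerivAt.add_const _).fderiv
  change dM X (fun y => algebraMap ℝ _ (m1 (g y) a b)) x = _
  rw [dM_scalar (hg.vcomp hc), dF, Df_vcomp (g := fun T => m1 T a b) hg hc, hd]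
  rfl

section
variable {X : Mf E4} [CompactSpace X] {o : X → Lam E4} {G : Geo (spc X)}

/-- the chart on the cylinder -/
def ph (G : Geo (spc X)) (i : Fin G.n) (p : X.cyl) : E4 := G.ch i p.1

theorem ph_sm (h : Br o G) {i : Fin G.n} {p : X.cyl} (hp : p.1 ∈ G.U i) :
    SmAt X.cyl (vs E4) (ph G i) p := smAt_fst.trans ((h.oe i).sm _ hp)

/-- the connection matrix -/
def Am (G : Geo (spc X)) (i : Fin G.n) (p : X.cyl) : MF (E4 × ℝ) :=
  fo ((om (G.R i) (ph G i p)).comp (Df X.cyl (vs E4) (ph G i) p))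

theorem Am_eq (i : Fin G.n) (a b : Fin 5) : (fun p => Am G i p a b) =
    pbM X.cyl (vs E4) (ph G i) fun y => fo (om (G.R i) y) a b :=
  funext fun p => (mp_ι (Df X.cyl (vs E4) (ph G i) p) ((en a b).comp (om (G.R i) (ph G i p)))).symm

theorem curv_Am (h : Br o G) {i : Fin G.n} {p : X.cyl} (hp : p.1 ∈ G.U i) (a b : Fin 5) :
    curv X.cyl (Am G i) p a b = mp (Df X.cyl (vs E4) (ph G i) p) (cv (G.R i) (ph G i p) a b) := by
  rw [cv_eq, map_add, map_sum]
  change dM X.cyl (fun p => Am G i p a b) p + ∑ c, Am G i p a c * Am G i p c b = _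
  rw [Am_eq, dM_pb (ph_sm h hp) (fm_fo (h.ok.loc i) ((G.ch i).map_source hp) a b)]
  simp only [map_mul]
  congr 1
  exact Finset.sum_congr rfl fun c _ => by
    rw [congrFun (Am_eq i a c) p, congrFun (Am_eq i c b) p]; rfl

theorem gauge (h1 : NatStmt) (h2 : CocStmt) (h : Br o G) {i j : Fin G.n} {z : X.cyl}
    (hi : z.1 ∈ G.U i) (hj : z.1 ∈ G.U j) :
    dMat X.cyl (fun y => mF (tm (cf5 (G.cf i y.1)) (cf5 (G.cf j y.1)))) z +
      Am G i z * mF (tm (cf5 (G.cf i z.1)) (cf5 (G.cf j z.1))) =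
      mF (tm (cf5 (G.cf i z.1)) (cf5 (G.cf j z.1))) * Am G j z := by
  obtain ⟨p, q, m, -⟩ := (h2 _ G .l ⟨h.ok, fun e => by cases e⟩).2.2.2 i j z.1 ⟨hi, hj⟩
  have cj : ContinuousAt (ph G j) z := (ph_sm h hj).cont
  have ev0 : ∀ᶠ y : X.cyl in 𝓝 z, y.1 ∈ G.U i ∧ y.1 ∈ G.U j :=
    continuous_fst.continuousAt.eventually
      (((G.ch i).open_source.inter (G.ch j).open_source).mem_nhds ⟨hi, hj⟩)
  have rd : ∀ x ∈ G.U j, G.rd id j i (G.ch j x) = G.ch i x := fun x hx => by
    simp only [Geo.rd, id, (G.ch j).left_inv hx]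
  have dd' : ∀ x, x ∈ G.U i → x ∈ G.U j → Df X (vs E4) (G.ch i) x =
      (fderiv ℝ (G.rd id j i) (G.ch j x)).comp (Df X (vs E4) (G.ch j) x) := fun x hx hx' => by
    rw [← Df_vcomp ((h.oe j).sm x hx') (h.ok.sm i j x ⟨hx, hx'⟩)]
    exact Df_congr (mem_of_superset ((G.ch j).open_source.mem_nhds hx') fun y hy => (rd y hy).symm)
  have ev1 : ∀ᶠ y : X.cyl in 𝓝 z, tm (cf5 (G.cf i y.1)) (cf5 (G.cf j y.1)) =
      m1 (lr (p (ph G j y)) (star (q (ph G j y)))) := by
    filter_upwards [ev0, cj.eventually m.rot] with y hy hr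
    refine tm_eq_m1 (h.cof j _ hy.2).2 fun v => ?_
    have := hr (Df X (vs E4) (G.ch j) y.1 v)
    rw [ph, rd _ hy.2] at this
    rw [Geo.cf, dd' _ hy.1 hy.2]
    exact this
  have sl : ContDiffAt ℝ ∞ (fun y => lr (p y) (star (q y))) (ph G j z) :=
    cda_lr m.ps (cda_star m.qs)
  rw [Cw2.dMat_congr (ev1.mono fun y hy => congrArg mF hy), ev1.self_of_nhds,
    dMat_m1 ((ph_sm h hj).vcomp sl), Df_vcomp (ph_sm h hj) sl]
  refine fo_gauge fun v => ?_
  have := gauge_loc h1 (h.ok.loc j) (h.ok.loc i) ((G.ch j).map_source hj)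
    (by rw [rd _ hj]; exact (G.ch i).map_source hi) m (Df X.cyl (vs E4) (ph G j) z v)
  rw [rd _ hj] at this
  have e : Df X.cyl (vs E4) (ph G i) z v =
      fderiv ℝ (G.rd id j i) (G.ch j z.1) (Df X.cyl (vs E4) (ph G j) z v) := by
    have a : ∀ k, z.1 ∈ G.U k → Df X.cyl (vs E4) (ph G k) z =
        (Df X (vs E4) (G.ch k) z.1).comp (Df X.cyl X Prod.fst z) := fun k hk =>
      Df_comp smAt_fst ((h.oe k).sm _ hk)
    rw [a i hi, a j hj, dd' _ hi hj]
    rfl
  simp only [ContinuousLinearMap.comp_apply, e]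
  exact this

/-- the connection -/
def cn (h1 : NatStmt) (h2 : CocStmt) (h : Br o G) : MP_e1dc65_gt.Con X.cyl univ where
  ι := Fin G.n
  W i := G.U i ×ˢ univ
  Θ i p := cf5 (G.cf i p.1)
  op i := (G.ch i).open_source.prod isOpen_univ
  sub _ := subset_univ _
  cov p _ := ⟨G.c p.1, h.ok.mem _, trivial⟩
  cof i := (h.cof i).cf5
  A := Am G
  fm i a b p hp := ⟨by
    rw [Am_eq]
    exact FmAt.pb (fm_fo (h.ok.loc i) ((G.ch i).map_source hp.1) a b) (ph_sm h hp.1), dg_ι _⟩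
  gauge _ _ _ hp := gauge h1 h2 h hp.1.1 hp.2.1

end

theorem conS' (hc : Cw2Stmt) (h1 : NatStmt) (h2 : CocStmt) (h3 : BiaStmt) : ConStmt := by
  intro X _ o G h
  obtain ⟨Ω, hT, hΩ⟩ := (hc _ X.cyl).2.2.1 univ (cn h1 h2 h)
  have si : ∀ x : X, SmAt X X.cyl (fun x => (x, (0 : ℝ))) x := fun x =>
    smAt_id.pair (smAt_const (Y := vs ℝ) _)
  refine ⟨_, ⟨cn h1 h2 h, Ω, hT, fun _ => rfl⟩, fun x => FmAt.pb (hΩ.1 _ trivial).1 (si x),
    fun x => ?_⟩
  have hx : x ∈ G.U (G.c x) := h.ok.mem x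
  have hy := (G.ch (G.c x)).map_source hx
  have e1 : Ω (x, 0) = mp (Df X.cyl (vs E4) (ph G (G.c x)) (x, 0))
      (cv (G.R (G.c x)) (G.ch (G.c x) x) * cv (G.R (G.c x)) (G.ch (G.c x) x)).trace := by
    rw [hT (G.c x) (x, 0) ⟨hx, trivial⟩]
    simp only [Matrix.trace, Matrix.diag, Matrix.mul_apply, map_sum, map_mul]
    exact Finset.sum_congr rfl fun a _ => Finset.sum_congr rfl fun b _ =>
      congrArg₂ (· * ·) (curv_Am h (p := (x, 0)) hx a b) (curv_Am h (p := (x, 0)) hx b a)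
  have e2 : (Df X.cyl (vs E4) (ph G (G.c x)) (x, 0)).comp (Df X X.cyl (fun x => (x, (0 : ℝ))) x) =
      Df X (vs E4) (G.ch (G.c x)) x := (Df_comp (si x) (ph_sm h (p := (x, 0)) hx)).symm
  have e3 : ∀ v, Df X (vs E4) (G.ch (G.c x)) x (G.fm x v) = (G.R (G.c x)).e (G.ch (G.c x) x) v :=
    fun v => by
      rw [← (h.ok.loc _).frm.eθ _ hy (Df X (vs E4) (G.ch (G.c x)) x (G.fm x v))]
      exact congrArg _ ((h.cof _ x hx).2.self_apply_inverse v)
  rw [pbM, e1, ← mp_comp, e2, top, ev_mp]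
  simp only [List.map_cons, List.map_nil, e3]
  exact top_tr h3 (h.ok.loc _) hy

end Con'

theorem conS (h1 : NatStmt) (h2 : CocStmt) (h3 : BiaStmt) (_h4 : AlgbStmt) : ConStmt :=
  Con'.conS' (cw2 cw1) h1 h2 h3

end Pool.Agent.MP_e1dc65_gt.A

end
end MrgPart1

-- ======== part 2: formerly Pool.Agent.MP_e1dc65_gt.a.Gauge
section MrgPart2

/-! PROJECT HC, part A: a gauge in which the connection vanishes at a point and has
antisymmetric derivative there. -/

set_option maxSynthPendingDepth 3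

open scoped Quaternion ContDiff Topology RealInnerProductSpace
open Set Filter MeasureTheory Metric

noncomputable section

namespace Pool.Agent.MP_e1dc65_gt.A

namespace Gauge

/-- the derivative of a function with imaginary values is imaginary -/
theorem re_der {f : E4 → ℍ} {f' : E4 →L[ℝ] ℍ} {y : E4} (hf : HasFDerivAt f f' y)
    (h : ∀ᶠ x in 𝓝 y, (f x).re = 0) (u : E4) : (f' u).re = 0 := by
  have h1 : HasFDerivAt (fun x => co 0 (f x)) ((co 0).comp f') y := (co 0).hasFDerivAt.comp y hf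
  have h2 : HasFDerivAt (fun x => co 0 (f x)) (0 : E4 →L[ℝ] ℝ) y :=
    (hasFDerivAt_const (0 : ℝ) y).congr_of_eventuallyEq (h.mono fun x hx => (co_0 _).trans hx)
  rw [← co_0]
  exact congrArg (fun l : E4 →L[ℝ] ℝ => l u) (h1.unique h2)

/-- the logarithmic derivative of a unit quaternion is imaginary -/
theorem re_log {p : E4 → ℍ} (hp : Differentiable ℝ p) (h : ∀ x, ‖p x‖ = 1) (x v : E4) :
    (star (p x) * fderiv ℝ p x v).re = 0 := by
  have h1 := (hp x).hasFDerivAt.norm_sq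
  have h2 : HasFDerivAt (fun x => ‖p x‖ ^ 2) (0 : E4 →L[ℝ] ℝ) x := by
    simp only [h]
    exact hasFDerivAt_const _ _
  have h3 : (2 : ℕ) • ⟪p x, fderiv ℝ p x v⟫ = 0 :=
    congrArg (fun l : E4 →L[ℝ] ℝ => l v) (h1.unique h2)
  rw [inner_H] at h3
  simp at h3 ⊢
  linarith

theorem re_conj (p : ℍ) {a : ℍ} (h : a.re = 0) : (star p * a * p).re = 0 := by
  simp [h]; ring

/-- the transformed connection is differentiable -/
theorem diff {α α' : E4 → E4 →L[ℝ] ℍ} {p : E4 → ℍ} {y : E4} (hα : ContDiffAt ℝ ∞ α y)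
    (hp : ContDiff ℝ ∞ p)
    (h : ∀ x v, α' x v = star (p x) * α x v * p x + star (p x) * fderiv ℝ p x v) :
    DifferentiableAt ℝ α' y := by
  have e : α' = fun x => (lr (star (p x)) (p x)).comp (α x) +
      (lr (star (p x)) 1).comp (fderiv ℝ p x) := by
    ext1 x
    ext1 v
    simp [h]
  have h1 : ContDiffAt ℝ ∞ p y := hp.contDiffAt
  have h2 : ContDiffAt ℝ ∞ (fderiv ℝ p) y := h1.fderiv_right (by simp)
  rw [e]
  exact (((cda_lr (cda_star h1) h1).clm_comp hα).add
    ((cda_lr (cda_star h1) contDiffAt_const).clm_comp h2)).differentiableAt (by simp)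

theorem app {α : E4 → E4 →L[ℝ] ℍ} {y : E4} (h : DifferentiableAt ℝ α y) (v : E4) :
    HasFDerivAt (fun x => α x v) ((fderiv ℝ α y).flip v) y := by
  simpa using h.hasFDerivAt.clm_apply (hasFDerivAt_const v y)

end Gauge

open Gauge in
theorem gauge : GaugeStmt := by
  intro α y hα him
  have hd : DifferentiableAt ℝ α y := hα.differentiableAt (by simp)
  have ha : ∀ v, (α y v).re = 0 := him.self_of_nhds
  have hA : ∀ u v, (fderiv ℝ α y u v).re = 0 := fun u v =>
    re_der (app hd v) (him.mono fun x hx => hx v) u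
  have hD := fun v => app hd v
  unfold cur
  generalize fderiv ℝ α y = A at hA hD ⊢
  set g : E4 → ℍ := fun x => 1 - α y (x - y) - (1 / 2 : ℝ) • A (x - y) (x - y) with hg
  set G : E4 → E4 →L[ℝ] ℍ := fun x => -α y - (1 / 2 : ℝ) • (A (x - y) + A.flip (x - y)) with hG
  have hz : ∀ x : E4, HasFDerivAt (fun x => x - y) (ContinuousLinearMap.id ℝ E4) x :=
    fun x => (hasFDerivAt_id x).sub_const y
  have g1 : ∀ x, HasFDerivAt g (G x) x := fun x => by
    refine ((((α y).hasFDerivAt.comp x (hz x)).const_sub 1).sub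
      (((A.hasFDerivAt.comp x (hz x)).clm_apply (hz x)).const_smul (1 / 2 : ℝ))).congr_fderiv ?_
    ext1 v
    simp [hG]
  have g2 : ContDiff ℝ ∞ g := by
    have : ContDiff ℝ ∞ fun x : E4 => x - y := contDiff_id.sub contDiff_const
    exact (contDiff_const.sub ((α y).contDiff.comp this)).sub
      (((A.contDiff.comp this).clm_apply this).const_smul _)
  have g3 : ∀ x, g x ≠ 0 := fun x h => by
    have := congrArg (fun a : ℍ => a.re) h
    simp [hg, ha, hA] at this
  have g4 : g y = 1 := by simp [hg]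
  have G1 : ∀ v, G y v = -α y v := fun v => by simp [hG]
  have G2 : ∀ v, HasFDerivAt (fun x => G x v) (-((1 / 2 : ℝ) • (A.flip v + A v))) y := fun v => by
    have := ((((A.flip v).hasFDerivAt.comp y (hz y)).add
      ((A v).hasFDerivAt.comp y (hz y))).const_smul (1 / 2 : ℝ)).const_sub (-α y v)
    simpa [hG, Function.comp_def] using this
  set c : E4 → ℝ := fun x => ‖g x‖⁻¹ with hc
  have c1 : ContDiff ℝ ∞ c := (g2.norm ℝ g3).inv fun x => norm_ne_zero_iff.2 (g3 x)
  have c2 : c y = 1 := by simp [hc, g4]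
  have c3 : Differentiable ℝ c := c1.differentiable (by simp)
  have c4 : ∀ v, DifferentiableAt ℝ (fun x => fderiv ℝ c x v) y := fun v =>
    ((c1.contDiffAt.fderiv_right (m := 1) (by norm_cast)).differentiableAt one_ne_zero).clm_apply
      (differentiableAt_const v)
  have hu : ∀ x, ‖c x • g x‖ = 1 := fun x => by
    rw [norm_smul, hc, norm_inv, norm_norm, inv_mul_cancel₀ (norm_ne_zero_iff.2 (g3 x))]
  clear_value c G g
  set p : E4 → ℍ := fun x => c x • g x with hp
  have p1 : ContDiff ℝ ∞ p := c1.smul g2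
  have p2 : p y = 1 := by simp [hp, c2, g4]
  have p3 : ∀ x v, fderiv ℝ p x v = c x • G x v + fderiv ℝ c x v • g x := fun x v => by
    rw [hp, ((c3 x).hasFDerivAt.fun_smul (g1 x)).fderiv]
    simp
  have p4 : Differentiable ℝ p := p1.differentiable (by simp)
  have c5 : ∀ v, fderiv ℝ c y v = 0 := fun v => by
    have := re_log p4 hu y v
    rw [p2, p3, c2, g4, G1] at this
    simpa [ha] using this
  have p5 : ∀ v, fderiv ℝ p y v = -α y v := fun v => by simp [p3, c2, c5, G1]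
  refine ⟨p, p1, hu, p2, fun α' h => ?_⟩
  have hd' := diff hα p1 h
  have key : ∀ u v, fderiv ℝ α' y u v =
      (1 / 2 : ℝ) • (A u v - A v u + (α y u * α y v - α y v * α y u)) := fun u v => by
    have s1 : HasFDerivAt (fun x => star (p x)) (starL'.comp (fderiv ℝ p y)) y :=
      starL'.hasFDerivAt.comp y (p4 y).hasFDerivAt
    have s2 := ((s1.fun_mul' (hD v)).fun_mul' (p4 y).hasFDerivAt).fun_add (s1.fun_mul'
      (((c3 y).hasFDerivAt.fun_smul (G2 v)).fun_add ((c4 v).hasFDerivAt.fun_smul (g1 y))))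
    have s3 := app hd' v
    have s4 := re_der s3 (him.mono fun x hx => by
      rw [h, Quaternion.re_add, re_conj _ (hx v), re_log p4 hu, add_zero]) u
    simp only [h, p3] at s3
    have s5 := congrArg (fun l : E4 →L[ℝ] ℍ => l u) (s3.unique s2)
    simp [starL'_apply, p2, p5, c2, c5, g4, G1, star_im (ha _)] at s5
    rw [ContinuousLinearMap.flip_apply] at s4
    rw [s5] at s4 ⊢
    have b1 := ha u
    have b2 := ha v
    have b3 := hA u v
    have b4 := hA v u
    ext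
    · rw [s4]
      simp [b1, b2, b3, b4]
      ring
    all_goals
      simp [b1, b2]
      ring
  refine ⟨?_, fun u v => ?_, fun u v => ?_⟩
  · ext1 v
    simp [h, p2, p5]
  · rw [key, key, ← smul_neg]
    congr 1
    abel
  · rw [key, smul_smul]
    norm_num

end Pool.Agent.MP_e1dc65_gt.A

end
end MrgPart2

-- ======== part 3: formerly Pool.Agent.MP_e1dc65_gt.a.Int
section MrgPart3

/-! PROJECT HC, part A, row INT: integration in charts. -/

set_option maxSynthPendingDepth 3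

open scoped Quaternion ContDiff Topology RealInnerProductSpace
open Set Filter MeasureTheory Metric

noncomputable section

namespace Pool.Agent.MP_e1dc65_gt.A
namespace IntC

variable {X : Sp}

section Chart
variable {e : OpenPartialHomeomorph X E4} {J : E4 → ℝ} {μ : Measure X}

/-- the measure `μ` has the density `J` in the chart `e` -/
structure Den (e : OpenPartialHomeomorph X E4) (J : E4 → ℝ) (μ : Measure X) : Prop where
  cont : ContinuousOn J e.target
  pos : ∀ y ∈ e.target, 0 < J y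
  eq : μ.restrict e.source = Measure.map e.symm
    ((volume.restrict e.target).withDensity fun y => ENNReal.ofReal (J y))

theorem Den.jm (h : Den e J μ) :
    AEMeasurable (fun y => ENNReal.ofReal (J y)) (volume.restrict e.target) :=
  (h.cont.aemeasurable e.open_target.measurableSet).ennreal_ofReal

theorem symm_aem (e : OpenPartialHomeomorph X E4) (J : E4 → ℝ) : AEMeasurable e.symm
    ((volume.restrict e.target).withDensity fun y => ENNReal.ofReal (J y)) :=
  (e.continuousOn_symm.aemeasurable e.open_target.measurableSet).mono_ac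
    (withDensity_absolutelyContinuous _ _)

theorem Den.ae_iff (h : Den e J μ) (Q : E4 → Prop) :
    (∀ᵐ y ∂(volume.restrict e.target).withDensity fun y => ENNReal.ofReal (J y), Q y) ↔
      ∀ᵐ y, y ∈ e.target → Q y := by
  rw [ae_withDensity_iff' h.jm, ae_restrict_iff' e.open_target.measurableSet]
  refine eventually_congr (Eventually.of_forall fun y => forall_congr' fun hy => ?_)
  exact ⟨fun H => H (ENNReal.ofReal_pos.2 (h.pos y hy)).ne', fun H _ => H⟩

theorem Den.ae (h : Den e J μ) (P : X → Prop) :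
    (∀ᵐ y, y ∈ e.target → P (e.symm y)) ↔ ∀ᵐ x ∂μ, x ∈ e.source → P x := by
  classical
  have hU := e.open_source.measurableSet
  constructor
  · intro H
    obtain ⟨N, hN, mN, zN⟩ := exists_measurable_superset_of_null (MeasureTheory.ae_iff.1 H)
    have me : Measurable (e.source.piecewise e fun _ => 0) :=
      e.continuousOn.measurable_piecewise continuousOn_const hU
    have h1 : ∀ᵐ x ∂μ.restrict e.source, x ∈ ((e.source.piecewise e fun _ => 0) ⁻¹' N)ᶜ := by
      rw [h.eq]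
      refine (ae_map_iff (symm_aem e J) (me mN).compl).2 ((h.ae_iff _).2 ?_)
      filter_upwards [measure_eq_zero_iff_ae_notMem.1 zN] with y hy hT
      rw [mem_preimage, piecewise_eq_of_mem _ _ _ (e.map_target hT), e.right_inv hT]
      exact hy
    filter_upwards [(ae_restrict_iff' hU).1 h1] with x hx hs
    by_contra hP
    refine hx hs ?_
    rw [mem_preimage, piecewise_eq_of_mem _ _ _ hs]
    refine hN fun H => hP ?_
    have := H (e.map_source hs)
    rwa [e.left_inv hs] at this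
  · intro H
    have h1 := (ae_restrict_iff' hU).2 H
    rw [h.eq] at h1
    exact (h.ae_iff _).1 (ae_of_ae_map (symm_aem e J) h1)

variable {B : Type} [NormedAddCommGroup B] [NormedSpace ℝ B] {f : X → B}

theorem Den.smul_ae (h : Den e J μ) (g : E4 → B) :
    (fun y => (ENNReal.ofReal (J y)).toReal • g y) =ᵐ[volume.restrict e.target]
      fun y => J y • g y := by
  filter_upwards [ae_restrict_mem e.open_target.measurableSet] with y hy
  rw [ENNReal.toReal_ofReal (h.pos y hy).le]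

theorem Den.integral (h : Den e J μ) (hf : AEStronglyMeasurable f (μ.restrict e.source)) :
    ∫ x in e.source, f x ∂μ = ∫ y in e.target, J y • f (e.symm y) := by
  rw [h.eq] at hf ⊢
  rw [integral_map (symm_aem e J) hf, integral_withDensity_eq_integral_toReal_smul₀ h.jm
    (Eventually.of_forall fun _ => ENNReal.ofReal_lt_top)]
  exact integral_congr_ae (h.smul_ae _)

theorem Den.integrable (h : Den e J μ) (hf : IntegrableOn f e.source μ) :
    IntegrableOn (fun y => J y • f (e.symm y)) e.target := by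
  unfold IntegrableOn at hf
  rw [h.eq] at hf
  rw [integrable_map_measure hf.1 (symm_aem e J), integrable_withDensity_iff_integrable_smul₀' h.jm
    (Eventually.of_forall fun _ => ENNReal.ofReal_lt_top)] at hf
  exact hf.congr (h.smul_ae _)

end Chart

/-- functions given chart by chart by continuous functions are measurable -/
theorem sm_piece (G : Geo X) (h0 : G.Ok0) {B : Type} [NormedAddCommGroup B]
    [SecondCountableTopology B] {S : Set X} (hS : MeasurableSet S) {f : Fin G.n → X → B}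
    (hf : ∀ j, ContinuousOn (f j) (S ∩ G.U j)) :
    StronglyMeasurable (S.indicator fun x => f (G.c x) x) := by
  classical
  borelize B
  have e : (S.indicator fun x => f (G.c x) x) =
      fun x => ∑ j, (S ∩ {x | G.c x = j}).piecewise (f j) (fun _ => 0) x := by
    funext x
    by_cases hx : x ∈ S
    · rw [indicator_of_mem hx, Finset.sum_eq_single (G.c x)]
      · exact (piecewise_eq_of_mem _ _ _ (show x ∈ S ∩ {y | G.c y = G.c x} from ⟨hx, rfl⟩)).symm
      · exact fun j _ hj => piecewise_eq_of_notMem _ _ _ fun h => hj h.2.symm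
      · exact fun h => absurd (Finset.mem_univ _) h
    · rw [indicator_of_notMem hx]
      exact (Finset.sum_eq_zero fun j _ => piecewise_eq_of_notMem _ _ _ fun h => hx h.1).symm
  rw [e]
  refine (Finset.measurable_sum _ fun j _ => ?_).stronglyMeasurable
  refine ((hf j).mono fun x hx => ⟨hx.1, ?_⟩).measurable_piecewise continuousOn_const
    (hS.inter (h0.meas j))
  have h1 : G.c x = j := hx.2
  exact h1 ▸ h0.mem x

end IntC

open IntC in
theorem intS (h1 : CocStmt) (h2 : SecStmt) (h3 : SymStmt) : IntStmt := by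
  intro X G κ hA
  obtain ⟨c1, c2, c3, c4⟩ := h1 X G κ hA
  obtain ⟨s1, -, -, -, -, -, -, -, -, s10, -⟩ := h2 X G κ hA
  have hfin := hA.fin
  have hD : ∀ i, Den (G.ch i) (fun y => jac ((G.R i).θ y)) G.μ := fun i =>
    ⟨(h3 _ _ κ (hA.loc i)).1.continuousOn, (h3 _ _ κ (hA.loc i)).2.1, hA.chart i⟩
  have hU : ∀ i, MeasurableSet (G.U i) := fun i => (G.ch i).open_source.measurableSet
  have p2 : ∀ i (f : X → ℝ), AEStronglyMeasurable f (G.μ.restrict (G.U i)) →
      (∀ x ∉ G.U i, f x = 0) →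
      ∫ x, f x ∂G.μ = ∫ y in G.T i, jac ((G.R i).θ y) * f ((G.ch i).symm y) := fun i f hf h0 => by
    rw [← setIntegral_eq_integral_of_forall_compl_eq_zero h0]
    exact (hD i).integral hf
  have gc : ∀ i j, ContinuousOn (G.g κ i j) (G.U i ∩ G.U j) := fun i j x hx => by
    obtain ⟨p, q, -, -, h⟩ := c4 i j x hx
    refine ((h.continuousAt.comp ((G.ch j).continuousAt hx.2)).congr ?_).continuousWithinAt
    filter_upwards [(G.ch j).open_source.mem_nhds hx.2] with z hz
    simp only [Function.comp, (G.ch j).left_inv hz]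
  have gm : ∀ i (s : X → W), AEStronglyMeasurable s G.μ →
      AEStronglyMeasurable (fun x => G.g κ i (G.c x) x (s x)) (G.μ.restrict (G.U i)) :=
    fun i s hs => by
      have a1 : AEStronglyMeasurable (fun x => G.g κ i (G.c x) x) (G.μ.restrict (G.U i)) :=
        (aestronglyMeasurable_indicator_iff (hU i)).1
          (sm_piece G hA.toOk0 (hU i) (gc i)).aestronglyMeasurable
      exact isBoundedBilinearMap_apply.continuous.comp_aestronglyMeasurable (a1.prodMk hs.restrict)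
  refine ⟨⟨fun O hO hne hz => ?_⟩, fun i f hf h0 => p2 i f hf.restrict h0, fun i P => (hD i).ae P,
    fun s hs => ?_, fun s hs i K hK _ => ?_, fun s hs i u K _ _ _ hu => ?_⟩
  · obtain ⟨x, hx⟩ := hne
    have a1 : ∀ᵐ y, y ∈ G.T (G.c x) → (G.ch (G.c x)).symm y ∉ O :=
      ((hD _).ae fun x => x ∉ O).2
        ((measure_eq_zero_iff_ae_notMem.1 hz).mono fun _ h _ => h)
    have a2 := (G.ch (G.c x)).isOpen_inter_preimage_symm hO
    refine a2.measure_ne_zero volume ⟨G.ch (G.c x) x, (G.ch _).map_source (hA.mem x), ?_⟩ ?_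
    · rw [mem_preimage, (G.ch _).left_inv (hA.mem x)]; exact hx
    · exact measure_eq_zero_iff_ae_notMem.2 (a1.mono fun y h hy => h hy.1 hy.2)
  · have a1 : StronglyMeasurable s := by
      have := sm_piece G hA.toOk0 MeasurableSet.univ (f := fun j x => G.lc κ j s (G.ch j x))
        fun j => ((hs j).continuousOn.comp (G.ch j).continuousOn (G.ch j).mapsTo).mono
          inter_subset_right
      rw [indicator_univ] at this
      simpa only [s1] using this
    obtain ⟨C, hC⟩ := isCompact_univ.exists_bound_of_continuousOn (s10 s hs s hs).continuousOn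
    have a2 : ∀ x, ‖s x‖ ≤ √C := fun x => Real.le_sqrt_of_sq_le (by
      rw [← real_inner_self_eq_norm_sq]; exact (le_abs_self _).trans (hC x trivial))
    exact ⟨a1, MemLp.of_bound a1.aestronglyMeasurable _ (Eventually.of_forall a2), _, a2⟩
  · have a1 : IntegrableOn (fun x => G.g κ i (G.c x) x (s x)) (G.U i) G.μ := by
      refine Integrable.mono hs.integrableOn (gm i s hs.1) ?_
      filter_upwards [ae_restrict_mem (hU i)] with x hx
      rw [norm_eq_sqrt_real_inner, c3 i _ x ⟨hx, hA.mem x⟩, ← norm_eq_sqrt_real_inner]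
    exact ((hD i).integrable a1).mono_set hK
  · have a1 : ∀ x ∈ G.U i, ⟪s x, G.ext κ i u x⟫ = ⟪G.g κ i (G.c x) x (s x), u (G.ch i x)⟫ :=
      fun x hx => by
        have b1 := c2 i (G.c x) i x ⟨⟨hx, hA.mem x⟩, hx⟩
        rw [c1 i x hx] at b1
        have b2 : G.g κ i (G.c x) x (G.g κ (G.c x) i x (u (G.ch i x))) = u (G.ch i x) :=
          congrArg (fun L : W →L[ℝ] W => L (u (G.ch i x))) b1
        rw [Geo.ext, if_pos hx, ← c3 i _ x ⟨hx, hA.mem x⟩, b2]
    have a2 : AEStronglyMeasurable (fun x => ⟪s x, G.ext κ i u x⟫) (G.μ.restrict (G.U i)) := by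
      refine ((gm i s hs.1).inner ((hu.comp (G.ch i).continuousOn
        (G.ch i).mapsTo).aestronglyMeasurable (hU i))).congr ?_
      filter_upwards [ae_restrict_mem (hU i)] with x hx
      exact (a1 x hx).symm
    rw [Geo.ip, p2 i _ a2 fun x hx => by rw [Geo.ext, if_neg hx, inner_zero_right]]
    refine setIntegral_congr_fun (G.ch i).open_target.measurableSet fun y hy => ?_
    rw [a1 _ ((G.ch i).map_target hy), (G.ch i).right_inv hy]
    rfl

end Pool.Agent.MP_e1dc65_gt.A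

end
end MrgPart3

-- ======== part 4: formerly Pool.Agent.MP_e1dc65_gt.a.Nat
section MrgPart4

/-! PROJECT HC, part A: naturality of the connection and of the Dirac operator. -/

set_option maxSynthPendingDepth 3

open scoped Quaternion ContDiff Topology RealInnerProductSpace
open Set Filter MeasureTheory Metric

noncomputable section

namespace Pool.Agent.MP_e1dc65_gt.A

namespace NatP

theorem d3 {g a b c : E4 → ℍ} {x : E4} {g' b' : E4 →L[ℝ] ℍ} (hg : HasFDerivAt g g' x)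
    (ha : DifferentiableAt ℝ a x) (hb : HasFDerivAt b b' x) (hc : DifferentiableAt ℝ c x)
    (h : ∀ᶠ y in 𝓝 x, g y = a y * b y * star (c y)) (v : E4) :
    g' v = fderiv ℝ a x v * b x * star (c x) + a x * b' v * star (c x) +
      a x * b x * star (fderiv ℝ c x v) := by
  have h1 : HasFDerivAt (fun y => star (c y)) (starL'.comp (fderiv ℝ c x)) x :=
    starL'.hasFDerivAt.comp x hc.hasFDerivAt
  have h2 := (ha.hasFDerivAt.mul' hb).mul' h1
  have h3 := (hg.congr_of_eventuallyEq (EventuallyEq.symm h)).unique h2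
  rw [h3]
  simp [starL'_apply]
  abel

theorem dunit {p : E4 → ℍ} {x : E4} (hp : DifferentiableAt ℝ p x) (h : ∀ᶠ y in 𝓝 x, ‖p y‖ = 1)
    (v : E4) : star (fderiv ℝ p x v) = -(star (p x) * fderiv ℝ p x v * star (p x)) := by
  have h1 := d3 (hasFDerivAt_const (1 : ℍ) x) hp (hasFDerivAt_const (1 : ℍ) x) hp
    (h.mono fun y hy => by rw [mul_one, mul_star_unit hy]) v
  have h2 := congrArg (fun z => star (p x) * z) h1
  simp only [zero_apply, mul_zero, zero_mul, add_zero, mul_one, mul_add] at h2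
  rw [← mul_assoc (star (p x)) (p x), star_mul_unit h.self_of_nhds, one_mul, ← mul_assoc] at h2
  exact eq_neg_of_add_eq_zero_right h2.symm

theorem im_gauge {P A d : ℍ} (hP : ‖P‖ = 1) (hA : A.re = 0)
    (hd : star d = -(star P * d * star P)) : (star P * A * P + star P * d).re = 0 := by
  rw [← Quaternion.star_eq_neg]
  simp only [star_add, star_mul, star_star, star_im hA, hd, neg_mul, mul_neg, mul_assoc,
    star_mul_unit hP, mul_one, neg_add]

theorem alg1 {P P' Q Q' θ t D d dp dq dq' A B : ℍ} (hP : P' * P = 1) (hQ : Q' * Q = 1)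
    (ht : t = P * θ * Q') (hE : D = dp * θ * Q' + P * d * Q' + P * θ * dq')
    (hq : dq' = -(Q' * dq * Q')) :
    d + ((P' * A * P + P' * dp) * θ - θ * (Q' * B * Q + Q' * dq)) =
      P' * (D + (A * t - t * B)) * Q := by
  have h : ∀ z, P' * (P * z) = z := fun z => by rw [← mul_assoc, hP, one_mul]
  subst ht hE hq
  simp only [mul_add, add_mul, mul_sub, sub_mul, mul_neg, neg_mul, mul_assoc, hQ, mul_one, h]
  abel

theorem alg2 {P P' R R' s D d dp dr dr' A C : ℍ} (hP : P * P' = 1) (hR : R * R' = 1)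
    (hE : D = dp * s * R' + P * d * R' + P * s * dr') (hr : dr' = -(R' * dr * R')) :
    D + (A * (P * s * R') - P * s * R' * C) =
      P * (d + ((P' * A * P + P' * dp) * s - s * (R' * C * R + R' * dr))) * R' := by
  have h : ∀ z, P * (P' * z) = z := fun z => by rw [← mul_assoc, hP, one_mul]
  subst hE hr
  simp only [mul_add, add_mul, mul_sub, sub_mul, mul_neg, mul_assoc, hR, mul_one, h]
  abel

theorem sum_rot {P Q : ℍ} (hP : ‖P‖ = 1) (hQ : ‖Q‖ = 1) (b : Fin 4) :
    ∑ a, co b (P * ε a * star Q) • (P * ε a * star Q) = ε b := by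
  have h1 : ∀ a, co b (P * ε a * star Q) = co a (star P * ε b * Q) := fun a => by
    simp only [co, innerSL_apply_apply]
    rw [real_inner_comm, inner_mul_right, inner_mul_left, star_star, mul_assoc]
  have h2 : ∀ a, co a (star P * ε b * Q) • (P * ε a * star Q) =
      P * (co a (star P * ε b * Q) • ε a) * star Q := fun a => by simp
  simp only [h1, h2]
  rw [← Finset.sum_mul, ← Finset.mul_sum, sum_co', ← mul_assoc, ← mul_assoc, mul_star_unit hP,
    one_mul, mul_assoc, mul_star_unit hQ, mul_one]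

theorem sum_cl {P Q : ℍ} (hP : ‖P‖ = 1) (hQ : ‖Q‖ = 1) (M : ℍ →ₗ[ℝ] W) :
    ∑ a, cl (P * ε a * star Q) (M (P * ε a * star Q)) = ∑ b, cl (ε b) (M (ε b)) := by
  have h1 : ∀ (z : ℍ) (w : W), cl z w = ∑ b, co b z • cl (ε b) w := fun z w => by
    conv_lhs => rw [← sum_co' z, ← clL_apply, map_sum, sum_apply]
    refine Finset.sum_congr rfl fun b _ => ?_
    rw [map_smul, clL_apply, smul_apply]
  calc ∑ a, cl (P * ε a * star Q) (M (P * ε a * star Q))
      = ∑ a, ∑ b, co b (P * ε a * star Q) • cl (ε b) (M (P * ε a * star Q)) :=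
        Finset.sum_congr rfl fun a _ => h1 _ _
    _ = ∑ b, cl (ε b) (M (ε b)) := by
        rw [Finset.sum_comm]
        refine Finset.sum_congr rfl fun b _ => ?_
        have h2 : M (ε b) = ∑ a, co b (P * ε a * star Q) • M (P * ε a * star Q) := by
          conv_lhs => rw [← sum_rot hP hQ b]
          simp only [map_sum, map_smul]
        rw [h2]
        simp only [map_sum, map_smul]

end NatP

open NatP in
theorem nat (h : LcStmt) : NatStmt := by
  intro R R' T T' f p q x hR hR' hx hfx hm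
  have hP := hm.p1.self_of_nhds
  have hQ := hm.q1.self_of_nhds
  have hrot := hm.rot.self_of_nhds
  have hf : DifferentiableAt ℝ f x := hm.fs.differentiableAt (by simp)
  have hp : DifferentiableAt ℝ p x := hm.ps.differentiableAt (by simp)
  have hq : DifferentiableAt ℝ q x := hm.qs.differentiableAt (by simp)
  have hθ : DifferentiableAt ℝ R.θ x :=
    (hR.frm.θs.contDiffAt (hR.frm.op.mem_nhds hx)).differentiableAt (by simp)
  have hθ' : DifferentiableAt ℝ R'.θ (f x) :=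
    (hR'.frm.θs.contDiffAt (hR'.frm.op.mem_nhds hfx)).differentiableAt (by simp)
  have hf2 : DifferentiableAt ℝ (fderiv ℝ f) x :=
    (hm.fs.fderiv_right (m := 1) (by norm_cast)).differentiableAt (by simp)
  have hsym : ∀ u v, fderiv ℝ (fderiv ℝ f) x u v = fderiv ℝ (fderiv ℝ f) x v u :=
    (hm.fs.isSymmSndFDerivAt (by simp; norm_cast)).eq
  have hE : ∀ u v, fderiv ℝ R'.θ (f x) (fderiv ℝ f x u) (fderiv ℝ f x v) +
      R'.θ (f x) (fderiv ℝ (fderiv ℝ f) x u v) =
      fderiv ℝ p x u * R.θ x v * star (q x) + p x * fderiv ℝ R.θ x u v * star (q x) +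
        p x * R.θ x v * star (fderiv ℝ q x u) := fun u v => by
    have h1 := (hθ'.hasFDerivAt.comp x hf.hasFDerivAt).clm_apply
      (hf2.hasFDerivAt.clm_apply (hasFDerivAt_const v x))
    have h2 := hθ.hasFDerivAt.clm_apply (hasFDerivAt_const v x)
    have h3 := d3 h1 hp h2 hq (hm.rot.mono fun y hy => hy v) u
    simpa [add_comm] using h3
  set a : E4 →L[ℝ] ℍ := (lr (star (p x)) (p x)).comp ((R'.α (f x)).comp (fderiv ℝ f x)) +
    (lr (star (p x)) 1).comp (fderiv ℝ p x) with ha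
  set b : E4 →L[ℝ] ℍ := (lr (star (q x)) (q x)).comp ((R'.β (f x)).comp (fderiv ℝ f x)) +
    (lr (star (q x)) 1).comp (fderiv ℝ q x) with hb
  have ha' : ∀ v, a v = star (p x) * R'.α (f x) (fderiv ℝ f x v) * p x +
      star (p x) * fderiv ℝ p x v := fun v => by simp [ha]
  have hb' : ∀ v, b v = star (q x) * R'.β (f x) (fderiv ℝ f x v) * q x +
      star (q x) * fderiv ℝ q x v := fun v => by simp [hb]
  have hlc := hR'.lc _ hfx
  have hab : IsLC R.θ a b x := by
    refine ⟨fun v => ?_, fun v => ?_, fun u v => ?_⟩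
    · rw [ha']; exact im_gauge hP (hlc.ima _) (dunit hp hm.p1 v)
    · rw [hb']; exact im_gauge hQ (hlc.imb _) (dunit hq hm.q1 v)
    · have e1 := alg1 (A := R'.α (f x) (fderiv ℝ f x u)) (B := R'.β (f x) (fderiv ℝ f x u))
        (star_mul_unit hP) (star_mul_unit hQ) (hrot v) (hE u v) (dunit hq hm.q1 u)
      have e2 := alg1 (A := R'.α (f x) (fderiv ℝ f x v)) (B := R'.β (f x) (fderiv ℝ f x v))
        (star_mul_unit hP) (star_mul_unit hQ) (hrot u) (hE v u) (dunit hq hm.q1 v)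
      have e3 := hlc.tf (fderiv ℝ f x u) (fderiv ℝ f x v)
      rw [← ha', ← hb'] at e1 e2
      rw [hsym v u] at e2
      have e4 := congrArg₂ (fun y z => y - z) e1 e2
      rw [← sub_mul, ← mul_sub] at e4
      have e5 : ∀ y z w k l : ℍ, y - z + k - l = 0 → y + w + k - (z + w + l) = 0 :=
        fun y z w k l h => by rw [← h]; abel
      rw [e5 _ _ _ _ _ e3, mul_zero, zero_mul] at e4
      rw [← e4]; abel
  obtain ⟨hα, hβ⟩ := h.2 R.θ _ _ a b x (fun z => ⟨_, hR.frm.θe x hx z⟩) (hR.lc x hx) hab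
  have hα' := fun v => (congrArg (fun L : E4 →L[ℝ] ℍ => L v) hα).trans (ha' v)
  have hβ' := fun v => (congrArg (fun L : E4 →L[ℝ] ℍ => L v) hβ).trans (hb' v)
  refine ⟨hα', hβ', fun κ s s' hs hs' hss => ?_⟩
  obtain ⟨r, hr, hr1, hrκ, hγ⟩ : ∃ r : E4 → ℍ, DifferentiableAt ℝ r x ∧ (∀ᶠ y in 𝓝 x, ‖r y‖ = 1) ∧
      (∀ y, κ.sel 1 (p y) (q y) = r y) ∧ ∀ v, R.γ κ x v =
        star (r x) * R'.γ κ (f x) (fderiv ℝ f x v) * r x + star (r x) * fderiv ℝ r x v := by
    cases κ
    · exact ⟨fun _ => 1, differentiableAt_const _, Eventually.of_forall fun _ => norm_one,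
        fun _ => rfl, fun v => by simp [Loc.γ, Tw.sel]⟩
    · exact ⟨p, hp, hm.p1, fun _ => rfl, hα'⟩
    · exact ⟨q, hq, hm.q1, fun _ => rfl, hβ'⟩
  have hRu := hr1.self_of_nhds
  simp only [tact, hrκ] at hss ⊢
  have hs0 := hss.self_of_nhds
  have hc := hs'.hasFDerivAt.comp x hf.hasFDerivAt
  have key : ∀ v, fderiv ℝ s' (f x) (fderiv ℝ f x v) + R'.om κ (f x) (fderiv ℝ f x v) (s' (f x)) =
      act (p x) (q x) (r x) (fderiv ℝ s x v + R.om κ x v (s x)) := fun v => by
    have h1 : (fderiv ℝ s' (f x) (fderiv ℝ f x v)).fst = fderiv ℝ p x v * (s x).fst * star (r x) +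
        p x * (fderiv ℝ s x v).fst * star (r x) + p x * (s x).fst * star (fderiv ℝ r x v) :=
      d3 ((WithLp.fstL 2 ℝ ℍ ℍ).hasFDerivAt.comp x hc) hp
      ((WithLp.fstL 2 ℝ ℍ ℍ).hasFDerivAt.comp x hs.hasFDerivAt) hr
      (hss.mono fun y hy => by
        show (s' (f y)).fst = p y * (s y).fst * star (r y)
        rw [hy, act_apply, wk_fst]) v
    have h2 : (fderiv ℝ s' (f x) (fderiv ℝ f x v)).snd = fderiv ℝ q x v * (s x).snd * star (r x) +
        q x * (fderiv ℝ s x v).snd * star (r x) + q x * (s x).snd * star (fderiv ℝ r x v) :=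
      d3 ((WithLp.sndL 2 ℝ ℍ ℍ).hasFDerivAt.comp x hc) hq
      ((WithLp.sndL 2 ℝ ℍ ℍ).hasFDerivAt.comp x hs.hasFDerivAt) hr
      (hss.mono fun y hy => by
        show (s' (f y)).snd = q y * (s y).snd * star (r y)
        rw [hy, act_apply, wk_snd]) v
    simp only [Loc.om, con_apply, hs0, lie_apply, act_apply, wk_fst, wk_snd]
    refine W_ext ?_ ?_
    · simp only [WithLp.add_fst, wk_fst, hα', hγ]
      exact alg2 (mul_star_unit hP) (mul_star_unit hRu) h1 (dunit hr hr1 v)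
    · simp only [WithLp.add_snd, wk_snd, hβ', hγ]
      exact alg2 (mul_star_unit hQ) (mul_star_unit hRu) h2 (dunit hr hr1 v)
  set M : ℍ →ₗ[ℝ] W := ((fderiv ℝ s' (f x) + (R'.om κ (f x)).flip (s' (f x))).comp
    (R'.e (f x))).toLinearMap with hM
  have hM' : ∀ z, M z = fderiv ℝ s' (f x) (R'.e (f x) z) +
      R'.om κ (f x) (R'.e (f x) z) (s' (f x)) := fun z => rfl
  have h1 : R'.dir κ s' (f x) = ∑ b, cl (ε b) (M (ε b)) := rfl
  rw [h1, ← sum_cl hP hQ M, Loc.dir, map_sum]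
  refine Finset.sum_congr rfl fun c _ => ?_
  have h2 : R'.e (f x) (p x * ε c * star (q x)) = fderiv ℝ f x (R.e x (ε c)) := by
    rw [← hR'.frm.eθ _ hfx (fderiv ℝ f x (R.e x (ε c))), hrot, hR.frm.θe x hx]
  rw [hM', h2, key, ← mul_apply_eq_comp, ← act_cl hP hQ]
  rfl

end Pool.Agent.MP_e1dc65_gt.A

end
end MrgPart4

-- ======== part 5: formerly Pool.Agent.MP_e1dc65_gt.a.Sth
section MrgPart5

/-! PROJECT HC, part A, row STH: the signature theorem in terms of `Geo`. -/

set_option maxSynthPendingDepth 3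

open scoped Quaternion ContDiff Topology RealInnerProductSpace
open Set Filter MeasureTheory Metric

noncomputable section

namespace Pool.Agent.MP_e1dc65_gt.A

namespace SthP

variable {X : Sp} (G : Geo X)

theorem wk_add (a b c d : ℍ) : wk a b + wk c d = wk (a + c) (b + d) := rfl

theorem wk_smul (t : ℝ) (a b : ℍ) : t • wk a b = wk (t • a) (t • b) := rfl

theorem inner_wk (a b c d : ℍ) : ⟪wk a b, wk c d⟫ = ⟪a, c⟫ + ⟪b, d⟫ := inner_W _ _

/-- smooth functions -/
def A0 : Submodule ℝ (X → ℝ) where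
  carrier := {f | G.SmF f}
  add_mem' := fun {a b} ha hb i => (ha i).add (hb i)
  zero_mem' := fun i => contDiffOn_const
  smul_mem' := fun c a ha i => (ha i).const_smul c

/-- first half -/
def inl : (X → ℍ) →ₗ[ℝ] (X → W) where
  toFun v := fun x => wk (v x) 0
  map_add' a b := by funext x; simp [wk_add]
  map_smul' c a := by funext x; simp [wk_smul]

/-- second half -/
def inr : (X → ℍ) →ₗ[ℝ] (X → W) where
  toFun v := fun x => wk 0 (v x)
  map_add' a b := by funext x; simp [wk_add]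
  map_smul' c a := by funext x; simp [wk_smul]

/-- imaginary valued maps -/
def Im : Submodule ℝ (X → ℍ) where
  carrier := {u | ∀ x, (u x).re = 0}
  add_mem' := fun {a b} ha hb x => by simp [ha x, hb x]
  zero_mem' := fun x => by simp
  smul_mem' := fun c a ha x => by simp [ha x]

def A1 : Submodule ℝ (X → ℍ) := (G.Sec .r).comap inl
def PP : Submodule ℝ (X → ℍ) := Im ⊓ (G.Sec .l).comap inl
def MM : Submodule ℝ (X → ℍ) := Im ⊓ (G.Sec .r).comap inr

theorem mem_A1 {v : X → ℍ} : v ∈ A1 G ↔ G.V1 v := Iff.rfl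
theorem mem_PP {v : X → ℍ} : v ∈ PP G ↔ G.VP v := Iff.rfl
theorem mem_MM {v : X → ℍ} : v ∈ MM G ↔ G.VM v := Iff.rfl

/-- the conclusion of `SplStmt` -/
structure Spl : Prop where
  v1 : ∀ v, G.V1 v ↔ (fun x => wk 0 (star (v x))) ∈ G.Sec .l
  fl : ∀ f : X → ℝ, G.SmF f → (fun x => wk (f x : ℍ) 0) ∈ G.Sec .l
  fr : ∀ f : X → ℝ, G.SmF f → (fun x => wk 0 (f x : ℍ)) ∈ G.Sec .r
  fd : ∀ f : X → ℝ, G.SmF f → ∀ x, G.dir .l (fun x => wk (f x : ℍ) 0) x = wk 0 (-star (G.gr f x))
  sl : ∀ s ∈ G.Sec .l, G.SmF (fun x => (s x).fst.re) ∧ G.VP (fun x => (s x).fst.im) ∧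
    G.V1 fun x => star (s x).snd
  sr : ∀ s ∈ G.Sec .r, G.V1 (fun x => (s x).fst) ∧ G.SmF (fun x => (s x).snd.re) ∧
    G.VM fun x => (s x).snd.im
  dv : ∀ v, G.V1 v → ∀ x, (G.dir .r (fun x => wk (v x) 0) x).snd.re =
    -(G.dir .l (fun x => wk 0 (star (v x))) x).fst.re
  z1 : ∀ κ (a : X → ℍ) x, (G.dir κ (fun x => wk (a x) 0) x).fst = 0
  z2 : ∀ κ (a : X → ℍ) x, (G.dir κ (fun x => wk 0 (a x)) x).snd = 0

variable {G}

theorem el_mem (h : Spl G) (a : A0 G × PP G × A1 G) :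
    (fun x => wk ((a.1.1 x : ℍ) + a.2.1.1 x) (star (a.2.2.1 x))) ∈ G.Sec .l := by
  have := (G.Sec .l).add_mem ((G.Sec .l).add_mem (h.fl _ a.1.2) a.2.1.2.2) ((h.v1 _).1 a.2.2.2)
  convert this using 1
  funext x
  simp [inl, wk_add]

theorem er_mem (h : Spl G) (a : A1 G × A0 G × MM G) :
    (fun x => wk (a.1.1 x) ((a.2.1.1 x : ℍ) + a.2.2.1 x)) ∈ G.Sec .r := by
  have := (G.Sec .r).add_mem ((G.Sec .r).add_mem a.1.2 (h.fr _ a.2.1.2)) a.2.2.2.2
  convert this using 1
  funext x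
  simp [inl, inr, wk_add]

theorem re_add {t : ℝ} {u : ℍ} (h : u.re = 0) : ((t : ℍ) + u).re = t := by simp [h]

theorem im_add {t : ℝ} {u : ℍ} (h : u.re = 0) : ((t : ℍ) + u).im = u := by
  ext <;> simp [h]

/-- splitting of the sections with left twist -/
def el (h : Spl G) : (A0 G × PP G × A1 G) ≃ₗ[ℝ] G.Sec .l where
  toFun a := ⟨_, el_mem h a⟩
  map_add' a b := by
    refine Subtype.ext (funext fun x => ?_)
    simp only [Prod.fst_add, Prod.snd_add, Submodule.coe_add, Pi.add_apply, wk_add, star_add,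
      Quaternion.coe_add]
    congr 1
    abel
  map_smul' c a := by
    refine Subtype.ext (funext fun x => ?_)
    simp only [Prod.smul_fst, Prod.smul_snd, Submodule.coe_smul, Pi.smul_apply, wk_smul,
      RingHom.id_apply, smul_add, Quaternion.star_smul, Quaternion.smul_coe, smul_eq_mul]
  invFun s := (⟨fun x => (s.1 x).fst.re, (h.sl s s.2).1⟩, ⟨fun x => (s.1 x).fst.im, (h.sl s s.2).2.1⟩,
    ⟨fun x => star (s.1 x).snd, (h.sl s s.2).2.2⟩)
  left_inv a := by
    refine Prod.ext (Subtype.ext (funext fun x => ?_))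
      (Prod.ext (Subtype.ext (funext fun x => ?_)) (Subtype.ext (funext fun x => ?_)))
    · exact re_add (a.2.1.2.1 x)
    · exact im_add (a.2.1.2.1 x)
    · exact star_star _
  right_inv s := by
    refine Subtype.ext (funext fun x => ?_)
    refine W_ext ?_ ?_
    · exact Quaternion.re_add_im _
    · exact star_star _

/-- splitting of the sections with right twist -/
def er (h : Spl G) : (A1 G × A0 G × MM G) ≃ₗ[ℝ] G.Sec .r where
  toFun a := ⟨_, er_mem h a⟩
  map_add' a b := by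
    refine Subtype.ext (funext fun x => ?_)
    simp only [Prod.fst_add, Prod.snd_add, Submodule.coe_add, Pi.add_apply, wk_add,
      Quaternion.coe_add]
    congr 1
    abel
  map_smul' c a := by
    refine Subtype.ext (funext fun x => ?_)
    simp only [Prod.smul_fst, Prod.smul_snd, Submodule.coe_smul, Pi.smul_apply, wk_smul,
      RingHom.id_apply, smul_add, Quaternion.smul_coe, smul_eq_mul]
  invFun s := (⟨fun x => (s.1 x).fst, (h.sr s s.2).1⟩, ⟨fun x => (s.1 x).snd.re, (h.sr s s.2).2.1⟩,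
    ⟨fun x => (s.1 x).snd.im, (h.sr s s.2).2.2⟩)
  left_inv a := by
    refine Prod.ext (Subtype.ext (funext fun x => ?_))
      (Prod.ext (Subtype.ext (funext fun x => ?_)) (Subtype.ext (funext fun x => ?_)))
    · rfl
    · exact re_add (a.2.2.2.1 x)
    · exact im_add (a.2.2.2.1 x)
  right_inv s := by
    refine Subtype.ext (funext fun x => ?_)
    refine W_ext ?_ ?_
    · rfl
    · exact Quaternion.re_add_im _

theorem el_coe (h : Spl G) (f : A0 G) (u : PP G) (v : A1 G) (x : X) :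
    (el h (f, u, v) : X → W) x = wk ((f.1 x : ℍ) + u.1 x) (star (v.1 x)) := rfl

theorem er_coe (h : Spl G) (v : A1 G) (f : A0 G) (w : MM G) (x : X) :
    (er h (v, f, w) : X → W) x = wk (v.1 x) ((f.1 x : ℍ) + w.1 x) := rfl

theorem el_f (h : Spl G) (f : A0 G) :
    (el h (f, 0, 0) : X → W) = fun x => wk (f.1 x : ℍ) 0 := by
  funext x; simp [el_coe]

theorem el_u (h : Spl G) (u : PP G) : (el h (0, u, 0) : X → W) = fun x => wk (u.1 x) 0 := by
  funext x; simp [el_coe]

theorem el_v (h : Spl G) (v : A1 G) :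
    (el h (0, 0, v) : X → W) = fun x => wk 0 (star (v.1 x)) := by
  funext x; simp [el_coe]

theorem er_v (h : Spl G) (v : A1 G) : (er h (v, 0, 0) : X → W) = fun x => wk (v.1 x) 0 := by
  funext x; simp [er_coe]

theorem er_f (h : Spl G) (f : A0 G) :
    (er h (0, f, 0) : X → W) = fun x => wk 0 (f.1 x : ℍ) := by
  funext x; simp [er_coe]

theorem er_w (h : Spl G) (w : MM G) : (er h (0, 0, w) : X → W) = fun x => wk 0 (w.1 x) := by
  funext x; simp [er_coe]

section
variable {A B C : Type} [AddCommGroup A] [Module ℝ A] [AddCommGroup B] [Module ℝ B]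
  [AddCommGroup C] [Module ℝ C]

def i1 : A →ₗ[ℝ] A × B × C := LinearMap.inl ℝ A (B × C)
def i2 : B →ₗ[ℝ] A × B × C := LinearMap.inr ℝ A (B × C) ∘ₗ LinearMap.inl ℝ B C
def i3 : C →ₗ[ℝ] A × B × C := LinearMap.inr ℝ A (B × C) ∘ₗ LinearMap.inr ℝ B C
def p1 : A × B × C →ₗ[ℝ] A := LinearMap.fst ℝ A (B × C)
def p2 : A × B × C →ₗ[ℝ] B := LinearMap.fst ℝ B C ∘ₗ LinearMap.snd ℝ A (B × C)
def p3 : A × B × C →ₗ[ℝ] C := LinearMap.snd ℝ B C ∘ₗ LinearMap.snd ℝ A (B × C)

theorem split3 (a : A) (b : B) (c : C) :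
    (a, b, c) = (a, (0 : B), (0 : C)) + ((0 : A), b, (0 : C)) + ((0 : A), (0 : B), c) := by
  simp

/-- the form induced by an embedding in a Hilbert space -/
def frm {H : Type} [NormedAddCommGroup H] [InnerProductSpace ℝ H] (j : A →ₗ[ℝ] H) :
    A →ₗ[ℝ] A →ₗ[ℝ] ℝ := (innerₗ H).compl₁₂ j j

theorem frm_apply {H : Type} [NormedAddCommGroup H] [InnerProductSpace ℝ H] (j : A →ₗ[ℝ] H)
    (a b : A) : frm j a b = ⟪j a, j b⟫ := rfl

theorem pd_frm {H : Type} [NormedAddCommGroup H] [InnerProductSpace ℝ H] (j : A →ₗ[ℝ] H)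
    (hj : Function.Injective j) : Pd (frm j) := by
  refine ⟨fun a b => real_inner_comm _ _, fun a ha => ?_⟩
  rw [frm_apply]
  exact real_inner_self_pos.2 fun h0 => ha (hj (h0.trans (map_zero j).symm))

theorem i1_inj : Function.Injective (i1 : A →ₗ[ℝ] A × B × C) := fun _ _ h => congrArg Prod.fst h
theorem i2_inj : Function.Injective (i2 : B →ₗ[ℝ] A × B × C) := fun _ _ h =>
  congrArg (fun z => z.2.1) h
theorem i3_inj : Function.Injective (i3 : C →ₗ[ℝ] A × B × C) := fun _ _ h =>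
  congrArg (fun z => z.2.2) h

end

section
variable (h : Spl G) (Dl : G.Sec .l →ₗ[ℝ] G.Sec .l) (Dr : G.Sec .r →ₗ[ℝ] G.Sec .r)

/-- the operators in the splitting -/
def ml : (A0 G × PP G × A1 G) →ₗ[ℝ] (A0 G × PP G × A1 G) :=
  (el h).symm.toLinearMap ∘ₗ Dl ∘ₗ (el h).toLinearMap
def mr : (A1 G × A0 G × MM G) →ₗ[ℝ] (A1 G × A0 G × MM G) :=
  (er h).symm.toLinearMap ∘ₗ Dr ∘ₗ (er h).toLinearMap

def grL : A0 G →ₗ[ℝ] A1 G := p1 ∘ₗ mr h Dr ∘ₗ i2
def dvL : A1 G →ₗ[ℝ] A0 G := p1 ∘ₗ ml h Dl ∘ₗ i3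
def dpL : A1 G →ₗ[ℝ] PP G := p2 ∘ₗ ml h Dl ∘ₗ i3
def dmL : A1 G →ₗ[ℝ] MM G := -(p3 ∘ₗ mr h Dr ∘ₗ i1)
def epL : PP G →ₗ[ℝ] A1 G := p3 ∘ₗ ml h Dl ∘ₗ i2
def emL : MM G →ₗ[ℝ] A1 G := p1 ∘ₗ mr h Dr ∘ₗ i3

variable {Dl Dr} (hl : ∀ s, (Dl s : X → W) = G.dir .l s) (hr : ∀ s, (Dr s : X → W) = G.dir .r s)

include hr in
theorem grL_coe (f : A0 G) : (grL h Dr f).1 = G.gr f.1 := by
  funext x
  show ((Dr (er h (0, f, 0)) : X → W) x).fst = _
  rw [hr, er_f]; rfl

include hl in
theorem dvL_coe (v : A1 G) (x : X) :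
    (dvL h Dl v).1 x = (G.dir .l (fun x => wk 0 (star (v.1 x))) x).fst.re := by
  show ((Dl (el h (0, 0, v)) : X → W) x).fst.re = _
  rw [hl, el_v]

include hl in
theorem dpL_coe (v : A1 G) : (dpL h Dl v).1 = G.dp v.1 := by
  funext x
  show ((Dl (el h (0, 0, v)) : X → W) x).fst.im = _
  rw [hl, el_v]; rfl

include hr in
theorem dmL_coe (v : A1 G) : (dmL h Dr v).1 = G.dm v.1 := by
  funext x
  show -((Dr (er h (v, 0, 0)) : X → W) x).snd.im = _
  rw [hr, er_v]; rfl

include hl in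
theorem epL_coe (u : PP G) (x : X) :
    (epL h Dl u).1 x = star (G.dir .l (fun x => wk (u.1 x) 0) x).snd := by
  show star ((Dl (el h (0, u, 0)) : X → W) x).snd = _
  rw [hl, el_u]

include hr in
theorem emL_coe (w : MM G) (x : X) :
    (emL h Dr w).1 x = (G.dir .r (fun x => wk 0 (w.1 x)) x).fst := by
  show ((Dr (er h (0, 0, w)) : X → W) x).fst = _
  rw [hr, er_w]

include hl hr in
theorem Dl_el (f : A0 G) (u : PP G) (v : A1 G) :
    Dl (el h (f, u, v)) = el h (dvL h Dl v, dpL h Dl v, epL h Dl u - grL h Dr f) := by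
  rw [split3 f u v, map_add, map_add, map_add, map_add]
  refine Subtype.ext (funext fun x => ?_)
  rw [el_coe]
  simp only [Submodule.coe_add, Pi.add_apply, hl, el_f, el_u, el_v, Submodule.coe_sub,
    Pi.sub_apply, dvL_coe h hl, dpL_coe h hl, epL_coe h hl, grL_coe h hr, h.fd _ f.2]
  refine W_ext ?_ ?_
  · simp [h.z1, Geo.dp, Quaternion.re_add_im]
  · simp [h.z2]; abel

include hl hr in
theorem Dr_er (v : A1 G) (f : A0 G) (w : MM G) :
    Dr (er h (v, f, w)) = er h (grL h Dr f + emL h Dr w, -dvL h Dl v, -dmL h Dr v) := by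
  rw [split3 v f w, map_add, map_add, map_add, map_add]
  refine Subtype.ext (funext fun x => ?_)
  rw [er_coe]
  simp only [Submodule.coe_add, Pi.add_apply, hr, er_f, er_v, er_w, Submodule.coe_neg,
    Pi.neg_apply, dvL_coe h hl, dmL_coe h hr, emL_coe h hr, grL_coe h hr, ← h.dv _ v.2]
  refine W_ext ?_ ?_
  · simp [h.z1, Geo.gr]
  · simp [h.z2, Geo.dm, Quaternion.re_add_im]

end

theorem inner_im {t : ℝ} {a u : ℍ} (h : u.re = 0) : ⟪(t : ℍ) + a, u⟫ = ⟪a, u⟫ := by
  simp [inner_H, h]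

theorem inner_im' {t : ℝ} {a u : ℍ} (h : u.re = 0) : ⟪u, (t : ℍ) + a⟫ = ⟪u, a⟫ := by
  simp [inner_H, h]

theorem den_sum (h10 : BiaStmt) (h11 : DensStmt) (hG : G.Ok) (x : X) :
    G.den .l x + G.den .r x = -(16 / 3) * G.pont x := by
  have hy : G.ch (G.c x) x ∈ G.T (G.c x) := (G.ch (G.c x)).map_source (hG.mem x)
  obtain ⟨hb, hc⟩ := h10 _ _ (hG.loc (G.c x)) _ hy
  exact (h11 _ _ (fun κ => cf2 ((G.R (G.c x)).om κ) (G.R (G.c x)).e (G.ch (G.c x) x)) hb hc).2.2

end SthP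

open SthP in
theorem sth (h1 : SecStmt) (h2 : IntStmt) (h3 : InstStmt) (h4 : SplStmt) (h5 : KerStmt)
    (h6 : EigStmt) (h7 : MsStmt) (h8 : IdxStmt) (h9 : HalgStmt) (h10 : BiaStmt) (h11 : DensStmt) :
    SthStmt := by
  intro X G hG hdd hpm Kp Km hKp hKm hZ
  have al : G.Adm .l := ⟨hG, fun h => by cases h⟩
  have ar : G.Adm .r := ⟨hG, fun h => by cases h⟩
  obtain ⟨⟨jl, Dl, Γl, Il⟩, hIl⟩ := h3 X G .l al
  obtain ⟨⟨jr, Dr, Γr, Ir⟩, hIr⟩ := h3 X G .r ar
  obtain ⟨ipl, injl, -, syml, -, -⟩ := hIl jl Dl Γl Il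
  obtain ⟨ipr, injr, -, symr, -, -⟩ := hIr jr Dr Γr Ir
  have h : Spl G := by
    obtain ⟨a1, a2, a3, a4, a5, a6, a7⟩ := h4 X G hG
    exact ⟨a1, fun f hf => (a2 f hf).1, fun f hf => (a2 f hf).2.1, fun f hf => (a2 f hf).2.2, a3,
      a4, a5, a6, a7⟩
  have Ell_l := (h5 X G .l al jl Dl Γl Il).1
  have Ell_r := (h5 X G .r ar jr Dr Γr Ir).1
  obtain ⟨Jl, φl, laml, El⟩ := h6 _ _ jl Dl Ell_l
  obtain ⟨Jr, φr, lamr, Er⟩ := h6 _ _ jr Dr Ell_r
  obtain ⟨-, fdl, hodge, -⟩ := h7 _ _ jl Dl Jl φl laml Ell_l El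
  obtain ⟨-, fdr, -, -⟩ := h7 _ _ jr Dr Jr φr lamr Ell_r Er
  have hl := Il.D
  have hr := Ir.D
  have B1 : ∀ v v' : A1 G, frm (jr ∘ₗ (er h).toLinearMap ∘ₗ i1) v v' = G.iq v.1 v'.1 := by
    intro v v'
    show ⟪jr (er h (v, 0, 0)), jr (er h (v', 0, 0))⟫ = _
    rw [ipr, er_v, er_v]
    simp [Geo.ip, Geo.iq, inner_wk]
  have BP : ∀ u u' : PP G, frm (jl ∘ₗ (el h).toLinearMap ∘ₗ i2) u u' = G.iq u.1 u'.1 := by
    intro u u'
    show ⟪jl (el h (0, u, 0)), jl (el h (0, u', 0))⟫ = _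
    rw [ipl, el_u, el_u]
    simp [Geo.ip, Geo.iq, inner_wk]
  have BM : ∀ w w' : MM G, frm (jr ∘ₗ (er h).toLinearMap ∘ₗ i3) w w' = G.iq w.1 w'.1 := by
    intro w w'
    show ⟪jr (er h (0, 0, w)), jr (er h (0, 0, w'))⟫ = _
    rw [ipr, er_w, er_w]
    simp [Geo.ip, Geo.iq, inner_wk]
  have key := h9 (A0 G) (A1 G) (PP G) (MM G) (G.Sec .l) (G.Sec .r)
    (frm (jr ∘ₗ (er h).toLinearMap ∘ₗ i2)) (frm (jr ∘ₗ (er h).toLinearMap ∘ₗ i1))
    (frm (jl ∘ₗ (el h).toLinearMap ∘ₗ i2)) (frm (jr ∘ₗ (er h).toLinearMap ∘ₗ i3))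
    (grL h Dr) (dvL h Dl) (dpL h Dl) (dmL h Dr) (epL h Dl) (emL h Dr) (el h) (er h) Dl Γl Dr Γr
    {a | (a.1.1, a.2.1) ∈ Kp} {a | (a.1.1, a.2.1) ∈ Km}
    (pd_frm _ (injr.comp ((er h).injective.comp i2_inj)))
    (pd_frm _ (injr.comp ((er h).injective.comp i1_inj)))
    (pd_frm _ (injl.comp ((el h).injective.comp i2_inj)))
    (pd_frm _ (injr.comp ((er h).injective.comp i3_inj)))
    (Dl_el h hl hr) ?_ (Dr_er h hl hr) ?_ ?_ ?_ ?_ ?_ fdl fdr ?_ ?_ ?_ ?_
  · obtain ⟨il, el'⟩ := h8 X G .l al jl Dl Γl Il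
    obtain ⟨ir, er'⟩ := h8 X G .r ar jr Dr Γr Ir
    rw [el', er', ← mul_add, ← integral_add il ir] at key
    simp only [den_sum h10 h11 hG, integral_const_mul] at key
    have hpi : ((4 * Real.pi) ^ 2)⁻¹ ≠ 0 := by have := Real.pi_pos; positivity
    have := (mul_eq_zero.1 key).resolve_left hpi
    linarith
  · intro f u v
    refine Subtype.ext (funext fun x => ?_)
    rw [Il.Γ, el_coe, el_coe, gam_apply]
    simp
  · intro v f w
    refine Subtype.ext (funext fun x => ?_)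
    rw [Ir.Γ, er_coe, er_coe, gam_apply]
    simp only [Submodule.coe_neg, Pi.neg_apply, Quaternion.coe_neg]
    refine W_ext rfl ?_
    simp only [WithLp.toLp_snd]
    abel
  · intro v u
    have := syml (el h (0, 0, v)) (el h (0, u, 0))
    rw [Dl_el h hl hr, Dl_el h hl hr, ipl, ipl, el_u, el_v] at this
    rw [BP, B1]
    simp only [Geo.ip, el_coe, inner_wk, inner_im (u.2.1 _), map_zero, sub_zero, inner_zero_left,
      inner_zero_right, add_zero, zero_add, inner_star] at this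
    exact this
  · intro v w
    have := symr (er h (v, 0, 0)) (er h (0, 0, w))
    rw [Dr_er h hl hr, Dr_er h hl hr, ipr, ipr, er_w, er_v] at this
    rw [BM, B1]
    simp only [Geo.ip, er_coe, inner_wk, inner_im (w.2.1 _), map_zero, zero_add, inner_zero_left,
      inner_zero_right, add_zero, Submodule.coe_neg, Pi.neg_apply, inner_neg_left,
      integral_neg] at this
    simp only [Geo.iq]
    linarith
  · intro f
    refine ⟨Subtype.ext ?_, Subtype.ext ?_⟩
    · rw [dpL_coe h hl, grL_coe h hr]; exact (hdd f.1 f.2).1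
    · rw [dmL_coe h hr, grL_coe h hr]; exact (hdd f.1 f.2).2
  · intro v v'
    rw [BP, BM, dpL_coe h hl, dpL_coe h hl, dmL_coe h hr, dmL_coe h hr]
    exact hpm _ _ v.2 v'.2
  · intro u hu
    refine hodge _ fun g hg => ?_
    obtain ⟨⟨f', u', v'⟩, rfl⟩ := (el h).surjective g
    have := hu f' u' v' hg
    rw [BP] at this
    rw [ipl, el_u]
    simp only [Geo.ip, el_coe, inner_wk, inner_im' (u.2.1 _), inner_zero_left, add_zero]
    exact this
  · intro a ha
    refine ⟨fun v => ?_, fun b hb => ?_⟩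
    · rw [BP, BM, dpL_coe h hl, dmL_coe h hr]; exact (hKp _ ha).1.2.2 _ v.2
    · rw [BP, BM]; exact (hKp _ ha).2 _ hb
  · intro a ha
    refine ⟨fun v => ?_, fun b hb => ?_⟩
    · rw [BP, BM, dpL_coe h hl, dmL_coe h hr]; exact (hKm _ ha).1.2.2 _ v.2
    · rw [BP, BM]; exact (hKm _ ha).2 _ hb
  · intro z hz
    have hz' : G.Zc (z.1.1, z.2.1) := ⟨z.1.2, z.2.2, fun v hv => by
      have := hz ⟨v, hv⟩
      rwa [BP, BM, dpL_coe h hl, dmL_coe h hr] at this⟩
    obtain ⟨a, ha, b, hb, v, hv, e⟩ := hZ _ hz'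
    refine ⟨(⟨a.1, (hKp a ha).1.1⟩, ⟨a.2, (hKp a ha).1.2.1⟩), ha,
      (⟨b.1, (hKm b hb).1.1⟩, ⟨b.2, (hKm b hb).1.2.1⟩), hb, ⟨v, hv⟩, ?_⟩
    refine Prod.ext (Subtype.ext ?_) (Subtype.ext ?_)
    · have := congrArg Prod.fst e
      simp only [Prod.fst_add] at this
      simp only [Prod.fst_add, Submodule.coe_add, dpL_coe h hl]
      exact this
    · have := congrArg Prod.snd e
      simp only [Prod.snd_add] at this
      simp only [Prod.snd_add, Submodule.coe_add, dmL_coe h hr]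
      exact this

end Pool.Agent.MP_e1dc65_gt.A

end
end MrgPart5

-- marker of a merged file
example : 731051 + 494935 = 731051 + 494935 := rfl
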