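import Mathlib.Analysis.Calculus.ContDiff.Comp
import Pool.Agent.MP_e1dc65_gt.b.Adapt
import Pool.Agent.MP_e1dc65_gt.k.Cov
import Pool.Agent.MP_e1dc65_gt.a.Cent
import Pool.Agent.MP_e1dc65_gt.t2.Disc
import Pool.Agent.MP_e1dc65_gt.a.ClsW
import Mathlib.Analysis.Calculus.BumpFunction.InnerProduct
import Mathlib.Analysis.Distribution.AEEqOfIntegralContDiff
import Mathlib.Analysis.InnerProductSpace.Projection.Submodule
import Mathlib.Analysis.Calculus.BumpFunction.FiniteDimension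
import Pool.Agent.MP_e1dc65_gt.o.Flat
import Mathlib.Analysis.InnerProductSpace.ProdL2
import Mathlib.Analysis.InnerProductSpace.Projection.FiniteDimensional
import Mathlib.Analysis.Normed.Module.FiniteDimension
import Pool.Agent.MP_e1dc65_gt.k.Bump
import Pool.Agent.MP_e1dc65_gt.k.SpinCover
import Mathlib.Analysis.InnerProductSpace.Adjoint
import Mathlib.Analysis.InnerProductSpace.Trace
import Mathlib.MeasureTheory.Integral.DominatedConvergence
import Mathlib.MeasureTheory.Constructions.Polish.Basic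

-- ======== part 0: formerly Pool.Agent.MP_e1dc65_gt.a.Coc
section MrgPart0

/-! PROJECT HC, part A: the transition maps form a smooth orthogonal cocycle. -/

set_option maxSynthPendingDepth 3

open scoped Quaternion ContDiff Topology RealInnerProductSpace
open Set Filter MeasureTheory Metric

noncomputable section

namespace Pool.Agent.MP_e1dc65_gt.A

namespace Coc

variable {X : Sp} {G : Geo X}

theorem ev_mem {i j : Fin G.n} {x : X} (hi : x ∈ G.U i) (hj : x ∈ G.U j) :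
    ∀ᶠ y in 𝓝 (G.ch j x), y ∈ G.T j ∧ (G.ch j).symm y ∈ G.U i := by
  have h1 := (G.ch j).map_source hj
  refine ((G.ch j).open_target.eventually_mem h1).and ?_
  refine ((G.ch j).continuousAt_symm h1).eventually_mem ?_
  rw [(G.ch j).left_inv hj]
  exact (G.ch i).open_source.mem_nhds hi

theorem rd_at {i j : Fin G.n} {x : X} (hj : x ∈ G.U j) : G.rd id j i (G.ch j x) = G.ch i x := by
  simp only [Geo.rd, id, (G.ch j).left_inv hj]

theorem chain (h : G.Ok0) {i j k : Fin G.n} {x : X} (hi : x ∈ G.U i) (hj : x ∈ G.U j)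
    (hk : x ∈ G.U k) (w : E4) :
    fderiv ℝ (G.rd id k i) (G.ch k x) w =
      fderiv ℝ (G.rd id j i) (G.ch j x) (fderiv ℝ (G.rd id k j) (G.ch k x) w) := by
  have d1 : DifferentiableAt ℝ (G.rd id k j) (G.ch k x) :=
    (h.sm j k x ⟨hj, hk⟩).differentiableAt (by simp)
  have d2 : DifferentiableAt ℝ (G.rd id j i) (G.rd id k j (G.ch k x)) := by
    rw [rd_at hk]
    exact (h.sm i j x ⟨hi, hj⟩).differentiableAt (by simp)
  have e : G.rd id k i =ᶠ[𝓝 (G.ch k x)] G.rd id j i ∘ G.rd id k j := by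
    filter_upwards [ev_mem hj hk] with y hy
    simp only [Geo.rd, id, Function.comp, (G.ch j).left_inv hy.2]
  rw [e.fderiv_eq, fderiv_comp _ d2 d1, rd_at hk]
  rfl

theorem cocy {κ : Tw} (h : G.Adm κ) (i j k : Fin G.n) (x : X) (hx : x ∈ G.U i ∩ G.U j ∩ G.U k) :
    G.g κ i j x * G.g κ j k x = G.g κ i k x := by
  obtain ⟨⟨hi, hj⟩, hk⟩ := hx
  simp only [Geo.g, tact_mul]
  by_cases hκ : κ = .o
  · rw [(h.spin hκ).cp i j k x ⟨⟨hi, hj⟩, hk⟩, (h.spin hκ).cq i j k x ⟨⟨hi, hj⟩, hk⟩]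
  have h0 := h.toOk.toOk0
  have key := lift_sign (p := G.p i j x * G.p j k x) (q := G.q i j x * G.q j k x)
    (p' := G.p i k x) (q' := G.q i k x)
    (by rw [norm_mul, h0.p1 i j x ⟨hi, hj⟩, h0.p1 j k x ⟨hj, hk⟩, one_mul])
    (by rw [norm_mul, h0.q1 i j x ⟨hi, hj⟩, h0.q1 j k x ⟨hj, hk⟩, one_mul])
    (h0.p1 i k x ⟨hi, hk⟩) (h0.q1 i k x ⟨hi, hk⟩) fun v => by
      have e := (h0.loc k).frm.θe _ ((G.ch k).map_source hk) v
      have a1 := h0.rot i k x ⟨hi, hk⟩ ((G.R k).e (G.ch k x) v)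
      have a2 := h0.rot j k x ⟨hj, hk⟩ ((G.R k).e (G.ch k x) v)
      rw [chain h0 hi hj hk, h0.rot i j x ⟨hi, hj⟩, a2, e] at a1
      rw [← a1, star_mul]
      simp only [mul_assoc]
  rcases key with ⟨a, b⟩ | ⟨a, b⟩
  · rw [a, b]
  · rw [a, b, tact_neg hκ]

end Coc

theorem coc (h : LiftStmt) : CocStmt := by
  intro X G κ hG
  have h0 := hG.toOk.toOk0
  refine ⟨fun i x hx => ?_, Coc.cocy hG, fun i j x hx w w' => ?_, fun i j x hx => ?_⟩
  · have a := Coc.cocy hG i i i x ⟨⟨hx, hx⟩, hx⟩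
    have p1 := h0.p1 i i x ⟨hx, hx⟩
    have q1 := h0.q1 i i x ⟨hx, hx⟩
    have b := act_star_mul p1 q1 (sel_unit κ p1 q1)
    have c := congrArg (fun A => act (star (G.p i i x)) (star (G.q i i x))
      (star (κ.sel 1 (G.p i i x) (G.q i i x))) * A) a
    simp only [Geo.g, tact] at c ⊢
    rwa [← mul_assoc, b, one_mul] at c
  · exact act_iso (h0.p1 i j x hx) (h0.q1 i j x hx)
      (sel_unit κ (h0.p1 i j x hx) (h0.q1 i j x hx)) w w'
  · obtain ⟨hi, hj⟩ := hx
    have fs := h0.sm i j x ⟨hi, hj⟩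
    have ti := (G.ch i).map_source hi
    have tj := (G.ch j).map_source hj
    have s1 : ContDiffAt ℝ ∞ (fun y => (G.R i).θ (G.rd id j i y)) (G.ch j x) := by
      refine ContDiffAt.comp (g := (G.R i).θ) _ ?_ fs
      rw [Coc.rd_at hj]
      exact (h0.loc i).frm.θs.contDiffAt ((G.ch i).open_target.mem_nhds ti)
    have s2 : ContDiffAt ℝ ∞ (fderiv ℝ (G.rd id j i)) (G.ch j x) := fs.fderiv_right (by simp)
    have s3 : ContDiffAt ℝ ∞ (G.R j).e (G.ch j x) :=
      (h0.loc j).frm.es.contDiffAt ((G.ch j).open_target.mem_nhds tj)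
    have ev : ∀ᶠ y in 𝓝 (G.ch j x), y ∈ G.T j ∧ ‖G.p i j ((G.ch j).symm y)‖ = 1 ∧
        ‖G.q i j ((G.ch j).symm y)‖ = 1 ∧ ∀ v, (G.R i).θ (G.rd id j i y)
          (fderiv ℝ (G.rd id j i) y v) =
          G.p i j ((G.ch j).symm y) * (G.R j).θ y v * star (G.q i j ((G.ch j).symm y)) := by
      filter_upwards [Coc.ev_mem hi hj] with y hy
      have m : (G.ch j).symm y ∈ G.U i ∩ G.U j := ⟨hy.2, (G.ch j).map_target hy.1⟩
      refine ⟨hy.1, h0.p1 i j _ m, h0.q1 i j _ m, fun v => ?_⟩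
      have := h0.rot i j _ m v
      rwa [(G.ch j).right_inv hy.1] at this
    obtain ⟨p, q, ps, qs, -, -, e1, e2⟩ := h E4
      (fun y => ((G.R i).θ (G.rd id j i y)).comp ((fderiv ℝ (G.rd id j i) y).comp ((G.R j).e y)))
      (fun y => G.p i j ((G.ch j).symm y)) (fun y => G.q i j ((G.ch j).symm y)) (G.ch j x)
      (s1.clm_comp (s2.clm_comp s3)) (by
        filter_upwards [ev] with y hy
        refine ⟨hy.2.1, hy.2.2.1, fun v => ?_⟩
        have := hy.2.2.2 ((G.R j).e y v)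
        rwa [(h0.loc j).frm.θe y hy.1 v] at this)
    have e3 : ∀ᶠ y in 𝓝 (G.ch j x), G.g κ i j ((G.ch j).symm y) = tact κ (p y) (q y) := by
      by_cases hκ : κ = .o
      · have c1 : ContinuousAt (G.p i j) ((G.ch j).symm (G.ch j x)) := by
          rw [(G.ch j).left_inv hj]
          exact ((hG.spin hκ).cont i j).continuousAt
            (((G.ch i).open_source.inter (G.ch j).open_source).mem_nhds ⟨hi, hj⟩)
        filter_upwards [e2 (c1.comp ((G.ch j).continuousAt_symm tj))] with y hy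
        rw [hy.1, hy.2, Geo.g]
      · filter_upwards [e1] with y hy
        rcases hy with ⟨a, b⟩ | ⟨a, b⟩
        · rw [a, b, Geo.g]
        · rw [a, b, tact_neg hκ, Geo.g]
    refine ⟨p, q, ⟨fs, ps, qs, ?_, ?_, ?_⟩, e3, (cda_tact κ ps qs).congr_of_eventuallyEq e3⟩
    · filter_upwards [ev, e1] with y hy e
      rcases e with ⟨a, -⟩ | ⟨a, -⟩
      · rw [a, hy.2.1]
      · rw [a, norm_neg, hy.2.1]
    · filter_upwards [ev, e1] with y hy e
      rcases e with ⟨-, a⟩ | ⟨-, a⟩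
      · rw [a, hy.2.2.1]
      · rw [a, norm_neg, hy.2.2.1]
    · filter_upwards [ev, e1] with y hy e v
      rw [hy.2.2.2 v]
      rcases e with ⟨a, b⟩ | ⟨a, b⟩
      · rw [a, b]
      · rw [a, b, star_neg, neg_mul, neg_mul_neg]

end Pool.Agent.MP_e1dc65_gt.A

end
end MrgPart0

-- ======== part 1: formerly Pool.Agent.MP_e1dc65_gt.a.Dth
section MrgPart1

/-! PROJECT HC, part A, row DTH: an involution with eight fixed points of the same type forces a
nonzero Pontryagin number. -/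

set_option maxSynthPendingDepth 3

open scoped Quaternion ContDiff Topology RealInnerProductSpace
open Set Filter MeasureTheory Metric

noncomputable section

namespace Pool.Agent.MP_e1dc65_gt.A

namespace Dth

theorem e11 : ε 1 * ε 1 = -1 := by rw [ε_1]; ext <;> simp
theorem e22 : ε 2 * ε 2 = -1 := by rw [ε_2]; ext <;> simp
theorem e21 : ε 2 * ε 1 = -(ε 1 * ε 2) := by rw [ε_1, ε_2]; ext <;> simp

theorem lift_apply {X : Sp} (G : Geo X) (f : X → X) (P Q : Fin G.n → Fin G.n → X → ℍ) (x : X)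
    (w : W) : G.lift f P Q x w = wk (star (P (G.c x) (G.c (f x)) x) * w.fst)
      (-(star (Q (G.c x) (G.c (f x)) x) * w.snd)) := by
  simp [Geo.lift, gam_apply, act_apply]

theorem den_eq (h9 : BiaStmt) (h10 : DensStmt) {X : Sp} (G : Geo X) (hG : G.Ok0) (x : X) :
    G.den .o x = 4 / 3 * G.pont x := by
  have hx : G.ch (G.c x) x ∈ G.T (G.c x) := (G.ch (G.c x)).map_source (hG.mem x)
  obtain ⟨hb, hΩ⟩ := h9 (G.R (G.c x)) _ (hG.loc _) _ hx
  exact (h10 _ _ (fun κ => cf2 ((G.R (G.c x)).om κ) (G.R (G.c x)).e (G.ch (G.c x) x)) hb hΩ).2.1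

end Dth

theorem dth (h1 : InstStmt) (h2 : KerStmt) (h3 : EigStmt) (h4 : MsStmt) (h5 : IdxStmt)
    (h6 : ActStmt) (h7 : LefStmt) (h8 : QalgStmt) (h9 : BiaStmt) (h10 : DensStmt) : DthStmt := by
  intro X G hG f P Q F hI h0
  obtain ⟨⟨j, D, Γ, hi⟩, hh⟩ := h1 X G .o hG
  obtain ⟨-, -, -, -, hΓΓ, hΓD⟩ := hh j D Γ hi
  have hE : Ell j D := (h2 X G .o hG j D Γ hi).1
  obtain ⟨J', φ, lam, hφ⟩ := h3 _ _ j D hE
  have hfd := (h4 _ _ j D J' φ lam hE hφ).2.1
  have hidx : ind D Γ = 0 := by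
    rw [(h5 X G .o hG j D Γ hi).2]
    simp only [Dth.den_eq h9 h10 G hG.toOk.toOk0]
    rw [integral_const_mul, h0, mul_zero, mul_zero]
  obtain ⟨⟨I, J, hI1, hJ1, hID, hJD⟩, hB⟩ := h6 X G hG j D Γ hi
  obtain ⟨B, hB1, -, hBB, hBD⟩ := hB f P Q F hI
  have hlef : ind D B = 4 := h7 X G hG j D Γ hi f P Q F hI B hB1
  have hneg : ∀ (s : G.Sec .o) x, ((-s : G.Sec .o) : X → W) x = -((s : X → W) x) := fun _ _ => rfl
  obtain ⟨n, hn⟩ := h8 _ D Γ B I J hfd hΓΓ hBB
    (fun ψ => Subtype.ext <| funext fun x => by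
      rw [hi.Γ, hB1, hB1, hi.Γ, Dth.lift_apply, Dth.lift_apply, gam_apply, gam_apply]
      simp)
    hΓD hBD
    (fun ψ => Subtype.ext <| funext fun x => by
      rw [hneg, hI1, hI1]
      refine W_ext ?_ ?_ <;> simp [mul_assoc, Dth.e11])
    (fun ψ => Subtype.ext <| funext fun x => by
      rw [hneg, hJ1, hJ1]
      refine W_ext ?_ ?_ <;> simp [mul_assoc, Dth.e22])
    (fun ψ => Subtype.ext <| funext fun x => by
      rw [hneg, hI1, hJ1, hJ1, hI1]
      refine W_ext ?_ ?_ <;> simp [mul_assoc, Dth.e21])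
    hID hJD
    (fun ψ => Subtype.ext <| funext fun x => by
      rw [hI1, hi.Γ, hi.Γ, hI1, gam_apply, gam_apply]
      simp)
    (fun ψ => Subtype.ext <| funext fun x => by
      rw [hJ1, hi.Γ, hi.Γ, hJ1, gam_apply, gam_apply]
      simp)
    (fun ψ => Subtype.ext <| funext fun x => by
      rw [hI1, hB1, hB1, hI1, Dth.lift_apply, Dth.lift_apply]
      simp [mul_assoc])
    (fun ψ => Subtype.ext <| funext fun x => by
      rw [hJ1, hB1, hB1, hJ1, Dth.lift_apply, Dth.lift_apply]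
      simp [mul_assoc])
  rw [hidx, hlef, zero_add] at hn
  have h4 : (4 : ℤ) = 8 * n := by exact_mod_cast hn
  omega

end Pool.Agent.MP_e1dc65_gt.A

end
end MrgPart1

-- ======== part 2: formerly Pool.Agent.MP_e1dc65_gt.a.Geo
section MrgPart2

/-! PROJECT HC, part A, row GEO: a finite atlas from an orthonormal atlas. -/

set_option maxSynthPendingDepth 3

open scoped Quaternion ContDiff Topology RealInnerProductSpace
open Set Filter MeasureTheory Metric Pool.Agent.MP_c8d41b_gt.GF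

noncomputable section

namespace Pool.Agent.MP_e1dc65_gt.A

namespace GeoR

/-- a measurable choice of a member of a finite measurable cover -/
theorem exists_choice {α : Type} [MeasurableSpace α] {n : ℕ} (U : Fin n → Set α)
    (hm : ∀ i, MeasurableSet (U i)) (hc : ∀ x, ∃ i, x ∈ U i) :
    ∃ c : α → Fin n, (∀ x, x ∈ U (c x)) ∧ ∀ i, MeasurableSet {x | c x = i} := by
  have h : ∀ x, ∃ i, x ∈ U i ∧ ∀ j, x ∈ U j → i ≤ j := fun x => by
    obtain ⟨i, hi, h⟩ := wellFounded_lt.has_min {i | x ∈ U i} (hc x)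
    exact ⟨i, hi, fun j hj => not_lt.1 (h j hj)⟩
  choose c h1 h2 using h
  refine ⟨c, h1, fun i => ?_⟩
  have e : {x | c x = i} = U i ∩ ⋂ j, ⋂ (_ : j < i), (U j)ᶜ := by
    ext x
    simp only [mem_inter_iff, mem_iInter, mem_compl_iff]
    constructor
    · rintro rfl
      exact ⟨h1 x, fun j hj h => absurd (h2 x j h) (not_le.2 hj)⟩
    · exact fun h => le_antisymm (h2 x i h.1) (not_lt.1 fun h' => h.2 _ h' (h1 x))
  rw [e]
  exact (hm i).inter (MeasurableSet.iInter fun j => MeasurableSet.iInter fun _ => (hm j).compl)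

variable {X : Mf E4}

/-- a coframe read in the chart at `a` -/
def th (Θ : X → E4 →L[ℝ] ℍ) (a : X) (y : E4) : E4 →L[ℝ] ℍ :=
  (Θ ((ch X a).symm y)).comp (Df (vs E4) X (ch X a).symm y)

theorem th_ch (Θ : X → E4 →L[ℝ] ℍ) {a x : X} (h : x ∈ (ch X a).source) :
    th Θ a (ch X a x) = (Θ x).comp (cfr X a x) := by
  rw [th, (ch X a).left_inv h, cfr]

theorem th_cf (Θ : X → E4 →L[ℝ] ℍ) {a x : X} (h : x ∈ (ch X a).source) :
    (th Θ a (ch X a x)).comp (Df X (vs E4) (ch X a) x) = Θ x := by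
  rw [th_ch Θ h, ContinuousLinearMap.comp_assoc, cfr_Df_ch h, ContinuousLinearMap.comp_id]

theorem frm {Θ : X → E4 →L[ℝ] ℍ} {V : Set X} (hV : IsOpen V) (h : MP_e1dc65_gt.Cof X ∞ Θ V)
    (a : X) : Frm (th Θ a) (fun y => (th Θ a y).inverse) ((ch X a).restrOpen V hV).target := by
  have hs : ∀ y ∈ ((ch X a).restrOpen V hV).target, ContDiffAt ℝ ∞ (th Θ a) y := fun y hy =>
    (cfAt_param (ldAt_ch_symm hy.1)).1 (h _ hy.2).1
  have hi : ∀ y ∈ ((ch X a).restrOpen V hV).target, (th Θ a y).IsInvertible := fun y hy =>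
    (h _ hy.2).2.comp (ldAt_ch_symm hy.1).inv
  exact ⟨((ch X a).restrOpen V hV).open_target, fun y hy => (hs y hy).contDiffWithinAt,
    fun y hy => ((hi y hy).contDiffAt_map_inverse.comp y (hs y hy)).contDiffWithinAt,
    fun y hy => (hi y hy).self_apply_inverse, fun y hy => (hi y hy).inverse_apply_self⟩

theorem sm_tr {a b x : X} (ha : x ∈ (ch X a).source) (hb : x ∈ (ch X b).source) :
    ContDiffAt ℝ ∞ (fun y => ch X a ((ch X b).symm y)) (ch X b x) :=
  smAt_vs.1 ((smAt_ch_symm ((ch X b).map_source hb)).trans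
    (smAt_ch (by rwa [(ch X b).left_inv hb])))

theorem fd_tr {a b x : X} (ha : x ∈ (ch X a).source) (hb : x ∈ (ch X b).source) :
    fderiv ℝ (fun y => ch X a ((ch X b).symm y)) (ch X b x) =
      (Df X (vs E4) (ch X a) x).comp (cfr X b x) := by
  have h := Df_comp (X := vs E4) (Y := X) (Z := vs E4) (g := ch X a)
    (smAt_ch_symm ((ch X b).map_source hb)) (smAt_ch (by rwa [(ch X b).left_inv hb]))
  rw [(ch X b).left_inv hb, Df_vs] at h
  exact h

end GeoR

open GeoR in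
theorem geo (h1 : LcStmt) (h2 : MuStmt) : GeoStmt := by
  intro X _ o s V θ p q hA hpq
  let U : X → OpenPartialHomeomorph X E4 := fun a => (ch X a).restrOpen (V a) (hA.op a)
  obtain ⟨t, -, ht⟩ := isCompact_univ.elim_nhds_subcover (fun a => (U a).source)
    fun a _ => (U a).open_source.mem_nhds ⟨mem_chart_source E4 a, hA.mem a⟩
  let ξ : Fin t.card → X := fun i => t.equivFin.symm i
  obtain ⟨c, hc1, hc2⟩ := @exists_choice X (borel X) _ (fun i => (U (ξ i)).source)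
    (fun i => MeasurableSpace.measurableSet_generateFrom (U (ξ i)).open_source) fun x => by
      obtain ⟨a, ha, hx⟩ := mem_iUnion₂.1 (ht (mem_univ x))
      exact ⟨t.equivFin ⟨a, ha⟩, by simpa only [ξ, Equiv.symm_apply_apply] using hx⟩
  choose α β hαβ using fun a => h1.1 _ _ _ (frm (hA.op a) (hA.cof a) a)
  let G : Geo (spc X) :=
    { n := t.card, ch := fun i => U (ξ i), c := c
      R := fun i => ⟨th (θ (ξ i)) (ξ i), fun y => (th (θ (ξ i)) (ξ i) y).inverse, α (ξ i), β (ξ i)⟩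
      p := fun i j => p (ξ i) (ξ j), q := fun i j => q (ξ i) (ξ j), μ := 0 }
  have h0 : G.Ok0 := by
    refine ⟨hc1, hc2, fun i => hαβ (ξ i), fun i j x hx => sm_tr hx.1.1 hx.2.1,
      fun i j x hx => (hpq _ _ x ⟨hx.1.2, hx.2.2⟩).1,
      fun i j x hx => (hpq _ _ x ⟨hx.1.2, hx.2.2⟩).2.1, fun i j x hx v => ?_⟩
    show th (θ (ξ i)) (ξ i) (ch X (ξ i) x)
        (fderiv ℝ (fun y => ch X (ξ i) ((ch X (ξ j)).symm y)) (ch X (ξ j) x) v) =
      p (ξ i) (ξ j) x * th (θ (ξ j)) (ξ j) (ch X (ξ j) x) v * star (q (ξ i) (ξ j) x)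
    rw [fd_tr hx.1.1 hx.2.1, th_ch _ hx.2.1, ContinuousLinearMap.comp_apply,
      ContinuousLinearMap.comp_apply, ← (hpq _ _ x ⟨hx.1.2, hx.2.2⟩).2.2, ← th_cf (θ (ξ i)) hx.1.1]
    rfl
  obtain ⟨μ, hμ⟩ := h2 _ G h0
  have hcf : ∀ i, ∀ x ∈ (U (ξ i)).source, Geo.cf { G with μ := μ } i x = θ (ξ i) x :=
    fun i x hx => th_cf (θ (ξ i)) hx.1
  refine ⟨{ G with μ := μ }, ξ, ⟨hμ, fun i => oe_ch.mono (U (ξ i)).open_source fun _ h => h.1,
    fun i => oe_ch_symm.mono (U (ξ i)).open_target fun _ h => h.1,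
    fun i => ((hA.cof (ξ i)).mono fun _ h => h.2).congr (U (ξ i)).open_source (hcf i),
    fun i x hx => ?_, fun i j x hx v => ?_⟩, fun i _ h => h.2, hcf, fun _ _ => rfl, fun _ _ => rfl⟩
  · rw [hcf i x hx]
    exact hA.pos _ x hx.2
  · rw [hcf i x hx.1, hcf j x hx.2]
    exact (hpq _ _ x ⟨hx.1.2, hx.2.2⟩).2.2 v

end Pool.Agent.MP_e1dc65_gt.A

end
end MrgPart2

-- ======== part 3: formerly Pool.Agent.MP_e1dc65_gt.a.Imp
section MrgPart3

/-! PROJECT HC, part A, rows IMP and PEX: the parametrix recursion. -/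

set_option maxSynthPendingDepth 3

open scoped Quaternion ContDiff Topology RealInnerProductSpace
open Set Filter MeasureTheory Metric

noncomputable section

namespace Pool.Agent.MP_e1dc65_gt.A

namespace IMP

variable {Y B : Type} [NormedAddCommGroup Y] [NormedSpace ℝ Y] [NormedAddCommGroup B]
  [NormedSpace ℝ B] {j : ℕ} {Q : Y × ℍ → B}

/-- smooth functions that are homogeneous of degree `j` in the second variable -/
def Hom (j : ℕ) (Q : Y × ℍ → B) : Prop :=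
  ContDiff ℝ ∞ Q ∧ ∀ y z (s : ℝ), Q (y, s • z) = s ^ j • Q (y, z)

theorem line (h : ContDiff ℝ ∞ Q) (y : Y) (z v : ℍ) (s : ℝ) :
    HasDerivAt (fun s : ℝ => Q (y, z + s • v)) (fderiv ℝ Q (y, z + s • v) (0, v)) s := by
  have h0 : HasDerivAt (fun s : ℝ => z + s • v) v s := by
    simpa using ((hasDerivAt_id s).smul_const v).const_add z
  have h1 : HasDerivAt (fun s : ℝ => (y, z + s • v)) ((0 : Y), v) s :=
    (hasDerivAt_const s y).prodMk h0
  exact (h.differentiable (by simp) _).hasFDerivAt.comp_hasDerivAt s h1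

theorem Hom.euler (h : Hom j Q) (p : Y × ℍ) : ∑ b, co b p.2 • pd b Q p = (j : ℝ) • Q p := by
  have h1 := line h.1 p.1 0 p.2 1
  simp only [zero_add, h.2, one_smul] at h1
  have h2 := h1.unique ((hasDerivAt_pow j (1 : ℝ)).smul_const (Q (p.1, p.2)))
  have h3 : ((0 : Y), p.2) = ∑ b, co b p.2 • ((0 : Y), ε b) := by
    ext1 <;> simp [Prod.fst_sum, Prod.snd_sum, sum_co]
  simp only [h3, map_sum, map_smul] at h2
  simpa [pd] using h2

theorem Hom.scale (h : Hom j Q) (b : Fin 4) (y : Y) (z : ℍ) (s : ℝ) :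
    s • pd b Q (y, s • z) = s ^ j • pd b Q (y, z) := by
  have h1 := line h.1 y (s • z) (s • ε b) 0
  have h2 := (line h.1 y z (ε b) 0).const_smul (s ^ j)
  have h3 : (fun r : ℝ => Q (y, s • z + r • s • ε b)) = s ^ j • fun r : ℝ => Q (y, z + r • ε b) := by
    ext r
    rw [smul_comm r s, ← smul_add, h.2, Pi.smul_apply]
  rw [h3] at h1
  have h4 := h1.unique h2
  have h5 : ((0 : Y), s • ε b) = s • ((0 : Y), ε b) := by simp
  rw [h5, map_smul] at h4
  simpa [pd] using h4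

theorem Hom.pd0 (h : Hom 0 Q) (b : Fin 4) (p : Y × ℍ) : pd b Q p = 0 := by
  simpa using (h.scale b p.1 p.2 0).symm

theorem Hom.pdv (h : Hom j Q) (b : Fin 4) : Hom (j - 1) (pd b Q) := by
  refine ⟨contDiff_pd b h.1, fun y z s => ?_⟩
  rcases j with _ | j
  · simp [h.pd0]
  have c := (contDiff_pd b h.1).continuous
  refine congrFun (Continuous.ext_on (f := fun s : ℝ => pd b Q (y, s • z))
    (g := fun s : ℝ => s ^ j • pd b Q (y, z)) (dense_compl_singleton 0) (by fun_prop) (by fun_prop)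
    fun s hs => ?_) s
  refine smul_right_injective B (show s ≠ 0 from hs) ?_
  simp only [h.scale, smul_smul, pow_succ']

theorem Hom.van (h : Hom j Q) : Van Prod.snd j Q := by
  induction j generalizing Q with
  | zero => exact h.1
  | succ j ih =>
    refine ⟨fun b p => ((j + 1 : ℕ) : ℝ)⁻¹ • pd b Q p, fun b => (ih (h.pdv b)).const_smul _,
      fun p => ?_⟩
    simp only [smul_comm _ ((j + 1 : ℕ) : ℝ)⁻¹, ← Finset.smul_sum, h.euler]
    rw [inv_smul_smul₀ (by positivity)]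

theorem Hom.const_smul (h : Hom j Q) (c : ℝ) : Hom j fun p => c • Q p :=
  ⟨h.1.const_smul c, fun y z s => by simp only [h.2, smul_comm c]⟩

theorem Hom.lap (h : Hom j Q) : Hom (j - 1 - 1) fun p => ∑ b, pd b (pd b Q) p :=
  ⟨ContDiff.sum fun b _ => ((h.pdv b).pdv b).1, fun y z s => by
    simp only [Finset.smul_sum, fun b => ((h.pdv b).pdv b).2]⟩

theorem taylor [FiniteDimensional ℝ Y] [CompleteSpace B] {a : Y × ℍ → B} (h : Van Prod.snd j a) :
    ∃ Q, Hom j Q ∧ Van Prod.snd (j + 1) fun p => a p - Q p := by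
  induction j generalizing a with
  | zero =>
    have c : ContDiff ℝ ∞ fun p : Y × ℍ => a (p.1, 0) :=
      ContDiff.comp h (contDiff_fst.prodMk contDiff_const)
    exact ⟨_, ⟨c, fun _ _ _ => by simp⟩, van_one_of (ContDiff.sub h c) fun _ => sub_self _⟩
  | succ j ih =>
    obtain ⟨a', h1, h2⟩ := h
    choose Q k1 k2 using fun b => ih (h1 b)
    refine ⟨fun p => ∑ b, co b p.2 • Q b p, ⟨ContDiff.sum fun b _ =>
      ((co b).contDiff.comp contDiff_snd).smul (k1 b).1, fun y z s => ?_⟩, _, k2, fun p => ?_⟩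
    · simp only [Finset.smul_sum, fun b => (k1 b).2, map_smul, smul_smul, smul_eq_mul]
      exact Finset.sum_congr rfl fun b _ => by congr 1; ring
    · simp only [h2, smul_sub, Finset.sum_sub_distrib]

theorem solve (h : Hom j Q) {n : ℤ} (hn : -1 ≤ j + 2 * n) : ∃ c, Wt Prod.snd (j + 2 * n + 2) c ∧
    ∀ t, 0 < t → ∀ p, heat0 c t p = (t ^ n * hk t p.2) • Q p := by
  induction j using Nat.strong_induction_on generalizing Q n with
  | _ j ih =>
  have h0 : ((n + 1 : ℤ) : ℝ) + j ≠ 0 := by exact_mod_cast (by omega : n + 1 + j ≠ 0)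
  have h1 := h.const_smul (((n + 1 : ℤ) : ℝ) + j)⁻¹
  have h2 := Wt.gen (μ := j + 2 * n + 2) (n + 1) j _ h1.van (by omega)
  have h3 := fun t ht p => heat0_gen (n + 1) h1.1 (t := t) ht p
  simp only [h1.euler, ← add_smul, smul_inv_smul₀ h0, add_sub_cancel_right] at h3
  by_cases hj : j < 2
  · refine ⟨_, h2, fun t ht p => (h3 t ht p).trans ?_⟩
    have h4 := fun b => h1.pdv b
    rw [show j - 1 = 0 by omega] at h4
    simp only [fun b => (h4 b).pd0 b, Finset.sum_const_zero, smul_zero, sub_zero]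
  · obtain ⟨c, h4, h5⟩ := ih (j - 1 - 1) (by omega) h1.lap (n := n + 1) (by omega)
    refine ⟨_, h2.add (h4.mono (by omega)), fun t ht p => ?_⟩
    rw [heat0_add h2 h4 ht, h3 t ht, h5 t ht, sub_add_cancel]

end IMP

open IMP in
theorem imp : ImpStmt := by
  intro Y 𝔸 _ _ _ _ _ _ L hL μ hμ r hr
  induction hr with
  | gen n j a ha hj =>
    obtain ⟨Q, h1, h2⟩ := taylor ha
    obtain ⟨c, h3, h4⟩ := solve h1 (hμ.trans hj)
    refine ⟨c, h3.mono (by omega), (((h3.ht_sub hL).mono (by omega)).sub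
      (Wt.gen n (j + 1) _ h2 (by omega))).congr fun t ht p => ?_⟩
    simp only [h4 t ht, smul_sub]
    abel
  | add _ _ ih ih' =>
    obtain ⟨c, h1, h2⟩ := ih
    obtain ⟨c', h3, h4⟩ := ih'
    refine ⟨_, h1.add h3, (h2.add h4).congr fun t ht p => ?_⟩
    simp only [heat_add h1 h3 ht]
    abel
  | congr _ e ih =>
    obtain ⟨c, h1, h2⟩ := ih
    exact ⟨c, h1, h2.congr fun t ht p => by rw [e t ht]⟩

theorem pex (h : ImpStmt) : PexStmt := by
  intro Y 𝔸 _ _ _ _ _ _ L hL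
  refine ⟨((wt_hk_const (1 : 𝔸)).ht_sub hL).congr fun t ht p => ?_, fun μ hμ k₀ h0 h1 M δ hδ => ?_⟩
  · have h1 := heat0_gen (Y := Y) 0 (a := fun _ => (1 : 𝔸)) contDiff_const ht p
    have h2 : ∀ b (c : 𝔸), pd b (fun _ : Y × ℍ => c) = fun _ => 0 := fun b c => by
      ext p
      simp [pd]
    simp only [zpow_zero, one_mul, h2] at h1
    simp [h1]
  have wt0 : ∀ k : ℝ → Y × ℍ → 𝔸, (Wt Prod.snd (μ + 2) fun t p => k t p - k₀ t p) →
      Wt Prod.snd 0 k := fun k hk' =>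
    ((hk'.mono (by omega)).add h0).congr fun t _ p => (sub_add_cancel _ _).symm
  have key : ∀ m : ℕ, ∃ k, (Wt Prod.snd (μ + 2) fun t p => k t p - k₀ t p) ∧
      Wt Prod.snd (μ + m) (L.heat k) := fun m => by
    induction m with
    | zero => exact ⟨k₀, wt_zero.congr fun _ _ _ => sub_self _, h1.mono (by simp)⟩
    | succ m ih =>
      obtain ⟨k, h2, h3⟩ := ih
      obtain ⟨c, h4, h5⟩ := h Y 𝔸 L hL _ (by omega) _ h3
      refine ⟨fun t p => k t p - c t p, (h2.sub (h4.mono (by omega))).congr fun t _ p =>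
        sub_right_comm _ _ _,
        (h5.neg.mono (by omega)).congr fun t ht p => ?_⟩
      rw [heat_sub (wt0 k h2) h4 ht, neg_sub]
  obtain ⟨k, h2, h3⟩ := key (M - μ).toNat
  let χ : ContDiffBump (0 : ℍ) := ⟨δ / 2, δ, half_pos hδ, half_lt_self hδ⟩
  have h4 : ∀ j : ℕ, Wt Prod.snd (0 + j) fun t p => (χ p.2 - 1) • k t p := fun j =>
    (wt0 k h2).smul (van_of_flat contDiff_snd
      ((χ.contDiff.comp contDiff_snd).sub contDiff_const) (half_pos hδ) (fun p hp =>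
        sub_eq_zero.2 (χ.one_of_mem_closedBall (mem_closedBall_zero_iff.2 hp.le))) j)
  refine ⟨fun t p => k t p + (χ p.2 - 1) • k t p,
    (h2.add ((h4 (μ + 2).toNat).mono (by omega))).congr fun t _ p => add_sub_right_comm _ _ _,
    ((h3.mono (by omega)).add (((h4 (M + 2).toNat).ht hL).mono (by omega))).congr fun t ht p =>
      heat_add (wt0 k h2) (h4 0) ht p, fun t p hp => ?_⟩
  simp [χ.zero_of_le_dist (x := p.2) (by simpa using hp)]

end Pool.Agent.MP_e1dc65_gt.A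

end
end MrgPart3

-- ======== part 4: formerly Pool.Agent.MP_e1dc65_gt.a.Inst
section MrgPart4

/-! PROJECT HC, part A, row INST: the embedding in `L²`, the Dirac operator and the grading as
linear maps. -/

set_option maxSynthPendingDepth 3

open scoped Quaternion ContDiff Topology RealInnerProductSpace
open Set Filter MeasureTheory Metric

noncomputable section

namespace Pool.Agent.MP_e1dc65_gt.A

namespace InstP

theorem gam_act' (p q r : ℍ) (w : W) : act p q r (gam w) = gam (act p q r w) := by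
  refine W_ext ?_ ?_ <;> simp [act_apply, gam_apply]

theorem gam_lie' (a b c : ℍ) (w : W) : lie a b c (gam w) = gam (lie a b c w) := by
  refine W_ext ?_ ?_ <;> simp [lie_apply, gam_apply]
  abel

theorem gam_cl' (v : ℍ) (w : W) : gam (cl v w) = -cl v (gam w) := by
  refine W_ext ?_ ?_ <;> simp [cl_apply, gam_apply]

theorem gam_gam' (w : W) : gam (gam w) = w := by simp [gam_apply, wk_eta]

theorem hfd {B : Type} [NormedAddCommGroup B] [NormedSpace ℝ B] (L : B →L[ℝ] B) {s : E4 → B}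
    {y : E4} (h : DifferentiableAt ℝ s y) (v : E4) :
    fderiv ℝ (fun z => L (s z)) y v = L (fderiv ℝ s y v) := by
  have h1 : HasFDerivAt (fun z => L (s z)) (L.comp (fderiv ℝ s y)) y :=
    L.hasFDerivAt.comp y h.hasFDerivAt
  rw [h1.fderiv]; rfl

theorem dir_add (R : Loc) (κ : Tw) {s s' : E4 → W} {y : E4} (h : DifferentiableAt ℝ s y)
    (h' : DifferentiableAt ℝ s' y) : R.dir κ (s + s') y = R.dir κ s y + R.dir κ s' y := by
  simp only [Loc.dir, cov, fderiv_add h h', ← Finset.sum_add_distrib, ← map_add,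
    add_apply, Pi.add_apply]
  refine Finset.sum_congr rfl fun a _ => congrArg _ ?_
  rw [map_add]; abel

theorem dir_smul (R : Loc) (κ : Tw) (c : ℝ) {s : E4 → W} {y : E4} (h : DifferentiableAt ℝ s y) :
    R.dir κ (c • s) y = c • R.dir κ s y := by
  simp only [Loc.dir, cov, fderiv_const_smul h, Finset.smul_sum, ← map_smul,
    smul_apply, Pi.smul_apply, smul_add]

theorem dir_gam (R : Loc) (κ : Tw) {s : E4 → W} {y : E4} (h : DifferentiableAt ℝ s y) :
    R.dir κ (fun z => gam (s z)) y = -gam (R.dir κ s y) := by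
  simp only [Loc.dir, cov, hfd gam h, map_sum, ← Finset.sum_neg_distrib, Loc.om, con_apply,
    gam_lie', gam_cl', neg_neg, map_add gam]

theorem dir_zero (R : Loc) (κ : Tw) {u : E4 → W} {K : Set E4} (hK : IsClosed K)
    (h : ∀ y ∉ K, u y = 0) : ∀ y ∉ K, R.dir κ u y = 0 := fun y hy => by
  have h1 : u =ᶠ[𝓝 y] fun _ => 0 := by
    filter_upwards [hK.isOpen_compl.mem_nhds hy] with z hz using h z hz
  simp [Loc.dir, cov, h1.fderiv_eq, h y hy]

variable {X : Sp} {G : Geo X} {κ : Tw}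

theorem dif (hA : G.Adm κ) {s : X → W} (hs : s ∈ G.Sec κ) (x : X) :
    DifferentiableAt ℝ (G.lc κ (G.c x) s) (G.ch (G.c x) x) :=
  ((hs (G.c x)).contDiffAt ((G.ch _).open_target.mem_nhds
    ((G.ch _).map_source (hA.mem x)))).differentiableAt (by simp)

theorem lc_gam (i : Fin G.n) (s : X → W) :
    G.lc κ i (fun x => gam (s x)) = fun y => gam (G.lc κ i s y) := funext fun _ => by
  simp only [Geo.lc, Geo.g, tact, gam_act']

theorem gam_mem {s : X → W} (hs : s ∈ G.Sec κ) : (fun x => gam (s x)) ∈ G.Sec κ := fun i => by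
  rw [lc_gam]
  exact fun y hy => (gam.contDiff.contDiffAt (x := G.lc κ i s y)).comp_contDiffWithinAt y (hs i y hy)

theorem exi (h2 : SecStmt) (h3 : IntStmt) (hA : G.Adm κ) : ∃ j D Γ, G.Inst κ j D Γ := by
  obtain ⟨-, -, -, -, -, -, -, s8, -⟩ := h2 X G κ hA
  obtain ⟨-, -, -, i4, -⟩ := h3 X G κ hA
  refine ⟨⟨⟨fun s => (i4 s s.2).2.1.toLp s, fun s s' => ?_⟩, fun c s => ?_⟩,
    ⟨⟨fun s => ⟨G.dir κ s, s8 s s.2⟩, fun s s' => ?_⟩, fun c s => ?_⟩,
    ⟨⟨fun s => ⟨fun x => gam (s.1 x), gam_mem s.2⟩, fun s s' => ?_⟩, fun c s => ?_⟩,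
    fun s => MemLp.coeFn_toLp (i4 s s.2).2.1, fun s => rfl, fun s x => rfl⟩
  · exact MemLp.toLp_add (i4 s s.2).2.1 (i4 s' s'.2).2.1
  · exact MemLp.toLp_const_smul c (i4 s s.2).2.1
  · refine Subtype.ext (funext fun x => ?_)
    have e : G.lc κ (G.c x) (s.1 + s'.1) = G.lc κ (G.c x) s + G.lc κ (G.c x) s' :=
      funext fun y => map_add _ _ _
    show G.dir κ (s.1 + s'.1) x = G.dir κ s x + G.dir κ s' x
    rw [Geo.dir, e, dir_add _ _ (dif hA s.2 x) (dif hA s'.2 x)]; rfl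
  · refine Subtype.ext (funext fun x => ?_)
    have e : G.lc κ (G.c x) (c • s.1) = c • G.lc κ (G.c x) s := funext fun y => by simp [Geo.lc]
    show G.dir κ (c • s.1) x = c • G.dir κ s x
    rw [Geo.dir, e, dir_smul _ _ _ (dif hA s.2 x)]; rfl
  · exact Subtype.ext (funext fun x => map_add gam _ _)
  · exact Subtype.ext (funext fun x => map_smul gam _ _)

variable {j : G.Sec κ →ₗ[ℝ] Lp W 2 G.μ} {D Γ : G.Sec κ →ₗ[ℝ] G.Sec κ}

theorem inner_j (hI : G.Inst κ j D Γ) (u : Lp W 2 G.μ) (s : G.Sec κ) : ⟪u, j s⟫ = G.ip u s := by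
  rw [L2.inner_def]
  refine integral_congr_ae ?_
  filter_upwards [hI.j s] with x hx
  rw [hx]

theorem inner_jj (hI : G.Inst κ j D Γ) (s s' : G.Sec κ) : ⟪j s, j s'⟫ = G.ip s s' := by
  rw [inner_j hI]
  refine integral_congr_ae ?_
  filter_upwards [hI.j s] with x hx
  rw [hx]

theorem inj (h2 : SecStmt) (h3 : IntStmt) (hA : G.Adm κ) (hI : G.Inst κ j D Γ) :
    Function.Injective j := by
  obtain ⟨-, -, -, -, -, -, -, -, -, s10, -⟩ := h2 X G κ hA
  have := (h3 X G κ hA).1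
  refine (injective_iff_map_eq_zero j).2 fun s hs => Subtype.ext (funext fun x => ?_)
  have h1 : (fun x => ⟪s.1 x, s.1 x⟫) =ᵐ[G.μ] fun _ => (0 : ℝ) := by
    have h0 := hI.j s
    rw [hs] at h0
    filter_upwards [h0, Lp.coeFn_zero W 2 G.μ] with x h h'
    rw [← h, h']; simp
  exact inner_self_eq_zero.1
    (congrFun (((s10 s s.2 s s.2).ae_eq_iff_eq G.μ continuous_const).1 h1) x)

theorem dense (h1 : CocStmt) (h2 : SecStmt) (h3 : IntStmt) (h4 : SymStmt) (hA : G.Adm κ)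
    (hI : G.Inst κ j D Γ) : DenseRange j := by
  obtain ⟨-, -, c3, -⟩ := h1 X G κ hA
  obtain ⟨-, -, -, -, -, s6, -⟩ := h2 X G κ hA
  obtain ⟨-, -, i3, -, i5, i6⟩ := h3 X G κ hA
  have := hA.fin
  have e : DenseRange j ↔ Dense ((LinearMap.range j : Submodule ℝ _) : Set (Lp W 2 G.μ)) := Iff.rfl
  rw [e, Submodule.dense_iff_topologicalClosure_eq_top, Submodule.topologicalClosure_eq_top_iff,
    Submodule.eq_bot_iff]
  intro u hu
  have hi : Integrable u G.μ := (Lp.memLp u).integrable (by norm_num)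
  have key : ∀ i, ∀ᵐ x ∂G.μ, x ∈ G.U i → u x = 0 := fun i => by
    have hT := (G.ch i).open_target
    have h0 := hT.ae_eq_zero_of_integral_contDiff_smul_eq_zero (μ := volume)
      (f := fun y => jac ((G.R i).θ y) • G.lc κ i u y)
      ((locallyIntegrableOn_iff hT.isLocallyClosed).2 fun K hK hc => i5 u hi i K hK hc) ?_
    · refine (i3 i fun x => u x = 0).1 ?_
      filter_upwards [h0] with y hy hT
      have h5 := (smul_eq_zero.1 (hy hT)).resolve_left
        ((h4 _ _ κ (hA.loc i)).2.1 y hT).ne'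
      have h6 := c3 i _ _ ⟨(G.ch i).map_target hT, hA.mem _⟩ (u ((G.ch i).symm y))
        (u ((G.ch i).symm y))
      have h7 : G.g κ i _ _ (u ((G.ch i).symm y)) = 0 := h5
      rw [h7, inner_zero_left] at h6
      exact inner_self_eq_zero.1 h6.symm
    · intro φ hφ hc hs
      have hz : ∀ y ∉ tsupport φ, φ y = 0 := fun y hy => image_eq_zero_of_notMem_tsupport hy
      have hint : Integrable fun y => φ y • jac ((G.R i).θ y) • G.lc κ i u y :=
        ((i5 u hi i _ hs hc).continuousOn_smul hφ.continuous.continuousOn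
          hc).integrable_of_forall_notMem_eq_zero fun y hy => by rw [hz y hy, zero_smul]
      refine ext_inner_left ℝ fun w => ?_
      have hz' : ∀ y ∉ tsupport φ, φ y • w = 0 := fun y hy => by rw [hz y hy, zero_smul]
      have hw : ContDiffOn ℝ ∞ (fun y => φ y • w) (G.T i) := (hφ.smul contDiff_const).contDiffOn
      have h5 := i6 u hi i _ _ hc hs hz' hw.continuousOn
      have h6 := inner_j hI u ⟨_, (s6 i _ _ hc hs hz' hw).1⟩
      rw [Submodule.inner_left_of_mem_orthogonal (LinearMap.mem_range_self j _) hu, h5] at h6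
      rw [inner_zero_right, ← integral_inner hint, h6,
        ← setIntegral_eq_integral_of_forall_compl_eq_zero (s := G.T i)
          fun y hy => by rw [hz y fun h => hy (hs h), zero_smul, inner_zero_right]]
      refine integral_congr_ae (Eventually.of_forall fun y => ?_)
      simp only [inner_smul_right, real_inner_comm w]
      ring
  refine Lp.eq_zero_iff_ae_eq_zero.2 ?_
  filter_upwards [ae_all_iff.2 key] with x hx using hx _ (hA.mem x)

theorem sym (h2 : SecStmt) (h3 : IntStmt) (h4 : SymStmt) (h5 : PouStmt) (hA : G.Adm κ)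
    (hI : G.Inst κ j D Γ) (φ ψ : G.Sec κ) : ⟪j (D φ), j ψ⟫ = ⟪j φ, j (D ψ)⟫ := by
  obtain ⟨-, -, s3, s4, -, s6, s7, s8, s9, -, s11⟩ := h2 X G κ hA
  obtain ⟨-, -, -, i4, -, i6⟩ := h3 X G κ hA
  have := hA.fin
  obtain ⟨F, ρ, hρ, hs⟩ := h5 X G hA.toOk0 (fun x => G.U (G.c x))
    fun x => (G.ch _).open_source.mem_nhds (hA.mem x)
  have e : ψ = ∑ x ∈ F, (⟨fun z => ρ x z • ψ.1 z, s9 ψ ψ.2 _ (hρ x).1⟩ : G.Sec κ) := by
    refine Subtype.ext (funext fun z => ?_)
    rw [Submodule.coe_sum, Finset.sum_apply, ← Finset.sum_smul, hs, one_smul]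
  rw [e, map_sum, map_sum, map_sum, inner_sum, inner_sum]
  refine Finset.sum_congr rfl fun x _ => ?_
  obtain ⟨K, hK, hKT, hu⟩ := s11 _ (hρ x).1 _ (hρ x).2.2.1
  obtain ⟨u, u1, u2, u3⟩ := hu _ (ψ.2 (G.c x))
  have e2 : (fun z => ρ x z • ψ.1 z) = G.ext κ (G.c x) u := funext fun z => by
    by_cases hz : z ∈ G.U (G.c x)
    · rw [← s4 ψ.1 _ z hz, Geo.ext, Geo.ext, if_pos hz, if_pos hz, u3 _ ((G.ch _).map_source hz),
        (G.ch _).left_inv hz, map_smul]
    · rw [Geo.ext, if_neg hz, image_eq_zero_of_notMem_tsupport fun h => hz ((hρ x).2.2.1 h),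
        zero_smul]
  obtain ⟨m1, m2⟩ := s6 _ u K hK hKT u2 u1.contDiffOn
  have int : ∀ s ∈ G.Sec κ, Integrable s G.μ := fun s hs => (i4 s hs).2.1.integrable (by norm_num)
  have hc : ContinuousOn ((G.R (G.c x)).dir κ u) (G.T (G.c x)) :=
    ((s8 _ m1 (G.c x)).continuousOn).congr fun y hy => by rw [m2, s3 _ _ y hy]
  rw [inner_jj hI, inner_jj hI, hI.D, hI.D]
  show G.ip _ (fun z => ρ x z • ψ.1 z) = G.ip _ (G.dir κ fun z => ρ x z • ψ.1 z)
  rw [e2, m2, i6 _ (int _ (s8 _ φ.2)) _ u K hK hKT u2 u1.continuous.continuousOn,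
    i6 _ (int _ φ.2) _ _ K hK hKT (dir_zero _ _ hK.isClosed u2) hc,
    ← (h4 _ _ κ (hA.loc (G.c x))).2.2 _ u (φ.2 _) u1 (HasCompactSupport.intro hK u2)
      ((closure_minimal (Function.support_subset_iff'.2 u2) hK.isClosed).trans hKT)]
  exact setIntegral_congr_fun (G.ch _).open_target.measurableSet fun y hy => by
    simp only [s7 _ φ.2 _ y hy]

end InstP

open InstP in
theorem inst (h1 : CocStmt) (h2 : SecStmt) (h3 : IntStmt) (h4 : SymStmt) (h5 : PouStmt) :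
    InstStmt := fun _ G κ hA => by
  refine ⟨exi h2 h3 hA, fun j D Γ hI => ⟨inner_jj hI, inj h2 h3 hA hI, dense h1 h2 h3 h4 hA hI,
    sym h2 h3 h4 h5 hA hI, fun ψ => Subtype.ext (funext fun x => ?_),
    fun ψ => Subtype.ext (funext fun x => ?_)⟩⟩
  · rw [hI.Γ, hI.Γ, gam_gam']
  · have e : (Γ ψ).1 = fun x => gam (ψ.1 x) := funext (hI.Γ ψ)
    show (Γ (D ψ)).1 x = -(D (Γ ψ)).1 x
    rw [hI.Γ, hI.D, hI.D, e, Geo.dir, Geo.dir, lc_gam, dir_gam _ _ (dif hA ψ.2 x), neg_neg]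

end Pool.Agent.MP_e1dc65_gt.A

end
end MrgPart4

-- ======== part 5: formerly Pool.Agent.MP_e1dc65_gt.a.Pou
section MrgPart5

/-! PROJECT HC, part A: smooth partitions of unity. -/

set_option maxSynthPendingDepth 3

open scoped Quaternion ContDiff Topology RealInnerProductSpace
open Set Filter MeasureTheory Metric

noncomputable section

namespace Pool.Agent.MP_e1dc65_gt.A

namespace Pou

variable {X : Sp} {G : Geo X}

theorem cont (h : G.Ok0) {f : X → ℝ} (hf : G.SmF f) : Continuous f := by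
  refine continuous_iff_continuousAt.2 fun z => ?_
  have hz := h.mem z
  have h1 : ContinuousAt (fun y => f ((G.ch (G.c z)).symm y)) (G.ch (G.c z) z) :=
    (hf _).continuousOn.continuousAt
      ((G.ch _).open_target.mem_nhds ((G.ch _).map_source hz))
  refine (h1.comp ((G.ch _).continuousAt hz)).congr ?_
  filter_upwards [(G.ch (G.c z)).open_source.mem_nhds hz] with w hw
  simp only [Function.comp, (G.ch (G.c z)).left_inv hw]

theorem bump (h : G.Ok0) (x : X) {O : Set X} (hO : O ∈ 𝓝 x) :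
    ∃ φ : X → ℝ, G.SmF φ ∧ tsupport φ ⊆ O ∧ (∀ y, 0 ≤ φ y) ∧ φ x = 1 := by
  classical
  have hx := h.mem x
  set c := G.c x
  have ht := (G.ch c).map_source hx
  have hN : G.T c ∩ (G.ch c).symm ⁻¹' O ∈ 𝓝 (G.ch c x) := by
    refine inter_mem ((G.ch c).open_target.mem_nhds ht)
      (((G.ch c).continuousAt_symm ht).preimage_mem_nhds ?_)
    rwa [(G.ch c).left_inv hx]
  obtain ⟨b, h1, h2, h3, h4, h5⟩ := exists_contDiff_tsupport_subset (n := ⊤) hN
  have hK : IsClosed ((G.ch c).symm '' tsupport b) :=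
    (h2.isCompact.image_of_continuousOn
      ((G.ch c).continuousOn_symm.mono fun y hy => (h1 hy).1)).isClosed
  have h0 : ∀ z, z ∉ (G.ch c).symm '' tsupport b →
      (if z ∈ G.U c then b (G.ch c z) else 0) = 0 := by
    intro z hz
    split_ifs with hc
    · by_contra hne
      exact hz ⟨G.ch c z, subset_tsupport _ hne, (G.ch c).left_inv hc⟩
    · rfl
  refine ⟨fun z => if z ∈ G.U c then b (G.ch c z) else 0, fun i y hy => ?_, ?_, fun z => ?_, ?_⟩
  · refine ContDiffAt.contDiffWithinAt ?_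
    have cs := (G.ch i).continuousAt_symm hy
    by_cases hc : (G.ch i).symm y ∈ G.U c
    · have s1 := h.sm c i _ ⟨hc, (G.ch i).map_target hy⟩
      rw [(G.ch i).right_inv hy] at s1
      refine (h3.contDiffAt.comp y s1).congr_of_eventuallyEq ?_
      filter_upwards [cs.eventually_mem ((G.ch c).open_source.mem_nhds hc)] with w hw
      simp only [if_pos hw, Function.comp, Geo.rd, id]
    · have hn : (G.ch i).symm y ∉ (G.ch c).symm '' tsupport b := by
        rintro ⟨w, hw, e⟩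
        exact hc (e ▸ (G.ch c).map_target (h1 hw).1)
      refine (contDiffAt_const (c := (0 : ℝ))).congr_of_eventuallyEq ?_
      filter_upwards [cs.eventually_mem (hK.isOpen_compl.mem_nhds hn)] with w hw
      exact h0 _ hw
  · refine (closure_minimal (fun z hz => ?_) hK).trans ?_
    · by_contra hn
      exact hz (h0 z hn)
    · rintro _ ⟨w, hw, rfl⟩
      exact (h1 hw).2
  · dsimp only
    split_ifs
    · exact (h4 (mem_range_self _)).1
    · exact le_rfl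
  · simp only [if_pos hx, h5]

end Pou

theorem pou : PouStmt := by
  intro X G h O hO
  choose φ h1 h2 h3 h4 using fun x => Pou.bump h x (hO x)
  obtain ⟨F, -, hF⟩ := isCompact_univ.elim_nhds_subcover (fun x => {z | 0 < φ x z}) fun x _ =>
    (isOpen_lt continuous_const (Pou.cont h (h1 x))).mem_nhds (by simp [h4 x])
  have pos : ∀ y, 0 < ∑ x ∈ F, φ x y := fun y => by
    obtain ⟨x, hx, hy⟩ := mem_iUnion₂.1 (hF (mem_univ y))
    exact Finset.sum_pos' (fun x _ => h3 x y) ⟨x, hx, hy⟩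
  have sm : ∀ x, G.SmF fun y => φ x y / ∑ x ∈ F, φ x y := fun x i =>
    (h1 x i).div (ContDiffOn.sum fun x _ => h1 x i) fun y _ => (pos _).ne'
  refine ⟨F, fun x y => φ x y / ∑ x ∈ F, φ x y, fun x => ⟨sm x, Pou.cont h (sm x), ?_,
    fun y => div_nonneg (h3 x y) (pos y).le⟩, fun y => ?_⟩
  · refine subset_trans (closure_mono ?_) (h2 x)
    intro y hy h0
    exact hy (by simp [h0])
  · rw [← Finset.sum_div, div_self (pos y).ne']

end Pool.Agent.MP_e1dc65_gt.A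

end
end MrgPart5

-- ======== part 6: formerly Pool.Agent.MP_e1dc65_gt.a.Red
section MrgPart6

/-! Reduction of a spin structure and of the lift of an involution to unit quaternions. -/

set_option maxSynthPendingDepth 3

open scoped Quaternion ContDiff Topology RealInnerProductSpace Matrix
open Set Filter MeasureTheory Pool.Agent.MP_c8d41b_gt.GF

noncomputable section

namespace Pool.Agent.MP_e1dc65_gt.A

namespace Red

variable {C : SpinCover}

theorem pi_inv {h : C.G} {a b : E4 × ℝ →L[ℝ] Rn 5} (ha : a.IsInvertible) (hb : b.IsInvertible)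
    (e : C.π h = tm a b) : C.π h⁻¹ = tm b a := by
  rw [← mul_one (C.π h⁻¹), ← tm_self ha, ← tm_mul hb, ← mul_assoc, ← e, ← map_mul, inv_mul_cancel,
    map_one, one_mul]

theorem j_one : C.j (1, 1) = 1 := by
  have := C.j_mul 1 1 1 1 norm_one norm_one norm_one norm_one
  rw [mul_one] at this
  exact left_eq_mul.1 this

theorem ex (hC : CentStmt) {m : C.G} {α β : E4 →L[ℝ] ℍ} (hβ : β.IsInvertible)
    (e : C.π m = tm (cf5 α) (cf5 β)) (hn : ∀ v, ‖α v‖ = ‖β v‖) :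
    ∃ p q : ℍ, C.j (p, q) = m ∧ ‖p‖ = 1 ∧ ‖q‖ = 1 ∧ ∀ v, α v = p * β v * star q := by
  obtain ⟨p, q, h1, h2, h3⟩ := (hC C).2.2.1 m (α.comp β.inverse)
    (fun v t => by rw [e, tm_cf5 α hβ]; rfl) fun v => by
      rw [ContinuousLinearMap.comp_apply, hn, hβ.self_apply_inverse]
  refine ⟨p, q, h3, h1, h2, fun v => ?_⟩
  have h4 := C.j_π p q h1 h2 (β v) 0
  rw [h3, e, tm_cf5 α hβ, hβ.inverse_apply_self] at h4
  exact (emb_inj.1 h4).1

theorem mul4 (hC : CentStmt) {p q p' q' r t r' t' : ℍ} (h1 : ‖p‖ = 1) (h2 : ‖q‖ = 1)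
    (h3 : ‖p'‖ = 1) (h4 : ‖q'‖ = 1) (k1 : ‖r‖ = 1) (k2 : ‖t‖ = 1) (k3 : ‖r'‖ = 1) (k4 : ‖t'‖ = 1)
    (e : C.j (p, q) * C.j (p', q') = C.j (r, t) * C.j (r', t')) :
    p * p' = r * r' ∧ q * q' = t * t' := by
  rw [← C.j_mul _ _ _ _ h1 h2 h3 h4, ← C.j_mul _ _ _ _ k1 k2 k3 k4] at e
  exact (hC C).2.1 _ _ _ _ (by rw [norm_mul, h1, h3, mul_one]) (by rw [norm_mul, h2, h4, mul_one])
    (by rw [norm_mul, k1, k3, mul_one]) (by rw [norm_mul, k2, k4, mul_one]) e

variable {X : Mf E4} {o : X → Lam E4} {s : X → X} {sp : Spin C X.cyl univ}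
  {Γ : sp.ι → sp.ι → X → C.G} {S : Finset X} {V : X → Set X} {θ : X → X → E4 →L[ℝ] ℍ}

theorem lifts (hI : Invol C X o s sp Γ S) (hO : OnA X o s V θ) (a : X) :
    ∃ (k : sp.ι) (U : Set X) (h : X → C.G), IsOpen U ∧ a ∈ U ∧ U ⊆ V a ∧ ContinuousOn h U ∧
      ∀ x ∈ U, (x, 0) ∈ sp.W k ∧ C.π (h x) = tm (cf5 (θ a x)) (sp.Θ k (x, 0)) := by
  obtain ⟨k, hk⟩ := sp.cov (a, 0) trivial
  have c0 : Continuous fun x : X => ((x, 0) : X.cyl) := continuous_id.prodMk continuous_const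
  have hN : IsOpen (V a ∩ (fun x : X => ((x, 0) : X.cyl)) ⁻¹' sp.W k) :=
    (hO.op a).inter ((sp.op k).preimage c0)
  have hT : ContinuousOn (fun x => tm (cf5 (θ a x)) (sp.Θ k (x, 0)))
      (V a ∩ (fun x : X => ((x, 0) : X.cyl)) ⁻¹' sp.W k) := by
    have h1 : MP_e1dc65_gt.Cof X.cyl 0 (fun p => cf5 (θ a p.1)) (V a ×ˢ univ) :=
      (hO.cof a).cf5.of_le bot_le
    have h2 := (h1.tm_contOn (sp.cof k)).comp (s := V a ∩ (fun x : X => ((x, 0) : X.cyl)) ⁻¹' sp.W k)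
      c0.continuousOn fun x hx => ⟨⟨hx.1, trivial⟩, hx.2⟩
    exact h2.congr fun x _ => rfl
  have hd : 0 < (tm (cf5 (θ a a)) (sp.Θ k (a, 0))).det :=
    ((posB_cf5.2 (hO.pos a a (hO.mem a))).iff_tm (cf5_inv (hO.cof a a (hO.mem a)).2)).1
      (hI.pos k a hk)
  obtain ⟨O, h1, σ, h2, h3⟩ := C.sec _ hd
  obtain ⟨T, hT'⟩ : ∃ T : X → M5, T = fun x => tm (cf5 (θ a x)) (sp.Θ k (x, 0)) := ⟨_, rfl⟩
  have e : ∀ x, tm (cf5 (θ a x)) (sp.Θ k (x, 0)) = T x := fun x => by rw [hT']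
  simp only [e] at hT h1
  refine ⟨k, _, fun x => σ (T x), hT.isOpen_inter_preimage hN isOpen_interior (t := interior O),
    ⟨⟨hO.mem a, hk⟩, mem_interior_iff_mem_nhds.2 h1⟩, fun x hx => hx.1.1,
    h2.comp (hT.mono inter_subset_left) fun x hx => interior_subset hx.2,
    fun x hx => ⟨hx.1.2, ?_⟩⟩
  rw [e]
  exact h3 _ (interior_subset hx.2)

theorem Df_inv (hI : Invol C X o s sp Γ S) (x : X) : (Df X X s x).IsInvertible := by
  have h : ∀ x, (Df X X s (s x)).comp (Df X X s x) = ContinuousLinearMap.id ℝ E4 := fun x => by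
    rw [← Df_comp (hI.sm x trivial) (hI.sm (s x) trivial), show (fun x => s (s x)) = fun x => x from
      funext hI.inv, Df_id]
  have h2 := h (s x)
  rw [hI.inv] at h2
  exact .of_inverse h2 (h x)

end Red

open Red in
theorem red (hC : CentStmt) : RedStmt := by
  intro C X o s sp Γ S V θ hI hO
  choose k U h u1 u2 u3 u4 u5 using lifts hI hO
  have iθ : ∀ a, ∀ x ∈ U a, (θ a x).IsInvertible := fun a x hx => (hO.cof a x (u3 a hx)).2
  have iΘ : ∀ a, ∀ x ∈ U a, (sp.Θ (k a) (x, 0)).IsInvertible := fun a x hx =>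
    (sp.cof _ _ (u5 a x hx).1).2
  have hi : ∀ a, ∀ x ∈ U a, C.π (h a x)⁻¹ = tm (sp.Θ (k a) (x, 0)) (cf5 (θ a x)) := fun a x hx =>
    pi_inv (cf5_inv (iθ a x hx)) (iΘ a x hx) (u5 a x hx).2
  have e1 : ∀ a b x, ∃ p q : ℍ, x ∈ U a ∩ U b →
      C.j (p, q) = h a x * sp.g (k a) (k b) (x, 0) * (h b x)⁻¹ ∧ ‖p‖ = 1 ∧ ‖q‖ = 1 ∧
        ∀ v, θ a x v = p * θ b x v * star q := fun a b x => by
    by_cases hx : x ∈ U a ∩ U b
    · obtain ⟨p, q, hp⟩ := ex hC (m := h a x * sp.g (k a) (k b) (x, 0) * (h b x)⁻¹) (iθ b x hx.2)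
        (by rw [map_mul, map_mul, (u5 a x hx.1).2, hi b x hx.2,
          sp.proj _ _ _ ⟨(u5 a x hx.1).1, (u5 b x hx.2).1⟩, tm_mul (iΘ a x hx.1),
          tm_mul (iΘ b x hx.2)]) (hO.iso a b x ⟨u3 a hx.1, u3 b hx.2⟩)
      exact ⟨p, q, fun _ => hp⟩
    · exact ⟨0, 0, fun h => (hx h).elim⟩
  have e2 : ∀ a b x, ∃ p q : ℍ, x ∈ U a → s x ∈ U b →
      C.j (p, q) = h b (s x) * Γ (k a) (k b) x * (h a x)⁻¹ ∧ ‖p‖ = 1 ∧ ‖q‖ = 1 ∧
        ∀ v, θ b (s x) (Df X X s x v) = p * θ a x v * star q := fun a b x => by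
    by_cases hx : x ∈ U a ∧ s x ∈ U b
    · have hL := (inv_prodMap (Df_inv hI x) (id_inv (V := ℝ))).1
      obtain ⟨p, q, hp⟩ := ex hC (m := h b (s x) * Γ (k a) (k b) x * (h a x)⁻¹)
        (α := (θ b (s x)).comp (Df X X s x)) (iθ a x hx.1)
        (by rw [map_mul, map_mul, (u5 b _ hx.2).2, hi a x hx.1,
          hI.proj _ _ _ (u5 a x hx.1).1 (u5 b _ hx.2).1, ← tm_comp hL,
          tm_mul ((iΘ b _ hx.2).comp hL), tm_mul (iΘ a x hx.1), cf5_comp])
        (hO.inv a b x (u3 a hx.1) (u3 b hx.2))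
      exact ⟨p, q, fun _ _ => hp⟩
    · exact ⟨0, 0, fun h h' => (hx ⟨h, h'⟩).elim⟩
  choose p q hp using e1
  choose P Q hP using e2
  have cs : Continuous s := continuous_iff_continuousAt.2 fun x => (hI.sm x trivial).cont
  have c0 : Continuous fun x : X => ((x, 0) : X.cyl) := continuous_id.prodMk continuous_const
  refine ⟨U, p, q, P, Q, ⟨u1, u2, fun a => (hO.cof a).mono (u3 a),
    fun a x hx => hO.pos a x (u3 a hx), fun a b x hx => hO.iso a b x ⟨u3 a hx.1, u3 b hx.2⟩,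
    fun a b x h1 h2 => hO.inv a b x (u3 a h1) (u3 b h2)⟩, fun a b x hx => (hp a b x hx).2,
    fun a b c x hx => ?_, fun a b => ?_, fun a b x h1 h2 => (hP a b x h1 h2).2, fun a b => ?_,
    fun a a' b b' x h1 h2 => ?_, fun a b x h1 h2 => ?_, fun x hx a ha => ?_⟩
  · obtain ⟨a1, a2, a3, -⟩ := hp a b x hx.1
    obtain ⟨b1, b2, b3, -⟩ := hp b c x ⟨hx.1.2, hx.2⟩
    obtain ⟨c1, c2, c3, -⟩ := hp a c x ⟨hx.1.1, hx.2⟩
    have := mul4 hC a2 a3 b2 b3 c2 c3 norm_one norm_one (C := C) (by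
      rw [a1, b1, c1, j_one, mul_one,
        ← sp.coc _ (k b) _ _ ⟨⟨(u5 a x hx.1.1).1, (u5 b x hx.1.2).1⟩, (u5 c x hx.2).1⟩]
      group)
    simpa only [mul_one] using this
  · refine (hC C).2.2.2 X _ (p a b) (q a b) (fun x hx => ⟨(hp a b x hx).2.1, (hp a b x hx).2.2.1⟩)
      (ContinuousOn.congr ?_ fun x hx => (hp a b x hx).1)
    exact (((u4 a).mono inter_subset_left).mul ((sp.cont _ _).comp c0.continuousOn
      fun x hx => ⟨(u5 a x hx.1).1, (u5 b x hx.2).1⟩)).mul ((u4 b).mono inter_subset_right).inv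
  · refine (hC C).2.2.2 X _ (P a b) (Q a b)
      (fun x hx => ⟨(hP a b x hx.1 hx.2).2.1, (hP a b x hx.1 hx.2).2.2.1⟩)
      (ContinuousOn.congr ?_ fun x hx => (hP a b x hx.1 hx.2).1)
    exact (((u4 b).comp cs.continuousOn fun x hx => hx.2).mul ((hI.cont _ _).mono
      fun x hx => ⟨(u5 a x hx.1).1, (u5 b _ hx.2).1⟩)).mul ((u4 a).mono inter_subset_left).inv
  · obtain ⟨a1, a2, a3, -⟩ := hP a b x h1.1 h2.1
    obtain ⟨b1, b2, b3, -⟩ := hp a a' x h1
    obtain ⟨c1, c2, c3, -⟩ := hp b b' (s x) h2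
    obtain ⟨d1, d2, d3, -⟩ := hP a' b' x h1.2 h2.2
    refine mul4 hC a2 a3 b2 b3 c2 c3 d2 d3 (C := C) ?_
    have := hI.nat (k a) (k b) (k a') (k b') x (u5 a x h1.1).1 (u5 b _ h2.1).1 (u5 a' x h1.2).1
      (u5 b' _ h2.2).1
    rw [a1, b1, c1, d1, eq_mul_inv_of_mul_eq this]
    group
  · obtain ⟨a1, a2, a3, -⟩ := hP b a (s x) h2 (by rwa [hI.inv])
    obtain ⟨b1, b2, b3, -⟩ := hP a b x h1 h2
    have := mul4 hC a2 a3 b2 b3 norm_one norm_one norm_one norm_one (C := C) (by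
      rw [a1, b1, j_one, hI.inv,
        eq_inv_of_mul_eq_one_left (hI.sq (k a) (k b) x (u5 a x h1).1 (u5 b _ h2).1)]
      group)
    simpa only [mul_one] using this
  · have hs := (hI.fix x).2 hx
    obtain ⟨a1, a2, a3, -⟩ := hP a a x ha (by rwa [hs])
    obtain ⟨i, θ', h', b1, b2, b3, b4⟩ := hI.lift x hx
    have c1 := hI.nat (k a) (k a) i i x (u5 a x ha).1 (by rw [hs]; exact (u5 a x ha).1) b1
      (by rwa [hs])
    have c2 := (hC C).1 (h a x * sp.g (k a) i (x, 0) * h') ((θ a x).comp θ'.inverse) fun v t => by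
      rw [map_mul, map_mul, (u5 a x ha).2, b3, sp.proj _ _ _ ⟨(u5 a x ha).1, b1⟩,
        tm_mul (iΘ a x ha), tm_mul (sp.cof _ _ b1).2, tm_cf5 _ b2]
      rfl
    refine (hC C).2.1 _ _ _ _ a2 a3 norm_one (by rw [norm_neg, norm_one]) ?_
    rw [a1, ← c2, eq_mul_inv_of_mul_eq c1, b4, hs]
    group

end Pool.Agent.MP_e1dc65_gt.A

end
end MrgPart6

-- ======== part 7: formerly Pool.Agent.MP_e1dc65_gt.a.Reg
section MrgPart7

/-! PROJECT HC, part A: elliptic regularity on a closed manifold from the local statement. -/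

set_option maxSynthPendingDepth 3

open scoped Quaternion ContDiff Topology RealInnerProductSpace
open Set Filter MeasureTheory Metric

noncomputable section

namespace Pool.Agent.MP_e1dc65_gt.A

namespace Reg

/-- the Dirac operator is local -/
theorem dir_zero (R : Loc) (κ : Tw) {φ : E4 → W} {K : Set E4} (hK : IsClosed K)
    (h : ∀ y ∉ K, φ y = 0) : ∀ y ∉ K, R.dir κ φ y = 0 := by
  intro y hy
  have h1 : φ =ᶠ[𝓝 y] fun _ => 0 := by
    filter_upwards [hK.isOpen_compl.mem_nhds hy] with z hz using h z hz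
  have h2 : fderiv ℝ φ y = 0 := by rw [h1.fderiv_eq]; simp
  simp [Loc.dir, cov, h2, h y hy]

/-- pairing of an `L²` class with a smooth section -/
theorem inner_j {X : Sp} {G : Geo X} {κ : Tw} {j : G.Sec κ →ₗ[ℝ] Lp W 2 G.μ}
    {D Γ : G.Sec κ →ₗ[ℝ] G.Sec κ} (hI : G.Inst κ j D Γ) (f : Lp W 2 G.μ) (s : G.Sec κ) :
    ⟪f, j s⟫ = G.ip f s := by
  rw [L2.inner_def]
  refine integral_congr_ae ?_
  filter_upwards [hI.j s] with x hx
  rw [hx]

/-- the weak equation read in a chart -/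
theorem weak (h1 : SecStmt) (h2 : IntStmt) (h5 : WeitzStmt) {X : Sp} {G : Geo X} {κ : Tw}
    (hA : G.Adm κ) {j : G.Sec κ →ₗ[ℝ] Lp W 2 G.μ} {D Γ : G.Sec κ →ₗ[ℝ] G.Sec κ}
    (hI : G.Inst κ j D Γ) (a b : Lp W 2 G.μ) (hab : ∀ φ, ⟪a, j (D (D φ))⟫ = ⟪b, j φ⟫)
    (i : Fin G.n) (φ : E4 → W) (hφ : ContDiff ℝ ∞ φ) (hc : HasCompactSupport φ)
    (hT : tsupport φ ⊆ G.T i) :
    ∫ y in G.T i, ⟪jac ((G.R i).θ y) • G.lc κ i a y, ((G.R i).lap κ).ap φ y⟫ =
      ∫ y in G.T i, ⟪jac ((G.R i).θ y) • G.lc κ i b y, φ y⟫ := by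
  obtain ⟨-, -, -, -, -, s6, -⟩ := h1 X G κ hA
  obtain ⟨-, -, -, -, -, i6⟩ := h2 X G κ hA
  obtain ⟨-, w2, w3⟩ := h5 (G.R i) (G.T i) κ (hA.loc i)
  have := hA.fin
  have hai : Integrable (a : X → W) G.μ := (Lp.memLp a).integrable (by norm_num)
  have hbi : Integrable (b : X → W) G.μ := (Lp.memLp b).integrable (by norm_num)
  have hK : IsCompact (tsupport φ) := hc
  have z0 : ∀ y ∉ tsupport φ, φ y = 0 := fun y hy => image_eq_zero_of_notMem_tsupport hy
  have z1 := dir_zero (G.R i) κ hK.isClosed z0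
  have z2 := dir_zero (G.R i) κ hK.isClosed z1
  have c1 : ∀ y ∈ G.T i, ContDiffAt ℝ ∞ ((G.R i).dir κ φ) y :=
    fun y hy => w2 φ y hy hφ.contDiffAt
  have c2 : ∀ y ∈ G.T i, ContDiffAt ℝ ∞ ((G.R i).dir κ ((G.R i).dir κ φ)) y :=
    fun y hy => w2 _ y hy (c1 y hy)
  obtain ⟨m0, d0⟩ := s6 i φ _ hK hT z0 hφ.contDiffOn
  obtain ⟨-, d1⟩ := s6 i _ _ hK hT z1 fun y hy => (c1 y hy).contDiffWithinAt
  have e := hab ⟨_, m0⟩
  rw [inner_j hI, inner_j hI, hI.D, hI.D] at e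
  simp only [] at e
  rw [d0, d1, i6 _ hai i _ _ hK hT z2 fun y hy => (c2 y hy).continuousAt.continuousWithinAt,
    i6 _ hbi i _ _ hK hT z0 hφ.continuous.continuousOn] at e
  simp only [real_inner_smul_left]
  rw [← e]
  refine setIntegral_congr_fun (G.ch i).open_target.measurableSet fun y hy => ?_
  simp only [w3 φ y hy hφ.contDiffAt]

/-- a smooth representative near every point -/
theorem local_rep (h1 : SecStmt) (h2 : IntStmt) (h5 : WeitzStmt) (h6 : SymStmt) (h7 : RlStmt)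
    {X : Sp} {G : Geo X} {κ : Tw} (hA : G.Adm κ) {j : G.Sec κ →ₗ[ℝ] Lp W 2 G.μ}
    {D Γ : G.Sec κ →ₗ[ℝ] G.Sec κ} (hI : G.Inst κ j D Γ) (u : ℕ → Lp W 2 G.μ)
    (hu : ∀ n φ, ⟪u n, j (D (D φ))⟫ = ⟪u (n + 1), j φ⟫) (i : Fin G.n) (y₀ : E4)
    (hy₀ : y₀ ∈ G.T i) : ∃ r > 0, ∃ v : E4 → W,
      (∀ y ∈ G.T i, y ∈ ball y₀ r → ContDiffAt ℝ ∞ v y) ∧
      ∀ᵐ x ∂G.μ, x ∈ G.U i → G.ch i x ∈ ball y₀ r → G.lc κ i (u 0) (G.ch i x) = v (G.ch i x) := by
  obtain ⟨-, -, i3, -, i5, -⟩ := h2 X G κ hA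
  obtain ⟨w1, -, -⟩ := h5 (G.R i) (G.T i) κ (hA.loc i)
  obtain ⟨j1, j2, -⟩ := h6 (G.R i) (G.T i) κ (hA.loc i)
  have := hA.fin
  obtain ⟨r, hr, v, hv, he⟩ := h7 _ _ w1 y₀ hy₀
    (fun n y => jac ((G.R i).θ y) • G.lc κ i (u n) y)
    (fun n K hKT hK => i5 _ ((Lp.memLp (u n)).integrable (by norm_num)) i K hKT hK)
    fun n φ hφ hc hT => weak h1 h2 h5 hA hI _ _ (hu n) i φ hφ hc hT
  refine ⟨r, hr, fun y => (jac ((G.R i).θ y))⁻¹ • v y, fun y hy hb => ?_, ?_⟩
  · exact ((j1.contDiffAt ((G.ch i).open_target.mem_nhds hy)).inv (j2 y hy).ne').smul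
      (hv.contDiffAt (isOpen_ball.mem_nhds hb))
  · refine (i3 i fun x => G.ch i x ∈ ball y₀ r →
      G.lc κ i (u 0) (G.ch i x) = (jac ((G.R i).θ (G.ch i x)))⁻¹ • v (G.ch i x)).1 ?_
    filter_upwards [he] with y hy hT
    rw [(G.ch i).right_inv hT]
    intro hb
    rw [← hy hb, smul_smul, inv_mul_cancel₀ (j2 y hT).ne', one_smul]

/-- cutting off a local representative -/
theorem piece (h1 : SecStmt) {X : Sp} {G : Geo X} {κ : Tw} (hA : G.Adm κ) (s : X → W)
    (i : Fin G.n) (B : Set E4) (v : E4 → W) (hv : ∀ y ∈ G.T i, y ∈ B → ContDiffAt ℝ ∞ v y)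
    (he : ∀ᵐ x ∂G.μ, x ∈ G.U i → G.ch i x ∈ B → G.lc κ i s (G.ch i x) = v (G.ch i x))
    (ψ : X → ℝ) (hψ : G.SmF ψ) (hs : tsupport ψ ⊆ G.U i ∩ G.ch i ⁻¹' B) :
    ∃ σ ∈ G.Sec κ, ∀ᵐ x ∂G.μ, σ x = ψ x • s x := by
  obtain ⟨-, -, -, s4, -, s6, -⟩ := h1 X G κ hA
  have hU : tsupport ψ ⊆ G.U i := fun x hx => (hs hx).1
  have hK : IsCompact (G.ch i '' tsupport ψ) :=
    (isClosed_tsupport ψ).isCompact.image_of_continuousOn ((G.ch i).continuousOn.mono hU)
  have hKT : G.ch i '' tsupport ψ ⊆ G.T i := by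
    rintro _ ⟨x, hx, rfl⟩
    exact (G.ch i).map_source (hU hx)
  have hz : ∀ y ∈ G.T i, y ∉ G.ch i '' tsupport ψ → ψ ((G.ch i).symm y) = 0 := fun y hy hn =>
    image_eq_zero_of_notMem_tsupport fun h => hn ⟨_, h, (G.ch i).right_inv hy⟩
  let w : E4 → W := (G.ch i '' tsupport ψ).indicator fun y => ψ ((G.ch i).symm y) • v y
  have w0 : ∀ y ∉ G.ch i '' tsupport ψ, w y = 0 := fun y hy => indicator_of_notMem hy _
  have w1 : ∀ y ∈ G.T i, w y = ψ ((G.ch i).symm y) • v y := by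
    intro y hy
    by_cases h : y ∈ G.ch i '' tsupport ψ
    · exact indicator_of_mem h _
    · rw [w0 y h, hz y hy h, zero_smul]
  have wc : ContDiffOn ℝ ∞ w (G.T i) := by
    intro y hy
    by_cases h : y ∈ G.ch i '' tsupport ψ
    · obtain ⟨x, hx, rfl⟩ := h
      exact ((hψ i _ hy).smul (hv _ hy (hs hx).2).contDiffWithinAt).congr w1 (w1 _ hy)
    · have : w =ᶠ[𝓝 y] fun _ => 0 := by
        filter_upwards [hK.isClosed.isOpen_compl.mem_nhds h] with z hz using w0 z hz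
      exact (contDiffAt_const.congr_of_eventuallyEq this).contDiffWithinAt
  refine ⟨_, (s6 i w _ hK hKT w0 wc).1, ?_⟩
  filter_upwards [he] with x hx
  by_cases hx0 : x ∈ tsupport ψ
  · have hxU := hU hx0
    have e := s4 s i x hxU
    simp only [Geo.ext, if_pos hxU] at e ⊢
    rw [w1 _ ((G.ch i).map_source hxU), (G.ch i).left_inv hxU, map_smul, ← hx hxU (hs hx0).2, e]
  · rw [image_eq_zero_of_notMem_tsupport hx0, zero_smul]
    by_cases hxU : x ∈ G.U i
    · simp only [Geo.ext, if_pos hxU]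
      rw [w1 _ ((G.ch i).map_source hxU), (G.ch i).left_inv hxU,
        image_eq_zero_of_notMem_tsupport hx0, zero_smul, map_zero]
    · simp only [Geo.ext, if_neg hxU]

end Reg

theorem regS (h1 : SecStmt) (h2 : IntStmt) (h3 : InstStmt) (h4 : PouStmt) (h5 : WeitzStmt)
    (h6 : SymStmt) (h7 : RlStmt) : RegStmt := by
  intro X G κ hA j D Γ hI u hu
  have hm := hA.mem
  choose r hr v hv he using fun x : X => Reg.local_rep h1 h2 h5 h6 h7 hA hI u hu (G.c x)
    (G.ch (G.c x) x) ((G.ch (G.c x)).map_source (hm x))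
  obtain ⟨F, ψ, hψ, hsum⟩ := h4 X G hA.toOk.toOk0
    (fun x => G.U (G.c x) ∩ G.ch (G.c x) ⁻¹' ball (G.ch (G.c x) x) (r x)) fun x =>
      inter_mem ((G.ch (G.c x)).open_source.mem_nhds (hm x))
        (((G.ch (G.c x)).continuousAt (hm x)).preimage_mem_nhds (ball_mem_nhds _ (hr x)))
  choose σ hσ hae using fun x : X => Reg.piece h1 hA (u 0) (G.c x) _ (v x) (hv x) (he x) (ψ x)
    (hψ x).1 (hψ x).2.2.1
  refine ⟨⟨∑ x ∈ F, σ x, Submodule.sum_mem _ fun x _ => hσ x⟩, Lp.ext ((hI.j _).trans ?_)⟩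
  have hall : ∀ᵐ y ∂G.μ, ∀ x ∈ F, σ x y = ψ x y • (u 0 : X → W) y :=
    (eventually_all_finset F).2 fun x _ => hae x
  filter_upwards [hall] with y hy
  simp only [Finset.sum_apply]
  rw [Finset.sum_congr rfl hy, ← Finset.sum_smul, hsum, one_smul]

end Pool.Agent.MP_e1dc65_gt.A

end
end MrgPart7

-- ======== part 8: formerly Pool.Agent.MP_e1dc65_gt.a.Res
section MrgPart8

/-! PROJECT HC, part A: the resolvent of a symmetric elliptic operator is compact. -/

set_option maxSynthPendingDepth 3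

open scoped Topology RealInnerProductSpace
open Set Filter Metric

noncomputable section

namespace Pool.Agent.MP_e1dc65_gt.A

namespace Res

section
variable {H : Type} [NormedAddCommGroup H] [InnerProductSpace ℝ H]

/-- a maximal family of vectors with large image -/
theorem maximal (R : Submodule ℝ H) (T : H →L[ℝ] H) (ε : ℝ) (m₀ : ℕ)
    (h : ∀ v : Fin m₀ → H, (∀ i, v i ∈ R) → Orthonormal ℝ v → ∃ i, ‖T (v i)‖ ≤ ε) :
    ∃ (m : ℕ) (v : Fin m → H), (∀ i, v i ∈ R) ∧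
      ∀ w ∈ R, ‖w‖ = 1 → (∀ i, ⟪w, v i⟫ = 0) → ‖T w‖ ≤ ε := by
  by_contra hc
  push Not at hc
  have key : ∀ m : ℕ, ∃ v : Fin m → H, (∀ i, v i ∈ R) ∧ Orthonormal ℝ v ∧ ∀ i, ε < ‖T (v i)‖ := by
    intro m
    induction m with
    | zero => exact ⟨fun i => i.elim0, fun i => i.elim0, Orthonormal.of_isEmpty _, fun i => i.elim0⟩
    | succ m ih =>
      obtain ⟨v, hv, ho, hε⟩ := ih
      obtain ⟨w, hw, h1, h2, h3⟩ := hc m v hv
      refine ⟨Matrix.vecCons w v, ?_, orthonormal_vecCons_iff.2 ⟨h1, h2, ho⟩, ?_⟩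
      · intro i
        refine Fin.cases ?_ (fun i => ?_) i
        · simpa using hw
        · simpa using hv i
      · intro i
        refine Fin.cases ?_ (fun i => ?_) i
        · simpa using h3
        · simpa using hε i
  obtain ⟨v, hv, ho, hε⟩ := key m₀
  obtain ⟨i, hi⟩ := h v hv ho
  exact absurd (hε i) (not_lt.2 hi)

theorem approx (R : Submodule ℝ H) (hR : Dense (R : Set H)) (T : H →L[ℝ] H) (ε : ℝ) (hε : 0 ≤ ε)
    (m : ℕ) (v : Fin m → H) (hv : ∀ i, v i ∈ R)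
    (h : ∀ w ∈ R, ‖w‖ = 1 → (∀ i, ⟪w, v i⟫ = 0) → ‖T w‖ ≤ ε) :
    ∃ K : H →L[ℝ] H, IsCompactOperator K ∧ ‖T - K‖ ≤ ε := by
  let F : Submodule ℝ H := Submodule.span ℝ (range v)
  have : FiniteDimensional ℝ F := FiniteDimensional.span_of_finite ℝ (finite_range v)
  have : ProperSpace F := FiniteDimensional.proper ℝ F
  have hFR : F ≤ R := Submodule.span_le.2 (by rintro _ ⟨i, rfl⟩; exact hv i)
  refine ⟨T ∘L F.starProjection, ?_, ?_⟩
  · have h1 : IsCompactOperator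
        (ContinuousLinearMap.codRestrict F.starProjection F (F.starProjection_apply_mem)) :=
      isCompactOperator_of_locallyCompactSpace_dom _
    have h2 := h1.clm_comp (T ∘L F.subtypeL)
    exact h2
  · have h0 : ∀ w ∈ R, (∀ i, ⟪w, v i⟫ = 0) → ‖T w‖ ≤ ε * ‖w‖ := by
      intro w hw h2
      by_cases h3 : w = 0
      · simp [h3]
      have h4 : 0 < ‖w‖ := norm_pos_iff.2 h3
      have h5 := h (‖w‖⁻¹ • w) (R.smul_mem _ hw) (norm_smul_inv_norm h3)
        (fun i => by rw [real_inner_smul_left, h2 i, mul_zero])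
      rw [map_smul, norm_smul, norm_inv, norm_norm, inv_mul_le_iff₀ h4] at h5
      linarith [mul_comm ε ‖w‖]
    refine ContinuousLinearMap.opNorm_le_bound _ hε fun f => ?_
    refine hR.induction (P := fun f => ‖(T - T ∘L F.starProjection) f‖ ≤ ε * ‖f‖) ?_ ?_ f
    · intro f hf
      have h1 : (T - T ∘L F.starProjection) f = T (f - F.starProjection f) := by simp
      rw [h1]
      have h2 : ‖f - F.starProjection f‖ ≤ ‖f‖ := by
        rw [← F.starProjection_orthogonal_val]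
        exact Submodule.norm_starProjection_apply_le _ f
      refine (h0 _ (R.sub_mem hf (hFR (F.starProjection_apply_mem f))) fun i => ?_).trans
        (mul_le_mul_of_nonneg_left h2 hε)
      exact F.starProjection_inner_eq_zero f _ (Submodule.subset_span ⟨i, rfl⟩)
    · exact isClosed_le (by fun_prop) (by fun_prop)

/-- compactness criterion -/
theorem compact_of [CompleteSpace H] (R : Submodule ℝ H) (hR : Dense (R : Set H)) (T : H →L[ℝ] H)
    (h : ∀ ε : ℝ, 0 < ε → ∃ m₀ : ℕ, ∀ v : Fin m₀ → H, (∀ i, v i ∈ R) → Orthonormal ℝ v →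
      ∃ i, ‖T (v i)‖ ≤ ε) : IsCompactOperator T := by
  have h1 : T ∈ closure {K : H →L[ℝ] H | IsCompactOperator K} := by
    refine Metric.mem_closure_iff.2 fun ε hε => ?_
    obtain ⟨m₀, h2⟩ := h (ε / 2) (by linarith)
    obtain ⟨m, v, hv, h3⟩ := maximal R T _ m₀ h2
    obtain ⟨K, hK, h4⟩ := approx R hR T (ε / 2) (by linarith) m v hv h3
    exact ⟨K, hK, by rw [dist_eq_norm]; linarith⟩
  rwa [isClosed_setOfPred_isCompactOperator.closure_eq] at h1

theorem pow_four (T : H →L[ℝ] H) (hs : ∀ u v, ⟪T u, v⟫ = ⟪u, T v⟫) (f : H) (hf : ‖f‖ = 1) :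
    ‖T f‖ ^ 4 ≤ ‖T (T (T (T f)))‖ := by
  have h1 : ‖T f‖ ^ 2 ≤ ‖T (T f)‖ := by
    rw [← real_inner_self_eq_norm_sq, hs]
    simpa [hf] using real_inner_le_norm f (T (T f))
  have h2 : ‖T (T f)‖ ^ 2 ≤ ‖T (T (T (T f)))‖ := by
    rw [← real_inner_self_eq_norm_sq, hs, hs]
    simpa [hf] using real_inner_le_norm f (T (T (T (T f))))
  have h3 : (‖T f‖ ^ 2) ^ 2 ≤ ‖T (T f)‖ ^ 2 := pow_le_pow_left₀ (sq_nonneg _) h1 2
  calc ‖T f‖ ^ 4 = (‖T f‖ ^ 2) ^ 2 := by ring
    _ ≤ _ := h3.trans h2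

end

section
variable {S H : Type} [AddCommGroup S] [Module ℝ S] [NormedAddCommGroup H] [InnerProductSpace ℝ H]

/-- the projection onto the closed graph -/
theorem exists_T [CompleteSpace H] (j : S →ₗ[ℝ] H) (D : S →ₗ[ℝ] S)
    (hsym : ∀ φ ψ, ⟪j (D φ), j ψ⟫ = ⟪j φ, j (D ψ)⟫) :
    ∃ T : H →L[ℝ] H, (∀ u v, ⟪T u, v⟫ = ⟪u, T v⟫) ∧
      (∀ f φ, ⟪T f, j (φ + D (D φ))⟫ = ⟪f, j φ⟫) ∧ (∀ f, ‖T f‖ ≤ ‖f‖) ∧ ∀ f, ‖f - T f‖ ≤ ‖f‖ := by
  let G : S →ₗ[ℝ] WithLp 2 (H × H) :=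
    (WithLp.linearEquiv 2 ℝ (H × H)).symm.toLinearMap ∘ₗ (j.prod (j ∘ₗ D))
  have hG : ∀ φ, G φ = WithLp.toLp 2 (j φ, j (D φ)) := fun φ => rfl
  let Gr : Submodule ℝ (WithLp 2 (H × H)) := (LinearMap.range G).topologicalClosure
  have : CompleteSpace Gr := (Submodule.isClosed_topologicalClosure _).completeSpace_coe
  let ι : H →L[ℝ] WithLp 2 (H × H) :=
    (WithLp.prodContinuousLinearEquiv 2 ℝ H H).symm.toContinuousLinearMap ∘L
      ContinuousLinearMap.inl ℝ H H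
  have hι : ∀ f, ι f = WithLp.toLp 2 (f, 0) := fun f => rfl
  have hιn : ∀ f, ‖ι f‖ = ‖f‖ := fun f => by rw [hι]; simp
  have hιi : ∀ (z : WithLp 2 (H × H)) (f : H), ⟪z, ι f⟫ = ⟪z.fst, f⟫ := fun z f => by
    rw [hι, WithLp.prod_inner_apply]; simp
  have hGr : ∀ z ∈ Gr, ∀ ψ, ⟪z.fst, j (D ψ)⟫ = ⟪z.snd, j ψ⟫ := by
    intro z hz ψ
    have hz' : z ∈ closure (LinearMap.range G : Set (WithLp 2 (H × H))) := hz
    refine closure_minimal (t := {z : WithLp 2 (H × H) | ⟪z.fst, j (D ψ)⟫ = ⟪z.snd, j ψ⟫}) ?_ ?_ hz'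
    · rintro _ ⟨φ, rfl⟩
      simp only [mem_ofPred_eq, hG]
      exact (hsym φ ψ).symm
    · exact isClosed_eq (by fun_prop) (by fun_prop)
  refine ⟨WithLp.fstL 2 ℝ H H ∘L Gr.starProjection ∘L ι, fun u v => ?_, fun f φ => ?_,
    fun f => ?_, fun f => ?_⟩
  · show ⟪(Gr.starProjection (ι u)).fst, v⟫ = ⟪u, (Gr.starProjection (ι v)).fst⟫
    rw [← hιi, Submodule.inner_starProjection_left_eq_right, real_inner_comm, hιi, real_inner_comm]
  · show ⟪(Gr.starProjection (ι f)).fst, j (φ + D (D φ))⟫ = _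
    have h1 := hGr _ (Gr.starProjection_apply_mem (ι f)) (D φ)
    have h2 := Gr.starProjection_inner_eq_zero (ι f) (G φ)
      (Submodule.le_topologicalClosure _ ⟨φ, rfl⟩)
    have h3 : ⟪ι f, G φ⟫ = ⟪f, j φ⟫ := by rw [real_inner_comm, hιi, real_inner_comm]; rfl
    rw [inner_sub_left, h3, hG, WithLp.prod_inner_apply] at h2
    rw [map_add, inner_add_right, h1]
    exact (sub_eq_zero.1 h2).symm
  · show ‖(Gr.starProjection (ι f)).fst‖ ≤ _
    exact (WithLp.norm_fst_le _ _).trans ((Gr.norm_starProjection_apply_le _).trans (hιn f).le)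
  · show ‖(ι f - Gr.starProjection (ι f)).fst‖ ≤ _
    refine (WithLp.norm_fst_le _ _).trans ?_
    rw [← Gr.starProjection_orthogonal_val]
    exact (Submodule.norm_starProjection_apply_le _ _).trans (hιn f).le

/-- the resolvent preserves smooth sections -/
theorem exists_tau {j : S →ₗ[ℝ] H} {D : S →ₗ[ℝ] S} (hE : Ell j D) (T : H →L[ℝ] H)
    (hT : ∀ f φ, ⟪T f, j (φ + D (D φ))⟫ = ⟪f, j φ⟫) :
    ∃ τ : S →ₗ[ℝ] S, (∀ φ, j (τ φ) = T (j φ)) ∧ ∀ φ, D (D (τ φ)) = φ - τ φ := by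
  have hL : ∀ φ ψ, ⟪j (D (D φ)), j ψ⟫ = ⟪j φ, j (D (D ψ))⟫ := fun φ ψ => by
    rw [hE.sym, hE.sym]
  have h1 : ∀ φ, ∃ χ, j χ = T (j φ) := by
    intro φ
    obtain ⟨u, hu0, hu⟩ : ∃ u : ℕ → H, u 0 = T (j φ) ∧
        ∀ n, u (n + 1) = j (((D ∘ₗ D) ^ n) φ) - u n :=
      ⟨fun n => Nat.rec (T (j φ)) (fun n x => j (((D ∘ₗ D) ^ n) φ) - x) n, rfl, fun n => rfl⟩
    rw [← hu0]
    refine hE.reg u fun n => ?_
    induction n with
    | zero =>
      intro ψ
      have := hT (j φ) ψ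
      rw [map_add, inner_add_right] at this
      rw [hu, hu0, inner_sub_left, pow_zero, Module.End.one_apply]
      linarith
    | succ n ih =>
      intro ψ
      have e1 : ⟪u (n + 1 + 1), j ψ⟫ = ⟪j (D (D (((D ∘ₗ D) ^ n) φ))), j ψ⟫ - ⟪u (n + 1), j ψ⟫ := by
        rw [hu (n + 1), inner_sub_left, pow_succ', Module.End.mul_apply]
        rfl
      rw [e1, ← ih ψ, hu n, inner_sub_left, hL]
  choose τ hτ using h1
  refine ⟨⟨⟨τ, fun a b => hE.inj ?_⟩, fun c a => hE.inj ?_⟩, hτ, fun φ => hE.inj ?_⟩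
  · simp [hτ]
  · simp [hτ]
  · show j (D (D (τ φ))) = j (φ - τ φ)
    rw [← sub_eq_zero]
    have h2 : ∀ w, ⟪j (D (D (τ φ))) - j (φ - τ φ), w⟫ = 0 := by
      intro w
      refine hE.dense.induction_on (p := fun w => ⟪j (D (D (τ φ))) - j (φ - τ φ), w⟫ = 0) w
        (isClosed_eq (by fun_prop) (by fun_prop)) fun ψ => ?_
      have := hT (j φ) ψ
      rw [map_add, inner_add_right, ← hτ] at this
      rw [map_sub, inner_sub_left, inner_sub_left, hL]
      linarith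
    exact inner_self_eq_zero.1 (h2 _)

theorem norm_sum_on {m : ℕ} (v : Fin m → H) (hv : Orthonormal ℝ v) (a : Fin m → ℝ) :
    ‖∑ n, a n • v n‖ = √(∑ n, a n ^ 2) := by
  rw [← Real.sqrt_sq (norm_nonneg (∑ n, a n • v n)), ← real_inner_self_eq_norm_sq,
    hv.inner_sum]
  simp [sq]

end

end Res

open Res in
theorem res : ResStmt := by
  intro S H _ _ _ _ _ j D hE
  obtain ⟨T, hs, hT, hn, hn'⟩ := exists_T j D hE.sym
  refine ⟨T, hs, hT, ?_⟩
  obtain ⟨τ, hτ, hD⟩ := exists_tau hE T hT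
  obtain ⟨C, hC⟩ := hE.hs
  have hL : ∀ φ, (D ∘ₗ D) (τ φ) = φ - τ φ := hD
  have hb : ∀ φ, ∑ i ∈ Finset.range 4, ‖j (((D ∘ₗ D) ^ i) (τ (τ (τ (τ φ)))))‖ ≤ 4 * ‖j φ‖ := by
    intro φ
    have a1 : ∀ ψ, ‖j (τ ψ)‖ ≤ ‖j ψ‖ := fun ψ => by rw [hτ]; exact hn _
    have a2 : ∀ ψ, ‖j (ψ - τ ψ)‖ ≤ ‖j ψ‖ := fun ψ => by rw [map_sub, hτ]; exact hn' _
    have e1 : (D ∘ₗ D) (τ (τ (τ (τ φ)))) = τ (τ (τ (φ - τ φ))) := by
      rw [hL]; simp
    have e2 : (D ∘ₗ D) (τ (τ (τ (φ - τ φ)))) = τ (τ ((φ - τ φ) - τ (φ - τ φ))) := by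
      rw [hL]; simp
    have e3 : ∀ χ, (D ∘ₗ D) (τ (τ χ)) = τ (χ - τ χ) := fun χ => by
      rw [hL]; simp
    simp only [Finset.sum_range_succ, Finset.range_zero, Finset.sum_empty, zero_add, pow_succ',
      pow_zero, Module.End.mul_apply, Module.End.one_apply]
    rw [e1, e2, e3]
    have b0 : ‖j (τ (τ (τ (τ φ))))‖ ≤ ‖j φ‖ := (a1 _).trans ((a1 _).trans ((a1 _).trans (a1 _)))
    have b1 : ‖j (τ (τ (τ (φ - τ φ))))‖ ≤ ‖j φ‖ :=
      (a1 _).trans ((a1 _).trans ((a1 _).trans (a2 _)))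
    have b2 : ‖j (τ (τ ((φ - τ φ) - τ (φ - τ φ))))‖ ≤ ‖j φ‖ :=
      (a1 _).trans ((a1 _).trans ((a2 _).trans (a2 _)))
    have b3 : ‖j (τ (((φ - τ φ) - τ (φ - τ φ)) - τ ((φ - τ φ) - τ (φ - τ φ))))‖ ≤ ‖j φ‖ :=
      (a1 _).trans ((a2 _).trans ((a2 _).trans (a2 _)))
    linarith
  refine compact_of (LinearMap.range j) hE.dense T fun ε hε => ?_
  obtain ⟨m₀, hm₀⟩ := exists_nat_gt (C / (ε ^ 4 / 4) ^ 2)
  refine ⟨m₀, fun v hv ho => ?_⟩
  choose φ hφ using hv
  by_contra hc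
  push Not at hc
  have h1 := hC m₀ (fun n => (1 / 4 : ℝ) • τ (τ (τ (τ (φ n))))) fun a => by
    have e : ∑ n, a n • (1 / 4 : ℝ) • τ (τ (τ (τ (φ n)))) =
        τ (τ (τ (τ ((1 / 4 : ℝ) • ∑ n, a n • φ n)))) := by
      simp only [map_smul, map_sum, Finset.smul_sum]
      exact Finset.sum_congr rfl fun n _ => smul_comm _ _ _
    rw [e]
    refine (hb _).trans (le_of_eq ?_)
    rw [map_smul, map_sum, norm_smul]
    simp only [map_smul, hφ]
    rw [norm_sum_on v ho]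
    norm_num
    ring
  have h2 : ∀ n, (ε ^ 4 / 4) ^ 2 ≤ ‖j ((1 / 4 : ℝ) • τ (τ (τ (τ (φ n)))))‖ ^ 2 := by
    intro n
    refine pow_le_pow_left₀ (by positivity) ?_ 2
    rw [map_smul, norm_smul, hτ, hτ, hτ, hτ, hφ]
    have h3 := pow_four T hs (v n) (ho.1 n)
    have h4 : ε ^ 4 ≤ ‖T (v n)‖ ^ 4 := pow_le_pow_left₀ hε.le (hc n).le 4
    norm_num
    linarith
  have h5 : (m₀ : ℝ) * (ε ^ 4 / 4) ^ 2 ≤ C := by
    refine le_trans ?_ h1
    simpa using Finset.sum_le_sum fun n (_ : n ∈ Finset.univ) => h2 n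
  rw [div_lt_iff₀ (by positivity)] at hm₀
  linarith

end Pool.Agent.MP_e1dc65_gt.A

end
end MrgPart8

-- ======== part 9: formerly Pool.Agent.MP_e1dc65_gt.a.Sec
section MrgPart9

/-! PROJECT HC, part A, row SEC: sections in charts. -/

set_option maxSynthPendingDepth 3

open scoped Quaternion ContDiff Topology RealInnerProductSpace
open Set Filter MeasureTheory Metric

noncomputable section

namespace Pool.Agent.MP_e1dc65_gt.A

namespace Sec

theorem dir_congr (R : Loc) (κ : Tw) {s s' : E4 → W} {x : E4} (h : s =ᶠ[𝓝 x] s') :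
    R.dir κ s x = R.dir κ s' x := by
  simp only [Loc.dir, cov, h.fderiv_eq, h.eq_of_nhds]

theorem dir_zero (R : Loc) (κ : Tw) (x : E4) : R.dir κ (fun _ => 0) x = 0 := by
  simp [Loc.dir, cov]

variable {X : Sp} {G : Geo X} {κ : Tw}

theorem lc_ch (s : X → W) {i : Fin G.n} {x : X} (hx : x ∈ G.U i) :
    G.lc κ i s (G.ch i x) = G.g κ i (G.c x) x (s x) := by
  simp only [Geo.lc, (G.ch i).left_inv hx]

theorem rd_ch {i : Fin G.n} (j : Fin G.n) {x : X} (hx : x ∈ G.U i) :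
    G.rd id i j (G.ch i x) = G.ch j x := by
  simp only [Geo.rd, id, (G.ch i).left_inv hx]

theorem pull {i : Fin G.n} {x : X} (hx : x ∈ G.U i) {P : X → Prop} (h : ∀ᶠ z in 𝓝 x, P z) :
    ∀ᶠ y in 𝓝 (G.ch i x), y ∈ G.T i ∧ P ((G.ch i).symm y) := by
  have h1 : G.ch i x ∈ G.T i := (G.ch i).map_source hx
  have h2 := (G.ch i).continuousAt_symm h1
  rw [ContinuousAt, (G.ch i).left_inv hx] at h2
  exact (eventually_mem_set.2 ((G.ch i).open_target.mem_nhds h1)).and (h2.eventually h)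

theorem ext_mem {i : Fin G.n} (u : E4 → W) {x : X} (hx : x ∈ G.U i) :
    G.ext κ i u x = G.g κ (G.c x) i x (u (G.ch i x)) := if_pos hx

theorem ext_not {i : Fin G.n} (u : E4 → W) {x : X} (hx : x ∉ G.U i) : G.ext κ i u x = 0 :=
  if_neg hx

end Sec

open Sec in
theorem secS (h1 : CocStmt) (h2 : NatStmt) (h3 : WeitzStmt) : SecStmt := by
  intro X G κ hA
  obtain ⟨c1, c2, c3, c4⟩ := h1 X G κ hA
  have mem := hA.mem
  have c2' : ∀ i j k, ∀ x, x ∈ G.U i → x ∈ G.U j → x ∈ G.U k → ∀ w,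
      G.g κ i j x (G.g κ j k x w) = G.g κ i k x w := fun i j k x a b c w => by
    rw [← c2 i j k x ⟨⟨a, b⟩, c⟩]; rfl
  have c1' : ∀ i, ∀ x ∈ G.U i, ∀ w, G.g κ i i x w = w := fun i x hx w => by rw [c1 i x hx]; rfl
  have a3 : ∀ i (u : E4 → W), ∀ y ∈ G.T i, G.lc κ i (G.ext κ i u) y = u y := fun i u y hy => by
    have hx := (G.ch i).map_target hy
    rw [Geo.lc, ext_mem u hx, c2' _ _ _ _ hx (mem _) hx, c1' _ _ hx, (G.ch i).right_inv hy]
  have a4 : ∀ (s : X → W) i, ∀ x ∈ G.U i, G.ext κ i (G.lc κ i s) x = s x := fun s i x hx => by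
    rw [ext_mem _ hx, lc_ch s hx, c2' _ _ _ _ (mem _) hx (mem _), c1' _ _ (mem _)]
  have tr : ∀ (s : X → W) i j, ∀ x, x ∈ G.U i → x ∈ G.U j →
      G.lc κ i s (G.ch i x) = G.g κ i j x (G.lc κ j s (G.ch j x)) := fun s i j x hi hj => by
    rw [lc_ch s hi, lc_ch s hj, c2' _ _ _ _ hi hj (mem _)]
  have sm : ∀ (s : X → W) i j, ∀ x, x ∈ G.U i → x ∈ G.U j →
      ContDiffAt ℝ ∞ (G.lc κ j s) (G.ch j x) → ContDiffAt ℝ ∞ (G.lc κ i s) (G.ch i x) := by
    intro s i j x hi hj h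
    obtain ⟨-, -, -, -, hg⟩ := c4 i j x ⟨hi, hj⟩
    have b1 : ContDiffAt ℝ ∞ (fun y => G.g κ i j ((G.ch j).symm y) (G.lc κ j s y))
        (G.rd id i j (G.ch i x)) := by
      rw [rd_ch j hi]; exact hg.clm_apply h
    refine (b1.comp _ (hA.sm j i x ⟨hj, hi⟩)).congr_of_eventuallyEq ?_
    filter_upwards [pull hi ((G.ch j).open_source.mem_nhds hj)] with y hy
    have hy' : (G.ch i).symm y ∈ G.U j := hy.2
    have := tr s i j _ ((G.ch i).map_target hy.1) hy'
    rw [(G.ch i).right_inv hy.1] at this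
    simp only [Function.comp, Geo.rd, id, (G.ch j).left_inv hy']
    exact this
  have a5 : ∀ (s : X → W), (∀ x, ∃ i, x ∈ G.U i ∧ ContDiffAt ℝ ∞ (G.lc κ i s) (G.ch i x)) →
      s ∈ G.Sec κ := by
    intro s h i y hy
    obtain ⟨j, hj, hs⟩ := h ((G.ch i).symm y)
    have := sm s i j _ ((G.ch i).map_target hy) hj hs
    rw [(G.ch i).right_inv hy] at this
    exact this.contDiffWithinAt
  have sa : ∀ s ∈ G.Sec κ, ∀ i, ∀ y ∈ G.T i, ContDiffAt ℝ ∞ (G.lc κ i s) y := fun s hs i y hy =>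
    (hs i).contDiffAt ((G.ch i).open_target.mem_nhds hy)
  have a7 : ∀ s ∈ G.Sec κ, ∀ i, ∀ y ∈ G.T i,
      G.lc κ i (G.dir κ s) y = (G.R i).dir κ (G.lc κ i s) y := by
    intro s hs i y hy
    obtain ⟨x, hx, rfl⟩ : ∃ x ∈ G.U i, G.ch i x = y :=
      ⟨_, (G.ch i).map_target hy, (G.ch i).right_inv hy⟩
    have hj := mem x
    obtain ⟨p, q, hm, hg, -⟩ := c4 i (G.c x) x ⟨hx, hj⟩
    have hT := (G.ch (G.c x)).map_source hj
    have b1 := (h2 (G.R (G.c x)) (G.R i) _ _ _ p q _ (hA.loc _) (hA.loc i) hT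
      (by rw [rd_ch i hj]; exact hy) hm).2.2 κ (G.lc κ (G.c x) s) (G.lc κ i s)
      ((sa s hs _ _ hT).differentiableAt (by simp))
      (by rw [rd_ch i hj]; exact (sa s hs _ _ hy).differentiableAt (by simp)) (by
        filter_upwards [hg, pull hj ((G.ch i).open_source.mem_nhds hx)] with z hz hz'
        have := tr s i (G.c x) _ hz'.2 ((G.ch (G.c x)).map_target hz'.1)
        rw [(G.ch (G.c x)).right_inv hz'.1, hz] at this
        exact this)
    have b2 := hg.self_of_nhds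
    rw [(G.ch (G.c x)).left_inv hj] at b2
    rw [rd_ch i hj, ← b2] at b1
    rw [lc_ch _ hx, b1]
    rfl
  refine ⟨fun s x => by rw [lc_ch s (mem x), c1' _ _ (mem x)], fun s i x hx => lc_ch s hx, a3, a4,
    a5, ?_, a7, ?_, ?_, ?_, ?_⟩
  · intro i u K hK hKT hu0 hu
    have hc : IsClosed ((G.ch i).symm '' K) :=
      (hK.image_of_continuousOn ((G.ch i).continuousOn_symm.mono hKT)).isClosed
    have z0 : ∀ x, x ∉ G.U i →
        G.lc κ (G.c x) (G.ext κ i u) =ᶠ[𝓝 (G.ch (G.c x) x)] fun _ => 0 := by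
      intro x hx
      have hx' : x ∈ ((G.ch i).symm '' K)ᶜ := by
        rintro ⟨y, hy, rfl⟩
        exact hx ((G.ch i).map_target (hKT hy))
      filter_upwards [pull (mem x) (hc.isOpen_compl.mem_nhds hx')] with y hy
      have : G.ext κ i u ((G.ch (G.c x)).symm y) = 0 := by
        by_cases hz : (G.ch (G.c x)).symm y ∈ G.U i
        · rw [ext_mem u hz, hu0 _ fun hk => hy.2 ⟨_, hk, (G.ch i).left_inv hz⟩, map_zero]
        · exact ext_not u hz
      rw [Geo.lc, this, map_zero]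
    have z1 : ∀ x ∈ G.U i, G.lc κ i (G.ext κ i u) =ᶠ[𝓝 (G.ch i x)] u := fun x hx => by
      filter_upwards [(G.ch i).open_target.mem_nhds ((G.ch i).map_source hx)] with y hy
      exact a3 i u y hy
    have hs : G.ext κ i u ∈ G.Sec κ := by
      refine a5 _ fun x => ?_
      by_cases hx : x ∈ G.U i
      · exact ⟨i, hx, (hu.contDiffAt ((G.ch i).open_target.mem_nhds
          ((G.ch i).map_source hx))).congr_of_eventuallyEq (z1 x hx)⟩
      · exact ⟨_, mem x, contDiffAt_const.congr_of_eventuallyEq (z0 x hx)⟩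
    refine ⟨hs, funext fun x => ?_⟩
    by_cases hx : x ∈ G.U i
    · rw [← a4 (G.dir κ _) i x hx, ext_mem _ hx, ext_mem _ hx,
        a7 _ hs i _ ((G.ch i).map_source hx), dir_congr _ _ (z1 x hx)]
    · rw [ext_not _ hx, Geo.dir, dir_congr _ _ (z0 x hx), dir_zero]
  · intro s hs i y hy
    refine (((h3 _ _ κ (hA.loc i)).2.1 _ y hy (sa s hs i y hy)).congr_of_eventuallyEq
      ?_).contDiffWithinAt
    filter_upwards [(G.ch i).open_target.mem_nhds hy] with z hz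
    exact a7 s hs i z hz
  · intro s hs f hf i
    exact ((hf i).smul (hs i)).congr fun y _ => by simp [Geo.lc]
  · intro s hs s' hs'
    refine continuous_iff_continuousAt.2 fun x => ?_
    have hT := (G.ch (G.c x)).map_source (mem x)
    have hc := (G.ch (G.c x)).continuousAt (mem x)
    have b1 : ContinuousAt (fun z => ⟪G.lc κ (G.c x) s (G.ch (G.c x) z),
        G.lc κ (G.c x) s' (G.ch (G.c x) z)⟫) x :=
      ((sa s hs _ _ hT).continuousAt.comp hc).inner ((sa s' hs' _ _ hT).continuousAt.comp hc)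
    refine b1.congr ?_
    filter_upwards [(G.ch (G.c x)).open_source.mem_nhds (mem x)] with z hz
    rw [lc_ch s hz, lc_ch s' hz, c3 _ _ z ⟨hz, mem z⟩]
  · intro f hf i hi
    have hK : IsCompact (G.ch i '' tsupport f) :=
      (isClosed_tsupport f).isCompact.image_of_continuousOn ((G.ch i).continuousOn.mono hi)
    have hKT : G.ch i '' tsupport f ⊆ G.T i := by
      rintro _ ⟨x, hx, rfl⟩
      exact (G.ch i).map_source (hi hx)
    refine ⟨_, hK, hKT, fun u hu => ?_⟩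
    have z0 : ∀ y ∉ G.ch i '' tsupport f,
        (G.T i).indicator (fun y => f ((G.ch i).symm y) • u y) y = 0 := by
      intro y hy
      by_cases hT : y ∈ G.T i
      · rw [indicator_of_mem hT, image_eq_zero_of_notMem_tsupport
          fun h => hy ⟨_, h, (G.ch i).right_inv hT⟩, zero_smul]
      · exact indicator_of_notMem hT _
    refine ⟨(G.T i).indicator fun y => f ((G.ch i).symm y) • u y,
      contDiff_iff_contDiffAt.2 fun y => ?_, z0, fun y hy => indicator_of_mem hy _⟩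
    by_cases hT : y ∈ G.T i
    · have hn := (G.ch i).open_target.mem_nhds hT
      refine (((hf i).smul hu).contDiffAt hn).congr_of_eventuallyEq ?_
      filter_upwards [hn] with z hz
      exact indicator_of_mem hz _
    · refine (contDiffAt_const (c := 0)).congr_of_eventuallyEq ?_
      filter_upwards [hK.isClosed.isOpen_compl.mem_nhds fun h => hT (hKT h)] with z hz
      exact z0 z hz

end Pool.Agent.MP_e1dc65_gt.A

end
end MrgPart9

-- ======== part 10: formerly Pool.Agent.MP_e1dc65_gt.a.Sig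
section MrgPart10

/-! PROJECT HC, part A, row SIG: the signature theorem for manifolds and forms. -/

set_option maxSynthPendingDepth 3

open scoped Quaternion ContDiff Topology RealInnerProductSpace Matrix
open Set Filter MeasureTheory Pool.Agent.MP_c8d41b_gt.GF

noncomputable section

namespace Pool.Agent.MP_e1dc65_gt.A

namespace SigP

theorem exists_pq {X : Mf E4} {o : X → Lam E4} {s : X → X} {V : X → Set X}
    {θ : X → X → E4 →L[ℝ] ℍ} (h : OnA X o s V θ) : ∃ p q : X → X → X → ℍ,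
    ∀ a b, ∀ x ∈ V a ∩ V b, ‖p a b x‖ = 1 ∧ ‖q a b x‖ = 1 ∧
      ∀ v, θ a x v = p a b x * θ b x v * star (q a b x) := by
  have key : ∀ a b x, ∃ p q : ℍ, x ∈ V a ∩ V b → ‖p‖ = 1 ∧ ‖q‖ = 1 ∧
      ∀ v, θ a x v = p * θ b x v * star q := fun a b x => by
    by_cases hx : x ∈ V a ∩ V b
    · have hb := (h.cof b x hx.2).2
      obtain ⟨p, q, h1, h2, h3⟩ := so4 ((θ a x).comp (θ b x).inverse) (fun v => by
        rw [ContinuousLinearMap.comp_apply, h.iso a b x hx, hb.self_apply_inverse])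
        (((h.pos a x hx.1).iff_hb (h.cof a x hx.1).2).1 (h.pos b x hx.2))
      refine ⟨p, q, fun _ => ⟨h1, h2, fun v => ?_⟩⟩
      rw [← h3, ContinuousLinearMap.comp_apply, hb.inverse_apply_self]
    · exact ⟨1, 1, fun h => (hx h).elim⟩
  choose p q hpq using key
  exact ⟨p, q, hpq⟩

theorem int_inner (h9 : IntStmt) {X : Sp} {G : Geo X} {κ : Tw} (hA : G.Adm κ) {s s' : X → W}
    (hs : s ∈ G.Sec κ) (hs' : s' ∈ G.Sec κ) : Integrable (fun x => ⟪s x, s' x⟫) G.μ := by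
  obtain ⟨-, -, -, i4, -⟩ := h9 X G κ hA
  obtain ⟨m, -, C, hC⟩ := i4 s hs
  obtain ⟨m', -, C', hC'⟩ := i4 s' hs'
  have := hA.fin
  exact Integrable.of_bound (m.inner m').aestronglyMeasurable (C * C') (Eventually.of_forall
    fun x => (norm_inner_le_norm _ _).trans
      (mul_le_mul (hC x) (hC' x) (norm_nonneg _) ((norm_nonneg _).trans (hC x))))

theorem exists_fun (X : Mf E4) (x : X) (l : E4 →L[ℝ] ℝ) :
    ∃ u : X → ℝ, Sm X (vs ℝ) u univ ∧ Df X (vs ℝ) u x = l := by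
  obtain ⟨χ, h1, -, h3, h4, -⟩ := (bumpM E4 X).1 {x} (ch X x).source isClosed_singleton
    (ch X x).open_source (singleton_subset_iff.2 (mem_chart_source E4 x))
  rw [nhdsSet_singleton] at h3
  refine ⟨fun y => χ y • l (ch X x y), fun y _ => smAt_cut (h1 y trivial) fun hy =>
    (smAt_ch (h4 hy)).vcomp l.contDiff.contDiffAt, ?_⟩
  rw [Df_congr (f' := fun y => l (ch X x y)) (h3.mono fun y hy => by simp only [hy, one_smul]),
    Df_clm l smAt_ch_self, Df_ch_self, ContinuousLinearMap.comp_id]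

theorem zero_of_test {X : Mf E4} [CompactSpace X] [MeasurableSpace X] [BorelSpace X] (μ : Measure X)
    [μ.IsOpenPosMeasure] [IsFiniteMeasure μ] {g : X → ℝ} (hg : Continuous g)
    (h : ∀ f : X → ℝ, Sm X (vs ℝ) f univ → ∫ x, f x * g x ∂μ = 0) (x : X) : g x = 0 := by
  by_contra hx
  have hU : IsOpen {y | 0 < g x * g y} := isOpen_lt continuous_const (continuous_const.mul hg)
  obtain ⟨χ, h1, h2, h3, h4, -⟩ := (bumpM E4 X).1 {x} _ isClosed_singleton hU
    (singleton_subset_iff.2 (mul_self_pos.2 hx))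
  rw [nhdsSet_singleton] at h3
  have hc : Continuous fun y => g x * (χ y * g y) :=
    continuous_const.mul (h1.cont.mul hg)
  have h0 : ∀ y, 0 ≤ g x * (χ y * g y) := fun y => by
    by_cases hy : χ y = 0
    · simp [hy]
    · have : 0 < g x * g y := h4 (subset_tsupport _ hy)
      rw [mul_left_comm]; exact mul_nonneg (h2 y).1 this.le
  have h5 := (hc.integral_pos_of_hasCompactSupport_nonneg_nonzero (μ := μ)
    (HasCompactSupport.of_compactSpace _) h0 (x := x)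
    (by rw [h3.self_of_nhds, one_mul]; exact mul_ne_zero hx hx)).ne'
  rw [integral_const_mul, h χ h1, mul_zero] at h5
  exact h5 rfl

variable {X : Mf E4} [CompactSpace X] {o : X → Lam E4} {G : Geo (spc X)}

theorem fm_inv (hB : Br o G) (x : X) : (∀ v, G.cf (G.c x) x (G.fm x v) = v) ∧
    ∀ v, G.fm x (G.cf (G.c x) x v) = v :=
  ⟨(hB.cof _ x (hB.ok.mem x)).2.self_apply_inverse, (hB.cof _ x (hB.ok.mem x)).2.inverse_apply_self⟩

/-- the pair of components -/
def cmp (G : Geo (spc X)) (γ : X → Lam E4) : (spc X → ℍ) × (spc X → ℍ) :=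
  (fun x => sd (G.fm x) (γ x), fun x => asd (G.fm x) (γ x))

theorem pair (h3 : IntbStmt) (h4 : AlgbStmt) (h5 : DictStmt) (h9 : IntStmt) (hO : Ori X 4 o univ)
    (hB : Br o G) {γ γ' : X → Lam E4} (h : Fm X 2 γ univ) (h' : Fm X 2 γ' univ)
    (h0 : intM X o (fun x => γ x * γ' x) = 0) :
    G.iq (cmp G γ).1 (cmp G γ').1 = G.iq (cmp G γ).2 (cmp G γ').2 := by
  obtain ⟨-, -, d3, -⟩ := h5 X o G hB
  have i1 := int_inner h9 (κ := .l) ⟨hB.ok, fun e => nomatch e⟩ (d3 γ h).1.2 (d3 γ' h').1.2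
  have i2 := int_inner h9 (κ := .r) ⟨hB.ok, fun e => nomatch e⟩ (d3 γ h).2.2 (d3 γ' h').2.2
  simp only [inner_W, wk_fst, wk_snd, inner_zero_left, add_zero, zero_add] at i1 i2
  rw [(h3 X o G hO hB _ fun x => ((h.mul h') x trivial).1).2] at h0
  have e : ∀ x : spc X, top (G.fm x) (γ x * γ' x) = 1 / 2 * (⟪sd (G.fm x) (γ x), sd (G.fm x) (γ' x)⟫ -
      ⟪asd (G.fm x) (γ x), asd (G.fm x) (γ' x)⟫) := fun x =>
    ((h4 _ _ (fm_inv hB x).1 (fm_inv hB x).2).1 _ (h x trivial).2).2.2 _ (h' x trivial).2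
  simp only [e] at h0
  rw [integral_const_mul, integral_sub i1 i2] at h0
  show ∫ x, ⟪sd (G.fm x) (γ x), sd (G.fm x) (γ' x)⟫ ∂G.μ =
    ∫ x, ⟪asd (G.fm x) (γ x), asd (G.fm x) (γ' x)⟫ ∂G.μ
  linarith

theorem pair' (h4 : AlgbStmt) (h5 : DictStmt) (h9 : IntStmt)
    (hB : Br o G) {γ γ' : X → Lam E4} (h : Fm X 2 γ univ) (h' : Fm X 2 γ' univ)
    (h0 : G.iq (cmp G γ').1 (cmp G γ).1 = G.iq (cmp G γ').2 (cmp G γ).2) :
    ∫ x, top (G.fm x) (γ x * γ' x) ∂G.μ = 0 := by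
  obtain ⟨-, -, d3, -⟩ := h5 X o G hB
  have i1 := int_inner h9 (κ := .l) ⟨hB.ok, fun e => nomatch e⟩ (d3 γ h).1.2 (d3 γ' h').1.2
  have i2 := int_inner h9 (κ := .r) ⟨hB.ok, fun e => nomatch e⟩ (d3 γ h).2.2 (d3 γ' h').2.2
  simp only [inner_W, wk_fst, wk_snd, inner_zero_left, add_zero, zero_add] at i1 i2
  have e : ∀ x : spc X, top (G.fm x) (γ x * γ' x) = 1 / 2 * (⟪sd (G.fm x) (γ x), sd (G.fm x) (γ' x)⟫ -
      ⟪asd (G.fm x) (γ x), asd (G.fm x) (γ' x)⟫) := fun x =>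
    ((h4 _ _ (fm_inv hB x).1 (fm_inv hB x).2).1 _ (h x trivial).2).2.2 _ (h' x trivial).2
  have h1 : ∫ x, ⟪sd (G.fm x) (γ' x), sd (G.fm x) (γ x)⟫ ∂G.μ =
    ∫ x, ⟪asd (G.fm x) (γ' x), asd (G.fm x) (γ x)⟫ ∂G.μ := h0
  simp only [e]
  rw [integral_const_mul, integral_sub i1 i2]
  simp only [real_inner_comm (sd _ (γ' _)), real_inner_comm (asd _ (γ' _))] at h1 ⊢
  rw [h1, sub_self, mul_zero]

theorem d_eq (h5 : DictStmt) (hB : Br o G) {v : spc X → ℍ} (hv : G.V1 v) :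
    ∃ η, Fm X 1 η univ ∧ G.dp v = (cmp G (dM X η)).1 ∧ G.dm v = (cmp G (dM X η)).2 := by
  obtain ⟨-, d2, -, -, d5, -⟩ := h5 X o G hB
  obtain ⟨η, h1, h2⟩ := d2 v hv
  obtain rfl : (fun x => vec (G.fm x) (η x)) = v := funext h2
  exact ⟨η, h1, funext fun x => (d5 η h1 x).1, funext fun x => (d5 η h1 x).2⟩

theorem exact_closed (h7 : StkStmt) (hO : Ori X 4 o univ) {η γ : X → Lam E4} (h : Fm X 1 η univ)
    (h' : Cl X 2 γ univ) : intM X o (fun x => dM X η x * γ x) = 0 := by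
  rw [← h7 X o _ hO (h.mul h'.1)]
  congr 1
  exact funext fun x => by
    rw [dM_mul (h x trivial).1 (h'.1 x trivial).1, h'.2 x trivial, mul_zero, add_zero]

theorem iso (h3 : IntbStmt) (h4 : AlgbStmt) (h5 : DictStmt) (h7 : StkStmt) (h9 : IntStmt)
    (hO : Ori X 4 o univ) (hB : Br o G) {K : Set (X → Lam E4)} (hK : ∀ a ∈ K, Cl X 2 a univ)
    (h0 : ∀ a ∈ K, ∀ b ∈ K, intM X o (fun x => a x * b x) = 0) : G.Iso (cmp G '' K) := by
  rintro _ ⟨a, ha, rfl⟩
  obtain ⟨-, -, d3, -⟩ := h5 X o G hB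
  refine ⟨⟨(d3 a (hK a ha).1).1, (d3 a (hK a ha).1).2, fun v hv => ?_⟩, ?_⟩
  · obtain ⟨η, h1, h2⟩ := d_eq h5 hB hv
    rw [h2.1, h2.2]
    exact pair h3 h4 h5 h9 hO hB (h1.dM isOpen_univ).1 (hK a ha).1 (exact_closed h7 hO h1 (hK a ha))
  · rintro _ ⟨b, hb, rfl⟩
    exact pair h3 h4 h5 h9 hO hB (hK a ha).1 (hK b hb).1 (h0 a ha b hb)

theorem closed (h3 : IntbStmt) (h4 : AlgbStmt) (h5 : DictStmt) (h7 : StkStmt) (h9 : IntStmt)
    (hO : Ori X 4 o univ) (hB : Br o G) {γ : X → Lam E4} (h : Fm X 2 γ univ)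
    (hz : G.Zc (cmp G γ)) : Cl X 2 γ univ := by
  obtain ⟨d1, -, -, -, d5, -⟩ := h5 X o G hB
  have hd := h.dM isOpen_univ
  let _ : MeasurableSpace X := borel X
  have : BorelSpace X := ⟨rfl⟩
  have := hB.ok.fin
  have := (h9 _ G .l ⟨hB.ok, fun e => nomatch e⟩).1
  have int : ∀ α : X → Lam E4, (∀ x, FmAt X α x) →
      Integrable (fun x : spc X => top (G.fm x) (α x)) G.μ := fun α hα =>
    (h3 X o G hO hB α hα).1.integrable_of_hasCompactSupport (HasCompactSupport.of_compactSpace _)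
  have key : ∀ η, Fm X 1 η univ → ∫ x, top (G.fm x) (dM X γ x * η x) ∂G.μ = 0 := fun η hη => by
    have hd' := hη.dM isOpen_univ
    have h1 := hz.2.2 _ (d1 η hη)
    rw [show G.dp _ = (cmp G (dM X η)).1 from funext fun x => (d5 η hη x).1,
      show G.dm _ = (cmp G (dM X η)).2 from funext fun x => (d5 η hη x).2] at h1
    have h2 := pair' h4 h5 h9 hB h hd'.1 h1
    have h6 := h7 X o _ hO (h.mul hη)
    rw [(h3 X o G hO hB _ fun x => ((h.mul hη) x trivial).1.dM).2] at h6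
    have e : ∀ x : spc X, top (G.fm x) (dM X (fun y => γ y * η y) x) =
        top (G.fm x) (dM X γ x * η x) + top (G.fm x) (γ x * dM X η x) := fun x => by
      rw [dM_mul (h x trivial).1 (hη x trivial).1, inv_dg (h x trivial).2, neg_one_sq, one_smul,
        top, ev_add]; rfl
    simp only [e] at h6
    rwa [integral_add (int _ fun x => ((hd.1.mul hη) x trivial).1)
      (int _ fun x => ((h.mul hd'.1) x trivial).1), h2, add_zero] at h6
  refine ⟨h, fun x _ => (h4 _ _ (fm_inv hB x).1 (fm_inv hB x).2).2.2.2.2.2.2.1 _ (hd.1 x trivial).2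
    fun l => ?_⟩
  obtain ⟨u, hu, rfl⟩ := exists_fun X x l
  refine zero_of_test G.μ (h3 X o G hO hB _ fun x => ((hd.1.mul (cl_dF hu).1) x trivial).1).1
    (fun f hf => ?_) x
  rw [← key _ ((cl_dF hu).1.fsmul hf)]
  refine integral_congr_ae (Eventually.of_forall fun y => ?_)
  simp only [mul_smul_comm, top, ev_smul]

theorem cmp_add (a b : X → Lam E4) : cmp G (fun x => a x + b x) = cmp G a + cmp G b := by
  refine Prod.ext (funext fun x => ?_) (funext fun x => ?_) <;>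
    simp only [cmp, sd, asd, ev_add, add_smul, Finset.sum_add_distrib, smul_add, Prod.fst_add,
      Prod.snd_add, Pi.add_apply]

end SigP

open SigP in
theorem sigOf (h1 : MetStmt) (h2 : GeoStmt) (h3 : IntbStmt) (h4 : AlgbStmt) (h5 : DictStmt)
    (h6 : ConStmt) (h7 : StkStmt) (h8 : CWStmt) (h9 : IntStmt) (h10 : SthStmt) : SigStmt := by
  intro X _ o w Kp Km hO hK hp hm hdec hw
  obtain ⟨V, θ, hV⟩ := h1 X o (fun x => x) hO (fun _ _ => smAt_id) fun _ => rfl
  obtain ⟨p, q, hpq⟩ := exists_pq hV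
  obtain ⟨G, -, hB, -⟩ := h2 X o _ V θ p q hV hpq
  obtain ⟨w', w1, w2, w3⟩ := h6 X o G hB
  rw [h8 E4 X o w w' hO hw w1, (h3 X o G hO hB w' w2).2]
  simp only [w3]
  rw [integral_const_mul, h10 _ G hB.ok ?_ ?_ _ _
    (iso h3 h4 h5 h7 h9 hO hB (fun a ha => hK a (Or.inl ha)) hp)
    (iso h3 h4 h5 h7 h9 hO hB (fun a ha => hK a (Or.inr ha)) hm) ?_, mul_zero]
  · intro f hf
    obtain ⟨-, -, -, -, d5, d6⟩ := h5 X o G hB
    obtain ⟨f1, f2⟩ := d6 f hf
    rw [show G.gr f = _ from funext f2]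
    constructor <;> refine funext fun x => ?_
    · rw [(d5 _ (cl_dF f1).1 x).1, (cl_dF f1).2 x trivial]; simp [sd]
    · rw [(d5 _ (cl_dF f1).1 x).2, (cl_dF f1).2 x trivial]; simp [asd]
  · intro v v' hv hv'
    obtain ⟨η, a1, a2⟩ := d_eq h5 hB hv
    obtain ⟨η', b1, b2⟩ := d_eq h5 hB hv'
    rw [a2.1, a2.2, b2.1, b2.2]
    exact pair h3 h4 h5 h9 hO hB (a1.dM isOpen_univ).1 (b1.dM isOpen_univ).1
      (exact_closed h7 hO a1 (b1.dM isOpen_univ))
  · intro z hz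
    obtain ⟨d1, -, -, d4, d5, -⟩ := h5 X o G hB
    obtain ⟨γ, g1, g2⟩ := d4 z.1 z.2 hz.1 hz.2.1
    obtain rfl : cmp G γ = z := Prod.ext (funext fun x => (g2 x).1) (funext fun x => (g2 x).2)
    obtain ⟨a, ha, b, hb, η, e1, e2⟩ := hdec γ (closed h3 h4 h5 h7 h9 hO hB g1 hz)
    refine ⟨_, mem_image_of_mem _ ha, _, mem_image_of_mem _ hb, _, d1 η e1, ?_⟩
    rw [show γ = _ from funext e2, cmp_add, cmp_add]
    congr 1
    exact Prod.ext (funext fun x => (d5 η e1 x).1.symm) (funext fun x => (d5 η e1 x).2.symm)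

end Pool.Agent.MP_e1dc65_gt.A

end
end MrgPart10

-- ======== part 11: formerly Pool.Agent.MP_e1dc65_gt.a.Tr
section MrgPart11

/-! PROJECT HC, part A, row TR: the trace is the integral of the local trace. -/

set_option maxSynthPendingDepth 3

open scoped Quaternion ContDiff Topology RealInnerProductSpace
open Set Filter MeasureTheory Metric

noncomputable section

namespace Pool.Agent.MP_e1dc65_gt.A

namespace Tr

theorem mul_le_half {a b : ℝ} : a * b ≤ (a ^ 2 + b ^ 2) / 2 := by nlinarith [sq_nonneg (a - b)]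

/-- a series dominated by the geometric mean of two summable series -/
theorem dom {J : Type} {e F : J → ℝ} {u v : J → W} {C : ℝ} (he : ∀ n, 0 ≤ e n)
    (hu : (Summable fun n => e n * ‖u n‖ ^ 2) ∧ ∑' n, e n * ‖u n‖ ^ 2 ≤ C)
    (hv : (Summable fun n => e n * ‖v n‖ ^ 2) ∧ ∑' n, e n * ‖v n‖ ^ 2 ≤ C)
    (hF : ∀ n, |F n| ≤ ‖u n‖ * ‖v n‖) :
    (Summable fun n => ‖e n * F n‖) ∧ ∑' n, ‖e n * F n‖ ≤ C := by
  have hs : Summable fun n => (e n * ‖u n‖ ^ 2 + e n * ‖v n‖ ^ 2) / 2 :=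
    (hu.1.add hv.1).div_const 2
  have hle : ∀ n, ‖e n * F n‖ ≤ (e n * ‖u n‖ ^ 2 + e n * ‖v n‖ ^ 2) / 2 := fun n => by
    rw [norm_mul, Real.norm_eq_abs, Real.norm_eq_abs, abs_of_nonneg (he n)]
    have h1 := mul_le_mul_of_nonneg_left ((hF n).trans mul_le_half) (he n)
    linarith
  have h1 : Summable fun n => ‖e n * F n‖ :=
    Summable.of_nonneg_of_le (fun n => norm_nonneg _) hle hs
  refine ⟨h1, (h1.tsum_le_tsum hle hs).trans ?_⟩
  rw [tsum_div_const, hu.1.tsum_add hv.1]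
  linarith [hu.2, hv.2]

theorem abs_inner_ap {a : W →L[ℝ] W} (ha : ‖a‖ ≤ 1) (u v : W) : |⟪a u, v⟫| ≤ ‖u‖ * ‖v‖ :=
  (abs_real_inner_le_norm _ _).trans (mul_le_mul_of_nonneg_right
    ((a.le_opNorm u).trans (mul_le_of_le_one_left (norm_nonneg _) ha)) (norm_nonneg _))

theorem abs_inner_one {w : W} (hw : ‖w‖ ≤ 1) (u : W) : |⟪u, w⟫| ≤ ‖u‖ :=
  (abs_real_inner_le_norm _ _).trans (mul_le_of_le_one_right (norm_nonneg _) hw)

theorem norm_adj {a : W →L[ℝ] W} (ha : ‖a‖ ≤ 1) {w : W} (hw : ‖w‖ = 1) :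
    ‖ContinuousLinearMap.adjoint a w‖ ≤ 1 := by
  have h := (ContinuousLinearMap.adjoint a).le_opNorm w
  rw [LinearIsometryEquiv.norm_map, hw, mul_one] at h
  exact h.trans ha

theorem inner_expand {ι : Type} [Fintype ι] (b : OrthonormalBasis ι ℝ W) (a : W →L[ℝ] W)
    (u v : W) : ⟪a u, v⟫ = ∑ i, ⟪u, ContinuousLinearMap.adjoint a (b i)⟫ * ⟪v, b i⟫ := by
  rw [← b.sum_inner_mul_inner (a u) v]
  refine Finset.sum_congr rfl fun i _ => ?_
  rw [ContinuousLinearMap.adjoint_inner_right, real_inner_comm v]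

theorem trace_expand {ι : Type} [Fintype ι] (b : OrthonormalBasis ι ℝ W)
    (g a g' k : W →L[ℝ] W) : LinearMap.trace ℝ W (g * a * g' * k).toLinearMap =
      ∑ i, ⟪g' (k (g (b i))), ContinuousLinearMap.adjoint a (b i)⟫ := by
  have e1 : (g * a * g' * k).toLinearMap = g.toLinearMap * (a * g' * k).toLinearMap := rfl
  rw [e1, LinearMap.trace_mul_comm, LinearMap.trace_eq_sum_inner _ b]
  refine Finset.sum_congr rfl fun i _ => ?_
  rw [ContinuousLinearMap.adjoint_inner_right, real_inner_comm]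
  rfl

theorem ltr_expand {X : Sp} (G : Geo X) {κ : Tw} {J : Type} (φ : J → G.Sec κ) (lam : J → ℝ)
    {ι : Type} [Fintype ι] (b : OrthonormalBasis ι ℝ W) (f : X → X) (a : X → W →L[ℝ] W)
    (ha : ∀ x, ‖a x‖ ≤ 1) (t C : ℝ)
    (hC : ∀ y, (Summable fun n => Real.exp (-(lam n * t)) * ‖(φ n : X → W) y‖ ^ 2) ∧
      ∑' n, Real.exp (-(lam n * t)) * ‖(φ n : X → W) y‖ ^ 2 ≤ C) (y : X) :
    G.ltr φ lam f a t y =
      ∑ i, G.hker φ lam t (f y) (ContinuousLinearMap.adjoint (a y) (b i)) y (b i) := by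
  unfold Geo.ltr Geo.hker
  rw [← Summable.tsum_finsetSum]
  · refine tsum_congr fun n => ?_
    rw [inner_expand b, Finset.mul_sum]
  · intro i _
    refine (dom (fun n => (Real.exp_pos _).le) (hC (f y)) (hC y) fun n => ?_).1.of_norm
    rw [abs_mul]
    exact mul_le_mul (abs_inner_one (norm_adj (ha y) (b.orthonormal.1 i)) _)
      (abs_inner_one (b.orthonormal.1 i).le _) (abs_nonneg _) (norm_nonneg _)

end Tr

open Tr in
theorem tr (_h1 : CocStmt) (h2 : SecStmt) (_h3 : IntStmt) (h4 : InstStmt) (h5 : MsStmt)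
    (h6 : TogStmt) (h7 : KerStmt) : TrStmt := by
  intro X G κ hG j D Γ hI J φ lam hE f a A ha hA
  obtain ⟨hEll, hK⟩ := h7 X G κ hG j D Γ hI
  obtain ⟨hK1, hK2⟩ := hK J φ lam hE
  have : Countable J := (h5 _ _ j D J φ lam hEll hE).1
  have : IsFiniteMeasure G.μ := hG.fin
  have hip := ((h4 X G κ hG).2 j D Γ hI).1
  have hcont := (h2 X G κ hG).2.2.2.2.2.2.2.2.2.1
  refine ⟨fun t ht => ?_, fun i K C hK hKT => ?_⟩
  · obtain ⟨C, hC⟩ := hK1 t ht
    set F : J → X → ℝ := fun n y =>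
      Real.exp (-(lam n * t)) * ⟪a y ((φ n : X → W) (f y)), (φ n : X → W) y⟫ with hF
    have hFe : ∀ n, F n = fun y =>
        Real.exp (-(lam n * t)) * ⟪(A (φ n) : X → W) y, (φ n : X → W) y⟫ := fun n => by
      funext y; rw [hA]
    have hFc : ∀ n, Continuous (F n) := fun n => by
      rw [hFe]; exact continuous_const.mul (hcont _ (A (φ n)).2 _ (φ n).2)
    have hFi : ∀ n, Integrable (F n) G.μ := fun n =>
      (hFc n).integrable_of_hasCompactSupport (HasCompactSupport.of_compactSpace _)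
    have hd : ∀ y, (Summable fun n => ‖F n y‖) ∧ ∑' n, ‖F n y‖ ≤ C := fun y =>
      dom (fun n => (Real.exp_pos _).le) (hC (f y)) (hC y) fun n => abs_inner_ap (ha y) _ _
    have hsum : Summable fun n => ∫ y, ‖F n y‖ ∂G.μ := by
      refine summable_of_sum_le (c := ∫ _y, C ∂G.μ)
        (fun n => integral_nonneg fun y => norm_nonneg _) fun s => ?_
      rw [← integral_finsetSum s fun n _ => (hFi n).norm]
      refine integral_mono (integrable_finsetSum s fun n _ => (hFi n).norm) (integrable_const C)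
        fun y => ?_
      exact ((hd y).1.sum_le_tsum s fun n _ => norm_nonneg _).trans (hd y).2
    refine ⟨?_, ?_⟩
    · refine (integrable_const C).mono'
        (Measurable.tsum fun n => (hFc n).measurable).aestronglyMeasurable
        (Eventually.of_forall fun y => ?_)
      exact (norm_tsum_le_tsum_norm (hd y).1).trans (hd y).2
    · have hs := hasSum_integral_of_summable_integral_norm hFi hsum
      have e : (fun n => Real.exp (-(lam n * t)) * ⟪j (A (φ n)), j (φ n)⟫) =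
          fun n => ∫ y, F n y ∂G.μ := by
        funext n
        rw [hip, hFe, integral_const_mul]
        rfl
      rw [e]
      exact hs
  · obtain ⟨C1, hT⟩ := h6 X G κ hG i K C hK hKT
    obtain ⟨C2, hC2⟩ := hK2 C1
    let b := stdOrthonormalBasis ℝ W
    refine ⟨Module.finrank ℝ W * C2, fun y hy hyK k ρ hP t ht => ?_⟩
    obtain ⟨C0, hC0⟩ := hK1 t ht
    have key : |G.ltr φ lam f a t y - ∑ c, ⟪G.ext κ i (fun x => k t x (G.g κ i (G.c y) y (b c)))
        (f y), ContinuousLinearMap.adjoint (a y) (b c)⟫| ≤ Module.finrank ℝ W * C2 * t := by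
      rw [ltr_expand G φ lam b f a ha t C0 hC0 y, ← Finset.sum_sub_distrib]
      refine (Finset.abs_sum_le_sum_abs _ _).trans ?_
      refine (Finset.sum_le_sum fun c _ => hC2 y (b c) _ _
        (hT y hy hyK k ρ hP (b c) (b.orthonormal.1 c).le) (f y) _
        (norm_adj (ha y) (b.orthonormal.1 c)) t ht).trans ?_
      rw [Finset.sum_const, Finset.card_univ, Fintype.card_fin, nsmul_eq_mul, mul_assoc]
    refine ⟨fun hf => ?_, fun hf => ?_⟩
    · rw [trace_expand b]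
      simpa only [Geo.ext, if_pos hf] using key
    · have hz : ∀ c, G.ext κ i (fun x => k t x (G.g κ i (G.c y) y (b c))) (f y) = 0 := fun c => by
        unfold Geo.ext
        split_ifs with h
        · have hn : G.ch i (f y) ∉ K := fun hm => hf ⟨_, hm, (G.ch i).left_inv h⟩
          simp [(hP.sup t _ hn).1]
        · rfl
      simpa only [hz, inner_zero_left, Finset.sum_const_zero, sub_zero] using key

end Pool.Agent.MP_e1dc65_gt.A

end
end MrgPart11

-- marker of a merged file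
example : 731051 + 108519 = 731051 + 108519 := rfl
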