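import Pool.Agent.MP_e1dc65_gt.b.Adapt
import Mathlib.Analysis.SpecialFunctions.Gaussian.FourierTransform
import Mathlib.MeasureTheory.Measure.Haar.NormedSpace
import Mathlib.MeasureTheory.Integral.DominatedConvergence
import Mathlib.MeasureTheory.Group.Integral
import Mathlib.Analysis.Calculus.ContDiff.Convolution
import Mathlib.Analysis.Calculus.Deriv.Prod
import Mathlib.Analysis.Calculus.BumpFunction.InnerProduct
import Mathlib.Analysis.Calculus.FDeriv.Symmetric
import Mathlib.Analysis.InnerProductSpace.Calculus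
import Mathlib.MeasureTheory.Integral.IntervalIntegral.FundThmCalculus
import Mathlib.Algebra.QuaternionBasis
import Mathlib.Analysis.Quaternion
import Mathlib.LinearAlgebra.Dimension.Free
import Mathlib.LinearAlgebra.FiniteDimensional.Lemmas
import Mathlib.Analysis.Calculus.ContDiff.FiniteDimension

-- ======== part 0: formerly Pool.Agent.MP_e1dc65_gt.a.Ai
section MrgPart0

/-! PROJECT HC, part A: Gaussian bounds and the approximate identity. -/

set_option maxSynthPendingDepth 3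

open scoped Quaternion ContDiff Topology RealInnerProductSpace
open Set Filter MeasureTheory Metric

noncomputable section

namespace Pool.Agent.MP_e1dc65_gt.A

namespace Ai

/-- the Gaussian with the normalisation of the heat kernel and the rate `c` -/
def ga (c t : ℝ) (v : E4) : ℝ :=
  ((4 * Real.pi * t) ^ 2)⁻¹ * Real.exp (-(c ^ 2 / (4 * t)) * ‖v‖ ^ 2)

theorem gauss {b : ℝ} (hb : 0 < b) : ∫ v : E4, Real.exp (-b * ‖v‖ ^ 2) = (Real.pi / b) ^ 2 := by
  rw [GaussianFourier.integral_rexp_neg_mul_sq_norm hb, finrank_euclideanSpace_fin]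
  norm_num

theorem ga_int {c t : ℝ} (hc : 0 < c) (ht : 0 < t) : ∫ v, ga c t v = (c ^ 4)⁻¹ := by
  have := Real.pi_pos
  simp only [ga]
  rw [integral_const_mul, gauss (by positivity)]
  field_simp

theorem ga_integrable {c t : ℝ} (hc : 0 < c) (ht : 0 < t) : Integrable (ga c t) :=
  Integrable.of_integral_ne_zero (by rw [ga_int hc ht]; positivity)

theorem ga_nonneg (c t : ℝ) (v : E4) : 0 ≤ ga c t v := by unfold ga; positivity

theorem hk_nonneg (t : ℝ) (z : ℍ) : 0 ≤ hk t z := by unfold hk; positivity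

theorem hk_cont (t : ℝ) : Continuous (hk t) := by unfold hk; fun_prop

theorem hk_le {c t : ℝ} (hc : 0 < c) (ht : 0 < t) {v : E4} {z : ℍ} (h : c * ‖v‖ ≤ ‖z‖) :
    hk t z ≤ ga c t v := by
  refine mul_le_mul_of_nonneg_left (Real.exp_le_exp.2 ?_) (by positivity)
  have h1 : (c * ‖v‖) ^ 2 ≤ ‖z‖ ^ 2 := pow_le_pow_left₀ (by positivity) h 2
  rw [show -(c ^ 2 / (4 * t)) * ‖v‖ ^ 2 = -(c * ‖v‖) ^ 2 / (4 * t) by ring]
  exact div_le_div_of_nonneg_right (neg_le_neg h1) (by positivity)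

theorem hk_scale {t : ℝ} (ht : 0 < t) (z : ℍ) : √t ^ 4 * hk t z = hk 1 ((√t)⁻¹ • z) := by
  have h1 : √t ^ 4 = t ^ 2 := by rw [show 4 = 2 * 2 from rfl, pow_mul, Real.sq_sqrt ht.le]
  have := Real.pi_pos
  rw [hk, hk, h1, norm_smul, mul_pow _ ‖z‖, norm_inv, inv_pow, Real.norm_eq_abs, sq_abs,
    Real.sq_sqrt ht.le, show -(t⁻¹ * ‖z‖ ^ 2) / (4 * 1) = -‖z‖ ^ 2 / (4 * t) by field_simp]
  field_simp

theorem jac_ne {A : E4 →L[ℝ] ℍ} {c : ℝ} (hc : 0 < c) (h : ∀ v, c * ‖v‖ ≤ ‖A v‖) :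
    ((qv.toContinuousLinearEquiv : ℍ →L[ℝ] E4).comp A).det ≠ 0 := fun e =>
  LinearMap.det_eq_zero_iff_ker_ne_bot.1 e (LinearMap.ker_eq_bot'.2 fun v hv => by
    have h1 : ‖A v‖ = 0 := by
      rw [← qv.norm_map]
      exact norm_eq_zero.2 hv
    have h2 := h v
    rw [h1] at h2
    exact norm_le_zero_iff.1 (by by_contra h3; nlinarith [not_le.1 h3]))

theorem jac_pos {A : E4 →L[ℝ] ℍ} {c : ℝ} (hc : 0 < c) (h : ∀ v, c * ‖v‖ ≤ ‖A v‖) : 0 < jac A :=
  abs_pos.2 (jac_ne hc h)

/-- the heat kernel in linear coordinates -/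
theorem hk_lin {A : E4 →L[ℝ] ℍ} {c t : ℝ} (hc : 0 < c) (ht : 0 < t) (h : ∀ v, c * ‖v‖ ≤ ‖A v‖) :
    ∫ v, hk t (A v) = (jac A)⁻¹ := by
  set L := (qv.toContinuousLinearEquiv : ℍ →L[ℝ] E4).comp A with hL
  have h1 : ∀ v, hk t (A v) = ga 1 t (L v) := fun v => by
    have : ‖L v‖ = ‖A v‖ := qv.norm_map _
    rw [hk, ga, this]
    congr 2
    ring
  have h2 : Continuous (ga 1 t) := by unfold ga; fun_prop
  have h3 := Measure.map_linearMap_addHaar_eq_smul_addHaar (volume : Measure E4)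
    (f := (L : E4 →ₗ[ℝ] E4)) (jac_ne hc h)
  simp only [h1]
  rw [← integral_map L.continuous.aemeasurable h2.aestronglyMeasurable]
  erw [h3]
  rw [integral_smul_measure, ga_int one_pos ht, ENNReal.toReal_ofReal (abs_nonneg _), abs_inv]
  simp [jac, ContinuousLinearMap.det, hL]

theorem part1 {z : E4 → ℍ} {y : E4} {S : Set E4} {c t : ℝ} (hc : 0 < c) (ht : 0 < t)
    (hS : MeasurableSet S) (hz : ContinuousOn z S) (h : ∀ x ∈ S, c * ‖x - y‖ ≤ ‖z x‖) :
    IntegrableOn (fun x => hk t (z x)) S ∧ ∫ x in S, hk t (z x) ≤ (c ^ 4)⁻¹ := by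
  have h1 : Integrable fun x => ga c t (x - y) := (ga_integrable hc ht).comp_sub_right y
  have h2 : IntegrableOn (fun x => hk t (z x)) S :=
    h1.integrableOn.mono' (((hk_cont t).comp_continuousOn hz).aestronglyMeasurable hS)
      ((ae_restrict_mem hS).mono fun x hx => by
        rw [Real.norm_eq_abs, abs_of_nonneg (hk_nonneg _ _)]
        exact hk_le hc ht (h x hx))
  refine ⟨h2, (setIntegral_mono_on h2 h1.integrableOn hS fun x hx => hk_le hc ht (h x hx)).trans ?_⟩
  refine (setIntegral_le_integral h1 (Eventually.of_forall fun x => ga_nonneg _ _ _)).trans ?_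
  rw [integral_sub_right_eq_self (ga c t) y, ga_int hc ht]

theorem sqrt_lim : Tendsto (fun t : ℝ => √t) (𝓝[>] 0) (𝓝[>] 0) :=
  tendsto_nhdsWithin_iff.2 ⟨by
    simpa using (Real.continuous_sqrt.tendsto 0).mono_left nhdsWithin_le_nhds,
    eventually_mem_nhdsWithin.mono fun _ ht => Real.sqrt_pos.2 ht⟩

theorem ray (y v : E4) : Tendsto (fun s : ℝ => y + s • v) (𝓝[>] 0) (𝓝 y) := by
  have : Continuous fun s : ℝ => y + s • v := by fun_prop
  simpa using (this.tendsto 0).mono_left nhdsWithin_le_nhds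

theorem slope {z : E4 → ℍ} {y : E4} {A : E4 →L[ℝ] ℍ} (h0 : z y = 0) (hA : HasFDerivAt z A y)
    (v : E4) : Tendsto (fun s : ℝ => s⁻¹ • z (y + s • v)) (𝓝[>] 0) (𝓝 (A v)) := by
  have h1 : HasDerivAt (fun s : ℝ => y + s • v) v 0 := by
    simpa using ((hasDerivAt_id (0 : ℝ)).smul_const v).const_add y
  have h2 : HasFDerivAt z A (y + (0 : ℝ) • v) := by simpa using hA
  have h3 := (hasDerivAt_iff_tendsto_slope_zero.1 (h2.comp_hasDerivAt (0 : ℝ) h1)).mono_left
    (nhdsGT_le_nhdsNE 0)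
  simpa [h0] using h3

theorem lower {z : E4 → ℍ} {y : E4} {S : Set E4} {c s : ℝ} (h : ∀ x ∈ S, c * ‖x - y‖ ≤ ‖z x‖)
    (hs : 0 < s) {v : E4} (hv : y + s • v ∈ S) : c * ‖v‖ ≤ ‖s⁻¹ • z (y + s • v)‖ := by
  have h1 := h _ hv
  rw [add_sub_cancel_left, norm_smul, Real.norm_eq_abs, abs_of_pos hs] at h1
  rw [norm_smul, norm_inv, Real.norm_eq_abs, abs_of_pos hs, ← div_eq_inv_mul, le_div_iff₀ hs]
  linarith

theorem part2 {B : Type} [NormedAddCommGroup B] [NormedSpace ℝ B] [CompleteSpace B] {z : E4 → ℍ}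
    {y : E4} {A : E4 →L[ℝ] ℍ} {S : Set E4} {c : ℝ} {a : E4 → B} (hc : 0 < c) (hS : IsCompact S)
    (hy : S ∈ 𝓝 y) (hz : ContinuousOn z S) (ha : ContinuousOn a S) (h0 : z y = 0)
    (hA : HasFDerivAt z A y) (h : ∀ x ∈ S, c * ‖x - y‖ ≤ ‖z x‖) :
    Tendsto (fun t => ∫ x in S, hk t (z x) • a x) (𝓝[>] 0) (𝓝 ((jac A)⁻¹ • a y)) := by
  have hlow : ∀ v, c * ‖v‖ ≤ ‖A v‖ := fun v =>
    ge_of_tendsto (slope h0 hA v).norm (by
      filter_upwards [(ray y v).eventually hy, self_mem_nhdsWithin] with s h1 h2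
      exact lower h h2 h1)
  obtain ⟨C, hC⟩ := hS.exists_bound_of_continuousOn ha
  have hC0 : 0 ≤ C := (norm_nonneg _).trans (hC y (mem_of_mem_nhds hy))
  let G : ℝ → E4 → B := fun t => S.indicator fun x => hk t (z x) • a x
  have hG : ∀ t, Integrable (G t) := fun t => (integrable_indicator_iff hS.measurableSet).2
    ((((hk_cont t).comp_continuousOn hz).smul ha).integrableOn_compact hS)
  have e1 : ∀ t, 0 < t → ∀ v, y + √t • v ∈ S → √t ^ 4 • G t (y + √t • v) =
      hk 1 ((√t)⁻¹ • z (y + √t • v)) • a (y + √t • v) := fun t ht v hv => by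
    simp only [G, indicator_of_mem hv, smul_smul, hk_scale ht]
  have key : Tendsto (fun t => ∫ v, √t ^ 4 • G t (y + √t • v)) (𝓝[>] 0)
      (𝓝 (∫ v, hk 1 (A v) • a y)) := by
    refine tendsto_integral_filter_of_dominated_convergence (fun v => ga c 1 v * C) ?_ ?_
      ((ga_integrable hc one_pos).mul_const C) (Eventually.of_forall fun v => ?_)
    · filter_upwards [self_mem_nhdsWithin] with t ht
      exact ((((hG t).comp_add_left y).comp_smul (Real.sqrt_pos.2 ht).ne').smul
        (√t ^ 4)).aestronglyMeasurable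
    · filter_upwards [self_mem_nhdsWithin] with t ht
      refine Eventually.of_forall fun v => ?_
      by_cases hv : y + √t • v ∈ S
      · rw [e1 t ht v hv, norm_smul, Real.norm_eq_abs, abs_of_nonneg (hk_nonneg _ _)]
        exact mul_le_mul (hk_le hc one_pos (lower h (Real.sqrt_pos.2 ht) hv)) (hC _ hv)
          (norm_nonneg _) (ga_nonneg _ _ _)
      · simp only [G, indicator_of_notMem hv, smul_zero, norm_zero]
        exact mul_nonneg (ga_nonneg _ _ _) hC0
    · have h1 := (ray y v).comp sqrt_lim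
      have h2 := (((hk_cont 1).tendsto _).comp ((slope h0 hA v).comp sqrt_lim)).smul
        ((ha.continuousAt hy).tendsto.comp h1)
      refine h2.congr' ?_
      filter_upwards [h1.eventually hy, self_mem_nhdsWithin] with t h3 h4
      exact (e1 t h4 v h3).symm
  rw [integral_smul_const, hk_lin hc one_pos hlow] at key
  refine key.congr' ?_
  filter_upwards [self_mem_nhdsWithin] with t ht
  have hs := Real.sqrt_pos.2 ht
  rw [integral_smul, Measure.integral_comp_smul_of_nonneg volume (fun x => G t (y + x)) √t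
    (hR := hs.le), integral_add_left_eq_self (G t) y, finrank_euclideanSpace_fin, smul_smul,
    mul_inv_cancel₀ (by positivity), one_smul, integral_indicator hS.measurableSet]

end Ai

theorem ai : AiStmt :=
  ⟨fun _ _ _ _ _ hc ht hS hz h => Ai.part1 hc ht hS hz h,
    fun _ _ _ _ _ _ _ _ _ _ hc hS hy hz ha h0 hA h => Ai.part2 hc hS hy hz ha h0 hA h⟩

end Pool.Agent.MP_e1dc65_gt.A

end
end MrgPart0

-- ======== part 1: formerly Pool.Agent.MP_e1dc65_gt.a.ClsV
section MrgPart1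

/-! PROJECT HC, part A: calculus of the ideals `Van`. -/

set_option maxSynthPendingDepth 3
set_option linter.unusedVariables false

open scoped Quaternion ContDiff Topology RealInnerProductSpace
open Set Filter MeasureTheory Metric

noncomputable section

namespace Pool.Agent.MP_e1dc65_gt.A

theorem co_apply (b : Fin 4) (z : ℍ) : co b z = ⟪ε b, z⟫ := rfl
theorem co_ε (b c : Fin 4) : co b (ε c) = if b = c then 1 else 0 :=
  orthonormal_iff_ite.1 ε.orthonormal b c
theorem sum_co (z : ℍ) : ∑ b, co b z • ε b = z := ε.sum_repr' z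
theorem sum_co_sq (z : ℍ) : ∑ b, co b z * co b z = ‖z‖ ^ 2 := by
  rw [← real_inner_self_eq_norm_sq, ← ε.sum_inner_mul_inner z z]
  exact Finset.sum_congr rfl fun b _ => by rw [co_apply, real_inner_comm]
theorem abs_co_le (b : Fin 4) (z : ℍ) : |co b z| ≤ ‖z‖ := by
  simpa only [ε.orthonormal.1 b, one_mul, co_apply] using abs_real_inner_le_norm (ε b) z

variable {P P' A B C : Type} [NormedAddCommGroup P] [NormedSpace ℝ P] [NormedAddCommGroup P']
  [NormedSpace ℝ P'] [NormedAddCommGroup A] [NormedSpace ℝ A] [NormedAddCommGroup B]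
  [NormedSpace ℝ B] [NormedAddCommGroup C] [NormedSpace ℝ C] {z : P → ℍ} {i j : ℕ} {a a' : P → B}

theorem contDiff_co (b : Fin 4) (hz : ContDiff ℝ ∞ z) : ContDiff ℝ ∞ fun p => co b (z p) :=
  (co b).contDiff.comp hz

theorem van_zero_iff : Van z 0 a ↔ ContDiff ℝ ∞ a := Iff.rfl
theorem Van.smooth (hz : ContDiff ℝ ∞ z) (h : Van z j a) : ContDiff ℝ ∞ a := by
  induction j generalizing a with
  | zero => exact h
  | succ j ih =>
    obtain ⟨f, h1, h2⟩ := h
    rw [funext h2]
    exact ContDiff.sum fun b _ => (contDiff_co b hz).smul (ih (h1 b))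
theorem Van.congr (h : Van z j a) (e : ∀ p, a' p = a p) : Van z j a' := funext e ▸ h
theorem van_zero : Van z j (fun _ => (0 : B)) := by
  induction j with
  | zero => exact contDiff_const
  | succ j ih => exact ⟨fun _ _ => 0, fun _ => ih, fun p => by simp⟩
theorem Van.add (h : Van z j a) (h' : Van z j a') : Van z j fun p => a p + a' p := by
  induction j generalizing a a' with
  | zero => exact ContDiff.add h h'
  | succ j ih =>
    obtain ⟨f, h1, h2⟩ := h
    obtain ⟨g, h3, h4⟩ := h'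
    exact ⟨fun b p => f b p + g b p, fun b => ih (h1 b) (h3 b), fun p => by
      simp only [h2, h4, smul_add, Finset.sum_add_distrib]⟩
theorem Van.bilin_zero (L : A →L[ℝ] B →L[ℝ] C) {f : P → A} (hf : ContDiff ℝ ∞ f) (h : Van z j a) :
    Van z j fun p => L (f p) (a p) := by
  induction j generalizing a with
  | zero => exact (L.contDiff.comp hf).clm_apply h
  | succ j ih =>
    obtain ⟨g, h1, h2⟩ := h
    exact ⟨fun b p => L (f p) (g b p), fun b => ih (h1 b), fun p => by
      simp only [h2, map_sum, map_smul]⟩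
theorem Van.clm (L : B →L[ℝ] C) (h : Van z j a) : Van z j fun p => L (a p) := by
  induction j generalizing a with
  | zero => exact L.contDiff.comp h
  | succ j ih =>
    obtain ⟨g, h1, h2⟩ := h
    exact ⟨fun b p => L (g b p), fun b => ih (h1 b), fun p => by
      simp only [h2, map_sum, map_smul]⟩
theorem Van.neg (h : Van z j a) : Van z j fun p => -a p := h.clm (-ContinuousLinearMap.id ℝ B)
theorem Van.sub (h : Van z j a) (h' : Van z j a') : Van z j fun p => a p - a' p :=
  (h.add h'.neg).congr fun _ => sub_eq_add_neg _ _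
theorem Van.const_smul (c : ℝ) (h : Van z j a) : Van z j fun p => c • a p :=
  h.clm (c • ContinuousLinearMap.id ℝ B)
theorem Van.sum {ι : Type} {s : Finset ι} {f : ι → P → B} (h : ∀ n ∈ s, Van z j (f n)) :
    Van z j fun p => ∑ n ∈ s, f n p := by
  classical
  induction s using Finset.induction_on with
  | empty => exact van_zero.congr fun _ => Finset.sum_empty
  | insert n s hn ih =>
    exact ((h n (Finset.mem_insert_self _ _)).add
      (ih fun m hm => h m (Finset.mem_insert_of_mem hm))).congr fun _ => Finset.sum_insert hn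
theorem Van.smul_zero' {f : P → ℝ} (hf : ContDiff ℝ ∞ f) (h : Van z j a) :
    Van z j fun p => f p • a p := h.bilin_zero (ContinuousLinearMap.lsmul ℝ ℝ) hf
theorem Van.pred (hz : ContDiff ℝ ∞ z) (h : Van z (j + 1) a) : Van z j a := by
  obtain ⟨f, h1, h2⟩ := h
  exact (Van.sum fun b _ => (h1 b).smul_zero' (contDiff_co b hz)).congr h2
theorem Van.mono (hz : ContDiff ℝ ∞ z) (h : Van z j a) (hij : i ≤ j) : Van z i a := by
  induction hij with
  | refl => exact h
  | step _ ih => exact ih (h.pred hz)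
theorem Van.bilin (L : A →L[ℝ] B →L[ℝ] C) {f : P → A} (hf : Van z i f) (h : Van z j a) :
    Van z (i + j) fun p => L (f p) (a p) := by
  induction i generalizing f with
  | zero => exact (zero_add j).symm ▸ h.bilin_zero L hf
  | succ i ih =>
    obtain ⟨g, h1, h2⟩ := hf
    rw [Nat.add_right_comm]
    exact ⟨fun b p => L (g b p) (a p), fun b => ih (h1 b), fun p => by
      simp only [h2, map_sum, map_smul, sum_apply, smul_apply]⟩
theorem Van.smul {f : P → ℝ} (hf : Van z i f) (h : Van z j a) :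
    Van z (i + j) fun p => f p • a p := hf.bilin (ContinuousLinearMap.lsmul ℝ ℝ) h
theorem Van.co_smul (b : Fin 4) (h : Van z j a) : Van z (j + 1) fun p => co b (z p) • a p :=
  ⟨fun c p => if c = b then a p else 0, fun c => by
    by_cases e : c = b
    · simpa only [if_pos e] using h
    · simpa only [if_neg e] using van_zero, fun p => by simp⟩
theorem van_co (b : Fin 4) : Van z 1 fun p => co b (z p) :=
  (Van.co_smul (j := 0) (a := fun _ => (1 : ℝ)) b contDiff_const).congr fun _ => (mul_one _).symm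
theorem Van.fd (hz : ContDiff ℝ ∞ z) (h : Van z j a) : Van z (j - 1) (fderiv ℝ a) := by
  induction j generalizing a with
  | zero => exact ContDiff.fderiv_right h le_rfl
  | succ j ih =>
    obtain ⟨f, h1, h2⟩ := h
    refine (Van.sum (s := Finset.univ) fun b _ =>
      (((ih (h1 b)).co_smul b).mono hz (i := j) (by omega)).add
      ((h1 b).bilin_zero (ContinuousLinearMap.smulRightL ℝ P B)
        ((contDiff_co b hz).fderiv_right le_rfl))).congr fun p => ?_
    rw [funext h2]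
    exact (HasFDerivAt.fun_sum fun b _ =>
      ((contDiff_co b hz).differentiable (by simp) p).hasFDerivAt.fun_smul
        (((h1 b).smooth hz).differentiable (by simp) p).hasFDerivAt).fderiv
theorem Van.comp {f : P' → P} (h : Van z j a) (hf : ContDiff ℝ ∞ f) :
    Van (fun p => z (f p)) j fun p => a (f p) := by
  induction j generalizing a with
  | zero => exact ContDiff.comp h hf
  | succ j ih =>
    obtain ⟨g, h1, h2⟩ := h
    exact ⟨fun b p => g b (f p), fun b => ih (h1 b), fun p => h2 _⟩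
theorem Van.eq_zero (h : Van z (j + 1) a) {p : P} (hp : z p = 0) : a p = 0 := by
  obtain ⟨g, -, h2⟩ := h
  simp [h2, hp]
theorem Van.bound (hz : ContDiff ℝ ∞ z) (h : Van z j a) {K : Set P} (hK : IsCompact K) :
    ∃ M, 0 ≤ M ∧ ∀ p ∈ K, ‖a p‖ ≤ M * ‖z p‖ ^ j := by
  induction j generalizing a with
  | zero =>
    obtain ⟨M, hM⟩ := hK.exists_bound_of_continuousOn (ContDiff.continuous h).continuousOn
    exact ⟨|M|, abs_nonneg _, fun p hp => by simpa using (hM p hp).trans (le_abs_self M)⟩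
  | succ j ih =>
    obtain ⟨g, h1, h2⟩ := h
    choose M h3 h4 using fun b => ih (h1 b)
    refine ⟨∑ b, M b, Finset.sum_nonneg fun b _ => h3 b, fun p hp => ?_⟩
    rw [h2, Finset.sum_mul]
    refine norm_sum_le_of_le _ fun b _ => ?_
    rw [norm_smul, pow_succ, ← mul_assoc, mul_comm]
    exact mul_le_mul (h4 b p hp) (abs_co_le b _) (norm_nonneg _)
      ((norm_nonneg _).trans (h4 b p hp))
/-- a smooth function that vanishes near the zero set of `z` vanishes to every order -/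
theorem van_of_flat (hz : ContDiff ℝ ∞ z) (h : ContDiff ℝ ∞ a) {δ : ℝ} (hδ : 0 < δ)
    (h0 : ∀ p, ‖z p‖ < δ → a p = 0) (j : ℕ) : Van z j a := by
  induction j generalizing a with
  | zero => exact h
  | succ j ih =>
    refine ⟨fun b p => (co b (z p) / ‖z p‖ ^ 2) • a p, fun b => ih (contDiff_iff_contDiffAt.2
      fun p => ?_) fun p hp => by simp only [h0 p hp, smul_zero], fun p => ?_⟩
    · by_cases c : ‖z p‖ < δ
      · refine (contDiffAt_const (c := 0)).congr_of_eventuallyEq ?_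
        filter_upwards [hz.continuous.norm.continuousAt.eventually_lt continuousAt_const c]
          with q hq
        rw [h0 q hq, smul_zero]
      · exact ((contDiff_co b hz).contDiffAt.div (hz.norm_sq ℝ).contDiffAt
          (pow_ne_zero _ (hδ.trans_le (not_lt.1 c)).ne')).smul h.contDiffAt
    · by_cases c : ‖z p‖ < δ
      · simp [h0 p c]
      · simp only [smul_smul, ← Finset.sum_smul, ← mul_div_assoc, ← Finset.sum_div, sum_co_sq]
        rw [div_self (pow_ne_zero _ (hδ.trans_le (not_lt.1 c)).ne'), one_smul]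

/-- smooth dependence of an integral over `[0, 1]` on a parameter -/
theorem contDiff_int {F : P × ℝ → B} (hF : ContDiff ℝ ∞ F) :
    ContDiff ℝ ∞ fun p => ∫ s in (0 : ℝ)..1, F (p, s) := by
  let χ : ContDiffBump (0 : ℝ) := ⟨1, 2, one_pos, one_lt_two⟩
  have h := contDiffOn_convolution_right_with_param_comp (μ := volume) (n := ⊤)
    (ContinuousLinearMap.lsmul ℝ ℝ) (s := univ) (v := fun _ : P => (0 : ℝ)) contDiffOn_const
    (f := (Ioc (0 : ℝ) 1).indicator fun _ => (1 : ℝ)) (g := fun p x => χ x • F (p, -x))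
    isOpen_univ (isCompact_closedBall 0 2)
    (fun p x _ hx => by rw [χ.zero_of_le_dist (not_le.1 hx).le, zero_smul])
    ((locallyIntegrable_const _).indicator measurableSet_Ioc)
    (((χ.contDiff.comp contDiff_snd).smul
      (hF.comp (contDiff_fst.prodMk contDiff_snd.neg))).contDiffOn)
  convert contDiffOn_univ.1 h using 2 with p
  rw [intervalIntegral.integral_of_le zero_le_one, ← integral_indicator measurableSet_Ioc,
    convolution_def]
  refine integral_congr_ae (Eventually.of_forall fun s => ?_)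
  by_cases c : s ∈ Ioc (0 : ℝ) 1
  · have : χ (-s) = 1 := χ.one_of_mem_closedBall (by simpa [χ, abs_of_pos c.1] using c.2)
    simp [c, this]
  · simp [c]

section Snd
variable {a : P × ℍ → B}

theorem contDiff_pd (b : Fin 4) (h : ContDiff ℝ ∞ a) : ContDiff ℝ ∞ (pd b a) :=
  (h.fderiv_right le_rfl).clm_apply contDiff_const
theorem Van.pdv (b : Fin 4) (h : Van Prod.snd j a) : Van Prod.snd (j - 1) (pd b a) :=
  (h.fd contDiff_snd).clm (ContinuousLinearMap.apply ℝ B ((0, ε b) : P × ℍ))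
theorem pd_comm (b c : Fin 4) (h : ContDiff ℝ ∞ a) : pd b (pd c a) = pd c (pd b a) := by
  have k : ∀ b c p, pd b (pd c a) p = fderiv ℝ (fderiv ℝ a) p (0, ε b) (0, ε c) := fun b c p => by
    have := ((h.fderiv_right (m := ∞) le_rfl).differentiable (by simp) p).hasFDerivAt.clm_apply
      (hasFDerivAt_const ((0, ε c) : P × ℍ) p)
    rw [pd, show pd c a = fun q => fderiv ℝ a q (0, ε c) from rfl, this.fderiv]
    simp
  funext p
  rw [k, k]
  exact (h.contDiffAt.isSymmSndFDerivAt (by simpa using by decide)).eq _ _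

/-- weighted radial averages preserve the order of vanishing -/
theorem Van.avg [CompleteSpace B] {w : ℝ → ℝ} (hw : ContDiff ℝ ∞ w) (h : Van Prod.snd j a) :
    Van Prod.snd j fun p : P × ℍ => ∫ s in (0 : ℝ)..1, w s • a (p.1, s • p.2) := by
  induction j generalizing a w with
  | zero =>
    exact contDiff_int (F := fun q : (P × ℍ) × ℝ => w q.2 • a (q.1.1, q.2 • q.1.2))
      ((hw.comp contDiff_snd).smul (ContDiff.comp h (by fun_prop)))
  | succ j ih =>
    obtain ⟨f, h1, h2⟩ := h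
    refine ⟨_, fun b => ih (hw.mul contDiff_id) (h1 b), fun p => ?_⟩
    simp only [← intervalIntegral.integral_smul]
    rw [← intervalIntegral.integral_finsetSum fun b _ => Continuous.intervalIntegrable (by
      have := ((h1 b).smooth contDiff_snd).continuous
      have := hw.continuous
      fun_prop) _ _]
    refine intervalIntegral.integral_congr fun s _ => ?_
    simp only [h2, Finset.smul_sum, smul_smul, map_smul, smul_eq_mul, id]
    exact Finset.sum_congr rfl fun b _ => by congr 1; ring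

/-- Hadamard's lemma -/
theorem van_succ_of [FiniteDimensional ℝ P] [CompleteSpace B] (h : ContDiff ℝ ∞ a)
    (h0 : ∀ y, a (y, 0) = 0) (h1 : ∀ c, Van Prod.snd j (pd c a)) : Van Prod.snd (j + 1) a := by
  refine ⟨_, fun c => (h1 c).avg (w := fun _ => 1) contDiff_const, fun p => ?_⟩
  have hc : ∀ c, Continuous fun s : ℝ => co c p.2 • (1 : ℝ) • pd c a (p.1, s • p.2) := fun c => by
    have := (contDiff_pd c h).continuous
    fun_prop
  simp only [← intervalIntegral.integral_smul]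
  rw [← intervalIntegral.integral_finsetSum fun c _ => (hc c).intervalIntegrable _ _,
    intervalIntegral.integral_eq_sub_of_hasDerivAt (f := fun s : ℝ => a (p.1, s • p.2))
      (fun s _ => ?_) ((continuous_finsetSum _ fun c _ => hc c).intervalIntegrable _ _)]
  · simp [h0]
  · have := HasFDerivAt.comp_hasDerivAt (f := fun s : ℝ => (p.1, s • p.2)) s
      (h.differentiable (by simp) _).hasFDerivAt
      (HasDerivAt.prodMk (hasDerivAt_const s p.1) ((hasDerivAt_id s).smul_const p.2))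
    refine this.congr_deriv ?_
    simp only [pd, one_smul, ← map_smul, ← map_sum]
    congr 1
    refine Prod.ext ?_ ?_ <;> simp [Prod.fst_sum, Prod.snd_sum, sum_co]
theorem van_one_of [FiniteDimensional ℝ P] [CompleteSpace B] (h : ContDiff ℝ ∞ a)
    (h0 : ∀ y, a (y, 0) = 0) : Van Prod.snd 1 a :=
  van_succ_of h h0 fun c => contDiff_pd c h
theorem van_two_of [FiniteDimensional ℝ P] [CompleteSpace B] (h : ContDiff ℝ ∞ a)
    (h0 : ∀ y, a (y, 0) = 0) (h1 : ∀ c y, pd c a (y, 0) = 0) : Van Prod.snd 2 a :=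
  van_succ_of h h0 fun c => van_one_of (contDiff_pd c h) (h1 c)

end Snd

end Pool.Agent.MP_e1dc65_gt.A

end
end MrgPart1

-- ======== part 2: formerly Pool.Agent.MP_e1dc65_gt.a.Qalg
section MrgPart2

/-! PROJECT HC, part A, row QALG: quaternionic kernels. -/

set_option maxSynthPendingDepth 3

open scoped Quaternion
open Module

noncomputable section

namespace Pool.Agent.MP_e1dc65_gt.A

namespace Qalg

variable {S : Type} [AddCommGroup S] [Module ℝ S]

/-- a space with two anticommuting complex structures has dimension divisible by four -/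
theorem four_dvd_end (I J : Module.End ℝ S) (hI : I * I = -1) (hJ : J * J = -1)
    (hIJ : J * I = -(I * J)) : 4 ∣ finrank ℝ S := by
  let q : QuaternionAlgebra.Basis (Module.End ℝ S) (-1 : ℝ) 0 (-1) :=
    { i := I, j := J, k := I * J
      i_mul_i := by simp [hI]
      j_mul_j := by simp [hJ]
      i_mul_j := rfl
      j_mul_i := by simp [hIJ] }
  let φ : ℍ[ℝ] →ₐ[ℝ] Module.End ℝ S := q.liftHom
  let : Module ℍ[ℝ] S := Module.compHom S φ.toRingHom
  have : IsScalarTower ℝ ℍ[ℝ] S := ⟨fun c a s => by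
    change φ (c • a) s = c • φ a s
    rw [map_smul]; rfl⟩
  have h := Module.finrank_mul_finrank ℝ ℍ[ℝ] S
  rw [Quaternion.finrank_eq_four] at h
  exact ⟨_, h.symm⟩

theorem four_dvd (U : Submodule ℝ S) (I J : S →ₗ[ℝ] S) (hI : ∀ ψ, I (I ψ) = -ψ)
    (hJ : ∀ ψ, J (J ψ) = -ψ) (hIJ : ∀ ψ, I (J ψ) = -J (I ψ)) (uI : ∀ x ∈ U, I x ∈ U)
    (uJ : ∀ x ∈ U, J x ∈ U) : 4 ∣ finrank ℝ U := by
  refine four_dvd_end (I.restrict uI) (J.restrict uJ) ?_ ?_ ?_
  · ext x; simp [hI]
  · ext x; simp [hJ]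
  · ext x; simp [hIJ]

theorem mem_p {B : S →ₗ[ℝ] S} {x : S} : x ∈ LinearMap.ker (B - 1) ↔ B x = x := by
  simp [sub_eq_zero]

theorem mem_m {B : S →ₗ[ℝ] S} {x : S} : x ∈ LinearMap.ker (B + 1) ↔ B x = -x := by
  simp [add_eq_zero_iff_eq_neg]

/-- splitting by an involution -/
theorem split (U : Submodule ℝ S) [FiniteDimensional ℝ U] (B : S →ₗ[ℝ] S) (hB : ∀ ψ, B (B ψ) = ψ)
    (uB : ∀ x ∈ U, B x ∈ U) : finrank ℝ U =
      finrank ℝ ↥(U ⊓ LinearMap.ker (B - 1)) + finrank ℝ ↥(U ⊓ LinearMap.ker (B + 1)) := by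
  have : FiniteDimensional ℝ ↥(U ⊓ LinearMap.ker (B - 1)) :=
    Submodule.finiteDimensional_of_le inf_le_left
  have : FiniteDimensional ℝ ↥(U ⊓ LinearMap.ker (B + 1)) :=
    Submodule.finiteDimensional_of_le inf_le_left
  have h := Submodule.finrank_sup_add_finrank_inf_eq (U ⊓ LinearMap.ker (B - 1))
    (U ⊓ LinearMap.ker (B + 1))
  have h1 : (U ⊓ LinearMap.ker (B - 1)) ⊔ (U ⊓ LinearMap.ker (B + 1)) = U := by
    refine le_antisymm (sup_le inf_le_left inf_le_left) fun x hx => ?_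
    refine Submodule.mem_sup.2 ⟨(1 / 2 : ℝ) • (x + B x), ⟨U.smul_mem _ (U.add_mem hx (uB x hx)), ?_⟩,
      (1 / 2 : ℝ) • (x - B x), ⟨U.smul_mem _ (U.sub_mem hx (uB x hx)), ?_⟩, ?_⟩
    · refine mem_p.2 ?_
      rw [map_smul, map_add, hB, add_comm]
    · refine mem_m.2 ?_
      rw [map_smul, map_sub, hB, ← smul_neg, neg_sub]
    · module
  have h2 : (U ⊓ LinearMap.ker (B - 1)) ⊓ (U ⊓ LinearMap.ker (B + 1)) = ⊥ := by
    refine (Submodule.eq_bot_iff _).2 fun x hx => ?_
    have a := mem_p.1 hx.1.2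
    have b := mem_m.1 hx.2.2
    have : (2 : ℝ) • x = 0 := by rw [two_smul]; nth_rewrite 1 [← a]; rw [b, neg_add_cancel]
    simpa using this
  rw [h1, h2, finrank_bot, add_zero] at h
  exact h

end Qalg

open Qalg in
theorem qalg : QalgStmt := by
  intro S _ _ D A B I J hf hA hB hAB hAD hBD hI hJ hIJ hID hJD hIA hJA hIB hJB
  have fd : ∀ U : Submodule ℝ S, FiniteDimensional ℝ ↥(LinearMap.ker D ⊓ U) := fun U =>
    Submodule.finiteDimensional_of_le inf_le_left
  have kA : ∀ x, D x = 0 → D (A x) = 0 := fun x hx => by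
    have := hAD x; rw [hx, map_zero] at this; exact neg_eq_zero.1 this.symm
  have kB : ∀ x, D x = 0 → D (B x) = 0 := fun x hx => by
    have := hBD x; rw [hx, map_zero] at this; exact neg_eq_zero.1 this.symm
  have s1 := split (LinearMap.ker D ⊓ LinearMap.ker (A - 1)) B hB fun x hx =>
    ⟨kB x hx.1, mem_p.2 (by rw [hAB, mem_p.1 hx.2])⟩
  have s2 := split (LinearMap.ker D ⊓ LinearMap.ker (A + 1)) B hB fun x hx =>
    ⟨kB x hx.1, mem_m.2 (by rw [hAB, mem_m.1 hx.2, map_neg])⟩
  have s3 := split (LinearMap.ker D ⊓ LinearMap.ker (B - 1)) A hA fun x hx =>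
    ⟨kA x hx.1, mem_p.2 (by rw [← hAB, mem_p.1 hx.2])⟩
  have s4 := split (LinearMap.ker D ⊓ LinearMap.ker (B + 1)) A hA fun x hx =>
    ⟨kA x hx.1, mem_m.2 (by rw [← hAB, mem_m.1 hx.2, map_neg])⟩
  rw [inf_right_comm _ (LinearMap.ker (B - 1)), inf_right_comm _ (LinearMap.ker (B - 1))] at s3
  rw [inf_right_comm _ (LinearMap.ker (B + 1)), inf_right_comm _ (LinearMap.ker (B + 1))] at s4
  obtain ⟨a, ha⟩ := four_dvd (LinearMap.ker D ⊓ LinearMap.ker (A - 1) ⊓ LinearMap.ker (B - 1)) I J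
    hI hJ hIJ
    (fun x hx => ⟨⟨LinearMap.mem_ker.2 (by rw [← hID, hx.1.1, map_zero]),
      mem_p.2 (by rw [← hIA, mem_p.1 hx.1.2])⟩, mem_p.2 (by rw [← hIB, mem_p.1 hx.2])⟩)
    (fun x hx => ⟨⟨LinearMap.mem_ker.2 (by rw [← hJD, hx.1.1, map_zero]),
      mem_p.2 (by rw [← hJA, mem_p.1 hx.1.2])⟩, mem_p.2 (by rw [← hJB, mem_p.1 hx.2])⟩)
  obtain ⟨d, hd⟩ := four_dvd (LinearMap.ker D ⊓ LinearMap.ker (A + 1) ⊓ LinearMap.ker (B + 1)) I J
    hI hJ hIJ
    (fun x hx => ⟨⟨LinearMap.mem_ker.2 (by rw [← hID, hx.1.1, map_zero]),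
      mem_m.2 (by rw [← hIA, mem_m.1 hx.1.2, map_neg])⟩,
      mem_m.2 (by rw [← hIB, mem_m.1 hx.2, map_neg])⟩)
    (fun x hx => ⟨⟨LinearMap.mem_ker.2 (by rw [← hJD, hx.1.1, map_zero]),
      mem_m.2 (by rw [← hJA, mem_m.1 hx.1.2, map_neg])⟩,
      mem_m.2 (by rw [← hJB, mem_m.1 hx.2, map_neg])⟩)
  refine ⟨(a : ℤ) - d, ?_⟩
  unfold ind
  rw [s1, s2, s3, s4, ha, hd]
  push_cast
  ring

end Pool.Agent.MP_e1dc65_gt.A

end
end MrgPart2

-- ======== part 3: formerly Pool.Agent.MP_e1dc65_gt.a.Weitz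
section MrgPart3

/-! PROJECT HC, part A: the Weitzenboeck formula. -/

set_option maxSynthPendingDepth 3

open scoped Quaternion ContDiff Topology RealInnerProductSpace
open Set Filter MeasureTheory Metric

noncomputable section

namespace Pool.Agent.MP_e1dc65_gt.A

namespace Weitz

theorem cl_anti (u v : ℍ) (w : W) : cl u (cl v w) + cl v (cl u w) = (-(2 * ⟪u, v⟫)) • w := by
  have h1 : u * star v + v * star u = ((2 * ⟪u, v⟫ : ℝ) : ℍ) := by
    ext <;> simp [Quaternion.inner_def] <;> ring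
  have h2 : star u * v + star v * u = ((2 * ⟪u, v⟫ : ℝ) : ℍ) := by
    ext <;> simp [Quaternion.inner_def] <;> ring
  refine W_ext ?_ ?_
  · have : u * -(star v * w.fst) + v * -(star u * w.fst) = (-(2 * ⟪u, v⟫)) • w.fst := by
      rw [neg_smul, ← Quaternion.coe_mul_eq_smul, ← h1]; noncomm_ring
    simpa [cl_apply] using this
  · have : -(star u * (v * w.snd)) + -(star v * (u * w.snd)) = (-(2 * ⟪u, v⟫)) • w.snd := by
      rw [neg_smul, ← Quaternion.coe_mul_eq_smul, ← h2]; noncomm_ring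
    simpa [cl_apply] using this

theorem lie_cl {a b : ℍ} (ha : a.re = 0) (hb : b.re = 0) (c v : ℍ) (w : W) :
    lie a b c (cl v w) = cl v (lie a b c w) + cl (a * v - v * b) w := by
  have h1 : star a = -a := Quaternion.star_eq_neg.2 ha
  have h2 : star b = -b := Quaternion.star_eq_neg.2 hb
  refine W_ext ?_ ?_
  · simp [cl_apply, lie_apply]
    noncomm_ring
  · simp [cl_apply, lie_apply, h1, h2]
    noncomm_ring

/-- Clifford multiplication as a linear map -/
def clL : ℍ →ₗ[ℝ] W →L[ℝ] W where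
  toFun := cl
  map_add' a b := by
    ext1 s
    refine W_ext ?_ ?_ <;> simp [cl_apply, add_mul, add_comm]
  map_smul' c a := by
    ext1 s
    refine W_ext ?_ ?_ <;> simp [cl_apply]

theorem skew0 (c : ℍ →ₗ[ℝ] W →L[ℝ] W) (N : ℍ →L[ℝ] W) (A : Fin 4 → ℍ)
    (hA : ∀ i j, ⟪ε i, A j⟫ = -⟪ε j, A i⟫) :
    ∑ b, c (A b) (N (ε b)) = -∑ b, c (ε b) (N (A b)) := by
  have e : ∀ b, A b = ∑ i, ⟪ε i, A b⟫ • ε i := fun b => (ε.sum_repr' (A b)).symm
  have e1 : ∀ b, c (A b) (N (ε b)) = ∑ i, ⟪ε i, A b⟫ • c (ε i) (N (ε b)) := fun b => by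
    conv_lhs => rw [e b]
    simp only [map_sum, map_smul, _root_.sum_apply, _root_.smul_apply]
  have e2 : ∀ b, c (ε b) (N (A b)) = ∑ i, ⟪ε i, A b⟫ • c (ε b) (N (ε i)) := fun b => by
    conv_lhs => rw [e b]
    simp only [map_sum, map_smul]
  simp only [e1, e2]
  rw [Finset.sum_comm, ← Finset.sum_neg_distrib]
  refine Finset.sum_congr rfl fun i _ => ?_
  rw [← Finset.sum_neg_distrib]
  refine Finset.sum_congr rfl fun j _ => ?_
  rw [hA i j, neg_smul]

theorem skew {a b : ℍ} (ha : a.re = 0) (hb : b.re = 0) (N : ℍ →L[ℝ] W) :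
    ∑ i, cl (a * ε i - ε i * b) (N (ε i)) = -∑ i, cl (ε i) (N (a * ε i - ε i * b)) :=
  skew0 clL N (fun i => a * ε i - ε i * b) fun i j => by
    simp [Quaternion.inner_def, ha, hb]
    ring

theorem alg (X : Fin 4 → Fin 4 → W) : ∑ a, ∑ b, cl (ε a) (cl (ε b) (X a b)) =
    -∑ a, X a a + (1 / 2 : ℝ) • ∑ a, ∑ b, cl (ε a) (cl (ε b) (X a b - X b a)) := by
  have h1 : ∑ a, ∑ b, cl (ε a) (cl (ε b) (X a b)) + ∑ a, ∑ b, cl (ε a) (cl (ε b) (X b a)) =
      (-2 : ℝ) • ∑ a, X a a := by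
    rw [Finset.sum_comm (f := fun a b => cl (ε a) (cl (ε b) (X b a))), ← Finset.sum_add_distrib,
      Finset.smul_sum]
    refine Finset.sum_congr rfl fun a _ => ?_
    rw [← Finset.sum_add_distrib, Finset.sum_eq_single a]
    · rw [cl_anti, ε.inner_eq_ite, if_pos rfl, mul_one]
    · intro b _ hb
      rw [cl_anti, ε.inner_eq_ite, if_neg hb.symm, mul_zero, neg_zero, zero_smul]
    · simp
  simp only [map_sub, Finset.sum_sub_distrib]
  linear_combination (norm := module) (1 / 2 : ℝ) • h1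

section
variable {om : E4 → E4 →L[ℝ] W →L[ℝ] W} {u v : E4 → E4} {s : E4 → W} {x : E4}

theorem cov_smooth (hom : ContDiffAt ℝ ∞ om x) (hv : ContDiffAt ℝ ∞ v x)
    (hs : ContDiffAt ℝ ∞ s x) : ContDiffAt ℝ ∞ (cov om v s) x :=
  ((hs.fderiv_right (m := ∞) (by simp)).clm_apply hv).add ((hom.clm_apply hv).clm_apply hs)

theorem cov_cov (hom : ContDiffAt ℝ ∞ om x) (hv : ContDiffAt ℝ ∞ v x) (hs : ContDiffAt ℝ ∞ s x) :
    cov om u (cov om v s) x = fderiv ℝ (fderiv ℝ s) x (u x) (v x) +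
      fderiv ℝ s x (fderiv ℝ v x (u x)) + fderiv ℝ om x (u x) (v x) (s x) +
      om x (fderiv ℝ v x (u x)) (s x) + om x (v x) (fderiv ℝ s x (u x)) +
      om x (u x) (fderiv ℝ s x (v x)) + om x (u x) (om x (v x) (s x)) := by
  have h1 := ((hs.fderiv_right (m := ∞) (by simp)).differentiableAt (by simp)).hasFDerivAt
  have h2 := (hv.differentiableAt (by simp)).hasFDerivAt
  have h3 := (hom.differentiableAt (by simp)).hasFDerivAt
  have h4 := (hs.differentiableAt (by simp)).hasFDerivAt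
  have h5 : HasFDerivAt (cov om v s) _ x :=
    (h1.clm_apply h2).add ((h3.clm_apply h2).clm_apply h4)
  rw [cov, h5.fderiv, cov]
  simp only [_root_.add_apply, ContinuousLinearMap.comp_apply,
    ContinuousLinearMap.flip_apply, map_add]
  abel

theorem cov_comm (hom : ContDiffAt ℝ ∞ om x) (hu : ContDiffAt ℝ ∞ u x) (hv : ContDiffAt ℝ ∞ v x)
    (hs : ContDiffAt ℝ ∞ s x) :
    cov om u (cov om v s) x - cov om v (cov om u s) x = cur om x (u x) (v x) (s x) +
      (fderiv ℝ s x (fderiv ℝ v x (u x) - fderiv ℝ u x (v x)) +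
        om x (fderiv ℝ v x (u x) - fderiv ℝ u x (v x)) (s x)) := by
  have h2 : minSmoothness ℝ 2 ≤ ∞ := by
    rw [minSmoothness_of_isRCLikeNormedField]
    exact WithTop.coe_le_coe.2 (le_top : (2 : ℕ∞) ≤ ⊤)
  rw [cov_cov hom hv hs, cov_cov hom hu hs, hs.isSymmSndFDerivAt h2 (u x) (v x), cur]
  simp only [_root_.add_apply, _root_.sub_apply,
    mul_apply_eq_comp, map_sub]
  abel

theorem cov_sum (c : Fin 4 → W →L[ℝ] W) (f : Fin 4 → E4 → W) (hf : ∀ b, ContDiffAt ℝ ∞ (f b) x) :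
    cov om u (fun y => ∑ b, c b (f b y)) x =
      ∑ b, (c b (fderiv ℝ (f b) x (u x)) + om x (u x) (c b (f b x))) := by
  have h : HasFDerivAt (fun y => ∑ b, c b (f b y)) (∑ b, (c b).comp (fderiv ℝ (f b) x)) x :=
    HasFDerivAt.fun_sum fun b _ =>
      (c b).hasFDerivAt.comp x ((hf b).differentiableAt (by simp)).hasFDerivAt
  rw [cov, h.fderiv]
  simp only [_root_.sum_apply, ContinuousLinearMap.comp_apply, map_sum,
    Finset.sum_add_distrib]

theorem cur_smooth (hom : ContDiffAt ℝ ∞ om x) (hu : ContDiffAt ℝ ∞ u x)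
    (hv : ContDiffAt ℝ ∞ v x) : ContDiffAt ℝ ∞ (fun y => cur om y (u y) (v y)) x := by
  have h := hom.fderiv_right (m := ∞) (by simp)
  exact (((h.clm_apply hu).clm_apply hv).sub ((h.clm_apply hv).clm_apply hu)).add
    (((hom.clm_apply hu).mul (hom.clm_apply hv)).sub ((hom.clm_apply hv).mul (hom.clm_apply hu)))

end

theorem con_smooth0 (L : ℍ × ℍ × ℍ →L[ℝ] W →L[ℝ] W) {α β γ : E4 → E4 →L[ℝ] ℍ} {T : Set E4}
    (hα : ContDiffOn ℝ ∞ α T) (hβ : ContDiffOn ℝ ∞ β T) (hγ : ContDiffOn ℝ ∞ γ T) :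
    ContDiffOn ℝ ∞ (fun x => L.comp ((α x).prod ((β x).prod (γ x)))) T :=
  contDiffOn_clm_apply.2 fun _ => L.contDiff.comp_contDiffOn
    ((hα.clm_apply contDiffOn_const).prodMk
      ((hβ.clm_apply contDiffOn_const).prodMk (hγ.clm_apply contDiffOn_const)))

theorem om_smooth {R : Loc} {T : Set E4} (h : R.Ok T) (κ : Tw) : ContDiffOn ℝ ∞ (R.om κ) T := by
  refine con_smooth0 lieL h.αs h.βs ?_
  cases κ
  · exact contDiffOn_const
  · exact h.αs
  · exact h.βs

theorem fr_smooth {R : Loc} {T : Set E4} (h : R.Ok T) {x : E4} (hx : x ∈ T) (a : Fin 4) :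
    ContDiffAt ℝ ∞ (fr R.e a) x :=
  (h.frm.es.contDiffAt (h.frm.op.mem_nhds hx)).clm_apply contDiffAt_const

theorem pot_smooth (c : Fin 4 → W →L[ℝ] W) {Ω : E4 → Fin 4 → Fin 4 → W →L[ℝ] W} {x : E4}
    (h : ∀ a b, ContDiffAt ℝ ∞ (fun y => Ω y a b) x) :
    ContDiffAt ℝ ∞ (fun y => (1 / 2 : ℝ) • ∑ a, ∑ b, c a * c b * Ω y a b) x :=
  (ContDiffAt.sum fun a _ => ContDiffAt.sum fun b _ => contDiffAt_const.mul (h a b)).const_smul _

theorem lap_ok {R : Loc} {T : Set E4} (h : R.Ok T) (κ : Tw) : (R.lap κ).Ok T where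
  frm := h.frm
  om := om_smooth h κ
  h x hx := by
    have hn := h.frm.op.mem_nhds hx
    exact ((h.frm.es.contDiffAt hn).clm_apply (ContDiffAt.sum fun a _ =>
      (((h.αs.contDiffAt hn).clm_apply (fr_smooth h hx a)).mul contDiffAt_const).sub
        (contDiffAt_const.mul ((h.βs.contDiffAt hn).clm_apply (fr_smooth h hx a))))).contDiffWithinAt
  V x hx := (pot_smooth (fun a => cl (ε a)) (Ω := cf2 (R.om κ) R.e) fun a b =>
    cur_smooth ((om_smooth h κ).contDiffAt (h.frm.op.mem_nhds hx)) (fr_smooth h hx a)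
      (fr_smooth h hx b)).contDiffWithinAt

theorem sum_smooth (c : Fin 4 → W →L[ℝ] W) {f : Fin 4 → E4 → W} {x : E4}
    (hf : ∀ b, ContDiffAt ℝ ∞ (f b) x) : ContDiffAt ℝ ∞ (fun y => ∑ b, c b (f b y)) x :=
  ContDiffAt.sum fun b _ => contDiffAt_const.clm_apply (hf b)

/-- the bracket of two frame fields -/
theorem bracket {R : Loc} {T : Set E4} (h : R.Ok T) {x : E4} (hx : x ∈ T) (a b : Fin 4) :
    fderiv ℝ (fr R.e b) x (fr R.e a x) - fderiv ℝ (fr R.e a) x (fr R.e b x) =
      R.e x ((R.α x (fr R.e a x) * ε b - ε b * R.β x (fr R.e a x)) -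
        (R.α x (fr R.e b x) * ε a - ε a * R.β x (fr R.e b x))) := by
  have hn := h.frm.op.mem_nhds hx
  have d : ∀ c v, fderiv ℝ R.θ x v (fr R.e c x) + R.θ x (fderiv ℝ (fr R.e c) x v) = 0 := by
    intro c v
    have h1 := (((h.frm.θs.contDiffAt hn).differentiableAt (by simp)).hasFDerivAt.clm_apply
      ((fr_smooth h hx c).differentiableAt (by simp)).hasFDerivAt).fderiv
    have h2 : (fun y => R.θ y (fr R.e c y)) =ᶠ[𝓝 x] fun _ => ε c :=
      Filter.mem_of_superset hn fun y hy => h.frm.θe y hy _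
    rw [h2.fderiv_eq, fderiv_fun_const] at h1
    have h3 := congrArg (fun L : E4 →L[ℝ] ℍ => L v) h1
    simp only [Pi.zero_apply, _root_.zero_apply, _root_.add_apply,
      ContinuousLinearMap.comp_apply, ContinuousLinearMap.flip_apply] at h3
    rw [add_comm]; exact h3.symm
  have t := (h.lc x hx).tf (fr R.e a x) (fr R.e b x)
  have e : ∀ c, R.θ x (fr R.e c x) = ε c := fun c => h.frm.θe x hx _
  rw [e, e] at t
  rw [← h.frm.eθ x hx (_ - _), map_sub]
  congr 1
  linear_combination (norm := abel1) d b (fr R.e a x) - d a (fr R.e b x) - t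

theorem main {R : Loc} {T : Set E4} (h : R.Ok T) (κ : Tw) {s : E4 → W} {x : E4} (hx : x ∈ T)
    (hs : ContDiffAt ℝ ∞ s x) : R.dir κ (R.dir κ s) x = (R.lap κ).ap s x := by
  have hom := (om_smooth h κ).contDiffAt (h.frm.op.mem_nhds hx)
  have hf := fr_smooth h hx
  let N : ℍ →L[ℝ] W := (fderiv ℝ s x + (R.om κ x).flip (s x)).comp (R.e x)
  have hN : ∀ w, N w = fderiv ℝ s x (R.e x w) + R.om κ x (R.e x w) (s x) := fun _ => rfl
  let A : Fin 4 → Fin 4 → ℍ := fun a b => R.α x (fr R.e a x) * ε b - ε b * R.β x (fr R.e a x)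
  let X : Fin 4 → Fin 4 → W := fun a b =>
    cov (R.om κ) (fr R.e a) (cov (R.om κ) (fr R.e b) s) x
  have e1 : ∀ a, cov (R.om κ) (fr R.e a) (R.dir κ s) x =
      ∑ b, cl (ε b) (X a b) - ∑ b, cl (ε b) (N (A a b)) := fun a => by
    have h1 := cov_sum (om := R.om κ) (u := fr R.e a) (fun b => cl (ε b))
      (fun b => cov (R.om κ) (fr R.e b) s) fun b => cov_smooth hom (hf b) hs
    have h2 := skew ((h.lc x hx).ima (fr R.e a x)) ((h.lc x hx).imb (fr R.e a x)) N
    rw [sub_eq_add_neg, ← h2, ← Finset.sum_add_distrib]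
    refine h1.trans (Finset.sum_congr rfl fun b _ => ?_)
    have h3 := lie_cl ((h.lc x hx).ima (fr R.e a x)) ((h.lc x hx).imb (fr R.e a x))
      (R.γ κ x (fr R.e a x)) (ε b) (N (ε b))
    have h4 : X a b = fderiv ℝ (cov (R.om κ) (fr R.e b) s) x (fr R.e a x) +
      R.om κ x (fr R.e a x) (N (ε b)) := rfl
    rw [h4, map_add, add_assoc]
    exact congrArg _ h3
  have e2 : ∀ a b, X a b - X b a = cf2 (R.om κ) R.e x a b (s x) + (N (A a b) - N (A b a)) :=
    fun a b => by
      rw [← map_sub, hN, ← bracket h hx a b]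
      exact cov_comm hom (hf a) (hf b) hs
  have e3 := alg X
  have e4 := alg fun a b => N (A a b)
  have e5 : (R.lap κ).ap s x = -∑ a, X a a + ∑ a, N (A a a) +
      (1 / 2 : ℝ) • ∑ a, ∑ b, cl (ε a) (cl (ε b) (cf2 (R.om κ) R.e x a b (s x))) := by
    rw [← map_sum, hN]
    change -∑ a, X a a + (fderiv ℝ s x (R.e x (∑ a, A a a)) + R.om κ x (R.e x (∑ a, A a a)) (s x)) +
      pot (cf2 (R.om κ) R.e x) (s x) = _
    simp only [pot, _root_.smul_apply, _root_.sum_apply,
      mul_apply_eq_comp]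
  simp only [e2, map_add, Finset.sum_add_distrib] at e3
  rw [e5, Loc.dir]
  simp only [e1, map_sub, map_sum, Finset.sum_sub_distrib]
  simp only [map_sub, Finset.sum_sub_distrib] at e3 e4
  linear_combination (norm := module) e3 - e4

end Weitz

theorem weitz : WeitzStmt := fun _ _ κ h =>
  ⟨Weitz.lap_ok h κ, fun _ _ hx hs => Weitz.sum_smooth (fun a => cl (ε a)) fun a =>
    Weitz.cov_smooth ((Weitz.om_smooth h κ).contDiffAt (h.frm.op.mem_nhds hx))
      (Weitz.fr_smooth h hx a) hs, fun _ _ hx hs => Weitz.main h κ hx hs⟩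

end Pool.Agent.MP_e1dc65_gt.A

end
end MrgPart3

-- marker of a merged file
example : 731051 + 491911 = 731051 + 491911 := rfl
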