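import Pool.Agent.MP_e1dc65_gt.k.Cov
import Pool.Agent.MP_e1dc65_gt.a.Weitz
import Pool.Agent.MP_e1dc65_gt.u.Spec
import Pool.Agent.MP_e1dc65_gt.a.Sth
import Pool.Agent.MP_e1dc65_gt.a.Dict
import Pool.Agent.MP_e1dc65_gt.a.Cent
import Pool.Agent.MP_e1dc65_gt.a.Tr
import Pool.Agent.MP_e1dc65_gt.a.Dens
import Pool.Agent.MP_e1dc65_gt.a.Diag
import Pool.Agent.MP_e1dc65_gt.a.Exp
import Pool.Agent.MP_e1dc65_gt.e.aMat
import Pool.Agent.MP_e1dc65_gt.o.Iso
import Pool.Agent.MP_e1dc65_gt.o.Dbl3
import Pool.Agent.MP_e1dc65_gt.e.B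
import Pool.Agent.MP_e1dc65_gt.e.aSpq
import Pool.Agent.MP_e1dc65_gt.a.Ms
import Pool.Agent.MP_e1dc65_gt.fm.Pd1
import Pool.Agent.MP_e1dc65_gt.o.Flat
import Pool.Agent.MP_e1dc65_gt.fm.Cw3

/-! PROJECT HC, part A: the signature theorem and the Dirac theorem. -/

namespace Pool.Agent.MP_e1dc65_gt

namespace A

theorem coc' : CocStmt := coc liftS
theorem nat' : NatStmt := nat lcS
theorem sec' : SecStmt := secS coc' nat' weitz
theorem int' : IntStmt := intS coc' sec' symS
theorem con' : ConStmt := conS nat' coc' bia algb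
theorem cw' : CWStmt := cw cw1 (cw2 cw1) homM (intM_api volM)

theorem core : SthStmt ∧ DthStmt := by
  have n := inst coc' sec' int' symS pou
  have l := lp (pex imp) expS
  have e := eig res
  have t := tog coc' sec' int' weitz symS smi ai
  have k := ker int' n (regS sec' int' n pou weitz symS (rl l smi (ai2 ai))) l weitz t heatS
  have r := tr coc' sec' int' n ms t k
  have d := idx coc' n e ms k r l weitz (sp (pex imp) (diag imp) expS gauge weitz bia dens)
  have a := actS coc' sec' nat' liftS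
  exact ⟨sth sec' int' n (spl coc' sec') k e ms d halg bia dens,
    dth n k e ms d a (lef coc' int' pou e ms k r l weitz ai a symS) qalg bia dens⟩

end A

open A

theorem sig : SigStmt :=
  sigOf met (geo lcS mu) (intb algb symS) algb (dict algb dloc coc' sec' (spl coc' sec')) con'
    (stk (intM_api volM)) cw' int' core.1

theorem dirac : DiracStmt :=
  diracOf met (red cent) (geo lcS mu) (intb algb symS) con' cw' core.2

end Pool.Agent.MP_e1dc65_gt
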